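import Pool.Agent.H336R2.V.Defs

open Finset MeasureTheory

/-!
Blueprint for TEAM V (MP_5d318d_nt).  Every module proves exactly one of the theorems below
(same statement, in the namespace `H336V`, file `Pool/Agent/H336R2/V/<Module>.lean`),
and may use the others through this file until they are finished.
-/

namespace H336V.Blueprint

open H343 H343.KF H336V

/-! ### 1 CTestFamily : uniform family of complex test functions -/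

theorem ctest_family {B : ℝ} {lam : ℝ → ℝ} (hl : Test B lam) : ∃ M : ℝ, 0 < M ∧
    ∀ τ : ℝ, |τ| ≤ 1 → CTest B M (fun w => (lam w : ℂ) * ex (Real.exp w * τ)) := sorry

/-! ### 2 SepSharp : separation for the sharp cut-off `n ≤ y` -/

theorem sep_sharp : ∃ C : ℝ, 0 < C ∧ ∀ y : ℕ, 1 ≤ y → ∃ G : ℝ → ℂ, Continuous G ∧ Integrable G ∧
    (∫ ξ, ‖G ξ‖) ≤ C * (1 + Real.log y) ∧
    ∀ n : ℕ, 1 ≤ n → (∫ ξ, G ξ * ex (ξ * Real.log n)) = if n ≤ y then 1 else 0 := sorry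

/-! ### 3 TTs : bilinear forms with sharp cut-off -/

theorem TTs_sum : ∃ C : ℝ, 0 < C ∧ ∀ (B M : ℝ) (l : ℝ → ℂ), CTest B M l → ∀ Y : ℝ, 0 < Y →
    ∀ D A N m J y : ℕ, 1 ≤ D → 1 ≤ m → 1 ≤ y → y < 2 ^ J →
    Real.exp B * (2 * D * m) * Y < A + 1 → A ≤ N → ∀ (α β : ℕ → ℂ) (Kb : ℝ), 0 ≤ Kb →
    (∀ j ∈ range J, ∀ ξ η : ℝ, ∑ p ∈ PC D, ‖PP (fun _ => 1) m A ξ p.2‖ *
      (‖PP (dy j α) m (2 ^ (j + 1)) η p.2‖ * ‖PP β m (y / 2 ^ j) η p.2‖) ≤ Kb) →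
    ∑ p ∈ PC D, Real.sqrt p.1 * (‖KKcm l Y N m p.2‖ * ‖TTs y m α β p.2‖) ≤
      Real.sqrt (2 * D) * (J * (Kb * M * (C * (1 + Real.log y)))) := sorry

/-! ### 4 KeyFixed : key estimate for conductors in `(D, 2D]`, sharp cut-off -/

open Classical in
theorem key_fixed_sharp (B M ε : ℝ) (hB : 1 ≤ B) (hM : 0 < M) (hε : 0 < ε) (hε1 : ε ≤ 1 / 100) :
    ∃ H0 : ℝ, ∀ x Y : ℝ, RangeV ε x Y → H0 ≤ x * Y →
    ∀ D m N y : ℕ, (x * Y) ^ (ε / 5) ≤ D → 1 ≤ m → (D * m : ℝ) ≤ (x * Y) ^ (1 / 2 - ε) →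
      Real.exp B * (2 * D * m) * Y ≤ N → (y : ℝ) ≤ x → ∀ l : ℝ → ℂ, CTest B M l →
    ∑ q ∈ Ioc D (2 * D), Real.sqrt q * ∑ χ ∈ (univ : Finset (DirichletCharacter ℂ q)).filter
        (fun χ => χ.IsPrimitive), ‖KKcm l Y N m χ‖ * ‖psiCm y m χ‖
      ≤ (x * Y) ^ (1 - ε / 20) * D ^ 2 * m := sorry

/-! ### 5 KeySharp : key estimate, sharp cut-off -/

open Classical in
theorem key_sharp (B M ε : ℝ) (hB : 1 ≤ B) (hM : 0 < M) (hε : 0 < ε) (hε1 : ε ≤ 1 / 100) :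
    ∃ H0 : ℝ, ∀ x Y : ℝ, RangeV ε x Y → H0 ≤ x * Y →
    ∀ Q R N y : ℕ, CutsV ε B x Y Q R N → (y : ℝ) ≤ x → ∀ l : ℝ → ℂ, CTest B M l →
    ∑ q ∈ Mod Q R, 1 / (Nat.totient q : ℝ) ^ 2 *
      ∑ χ ∈ (univ : Finset (DirichletCharacter ℂ q)).filter (fun χ => χ ≠ 1),
        ‖GS χ⁻¹‖ * ‖KKc l Y N χ‖ * ‖psiC y χ‖ ≤ (x * Y) ^ (1 - ε / 40) := sorry

/-! ### 6 Raman : Ramanujan sums -/

theorem raman (k : ℕ) (hk : 1 ≤ k) (b : ℤ) :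
    ‖∑ n ∈ (range k).filter (fun n => n.Coprime k), ex ((n : ℝ) * b / k)‖ ≤
      ∑ d ∈ k.divisors.filter (fun d : ℕ => (d : ℤ) ∣ b), (d : ℝ) := sorry

/-! ### 7 PairCount -/

theorem pair_count (c Y : ℝ) (hc : 1 ≤ c) (hY : 0 < Y) (hY1 : Y ≤ 1) (k q q' A A' : ℕ)
    (hk : 1 ≤ k) (hq : 1 ≤ q) (hq' : 1 ≤ q') (hqk : q.Coprime k) (hqk' : q'.Coprime k)
    (hA : (A : ℝ) ≤ c * q * Y) (hA' : (A' : ℝ) ≤ c * q' * Y) (σ : ℤ) (hσ : σ = 1 ∨ σ = -1) :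
    ∑ a ∈ Icc 1 A, ∑ a' ∈ Icc 1 A', (if (a * q' + σ * (a' * q) : ℤ) = 0 then 0 else
      ∑ d ∈ k.divisors.filter (fun d : ℕ => (d : ℤ) ∣ (a * q' + σ * (a' * q) : ℤ)), (d : ℝ)) ≤
      4 * c ^ 2 * k.divisors.card * q * q' * Y := sorry

/-! ### 8 NormSum : norm of the test vector -/

theorem norm_sum {B : ℝ} {lam : ℝ → ℝ} (hB : 1 ≤ B) (hl : Test B lam) (ε η : ℝ) (hε : 0 < ε)
    (hε1 : ε ≤ 1 / 100) (hη : 0 < η) : ∃ X0 : ℝ, ∀ (X : ℝ) (k : ℕ), X0 ≤ X →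
    RangeV ε X (k / X) → ∀ Q R N : ℕ, CutsV ε B X (k / X) Q R N →
    ∑ n ∈ (range k).filter (fun n => n.Coprime k), (2 * (FF lam (k / X) k Q R N n).re) ^ 2 ≤
      2 * Nat.totient k * (k / X) * ((∫ v, lam v ^ 2 * Real.exp v) * LLK k Q R + η) := sorry

/-! ### 9 MeanSum : mean of the test vector -/

theorem mean_sum {B : ℝ} {lam : ℝ → ℝ} (hB : 1 ≤ B) (hl : Test B lam) (ε η : ℝ) (hε : 0 < ε)
    (hε1 : ε ≤ 1 / 100) (hη : 0 < η) : ∃ X0 : ℝ, ∀ (X : ℝ) (k : ℕ), X0 ≤ X →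
    RangeV ε X (k / X) → ∀ Q R N : ℕ, CutsV ε B X (k / X) Q R N →
    ‖∑ n ∈ (range k).filter (fun n => n.Coprime k), FF lam (k / X) k Q R N n‖ ≤
      η * Nat.totient k * (k / X) := sorry

/-! ### 10 LLKLower : `∑ 1/φ(q)` over squarefree `q` coprime to `k` -/

theorem LLK_lower (ε η : ℝ) (hε : 0 < ε) (hη : 0 < η) : ∃ k0 : ℝ, ∀ k Q R : ℕ, k0 ≤ k →
    (k : ℝ) ^ ε ≤ Q → Q ≤ R → R ≤ k →
    ((Nat.totient k : ℝ) / k) * (Real.log (R / Q) - η * Real.log k) ≤ LLK k Q R := sorry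

/-! ### 11 PntOsc : prime number theorem with oscillating weight -/

theorem pnt_osc (V η : ℝ) (hη : 0 < η) : ∃ X0 : ℝ, ∀ X : ℝ, X0 ≤ X → ∀ v : ℝ, 0 ≤ v → v ≤ V →
    ‖∑ n ∈ Icc 1 ⌊X⌋₊, (ArithmeticFunction.vonMangoldt n : ℂ) * ex (v * (n / X - 1 / 2))
      - (X * Real.sinc (Real.pi * v) : ℝ)‖ ≤ η * X := sorry

/-! ### 12 Recip : reciprocity -/

/-- `t` with `k t ≡ -1 (mod q)` -/
theorem recip (k q : ℕ) (hk : 1 ≤ k) (hq : 1 ≤ q) (h : q.Coprime k) : ∃ t : ℕ, t.Coprime q ∧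
    ∀ n a : ℕ, ex ((n : ℝ) * ((a * inv k q : ℕ) : ℝ) / k) =
      ex ((n : ℝ) * a / (q * k)) * ex ((n * a * t : ℕ) / q) := sorry

/-! ### 13 Pairing : pairing of the primes with the test vector -/

theorem pairing {B : ℝ} {lam : ℝ → ℝ} (hB : 1 ≤ B) (hl : Test B lam) (ε η : ℝ) (hε : 0 < ε)
    (hε1 : ε ≤ 1 / 100) (hη : 0 < η) : ∃ X0 : ℝ, ∀ (X : ℝ) (k : ℕ), X0 ≤ X →
    RangeV ε X (k / X) → ∀ Q R N : ℕ, CutsV ε B X (k / X) Q R N →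
    k * ((∫ v, lam v * Real.sinc (Real.pi * Real.exp v) * Real.exp v) * LLK k Q R
        - η * (1 + LLK k Q R)) ≤
      (∑ n ∈ (Icc 1 ⌊X⌋₊).filter (fun n => n.Coprime k),
        (ArithmeticFunction.vonMangoldt n : ℂ) * FF lam (k / X) k Q R N n).re := sorry

/-! ### 14 ExistsLam : choice of the test function -/

theorem exists_lam (η : ℝ) (hη : 0 < η) : ∃ (B : ℝ) (lam : ℝ → ℝ), 1 ≤ B ∧ Test B lam ∧
    (∫ v, lam v ^ 2 * Real.exp v) ≤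
      (∫ v, lam v * Real.sinc (Real.pi * Real.exp v) * Real.exp v) ∧
    1 / 2 - η ≤ (∫ v, lam v * Real.sinc (Real.pi * Real.exp v) * Real.exp v) := sorry

/-! ### 15 Main : the theorem -/

theorem main (ε : ℝ) (hε : 0 < ε) : ∃ X0 : ℝ, ∀ X : ℝ, X0 ≤ X → ∀ k : ℕ, 1 ≤ k → (k : ℝ) ≤ X →
    X * (3 / 2 * Real.log k - Real.log X - ε * Real.log X) ≤ GV X k := sorry

end H336V.Blueprint
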