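import Pool.Agent.H336R2.V.Defs
import Pool.Agent.H343R2.KF7

open Finset MeasureTheory

namespace H336V

open H343

namespace CTF

lemma zero_off {E : Type*} [NormedAddCommGroup E] {R C : ℝ} (hR : 0 ≤ R) {f : ℝ → E}
    (z0 : ∀ v, R < |v| → f v = 0) (b0 : ∀ v, ‖f v‖ ≤ C) : ∫ v, ‖f v‖ ≤ 2 * R * C := by
  have h1 : ∫ v, ‖f v‖ = ∫ v in Set.Icc (-R) R, ‖f v‖ := by
    refine (setIntegral_eq_integral_of_forall_compl_eq_zero ?_).symm
    intro v hv
    rw [z0 v, norm_zero]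
    by_contra h
    push Not at h
    exact hv (Set.mem_Icc.mpr (abs_le.mp h))
  rw [h1]
  have h2 : ‖∫ v in Set.Icc (-R) R, ‖f v‖‖ ≤ C * (volume.real (Set.Icc (-R) R)) := by
    apply norm_setIntegral_le_of_norm_le_const
    · simp
    · intro v _
      rw [norm_norm]
      exact b0 v
  have h3 : volume.real (Set.Icc (-R) R) = 2 * R := by
    rw [Measure.real, Real.volume_Icc, ENNReal.toReal_ofReal (by linarith)]
    ring
  rw [h3] at h2
  calc _ ≤ ‖∫ v in Set.Icc (-R) R, ‖f v‖‖ := le_abs_self _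
    _ ≤ _ := h2
    _ = _ := by ring

lemma integrable_of {R : ℝ} {f : ℝ → ℂ} (hf : Continuous f)
    (z0 : ∀ v, R < |v| → f v = 0) : Integrable f := by
  apply hf.integrable_of_hasCompactSupport
  apply HasCompactSupport.intro (isCompact_Icc : IsCompact (Set.Icc (-R) R))
  intro v hv
  apply z0
  by_contra h
  push Not at h
  exact hv (Set.mem_Icc.mpr (abs_le.mp h))

open FourierTransform in
lemma ctest_of {B R C : ℝ} (hR : 0 ≤ R) (hC : 0 ≤ C) {f f1 f2 : ℝ → ℂ}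
    (hs : ContDiff ℝ ((⊤ : ℕ∞) : WithTop ℕ∞) f)
    (h1 : ∀ v, HasDerivAt f (f1 v) v) (h2 : ∀ v, HasDerivAt f1 (f2 v) v) (hc2 : Continuous f2)
    (hsupp : ∀ v, B ≤ |v| → f v = 0)
    (b0 : ∀ v, ‖f v‖ ≤ C) (b1 : ∀ v, ‖f1 v‖ ≤ C) (b2 : ∀ v, ‖f2 v‖ ≤ C)
    (z0 : ∀ v, R < |v| → f v = 0) (z1 : ∀ v, R < |v| → f1 v = 0) (z2 : ∀ v, R < |v| → f2 v = 0) :
    CTest B (C + 2 * R * C + 4 * R * C * Real.pi + 1) f := by
  have hRC : 0 ≤ R * C := mul_nonneg hR hC
  have hRCp : 0 ≤ R * C * Real.pi := mul_nonneg hRC Real.pi_pos.le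
  have d1 : deriv f = f1 := funext fun v => (h1 v).deriv
  have d2 : deriv f1 = f2 := funext fun v => (h2 v).deriv
  have c0 : Continuous f := hs.continuous
  have c1 : Continuous f1 := continuous_iff_continuousAt.mpr fun v => (h2 v).continuousAt
  have i0 := integrable_of c0 z0
  have i1 := integrable_of c1 z1
  have i2 := integrable_of hc2 z2
  refine ⟨hs.of_le (by exact_mod_cast le_top), hsupp, fun v => ?_, ?_, ?_⟩
  · nlinarith [b0 v]
  · rw [d1]
    nlinarith [zero_off hR z1 b1]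
  · have hc : HasCompactSupport f := by
      apply HasCompactSupport.intro (isCompact_Icc : IsCompact (Set.Icc (-R) R))
      intro v hv
      apply z0
      by_contra h
      push Not at h
      exact hv (Set.mem_Icc.mpr (abs_le.mp h))
    set g : SchwartzMap ℝ ℂ := hc.toSchwartzMap hs with hg
    have hgf : (g : ℝ → ℂ) = f := rfl
    have hgF : ∀ ξ, (𝓕 g) ξ = 𝓕 f ξ := by
      intro ξ
      rw [SchwartzMap.fourier_coe, hgf]
    have e1 : 𝓕 f1 = fun (x : ℝ) ↦ (2 * Real.pi * Complex.I * x) • (𝓕 f x) := by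
      rw [← d1]
      exact Real.fourier_deriv i0 (fun v => (h1 v).differentiableAt) (by rw [d1]; exact i1)
    have e2 : 𝓕 f2 = fun (x : ℝ) ↦ (2 * Real.pi * Complex.I * x) • (𝓕 f1 x) := by
      rw [← d2]
      exact Real.fourier_deriv i1 (fun v => (h2 v).differentiableAt) (by rw [d2]; exact i2)
    have nb : ∀ (u : ℝ → ℂ) (ξ : ℝ), ‖𝓕 u ξ‖ ≤ ∫ v, ‖u v‖ := by
      intro u ξ
      exact VectorFourier.norm_fourierIntegral_le_integral_norm _ _ _ _ _
    have n0 : ∀ ξ : ℝ, ‖𝓕 f ξ‖ ≤ 2 * R * C := fun ξ => (nb f ξ).trans (zero_off hR z0 b0)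
    have n2 : ∀ ξ : ℝ, ξ ^ 2 * ‖𝓕 f ξ‖ ≤ 2 * R * C := by
      intro ξ
      have h3 : ‖𝓕 f2 ξ‖ ≤ 2 * R * C := (nb f2 ξ).trans (zero_off hR z2 b2)
      have h4 : ‖𝓕 f2 ξ‖ = (2 * Real.pi * |ξ|) ^ 2 * ‖𝓕 f ξ‖ := by
        rw [e2]
        simp only [e1]
        rw [norm_smul, norm_smul]
        have : ‖(2 * Real.pi * Complex.I * ξ : ℂ)‖ = 2 * Real.pi * |ξ| := by
          rw [norm_mul, norm_mul, norm_mul, Complex.norm_I, Complex.norm_real, Complex.norm_real]
          simp [abs_of_pos Real.pi_pos]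
        rw [this]
        ring
      rw [h4] at h3
      refine le_trans ?_ h3
      apply mul_le_mul_of_nonneg_right _ (norm_nonneg _)
      rw [mul_pow, sq_abs]
      have : (1 : ℝ) ≤ (2 * Real.pi) ^ 2 := by nlinarith [Real.pi_gt_three]
      nlinarith [sq_nonneg ξ]
    have n3 : ∀ ξ : ℝ, ‖𝓕 f ξ‖ ≤ 4 * R * C * (1 + ξ ^ 2)⁻¹ := by
      intro ξ
      have hp : 0 < 1 + ξ ^ 2 := by positivity
      rw [← div_eq_mul_inv, le_div_iff₀ hp]
      nlinarith [n0 ξ, n2 ξ]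
    have iF : Integrable (fun ξ => (𝓕 g) ξ) := (𝓕 g).integrable
    refine ⟨fun ξ => (𝓕 g) ξ, (𝓕 g).continuous, iF, ?_, ?_⟩
    · have h5 : ∫ ξ, ‖(𝓕 g) ξ‖ ≤ ∫ ξ : ℝ, 4 * R * C * (1 + ξ ^ 2)⁻¹ := by
        apply integral_mono iF.norm (integrable_inv_one_add_sq.const_mul _)
        intro ξ
        simp only [hgF]
        exact n3 ξ
      rw [integral_const_mul, integral_univ_inv_one_add_sq] at h5
      nlinarith
    · intro v
      have h2 : 𝓕⁻ (𝓕 g) = g := FourierTransform.fourierInv_fourier_eq g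
      have h3 : f v = g v := rfl
      rw [h3]
      conv_lhs => rw [← h2]
      rw [SchwartzMap.fourierInv_coe, Real.fourierInv_eq']
      congr 1
      ext ξ
      unfold ex
      simp only [smul_eq_mul]
      rw [mul_comm]
      congr 2
      simp only [RCLike.inner_apply, conj_trivial]
      push_cast
      ring

end CTF

open CTF in
theorem ctest_family {B : ℝ} {lam : ℝ → ℝ} (hl : Test B lam) : ∃ M : ℝ, 0 < M ∧
    ∀ τ : ℝ, |τ| ≤ 1 → CTest B M (fun w => (lam w : ℂ) * ex (Real.exp w * τ)) := by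
  set R : ℝ := |B| with hRdef
  have hR : 0 ≤ R := abs_nonneg B
  have hsm := hl.smooth
  have hd0 : ∀ v, HasDerivAt lam (deriv lam v) v := fun v =>
    (hsm.differentiable (by simp)).differentiableAt.hasDerivAt
  have hsm1 : ContDiff ℝ ((⊤ : ℕ∞) : WithTop ℕ∞) (deriv lam) :=
    (contDiff_infty_iff_deriv.mp hsm).2
  have hd1 : ∀ v, HasDerivAt (deriv lam) (deriv (deriv lam) v) v := fun v =>
    (hsm1.differentiable (by simp)).differentiableAt.hasDerivAt
  have hsm2 : ContDiff ℝ ((⊤ : ℕ∞) : WithTop ℕ∞) (deriv (deriv lam)) :=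
    (contDiff_infty_iff_deriv.mp hsm1).2
  have l0 : ∀ v, R < |v| → lam v = 0 := fun v hv => hl.supp v ((le_abs_self B).trans hv.le)
  have l1 : ∀ v, R < |v| → deriv lam v = 0 := by
    intro v hv
    have h : lam =ᶠ[nhds v] fun _ => 0 := by
      filter_upwards [(continuous_abs.isOpen_preimage _ isOpen_Ioi).mem_nhds hv] with u hu
      exact l0 u hu
    rw [h.deriv_eq, deriv_const]
  have l2 : ∀ v, R < |v| → deriv (deriv lam) v = 0 := by
    intro v hv
    have h : deriv lam =ᶠ[nhds v] fun _ => 0 := by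
      filter_upwards [(continuous_abs.isOpen_preimage _ isOpen_Ioi).mem_nhds hv] with u hu
      exact l1 u hu
    rw [h.deriv_eq, deriv_const]
  set E : ℝ → ℝ → ℂ := fun τ w => ex (Real.exp w * τ) with hE
  set c : ℝ → ℝ → ℂ := fun τ w => 2 * Real.pi * Complex.I * (τ * Real.exp w : ℝ) with hc
  have hEd : ∀ τ w, HasDerivAt (E τ) (c τ w * E τ w) w := by
    intro τ w
    have h1 : HasDerivAt (fun w : ℝ => Real.exp w * τ) (Real.exp w * τ) w :=
      (Real.hasDerivAt_exp w).mul_const τ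
    have := (H343.KF.hasDerivAt_ex (Real.exp w * τ)).scomp w h1
    convert! this using 1
    simp only [hc, hE, Complex.real_smul]
    push_cast
    ring
  have hcd : ∀ τ w, HasDerivAt (c τ) (c τ w) w := by
    intro τ w
    have h1 : HasDerivAt (fun w : ℝ => τ * Real.exp w) (τ * Real.exp w) w :=
      (Real.hasDerivAt_exp w).const_mul τ
    exact h1.ofReal_comp.const_mul _
  have ha : ∀ w, HasDerivAt (fun w => (lam w : ℂ)) (deriv lam w : ℝ) w := fun w => (hd0 w).ofReal_comp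
  have hb : ∀ w, HasDerivAt (fun w => ((deriv lam w : ℝ) : ℂ)) (deriv (deriv lam) w : ℝ) w :=
    fun w => (hd1 w).ofReal_comp
  set f : ℝ → ℝ → ℂ := fun τ w => (lam w : ℂ) * E τ w with hf
  set f1 : ℝ → ℝ → ℂ := fun τ w => ((deriv lam w : ℝ) : ℂ) * E τ w + (lam w : ℂ) * (c τ w * E τ w)
    with hf1
  set f2 : ℝ → ℝ → ℂ := fun τ w => (((deriv (deriv lam) w : ℝ) : ℂ) * E τ w +
    ((deriv lam w : ℝ) : ℂ) * (c τ w * E τ w)) + (((deriv lam w : ℝ) : ℂ) * (c τ w * E τ w) +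
      (lam w : ℂ) * (c τ w * E τ w + c τ w * (c τ w * E τ w))) with hf2
  have D1 : ∀ τ w, HasDerivAt (f τ) (f1 τ w) w := fun τ w => (ha w).mul (hEd τ w)
  have D2 : ∀ τ w, HasDerivAt (f1 τ) (f2 τ w) w := fun τ w =>
    ((hb w).mul (hEd τ w)).add ((ha w).mul ((hcd τ w).mul (hEd τ w)))
  have cl0 : Continuous lam := hsm.continuous
  have cl1 : Continuous (deriv lam) := hsm1.continuous
  have cl2 : Continuous (deriv (deriv lam)) := hsm2.continuous
  have cE : Continuous (fun p : ℝ × ℝ => E p.1 p.2) := by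
    simp only [hE]
    unfold ex
    fun_prop
  have cc : Continuous (fun p : ℝ × ℝ => c p.1 p.2) := by
    simp only [hc]
    fun_prop
  have cf0 : Continuous (fun p : ℝ × ℝ => f p.1 p.2) := by
    simp only [hf]
    fun_prop
  have cf1 : Continuous (fun p : ℝ × ℝ => f1 p.1 p.2) := by
    simp only [hf1]
    fun_prop
  have cf2 : Continuous (fun p : ℝ × ℝ => f2 p.1 p.2) := by
    simp only [hf2]
    fun_prop
  have z0 : ∀ τ v, R < |v| → f τ v = 0 := fun τ v hv => by simp [hf, l0 v hv]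
  have z1 : ∀ τ v, R < |v| → f1 τ v = 0 := fun τ v hv => by simp [hf1, l0 v hv, l1 v hv]
  have z2 : ∀ τ v, R < |v| → f2 τ v = 0 := fun τ v hv => by simp [hf2, l0 v hv, l1 v hv, l2 v hv]
  have hK : IsCompact (Set.Icc (-1 : ℝ) 1 ×ˢ Set.Icc (-R) R) := isCompact_Icc.prod isCompact_Icc
  obtain ⟨C0, hC0⟩ := hK.exists_bound_of_continuousOn cf0.continuousOn
  obtain ⟨C1, hC1⟩ := hK.exists_bound_of_continuousOn cf1.continuousOn
  obtain ⟨C2, hC2⟩ := hK.exists_bound_of_continuousOn cf2.continuousOn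
  set C : ℝ := max 0 (max C0 (max C1 C2)) with hCdef
  have hC : 0 ≤ C := le_max_left _ _
  have bd : ∀ (u : ℝ → ℝ → ℂ) (C' : ℝ), C' ≤ C → (∀ τ v, R < |v| → u τ v = 0) →
      (∀ p ∈ Set.Icc (-1 : ℝ) 1 ×ˢ Set.Icc (-R) R, ‖u p.1 p.2‖ ≤ C') →
      ∀ τ, |τ| ≤ 1 → ∀ v, ‖u τ v‖ ≤ C := by
    intro u C' hC' hz hb τ hτ v
    by_cases hv : R < |v|
    · rw [hz τ v hv, norm_zero]
      exact hC
    · push Not at hv
      exact (hb (τ, v) ⟨Set.mem_Icc.mpr (abs_le.mp hτ), Set.mem_Icc.mpr (abs_le.mp hv)⟩).trans hC'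
  refine ⟨C + 2 * R * C + 4 * R * C * Real.pi + 1, by positivity, fun τ hτ => ?_⟩
  have hEs : ContDiff ℝ ((⊤ : ℕ∞) : WithTop ℕ∞) (f τ) := by
    simp only [hf, hE]
    unfold ex
    have h1 : ContDiff ℝ ((⊤ : ℕ∞) : WithTop ℕ∞) (fun w : ℝ => (lam w : ℂ)) :=
      Complex.ofRealCLM.contDiff.comp hsm
    have h2 : ContDiff ℝ ((⊤ : ℕ∞) : WithTop ℕ∞)
        (fun w : ℝ => ((2 * Real.pi * (Real.exp w * τ) : ℝ) : ℂ)) :=
      Complex.ofRealCLM.contDiff.comp (contDiff_const.mul (Real.contDiff_exp.mul contDiff_const))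
    exact h1.mul ((h2.mul contDiff_const).cexp)
  exact ctest_of hR hC hEs (D1 τ) (D2 τ)
    (cf2.comp (Continuous.prodMk continuous_const continuous_id))
    (fun v hv => by simp [hf, hl.supp v hv])
    (bd f C0 ((le_max_left _ _).trans (le_max_right _ _)) z0 hC0 τ hτ)
    (bd f1 C1 (((le_max_left _ _).trans (le_max_right _ _)).trans (le_max_right _ _)) z1 hC1 τ hτ)
    (bd f2 C2 (((le_max_right _ _).trans (le_max_right _ _)).trans (le_max_right _ _)) z2 hC2 τ hτ)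
    (z0 τ) (z1 τ) (z2 τ)

end H336V
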