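import Pool.Agent.H336R2.V.SepSharp

open Finset MeasureTheory

namespace H336V

open H343

namespace ExistsLam

open SepSharp

lemma gg01 (ξ : ℝ) : gg 0 1 ξ = Real.sinc (Real.pi * ξ) ^ 2 := by
  unfold gg th
  simp

/-- `∫_0^∞ sinc(π w)^2 dw = 1/2` -/
lemma integral_sinc_sq : ∫ w in Set.Ioi (0:ℝ), Real.sinc (Real.pi * w) ^ 2 = 1 / 2 := by
  have h1 := inversion (a := 0) (b := 1) le_rfl one_pos (by norm_num) 0
  have h2 : TT 0 1 0 = 1 := by
    unfold TT tent
    simp
  have h3 : ∀ ξ : ℝ, (gg 0 1 ξ : ℂ) * ex (ξ * 0) = ((Real.sinc (Real.pi * ξ) ^ 2 : ℝ) : ℂ) := by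
    intro ξ
    rw [mul_zero, gg01]
    simp [ex]
  simp_rw [h3] at h1
  rw [h2, integral_complex_ofReal] at h1
  have h4 : ∫ ξ : ℝ, Real.sinc (Real.pi * ξ) ^ 2 = 1 := by exact_mod_cast h1
  have h5 := integral_comp_abs (f := fun ξ : ℝ => Real.sinc (Real.pi * ξ) ^ 2)
  have h6 : ∀ ξ : ℝ, Real.sinc (Real.pi * |ξ|) ^ 2 = Real.sinc (Real.pi * ξ) ^ 2 := by
    intro ξ
    rw [← gg01, ← gg01, gg_abs_arg]
  simp_rw [h6] at h5
  rw [h4] at h5
  linarith

lemma sinc_sq_integrable : Integrable (fun w : ℝ => Real.sinc (Real.pi * w) ^ 2) := by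
  have h := (gg_int (a := 0) (b := 1) le_rfl one_pos (by norm_num)).1
  refine h.congr (Filter.Eventually.of_forall fun w => ?_)
  simp only
  rw [gg01, abs_of_nonneg (sq_nonneg _)]

lemma sinc_sq_le_one (w : ℝ) : Real.sinc (Real.pi * w) ^ 2 ≤ 1 := by
  have := Real.abs_sinc_le_one (Real.pi * w)
  rw [← sq_abs]
  nlinarith [abs_nonneg (Real.sinc (Real.pi * w))]

lemma sinc_sq_le_inv {w : ℝ} (hw : 0 < w) : Real.sinc (Real.pi * w) ^ 2 ≤ w ^ (-2 : ℝ) := by
  have h := gg_bound3 (a := 0) (b := 1) one_pos hw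
  rw [gg01, abs_of_nonneg (sq_nonneg _)] at h
  simpa using h

lemma middle {α β : ℝ} (hα : 0 < α) (hαβ : α ≤ β) :
    1 / 2 - α - 1 / β ≤ ∫ w in α..β, Real.sinc (Real.pi * w) ^ 2 := by
  have hβ : 0 < β := lt_of_lt_of_le hα hαβ
  have hi : ∀ S : Set ℝ, IntegrableOn (fun w : ℝ => Real.sinc (Real.pi * w) ^ 2) S := fun S =>
    sinc_sq_integrable.integrableOn
  have e1 : ∫ w in Set.Ioi (0:ℝ), Real.sinc (Real.pi * w) ^ 2 =
      (∫ w in Set.Ioc 0 α, Real.sinc (Real.pi * w) ^ 2) +
      ∫ w in Set.Ioi α, Real.sinc (Real.pi * w) ^ 2 := by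
    rw [← Set.Ioc_union_Ioi_eq_Ioi hα.le]
    exact setIntegral_union (Set.Ioc_disjoint_Ioi le_rfl) measurableSet_Ioi (hi _) (hi _)
  have e2 : ∫ w in Set.Ioi α, Real.sinc (Real.pi * w) ^ 2 =
      (∫ w in Set.Ioc α β, Real.sinc (Real.pi * w) ^ 2) +
      ∫ w in Set.Ioi β, Real.sinc (Real.pi * w) ^ 2 := by
    rw [← Set.Ioc_union_Ioi_eq_Ioi hαβ]
    exact setIntegral_union (Set.Ioc_disjoint_Ioi le_rfl) measurableSet_Ioi (hi _) (hi _)
  have b1 : ∫ w in Set.Ioc 0 α, Real.sinc (Real.pi * w) ^ 2 ≤ α := by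
    calc ∫ w in Set.Ioc 0 α, Real.sinc (Real.pi * w) ^ 2 ≤ ∫ w in Set.Ioc (0:ℝ) α, 1 := by
          apply setIntegral_mono_on (hi _) (by simp) measurableSet_Ioc
          intro w _
          exact sinc_sq_le_one w
      _ = α := by simp [hα.le]
  have b2 : ∫ w in Set.Ioi β, Real.sinc (Real.pi * w) ^ 2 ≤ 1 / β := by
    calc ∫ w in Set.Ioi β, Real.sinc (Real.pi * w) ^ 2 ≤ ∫ w in Set.Ioi β, w ^ (-2 : ℝ) := by
          apply setIntegral_mono_on (hi _) (integrableOn_Ioi_rpow_of_lt (by norm_num) hβ)
            measurableSet_Ioi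
          intro w hw
          exact sinc_sq_le_inv (hβ.trans hw)
      _ = 1 / β := by
          rw [integral_Ioi_rpow_of_lt (by norm_num) hβ]
          rw [show (-2 + 1 : ℝ) = -1 by norm_num, Real.rpow_neg_one]
          field_simp
  rw [intervalIntegral.integral_of_le hαβ]
  rw [integral_sinc_sq, e2] at e1
  linarith

end ExistsLam

open ExistsLam in
theorem exists_lam (η : ℝ) (hη : 0 < η) : ∃ (B : ℝ) (lam : ℝ → ℝ), 1 ≤ B ∧ Test B lam ∧
    (∫ v, lam v ^ 2 * Real.exp v) ≤
      (∫ v, lam v * Real.sinc (Real.pi * Real.exp v) * Real.exp v) ∧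
    1 / 2 - η ≤ (∫ v, lam v * Real.sinc (Real.pi * Real.exp v) * Real.exp v) := by
  have hpi := Real.pi_pos
  -- choose `B`
  obtain ⟨B, hB1, hB⟩ : ∃ B : ℝ, 1 ≤ B ∧ 2 * Real.exp (-(B / 2)) ≤ η := by
    refine ⟨max 1 (2 * (-Real.log (η / 2))), le_max_left _ _, ?_⟩
    have h1 : -(max 1 (2 * (-Real.log (η / 2))) / 2) ≤ Real.log (η / 2) := by
      have := le_max_right (1:ℝ) (2 * (-Real.log (η / 2)))
      linarith
    have h2 := Real.exp_le_exp.2 h1
    rw [Real.exp_log (by positivity)] at h2
    linarith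
  have hB0 : 0 < B := by linarith
  let bump : ContDiffBump (0 : ℝ) := ⟨B / 2, B, by positivity, by linarith⟩
  have hbIn : bump.rIn = B / 2 := rfl
  have hbOut : bump.rOut = B := rfl
  set lam : ℝ → ℝ := fun v => Real.sinc (Real.pi * Real.exp v) * bump v with hlam
  have hpos : ∀ v : ℝ, Real.pi * Real.exp v ≠ 0 := fun v => by positivity
  have hT : Test B lam := by
    constructor
    · have e : lam = fun v => (Real.sin (Real.pi * Real.exp v) / (Real.pi * Real.exp v)) * bump v := by
        ext v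
        rw [hlam]
        simp only
        rw [Real.sinc_of_ne_zero (hpos v)]
      rw [e]
      apply ContDiff.mul
      · apply ContDiff.div
        · exact Real.contDiff_sin.comp (contDiff_const.mul Real.contDiff_exp)
        · exact contDiff_const.mul Real.contDiff_exp
        · exact hpos
      · exact bump.contDiff
    · intro v hv
      rw [hlam]
      simp only
      rw [bump.zero_of_le_dist (by rw [hbOut, Real.dist_eq, sub_zero]; exact hv), mul_zero]
  have hcs := hT.hasCompactSupport
  have hcl : Continuous lam := hT.smooth.continuous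
  have hsc : Continuous (fun v => Real.sinc (Real.pi * Real.exp v)) :=
    Real.continuous_sinc.comp (by fun_prop)
  have i1 : Integrable (fun v => lam v ^ 2 * Real.exp v) := by
    apply Continuous.integrable_of_hasCompactSupport
    · fun_prop
    · have : (fun v => lam v ^ 2 * Real.exp v) = fun v => lam v * (lam v * Real.exp v) := by
        ext v; ring
      rw [this]
      exact hcs.mul_right
  have i2 : Integrable (fun v => lam v * Real.sinc (Real.pi * Real.exp v) * Real.exp v) := by
    apply Continuous.integrable_of_hasCompactSupport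
    · exact (hcl.mul hsc).mul Real.continuous_exp
    · have : (fun v => lam v * Real.sinc (Real.pi * Real.exp v) * Real.exp v) =
          fun v => lam v * (Real.sinc (Real.pi * Real.exp v) * Real.exp v) := by
        ext v; ring
      rw [this]
      exact hcs.mul_right
  have hnn : ∀ v, 0 ≤ lam v * Real.sinc (Real.pi * Real.exp v) * Real.exp v := by
    intro v
    have : lam v * Real.sinc (Real.pi * Real.exp v) * Real.exp v =
        Real.sinc (Real.pi * Real.exp v) ^ 2 * bump v * Real.exp v := by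
      rw [hlam]; ring
    rw [this]
    have := bump.nonneg (x := v)
    positivity
  refine ⟨B, lam, hB1, hT, ?_, ?_⟩
  · apply integral_mono i1 i2
    intro v
    simp only
    have h1 : lam v ^ 2 = Real.sinc (Real.pi * Real.exp v) ^ 2 * (bump v * bump v) := by
      rw [hlam]; ring
    have h2 : lam v * Real.sinc (Real.pi * Real.exp v) =
        Real.sinc (Real.pi * Real.exp v) ^ 2 * bump v := by
      rw [hlam]; ring
    rw [h1, h2]
    have h3 : bump v * bump v ≤ bump v := by
      have := bump.nonneg (x := v)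
      have := bump.le_one (x := v)
      nlinarith
    gcongr
  · have hab : -(B / 2) ≤ B / 2 := by linarith
    have h1 : ∫ v in (-(B / 2))..(B / 2), Real.sinc (Real.pi * Real.exp v) ^ 2 * Real.exp v ≤
        ∫ v, lam v * Real.sinc (Real.pi * Real.exp v) * Real.exp v := by
      rw [intervalIntegral.integral_of_le hab]
      calc ∫ v in Set.Ioc (-(B / 2)) (B / 2), Real.sinc (Real.pi * Real.exp v) ^ 2 * Real.exp v
          = ∫ v in Set.Ioc (-(B / 2)) (B / 2),
            lam v * Real.sinc (Real.pi * Real.exp v) * Real.exp v := by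
            apply setIntegral_congr_fun measurableSet_Ioc
            intro v hv
            simp only [hlam]
            have : bump v = 1 := by
              apply bump.one_of_mem_closedBall
              rw [Metric.mem_closedBall, hbIn, Real.dist_eq, sub_zero, abs_le]
              exact ⟨hv.1.le, hv.2⟩
            rw [this]
            ring
        _ ≤ _ := setIntegral_le_integral i2 (Filter.Eventually.of_forall hnn)
    have h2 : ∫ v in (-(B / 2))..(B / 2), Real.sinc (Real.pi * Real.exp v) ^ 2 * Real.exp v =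
        ∫ w in (Real.exp (-(B / 2)))..(Real.exp (B / 2)), Real.sinc (Real.pi * w) ^ 2 := by
      rw [← intervalIntegral.integral_comp_mul_deriv (f := Real.exp) (f' := Real.exp)
        (g := fun w => Real.sinc (Real.pi * w) ^ 2)]
      · rfl
      · intro x _
        exact Real.hasDerivAt_exp x
      · exact Real.continuous_exp.continuousOn
      · have := Real.continuous_sinc
        fun_prop
    have h3 := middle (α := Real.exp (-(B / 2))) (β := Real.exp (B / 2)) (Real.exp_pos _)
      (Real.exp_le_exp.2 hab)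
    have h4 : 1 / Real.exp (B / 2) = Real.exp (-(B / 2)) := by
      rw [Real.exp_neg, one_div]
    rw [h4] at h3
    rw [h2] at h1
    linarith

end H336V
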