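import Pool.Agent.H336R2.V.KeyFixedMain

open Finset MeasureTheory

namespace H336V

open H343 H343.KF

open Classical in
/-- key estimate for conductors in `(D, 2D]`, sharp cut-off -/
theorem key_fixed_sharp (B M ε : ℝ) (hB : 1 ≤ B) (hM : 0 < M) (hε : 0 < ε) (hε1 : ε ≤ 1 / 100) :
    ∃ H0 : ℝ, ∀ x Y : ℝ, RangeV ε x Y → H0 ≤ x * Y →
    ∀ D m N y : ℕ, (x * Y) ^ (ε / 5) ≤ D → 1 ≤ m → (D * m : ℝ) ≤ (x * Y) ^ (1 / 2 - ε) →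
      Real.exp B * (2 * D * m) * Y ≤ N → (y : ℝ) ≤ x → ∀ l : ℝ → ℂ, CTest B M l →
    ∑ q ∈ Ioc D (2 * D), Real.sqrt q * ∑ χ ∈ (univ : Finset (DirichletCharacter ℂ q)).filter
        (fun χ => χ.IsPrimitive), ‖KKcm l Y N m χ‖ * ‖psiCm y m χ‖
      ≤ (x * Y) ^ (1 - ε / 20) * D ^ 2 * m :=
  KFV.key_fixed_sharp_of TTs_sum B M ε hB hM hε hε1

end H336V
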