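import Pool.Agent.H336R2.V.TTs

open Finset MeasureTheory

namespace H336V

open H343 H343.KF

open Pool.Agent.Helper112 (betaV LamII)
open Pool.Agent.Helper112.TI (mu1 l1 mu1_apply l1_apply vaughan)

namespace KFV

/-- parameters for the fixed-conductor estimate -/
structure ParV (B x Y s e : ℝ) (D m A N y J U : ℕ) : Prop where
  hx : 0 < x
  hY : 0 < Y
  hY1 : Y ≤ 1
  he : 1 ≤ e
  hs : 1 ≤ s
  hxY : x * Y = s ^ 2
  hD : 1 ≤ D
  hm : 1 ≤ m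
  h1 : (D : ℝ) * m * e ^ 20 ≤ s
  h2 : e ^ 4 ≤ D
  h3 : x * e ^ 20 ≤ s ^ 3
  hA : Real.exp B * (2 * D * m) * Y < A + 1
  hA' : (A : ℝ) ≤ Real.exp B * (2 * D * m) * Y
  hAN : A ≤ N
  hy1 : 1 ≤ y
  hy : (y : ℝ) ≤ x
  hJ : y < 2 ^ J
  hJ' : ∀ j < J, 2 ^ j ≤ y
  hU1 : 1 ≤ U
  hU2 : e ^ 6 ≤ U * Y
  hU3 : (U : ℝ) * Y ≤ 2 * e ^ 6

section
variable {B x Y s e : ℝ} {D m A N y J U : ℕ}

lemma ParV.xs (P : ParV B x Y s e D m A N y J U) : x ≤ s ^ 3 := by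
  have he : 1 ≤ e ^ 20 := one_le_pow₀ P.he
  have := P.h3
  have hx := P.hx
  nlinarith

lemma ParV.s2x (P : ParV B x Y s e D m A N y J U) : s ^ 2 ≤ x * e ^ 20 := by
  have he : 1 ≤ e ^ 20 := one_le_pow₀ P.he
  have hx := P.hx
  have hY1 := P.hY1
  rw [← P.hxY]
  have : x * Y ≤ x * 1 := by gcongr
  have : x * 1 ≤ x * e ^ 20 := by gcongr
  linarith

lemma ParV.esY (P : ParV B x Y s e D m A N y J U) : e ^ 20 ≤ s * Y := by
  have hs := P.hs
  have hY := P.hY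
  have h : s ^ 2 * e ^ 20 ≤ s ^ 2 * (s * Y) := by
    calc s ^ 2 * e ^ 20 = (x * e ^ 20) * Y := by rw [← P.hxY]; ring
      _ ≤ s ^ 3 * Y := by have := P.h3; gcongr
      _ = _ := by ring
  exact le_of_mul_le_mul_left h (by positivity)

lemma ParV.U_le (P : ParV B x Y s e D m A N y J U) : (U : ℝ) * e ^ 14 ≤ 2 * s := by
  have hs := P.hs
  have hY := P.hY
  have he := P.he
  have h : ((U : ℝ) * e ^ 14) * e ^ 6 ≤ (2 * s) * e ^ 6 := by
    calc ((U : ℝ) * e ^ 14) * e ^ 6 = U * e ^ 20 := by ring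
      _ ≤ U * (s * Y) := by have := P.esY; gcongr
      _ = (U * Y) * s := by ring
      _ ≤ (2 * e ^ 6) * s := by have := P.hU3; gcongr
      _ = _ := by ring
  exact le_of_mul_le_mul_right h (by positivity)

lemma ParV.UU_le (P : ParV B x Y s e D m A N y J U) : ((U : ℝ) * U) * e ^ 6 ≤ 4 * s ^ 2 := by
  have hs := P.hs
  have he := P.he
  have h := P.U_le
  have h6 : e ^ 6 ≤ e ^ 28 := pow_le_pow_right₀ he (by norm_num)
  calc ((U : ℝ) * U) * e ^ 6 ≤ ((U : ℝ) * U) * e ^ 28 := by gcongr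
    _ = (U * e ^ 14) * (U * e ^ 14) := by ring
    _ ≤ (2 * s) * (2 * s) := by gcongr
    _ = _ := by ring

lemma ParV.m_le (P : ParV B x Y s e D m A N y J U) : (m : ℝ) ≤ s := by
  refine le_trans ?_ P.h1
  have hD : (1 : ℝ) ≤ D := by exact_mod_cast P.hD
  have hm : (0 : ℝ) ≤ m := Nat.cast_nonneg m
  have he : 1 ≤ e ^ 20 := one_le_pow₀ P.he
  calc (m : ℝ) = 1 * m * 1 := by ring
    _ ≤ D * m * e ^ 20 := by gcongr

lemma ParV.D_le' (P : ParV B x Y s e D m A N y J U) : (D : ℝ) * e ^ 20 ≤ s := by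
  refine le_trans ?_ P.h1
  have hm : (1 : ℝ) ≤ m := by exact_mod_cast P.hm
  have hD : (0 : ℝ) ≤ D := Nat.cast_nonneg D
  have he := P.he
  calc (D : ℝ) * e ^ 20 = D * 1 * e ^ 20 := by ring
    _ ≤ D * m * e ^ 20 := by gcongr

lemma ParV.D_le (P : ParV B x Y s e D m A N y J U) : (D : ℝ) ≤ s := by
  refine le_trans ?_ P.D_le'
  have he : 1 ≤ e ^ 20 := one_le_pow₀ P.he
  have hD : (0 : ℝ) ≤ D := Nat.cast_nonneg D
  nlinarith

lemma ParV.A_le' (P : ParV B x Y s e D m A N y J U) :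
    (A : ℝ) ≤ (2 * Real.exp B) * D * m * Y := by
  refine P.hA'.trans (le_of_eq ?_)
  ring

lemma ParV.A_le (P : ParV B x Y s e D m A N y J U) :
    (A : ℝ) ≤ 2 * Real.exp B * s := by
  have hY := P.hY
  have hY1 := P.hY1
  have he : 1 ≤ e ^ 20 := one_le_pow₀ P.he
  have h1 := P.h1
  have hDm : (D : ℝ) * m ≤ s := by
    refine le_trans ?_ h1
    have : (0 : ℝ) ≤ D * m := by positivity
    nlinarith
  refine P.A_le'.trans ?_
  calc (2 * Real.exp B) * D * m * Y = (2 * Real.exp B) * (D * m) * Y := by ring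
    _ ≤ (2 * Real.exp B) * s * 1 := by
        have := P.hs
        gcongr
    _ = _ := by ring

lemma ParV.K_le (P : ParV B x Y s e D m A N y J U) {j : ℕ} (hj : j < J) :
    ((2 ^ (j + 1) : ℕ) : ℝ) ≤ 2 * s ^ 3 := by
  have h1 : ((2 ^ j : ℕ) : ℝ) ≤ y := by exact_mod_cast P.hJ' j hj
  have h2 := P.hy
  have h3 := P.xs
  push_cast at h1 ⊢
  calc (2 : ℝ) ^ (j + 1) = 2 * 2 ^ j := by ring
    _ ≤ 2 * s ^ 3 := by linarith

lemma ParV.L_le (P : ParV B x Y s e D m A N y J U) (j : ℕ) :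
    ((y / 2 ^ j : ℕ) : ℝ) ≤ s ^ 3 := by
  have h : ((y / 2 ^ j : ℕ) : ℝ) ≤ y := by exact_mod_cast Nat.div_le_self _ _
  exact h.trans (P.hy.trans P.xs)

lemma ParV.L_le' (P : ParV B x Y s e D m A N y J U) (j : ℕ) :
    (2 : ℝ) ^ j * ((y / 2 ^ j : ℕ) : ℝ) ≤ x := by
  have h : ((2 ^ j * (y / 2 ^ j) : ℕ) : ℝ) ≤ y := by exact_mod_cast Nat.mul_div_le _ _
  push_cast at h
  exact h.trans P.hy

lemma ParV.logy (P : ParV B x Y s e D m A N y J U) : Real.log y ≤ 3 * Real.log s := by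
  have h1 : (y : ℝ) ≤ s ^ 3 := P.hy.trans P.xs
  have h0 : (0 : ℝ) < y := by exact_mod_cast P.hy1
  have h2 := Real.log_le_log h0 h1
  rw [Real.log_pow] at h2
  exact_mod_cast h2

lemma ParV.logL (P : ParV B x Y s e D m A N y J U) (j : ℕ) :
    Real.log ((y / 2 ^ j : ℕ) : ℝ) ≤ 3 * (1 + Real.log s) := by
  have hls : 0 ≤ Real.log s := Real.log_nonneg P.hs
  rcases Nat.eq_zero_or_pos (y / 2 ^ j) with h0 | h0
  · rw [h0]; simp only [Nat.cast_zero, Real.log_zero]; positivity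
  · have h2 := Real.log_le_log (by exact_mod_cast h0) (P.L_le j)
    rw [Real.log_pow] at h2
    push_cast at h2
    linarith

lemma ParV.J_le (P : ParV B x Y s e D m A N y J U) : (J : ℝ) ≤ 8 * (1 + Real.log s) := by
  have hls : 0 ≤ Real.log s := Real.log_nonneg P.hs
  rcases Nat.eq_zero_or_pos J with h0 | h0
  · rw [h0]; simp only [Nat.cast_zero]; positivity
  · have h1 : 2 ^ (J - 1) ≤ y := P.hJ' (J - 1) (by omega)
    have h2 : ((2 : ℝ) ^ (J - 1)) ≤ y := by exact_mod_cast h1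
    have h3 := Real.log_le_log (by positivity) h2
    rw [Real.log_pow] at h3
    have h4 := P.logy
    have h5 := Real.log_two_gt_d9
    have h6 : ((J - 1 : ℕ) : ℝ) = J - 1 := by
      rw [Nat.cast_sub h0]; simp
    rw [h6] at h3
    have hJ1 : (1 : ℝ) ≤ J := by exact_mod_cast h0
    nlinarith

end

/-- general block estimate -/
lemma blockV (B δ : ℝ) (hB : 0 ≤ B) (hδ : 0 < δ) : ∃ C : ℝ, 0 < C ∧
    ∀ (x Y s e : ℝ) (D m A N y J U : ℕ), ParV B x Y s e D m A N y J U →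
    ∀ (α β : ℕ → ℂ) (b b' : ℝ), 0 ≤ b → 0 ≤ b' → ∀ j ∈ range J,
    (∀ n ∈ Icc 1 (2 ^ (j + 1)), ‖α n‖ ≤ b) → (∀ n ∈ Icc 1 (y / 2 ^ j), ‖β n‖ ≤ b') →
    ((2 ^ (j + 1) : ℕ) : ℝ) * e ^ 6 ≤ 8 * s ^ 2 → ((y / 2 ^ j : ℕ) : ℝ) * e ^ 6 ≤ 8 * s ^ 2 →
    ∀ ξ η : ℝ, e ^ 2 * Real.sqrt D * ∑ p ∈ PC D, ‖PP (fun _ => 1) m A ξ p.2‖ *
      (‖PP α m (2 ^ (j + 1)) η p.2‖ * ‖PP β m (y / 2 ^ j) η p.2‖) ≤
      C * (b * b' * s ^ (4 * δ)) * (D ^ 2 * m * s ^ 2) := by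
  obtain ⟨C2, hC2, hls⟩ := ls3_PC' δ hδ
  set c : ℝ := 8 * Real.exp B with hc
  have hB1 : 1 ≤ Real.exp B := Real.one_le_exp hB
  have hc1 : 1 ≤ c := by rw [hc]; linarith
  have hc8 : 8 ≤ c := by rw [hc]; linarith
  refine ⟨C2 * (c * c) ^ δ * (2 * c ^ 2), by positivity, ?_⟩
  intro x Y s e D m A N y J U P α β b b' hb hb' j hj hα hβ hKe hLe ξ η
  rw [mem_range] at hj
  have hs := P.hs
  have he := P.he
  have hx := P.hx
  have hY := P.hY
  have hD1 : (1 : ℝ) ≤ D := by exact_mod_cast P.hD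
  have hD0 : (0 : ℝ) < D := by linarith
  have hm1 : (1 : ℝ) ≤ m := by exact_mod_cast P.hm
  set K : ℕ := 2 ^ (j + 1) with hK
  set L : ℕ := y / 2 ^ j with hL
  have hK0 : (0 : ℝ) < K := by rw [hK]; positivity
  have hs3 : 0 < s ^ 3 := by positivity
  have hKs : (K : ℝ) ≤ c * s ^ 3 := by
    refine (P.K_le hj).trans ?_
    nlinarith
  have hLs : (L : ℝ) ≤ c * s ^ 3 := by
    refine (P.L_le j).trans ?_
    nlinarith
  have hAs : (A : ℝ) ≤ c * s := by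
    have := P.A_le
    rw [hc]
    refine this.trans ?_
    nlinarith
  have hAc : (A : ℝ) ≤ c * D * m * Y := by
    refine P.A_le'.trans ?_
    rw [hc]
    gcongr
    norm_num
  have hA0 : (0 : ℝ) ≤ A := Nat.cast_nonneg _
  have hKj : (K : ℝ) = 2 * 2 ^ j := by rw [hK]; push_cast; ring
  have hLx : (2 : ℝ) ^ j * (L : ℝ) ≤ x := P.L_le' j
  have hKL : (K : ℝ) * L ≤ c * x := by
    rw [hKj]
    nlinarith
  have hLe' : (L : ℝ) * e ^ 6 ≤ c * s ^ 2 := by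
    refine hLe.trans ?_
    gcongr
  have hKe' : (K : ℝ) * e ^ 6 ≤ c * s ^ 2 := by
    refine hKe.trans ?_
    gcongr
  -- final assembly, given the numerical bound
  have fin : ∀ S G : ℕ, (S : ℝ) ≤ c * s ^ 3 → e ^ 2 * Real.sqrt D *
      Real.sqrt (((A * S : ℝ) + (D : ℝ) ^ 2) * (A * S) * ((G : ℝ) + (D : ℝ) ^ 2) * G) ≤
      2 * c ^ 2 * (D ^ 2 * m * s ^ 2) →
      e ^ 2 * Real.sqrt D * (C2 * b * b' * ((A * S : ℕ) : ℝ) ^ δ *
        Real.sqrt (((A * S : ℝ) + (D : ℝ) ^ 2) * (A * S) * ((G : ℝ) + (D : ℝ) ^ 2) * G)) ≤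
      C2 * (c * c) ^ δ * (2 * c ^ 2) * (b * b' * s ^ (4 * δ)) * (D ^ 2 * m * s ^ 2) := by
    intro S G hS hnum
    have h1 : ((A * S : ℕ) : ℝ) ^ δ ≤ (c * c) ^ δ * s ^ (4 * δ) := by
      push_cast
      calc ((A : ℝ) * S) ^ δ ≤ ((c * s) * (c * s ^ 3)) ^ δ := by gcongr
        _ = ((c * c) * s ^ (4 : ℝ)) ^ δ := by
            congr 1
            rw [show (4 : ℝ) = ((4 : ℕ) : ℝ) by norm_num, Real.rpow_natCast]
            ring
        _ = (c * c) ^ δ * s ^ (4 * δ) := by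
            rw [Real.mul_rpow (by positivity) (by positivity), ← Real.rpow_mul (by linarith)]
    calc e ^ 2 * Real.sqrt D * (C2 * b * b' * ((A * S : ℕ) : ℝ) ^ δ *
        Real.sqrt (((A * S : ℝ) + (D : ℝ) ^ 2) * (A * S) * ((G : ℝ) + (D : ℝ) ^ 2) * G))
        = (C2 * b * b' * ((A * S : ℕ) : ℝ) ^ δ) * (e ^ 2 * Real.sqrt D *
        Real.sqrt (((A * S : ℝ) + (D : ℝ) ^ 2) * (A * S) * ((G : ℝ) + (D : ℝ) ^ 2) * G)) := by
          ring
      _ ≤ (C2 * b * b' * ((c * c) ^ δ * s ^ (4 * δ))) * (2 * c ^ 2 * (D ^ 2 * m * s ^ 2)) := by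
          gcongr
      _ = _ := by ring
  rcases le_total (((2 : ℝ) ^ j) ^ 2) x with hcase | hcase
  · have hnum := num2_sqrt c D m Y x s e A K L hc1 hD0 hm1 hY hx hs he P.h1 P.h2 P.s2x P.hxY
      hA0 hAc hK0.le (by
        rw [hKj]
        calc (2 * (2 : ℝ) ^ j) ^ 2 = 4 * ((2 : ℝ) ^ j) ^ 2 := by ring
          _ ≤ 4 * x := by gcongr
          _ ≤ c ^ 2 * x := by
              have : (4 : ℝ) ≤ c ^ 2 := by nlinarith
              gcongr) (Nat.cast_nonneg _) hLe' hKL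
    refine le_trans ?_ (fin K L hKs hnum)
    gcongr
    exact hls D A K L m _ _ _ _ P.hD hb hb' hα hβ ξ η
  · have hnum := num2_sqrt c D m Y x s e A L K hc1 hD0 hm1 hY hx hs he P.h1 P.h2 P.s2x P.hxY
      hA0 hAc (Nat.cast_nonneg _) (by
        have h0 : (0 : ℝ) < 2 ^ j := by positivity
        have h1 : (L : ℝ) ≤ x / 2 ^ j := by rw [le_div_iff₀ h0]; linarith
        calc (L : ℝ) ^ 2 ≤ (x / 2 ^ j) ^ 2 := by gcongr
          _ = x * (x / ((2 : ℝ) ^ j) ^ 2) := by ring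
          _ ≤ x * 1 := by
              gcongr
              rw [div_le_one (by positivity)]
              exact hcase
          _ ≤ c ^ 2 * x := by
              have : (1 : ℝ) ≤ c ^ 2 := one_le_pow₀ hc1
              rw [mul_one]
              exact le_mul_of_one_le_left hx.le this) hK0.le hKe' (by rw [mul_comm]; exact hKL)
    refine le_trans ?_ (fin L K hLs hnum)
    gcongr
    have := hls D A L K m _ _ _ _ P.hD hb' hb hβ hα ξ η
    calc ∑ p ∈ PC D, ‖PP (fun _ => 1) m A ξ p.2‖ *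
      (‖PP α m K η p.2‖ * ‖PP β m L η p.2‖)
        = ∑ p ∈ PC D, ‖PP (fun _ => 1) m A ξ p.2‖ *
      (‖PP β m L η p.2‖ * ‖PP α m K η p.2‖) := by
          apply sum_congr rfl; intro p _; ring
      _ ≤ _ := this
      _ = _ := by ring

/-- the numerators alone -/
lemma num_alone (B δ : ℝ) (hB : 0 ≤ B) (hδ : 0 < δ) : ∃ C : ℝ, 0 < C ∧
    ∀ (x Y s e : ℝ) (D m A N y J U : ℕ), ParV B x Y s e D m A N y J U →
    ∀ (M : ℝ) (l : ℝ → ℂ), CTest B M l →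
    e ^ 2 * (U * D * ∑ p ∈ PC D, ‖KKcm l Y N m p.2‖) ≤
      C * M * s ^ δ * (D ^ 2 * m * s ^ 2) := by
  obtain ⟨C2, hC2, hls⟩ := ls2_PC' δ hδ
  set c : ℝ := 2 * Real.exp B with hc
  have hB1 : 1 ≤ Real.exp B := Real.one_le_exp hB
  have hc1 : 1 ≤ c := by rw [hc]; linarith
  refine ⟨C2 * c ^ δ * (4 * c), by positivity, ?_⟩
  intro x Y s e D m A N y J U P M l hl
  have hs := P.hs
  have he := P.he
  have hx := P.hx
  have hY := P.hY
  have hD1 : (1 : ℝ) ≤ D := by exact_mod_cast P.hD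
  have hD0 : (0 : ℝ) < D := by linarith
  have hm1 : (1 : ℝ) ≤ m := by exact_mod_cast P.hm
  have hU1 : (1 : ℝ) ≤ U := by exact_mod_cast P.hU1
  obtain ⟨F, hFc, hFi, hFn, hF⟩ := hl.sep
  have hF0 : 0 ≤ ∫ ξ, ‖F ξ‖ := integral_nonneg fun _ => norm_nonneg _
  have hM0 : 0 ≤ M := hF0.trans hFn
  set R : ℝ := C2 * 1 * ((A * 1 : ℕ) : ℝ) ^ δ * D *
        Real.sqrt (((A * (1 : ℕ) : ℝ) + (D : ℝ) ^ 2) * (A * (1 : ℕ))) with hR
  have hR0 : 0 ≤ R := by rw [hR]; positivity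
  have hbd : ∀ ξ : ℝ, ∑ p ∈ PC D, ‖PP (fun _ => 1) m A ξ p.2‖ ≤ R := by
    intro ξ
    have h := hls D A 1 m (fun _ => 1) 1 P.hD zero_le_one (fun n _ => by simp) ξ 0
    refine le_trans (le_of_eq ?_) h
    apply sum_congr rfl
    intro p _
    have : PP (fun _ => 1) m 1 0 p.2 = 1 := by
      unfold PP tw ex
      simp
    rw [this]; simp
  have hcont : ∀ p : (Σ q : ℕ, DirichletCharacter ℂ q), Integrable (fun ξ => ‖F ξ‖ *
      ‖PP (fun _ => 1) m A ξ p.2‖) := by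
    intro p
    obtain ⟨C, hC⟩ := PP_bdd (fun _ => 1) m A p.2
    refine Integrable.mono' (hFi.norm.mul_const C) (hFi.norm.aestronglyMeasurable.mul
      (PP_cont _ _ _ _).norm.aestronglyMeasurable) (Filter.Eventually.of_forall fun ξ => ?_)
    rw [Real.norm_eq_abs, abs_mul, abs_norm, abs_norm]
    exact mul_le_mul_of_nonneg_left (hC ξ) (norm_nonneg _)
  have hsum : ∑ p ∈ PC D, ‖KKcm l Y N m p.2‖ ≤ M * R := by
    calc ∑ p ∈ PC D, ‖KKcm l Y N m p.2‖ ≤ ∑ p ∈ PC D, ∫ ξ, ‖F ξ‖ *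
          ‖PP (fun _ => 1) m A ξ p.2‖ := by
          apply sum_le_sum
          intro p hp
          obtain ⟨hq1, hq2, _⟩ := mem_PC hp
          refine TTsL.KKcm_sep hFi hF hl Y hY N m p.1 A (by omega) P.hm ?_ P.hAN p.2
          refine lt_of_le_of_lt ?_ P.hA
          have : (p.1 : ℝ) ≤ 2 * D := by exact_mod_cast hq2
          gcongr
      _ = ∫ ξ, ∑ p ∈ PC D, ‖F ξ‖ * ‖PP (fun _ => 1) m A ξ p.2‖ := by
          rw [integral_finsetSum _ (fun p _ => hcont p)]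
      _ ≤ ∫ ξ, ‖F ξ‖ * R := by
          apply integral_mono
          · exact integrable_finsetSum _ (fun p _ => hcont p)
          · exact hFi.norm.mul_const R
          · intro ξ
            simp only
            rw [← mul_sum]
            exact mul_le_mul_of_nonneg_left (hbd ξ) (norm_nonneg _)
      _ = (∫ ξ, ‖F ξ‖) * R := integral_mul_const _ _
      _ ≤ M * R := by gcongr
  have hA0 : (0 : ℝ) ≤ A := Nat.cast_nonneg _
  have hAc : (A : ℝ) ≤ c * D * m * Y := P.A_le'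
  have hAs : (A : ℝ) ≤ c * s := P.A_le
  have hUe := P.U_le
  have hUY := P.hU3
  have hD' := P.D_le'
  have hAU : (A : ℝ) * U ≤ 2 * c * D * m * e ^ 6 := by
    calc (A : ℝ) * U ≤ (c * D * m * Y) * U := by gcongr
      _ = c * D * m * (U * Y) := by ring
      _ ≤ c * D * m * (2 * e ^ 6) := by gcongr
      _ = _ := by ring
  have hnum : e ^ 2 * (U * Real.sqrt (((A * (1 : ℕ) : ℝ) + (D : ℝ) ^ 2) * (A * (1 : ℕ)))) ≤
      4 * c * (m * s ^ 2) := by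
    have h5 : (e ^ 2 * (U * Real.sqrt (((A * (1 : ℕ) : ℝ) + (D : ℝ) ^ 2) * (A * (1 : ℕ))))) ^ 2 ≤
        (4 * c * (m * s ^ 2)) ^ 2 := by
      rw [mul_pow, mul_pow, Real.sq_sqrt (by positivity)]
      simp only [Nat.cast_one, mul_one]
      have t1 : e ^ 4 * ((A * U) * (A * U)) ≤ 4 * c ^ 2 * m ^ 2 * (s ^ 2) ^ 2 := by
        have e16 : e ^ 16 ≤ e ^ 40 := pow_le_pow_right₀ he (by norm_num)
        have hss : s ^ 2 ≤ (s ^ 2) ^ 2 := by
          have : 1 ≤ s ^ 2 := one_le_pow₀ hs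
          nlinarith
        calc e ^ 4 * ((A * U) * (A * U)) ≤
              e ^ 4 * ((2 * c * D * m * e ^ 6) * (2 * c * D * m * e ^ 6)) := by gcongr
          _ = 4 * c ^ 2 * m ^ 2 * (D ^ 2 * e ^ 16) := by ring
          _ ≤ 4 * c ^ 2 * m ^ 2 * (D ^ 2 * e ^ 40) := by gcongr
          _ = 4 * c ^ 2 * m ^ 2 * (D * e ^ 20) ^ 2 := by ring
          _ ≤ 4 * c ^ 2 * m ^ 2 * s ^ 2 := by gcongr
          _ ≤ 4 * c ^ 2 * m ^ 2 * (s ^ 2) ^ 2 := by gcongr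
      have t2 : e ^ 4 * (D ^ 2 * ((A * U) * U)) ≤ 4 * c * m * (s ^ 2) ^ 2 := by
        have e10 : e ^ 10 ≤ e ^ 74 := pow_le_pow_right₀ he (by norm_num)
        calc e ^ 4 * ((D : ℝ) ^ 2 * ((A * U) * U)) ≤
              e ^ 4 * (D ^ 2 * ((2 * c * D * m * e ^ 6) * U)) := by gcongr
          _ = 2 * c * m * (D ^ 3 * U * e ^ 10) := by ring
          _ ≤ 2 * c * m * (D ^ 3 * U * e ^ 74) := by gcongr
          _ = 2 * c * m * ((D * e ^ 20) ^ 3 * (U * e ^ 14)) := by ring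
          _ ≤ 2 * c * m * (s ^ 3 * (2 * s)) := by gcongr
          _ = _ := by ring
      have hcc : c ≤ c ^ 2 := by nlinarith
      have hmm : (m : ℝ) ≤ (m : ℝ) ^ 2 := by nlinarith
      calc (e ^ 2) ^ 2 * ((U : ℝ) ^ 2 * ((A + D ^ 2) * A)) =
            e ^ 4 * ((A * U) * (A * U)) + e ^ 4 * (D ^ 2 * ((A * U) * U)) := by ring
        _ ≤ 4 * c ^ 2 * m ^ 2 * (s ^ 2) ^ 2 + 4 * c * m * (s ^ 2) ^ 2 := by linarith
        _ ≤ 4 * c ^ 2 * m ^ 2 * (s ^ 2) ^ 2 + 4 * c ^ 2 * m ^ 2 * (s ^ 2) ^ 2 := by gcongr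
        _ ≤ (4 * c * (m * s ^ 2)) ^ 2 := by
            have : 0 ≤ c ^ 2 * m ^ 2 * (s ^ 2) ^ 2 := by positivity
            nlinarith
    exact abs_le_of_sq_le_sq' h5 (by positivity) |>.2
  have hAd : ((A * 1 : ℕ) : ℝ) ^ δ ≤ c ^ δ * s ^ δ := by
    rw [Nat.mul_one, ← Real.mul_rpow (by positivity) (by positivity)]
    gcongr
  calc e ^ 2 * (U * D * ∑ p ∈ PC D, ‖KKcm l Y N m p.2‖) ≤ e ^ 2 * (U * D * (M * R)) := by gcongr
    _ = (C2 * ((A * 1 : ℕ) : ℝ) ^ δ * M * D ^ 2) *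
        (e ^ 2 * (U * Real.sqrt (((A * (1 : ℕ) : ℝ) + (D : ℝ) ^ 2) * (A * (1 : ℕ))))) := by
          rw [hR]; ring
    _ ≤ (C2 * (c ^ δ * s ^ δ) * M * D ^ 2) * (4 * c * (m * s ^ 2)) := by gcongr
    _ = _ := by ring

end KFV

end H336V
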