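import Pool.Agent.H336R2.V.KeyFixedAux

open Finset MeasureTheory

namespace H336V

open H343 H343.KF

open Pool.Agent.Helper112 (betaV LamII)
open Pool.Agent.Helper112.TI (mu1 l1 mu1_apply l1_apply vaughan)

namespace KFV

/-- part of `μ₁ * Λ₁` with small argument -/
noncomputable def gS (U n : ℕ) : ℂ := if n ≤ U then (((mu1 U * l1 U) n : ℝ) : ℂ) else 0

/-- part of `μ₁ * Λ₁` with large argument -/
noncomputable def gL (U n : ℕ) : ℂ := if n ≤ U then 0 else (((mu1 U * l1 U) n : ℝ) : ℂ)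

lemma gS_norm (U : ℕ) {n : ℕ} : ‖gS U n‖ ≤ Real.log n := by
  unfold gS
  split_ifs
  · exact mul1_norm U U n
  · simpa using Real.log_natCast_nonneg n

lemma gL_norm (U : ℕ) {n : ℕ} : ‖gL U n‖ ≤ Real.log n := by
  unfold gL
  split_ifs
  · simpa using Real.log_natCast_nonneg n
  · exact mul1_norm U U n

lemma gL_zero {U n : ℕ} (h : n ≤ U ∨ U * U < n) : gL U n = 0 := by
  unfold gL
  split_ifs with h1
  · rfl
  · rcases h with h | h
    · exact absurd h h1
    · rw [mul1_zero U n h]; simp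

/-- Vaughan's identity for the sharp sums -/
lemma psi_split (U y m : ℕ) {q : ℕ} (χ : DirichletCharacter ℂ q) :
    psiCm y m χ = (∑ n ∈ (Icc 1 y).filter (fun n => n.Coprime m), ((l1 U n : ℝ) : ℂ) *
        χ (n : ZMod q))
      + TTs y m (fun n => (betaV U n : ℂ)) (LU U) χ
      + TTs y m (fun n => ((mu1 U n : ℝ) : ℂ)) (fun n => (((Real.log n) ^ 1 : ℝ) : ℂ)) χ
      - TTs y m (gS U) (fun n => (((Real.log n) ^ 0 : ℝ) : ℂ)) χ
      - TTs y m (gL U) (fun n => (((Real.log n) ^ 0 : ℝ) : ℂ)) χ := by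
  unfold psiCm TTs
  rw [← sum_add_distrib, ← sum_add_distrib, ← sum_sub_distrib, ← sum_sub_distrib]
  apply sum_congr rfl
  intro n hn
  have hv := vaughan U U n
  have e1 : (∑ i ∈ n.divisorsAntidiagonal, (betaV U i.1 : ℂ) * LU U i.2) =
      ((LamII U U n : ℝ) : ℂ) := by
    unfold LamII LU
    push_cast
    rfl
  have e2 : (∑ i ∈ n.divisorsAntidiagonal, ((mu1 U i.1 : ℝ) : ℂ) *
      (((Real.log i.2) ^ 1 : ℝ) : ℂ)) =
      (((ArithmeticFunction.log * mu1 U) n : ℝ) : ℂ) := by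
    rw [mul_comm, ArithmeticFunction.mul_apply]
    push_cast
    apply sum_congr rfl
    intro i _
    rw [ArithmeticFunction.log_apply, pow_one]
    rw [Complex.natCast_log]
  have e3 : (∑ i ∈ n.divisorsAntidiagonal, gS U i.1 * (((Real.log i.2) ^ 0 : ℝ) : ℂ)) +
      (∑ i ∈ n.divisorsAntidiagonal, gL U i.1 * (((Real.log i.2) ^ 0 : ℝ) : ℂ)) =
      (((((ArithmeticFunction.zeta : ArithmeticFunction ℕ) : ArithmeticFunction ℝ) *
        (mu1 U * l1 U)) n : ℝ) : ℂ) := by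
    rw [mul_comm ((ArithmeticFunction.zeta : ArithmeticFunction ℕ) : ArithmeticFunction ℝ),
      ArithmeticFunction.mul_apply, ← sum_add_distrib]
    push_cast
    apply sum_congr rfl
    intro i hi
    have h1 := Nat.mem_divisorsAntidiagonal.1 hi
    have h2 : i.2 ≠ 0 := by
      intro h
      rw [h, mul_zero] at h1
      exact h1.2 h1.1.symm
    rw [ArithmeticFunction.natCoe_apply, ArithmeticFunction.zeta_apply_ne h2]
    unfold gS gL
    split_ifs <;> simp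
  have e4 : (ArithmeticFunction.vonMangoldt n : ℂ) = ((l1 U n : ℝ) : ℂ) +
      (∑ i ∈ n.divisorsAntidiagonal, (betaV U i.1 : ℂ) * LU U i.2) +
      (∑ i ∈ n.divisorsAntidiagonal, ((mu1 U i.1 : ℝ) : ℂ) * (((Real.log i.2) ^ 1 : ℝ) : ℂ)) -
      ((∑ i ∈ n.divisorsAntidiagonal, gS U i.1 * (((Real.log i.2) ^ 0 : ℝ) : ℂ)) +
      (∑ i ∈ n.divisorsAntidiagonal, gL U i.1 * (((Real.log i.2) ^ 0 : ℝ) : ℂ))) := by
    rw [e1, e2, e3]
    have h4 : ArithmeticFunction.vonMangoldt n = l1 U n + LamII U U n +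
      (ArithmeticFunction.log * mu1 U) n -
      (((ArithmeticFunction.zeta : ArithmeticFunction ℕ) : ArithmeticFunction ℝ) *
        (mu1 U * l1 U)) n := by linarith
    rw [h4]
    push_cast
    ring
  rw [e4]
  ring

lemma sum_cut (y U : ℕ) (f : ℕ → ℝ) (b : ℝ) (hb0 : 0 ≤ b) (h : ∀ n ∈ Icc 1 U, f n ≤ b)
    (h0 : ∀ n, U < n → f n ≤ 0) : ∑ n ∈ Icc 1 y, f n ≤ U * b := by
  calc ∑ n ∈ Icc 1 y, f n ≤ ∑ n ∈ Icc 1 y, (if n ≤ U then b else 0) := by
        apply sum_le_sum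
        intro n hn
        split_ifs with h1
        · exact h n (mem_Icc.2 ⟨(mem_Icc.1 hn).1, h1⟩)
        · exact h0 n (by omega)
    _ = ∑ n ∈ (Icc 1 y).filter (fun n => n ≤ U), b := by rw [sum_filter]
    _ = ((Icc 1 y).filter (fun n => n ≤ U)).card * b := by rw [sum_const, nsmul_eq_mul]
    _ ≤ U * b := by
        apply mul_le_mul_of_nonneg_right _ hb0
        have : ((Icc 1 y).filter (fun n => n ≤ U)).card ≤ U := by
          calc ((Icc 1 y).filter (fun n => n ≤ U)).card ≤ (Icc 1 U).card := by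
                apply card_le_card
                intro n hn
                rw [mem_filter, mem_Icc] at hn
                exact mem_Icc.2 ⟨hn.1.1, hn.2⟩
            _ = U := by simp
        exact_mod_cast this

/-- the part of von Mangoldt below `U` -/
lemma small_l1 (U y m : ℕ) {q : ℕ} (χ : DirichletCharacter ℂ q) :
    ‖∑ n ∈ (Icc 1 y).filter (fun n => n.Coprime m), ((l1 U n : ℝ) : ℂ) * χ (n : ZMod q)‖ ≤
      U * Real.log U := by
  refine (norm_sum_le _ _).trans ?_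
  have hlog : 0 ≤ Real.log U := Real.log_natCast_nonneg U
  calc ∑ n ∈ (Icc 1 y).filter (fun n => n.Coprime m), ‖((l1 U n : ℝ) : ℂ) * χ (n : ZMod q)‖
      ≤ ∑ n ∈ Icc 1 y, ‖((l1 U n : ℝ) : ℂ) * χ (n : ZMod q)‖ :=
        sum_le_sum_of_subset_of_nonneg (filter_subset _ _) (fun _ _ _ => norm_nonneg _)
    _ ≤ ∑ n ∈ Icc 1 y, |l1 U n| := by
        apply sum_le_sum
        intro n _
        rw [norm_mul, Complex.norm_real, Real.norm_eq_abs]
        exact mul_le_of_le_one_right (abs_nonneg _) (χ.norm_le_one _)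
    _ ≤ U * Real.log U := by
        apply sum_cut y U _ _ hlog
        · intro n hn
          rw [mem_Icc] at hn
          rw [l1_apply, if_pos hn.2, abs_of_nonneg ArithmeticFunction.vonMangoldt_nonneg]
          refine ArithmeticFunction.vonMangoldt_le_log.trans ?_
          apply Real.log_le_log (by exact_mod_cast hn.1)
          exact_mod_cast hn.2
        · intro n hn
          rw [l1_apply, if_neg (by omega)]
          simp

/-- hyperbola rearrangement, the other order -/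
lemma hyperC' (x : ℕ) (g : ℕ → ℕ → ℂ) :
    ∑ n ∈ Icc 1 x, ∑ i ∈ n.divisorsAntidiagonal, g i.1 i.2 =
      ∑ k ∈ Icc 1 x, ∑ l ∈ Icc 1 (x / k), g k l := by
  rw [← hyperC x (fun b c => g c b)]
  apply sum_congr rfl
  intro n _
  rw [Nat.sum_divisorsAntidiagonal' (f := g),
    Nat.sum_divisorsAntidiagonal (f := fun b c => g c b)]

/-- type I sums with short outer variable -/
lemma typeI_sup (i : ℕ) (hi : i ≤ 1) (U y m q : ℕ) (hm : 1 ≤ m) (hq : 2 ≤ q)
    (χ : DirichletCharacter ℂ q) (hχ : χ.IsPrimitive) (α : ℕ → ℂ) (b : ℝ) (hb0 : 0 ≤ b)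
    (hb : ∀ n ∈ Icc 1 U, ‖α n‖ ≤ b) (h0 : ∀ n, U < n → α n = 0) :
    ‖TTs y m α (fun n => (((Real.log n) ^ i : ℝ) : ℂ)) χ‖ ≤
      U * (b * (14 * (1 + Real.log y) ^ 2 *
        (m.divisors.card * (2 * Real.sqrt q * (1 + Real.log q))))) := by
  set β : ℕ → ℂ := fun n => (((Real.log n) ^ i : ℝ) : ℂ) with hβ
  have hq0 : 0 ≤ Real.log q := Real.log_natCast_nonneg q
  have hy0 : 0 ≤ Real.log y := Real.log_natCast_nonneg y
  set X : ℝ := 14 * (1 + Real.log y) ^ 2 *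
        (m.divisors.card * (2 * Real.sqrt q * (1 + Real.log q))) with hX
  have hX0 : 0 ≤ X := by rw [hX]; positivity
  set g : ℕ → ℕ → ℂ := fun k l => (if k.Coprime m then α k * χ (k : ZMod q) else 0) *
    (if l.Coprime m then β l * χ (l : ZMod q) else 0) with hg
  have e1 : TTs y m α β χ = ∑ n ∈ Icc 1 y, ∑ i ∈ n.divisorsAntidiagonal, g i.1 i.2 := by
    unfold TTs
    rw [sum_filter]
    apply sum_congr rfl
    intro n _
    split_ifs with hn
    · rw [sum_mul]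
      apply sum_congr rfl
      intro i hi
      have hi' := (Nat.mem_divisorsAntidiagonal.1 hi).1
      have hc : (i.1 * i.2).Coprime m := by rw [hi']; exact hn
      have h1 : i.1.Coprime m := Nat.Coprime.coprime_mul_right hc
      have h2 : i.2.Coprime m := Nat.Coprime.coprime_mul_left hc
      simp only [hg]
      rw [if_pos h1, if_pos h2, ← hi']
      push_cast
      rw [map_mul]
      ring
    · symm
      apply sum_eq_zero
      intro i hi
      have hi' := (Nat.mem_divisorsAntidiagonal.1 hi).1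
      simp only [hg]
      by_cases h1 : i.1.Coprime m
      · by_cases h2 : i.2.Coprime m
        · exfalso
          apply hn
          rw [← hi']
          exact Nat.Coprime.mul_left h1 h2
        · rw [if_neg h2]; simp
      · rw [if_neg h1]; simp
  rw [e1, hyperC' y g]
  have e2 : ∀ k ∈ Icc 1 y, ∑ l ∈ Icc 1 (y / k), g k l =
      (if k.Coprime m then α k * χ (k : ZMod q) else 0) * PP β m (y / k) 0 χ := by
    intro k _
    simp only [hg]
    rw [← mul_sum]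
    congr 1
    unfold PP tw ex
    apply sum_congr rfl
    intro l _
    split_ifs <;> simp
  rw [sum_congr rfl e2]
  refine (norm_sum_le _ _).trans ?_
  have h3 : ∀ k ∈ Icc 1 y, ‖(if k.Coprime m then α k * χ (k : ZMod q) else 0) *
      PP β m (y / k) 0 χ‖ ≤ ‖α k‖ * X := by
    intro k _
    rw [norm_mul]
    have h4 : ‖(if k.Coprime m then α k * χ (k : ZMod q) else 0)‖ ≤ ‖α k‖ := by
      split_ifs
      · rw [norm_mul]
        exact mul_le_of_le_one_right (norm_nonneg _) (χ.norm_le_one _)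
      · simp
    have h5 : ‖PP β m (y / k) 0 χ‖ ≤ X := by
      refine (PP_smooth i hi 0 m (y / k) q hm hq χ hχ).trans ?_
      have h6 : Real.log ((y / k : ℕ) : ℝ) ≤ Real.log y := by
        rcases Nat.eq_zero_or_pos (y / k) with h0 | h0
        · rw [h0]; simpa using hy0
        · apply Real.log_le_log (by exact_mod_cast h0)
          exact_mod_cast Nat.div_le_self _ _
      have h7 : 0 ≤ Real.log ((y / k : ℕ) : ℝ) := Real.log_natCast_nonneg _
      rw [hX, abs_zero, add_zero, mul_one]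
      calc 2 * (7 * (1 + Real.log ((y / k : ℕ) : ℝ)) ^ 2) *
            (m.divisors.card * (2 * Real.sqrt q * (1 + Real.log q)))
          ≤ 2 * (7 * (1 + Real.log y) ^ 2) *
            (m.divisors.card * (2 * Real.sqrt q * (1 + Real.log q))) := by gcongr
        _ = _ := by ring
    exact mul_le_mul h4 h5 (norm_nonneg _) (norm_nonneg _)
  refine (sum_le_sum h3).trans ?_
  apply sum_cut y U _ _ (by positivity)
  · intro n hn
    have := hb n hn
    gcongr
  · intro n hn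
    rw [h0 n hn]; simp

lemma par_exists (B ε : ℝ) (hε : 0 < ε)
    (x Y : ℝ) (hR : RangeV ε x Y)
    (D m N y : ℕ) (h1 : (x * Y) ^ (ε / 5) ≤ D) (h2 : 1 ≤ m)
    (h3 : (D * m : ℝ) ≤ (x * Y) ^ (1 / 2 - ε))
    (h4 : Real.exp B * (2 * D * m) * Y ≤ N) (h5 : (y : ℝ) ≤ x) (hy1 : 1 ≤ y) :
      ∃ A J U : ℕ, ParV B x Y ((x * Y) ^ (1 / 2 : ℝ)) ((x * Y) ^ (ε / 20)) D m A N y J U := by
  have hH1 : 1 ≤ x * Y := hR.h1
  have hx := hR.hx
  have hY := hR.hY
  have hY1 := hR.hY1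
  have hhigh := hR.hhigh
  set H := x * Y with hHdef
  have hH0' : 0 < H := by linarith
  have epow : ∀ k : ℕ, (H ^ (ε / 20)) ^ k = H ^ (ε / 20 * k) := by
    intro k
    rw [← Real.rpow_natCast, ← Real.rpow_mul hH0'.le]
  have spow : ∀ k : ℕ, (H ^ (1 / 2 : ℝ)) ^ k = H ^ ((1 / 2 : ℝ) * k) := by
    intro k
    rw [← Real.rpow_natCast, ← Real.rpow_mul hH0'.le]
  have he1 : 1 ≤ H ^ (ε / 20) := Real.one_le_rpow hH1 (by positivity)
  have he6 : 1 ≤ (H ^ (ε / 20)) ^ 6 := one_le_pow₀ he1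
  have hU0 : 0 ≤ (H ^ (ε / 20)) ^ 6 / Y := by positivity
  have hU1 : 1 ≤ (H ^ (ε / 20)) ^ 6 / Y := by
    rw [le_div_iff₀ hY]; linarith
  refine ⟨⌊Real.exp B * (2 * D * m) * Y⌋₊, Nat.log 2 y + 1,
    ⌈(H ^ (ε / 20)) ^ 6 / Y⌉₊, ?_⟩
  exact {
    hx := hx
    hY := hY
    hY1 := hY1
    he := he1
    hs := Real.one_le_rpow hH1 (by norm_num)
    hxY := by
      rw [spow]
      norm_num
      rfl
    hD := by
      have : (1 : ℝ) ≤ D := (Real.one_le_rpow hH1 (by positivity)).trans h1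
      exact_mod_cast this
    hm := h2
    h1 := by
      rw [epow]
      calc (D : ℝ) * m * H ^ (ε / 20 * (20 : ℕ)) ≤ H ^ (1 / 2 - ε) * H ^ (ε / 20 * (20 : ℕ)) := by
            gcongr
        _ = H ^ (1 / 2 : ℝ) := by
            rw [← Real.rpow_add hH0']
            congr 1
            push_cast
            ring
    h2 := by
      rw [epow]
      refine le_trans (le_of_eq ?_) h1
      congr 1
      push_cast
      ring
    h3 := by
      rw [spow, epow]
      calc x * H ^ (ε / 20 * (20 : ℕ)) ≤ H ^ (3 / 2 - ε) * H ^ (ε / 20 * (20 : ℕ)) := by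
            gcongr
        _ = H ^ ((1 / 2 : ℝ) * (3 : ℕ)) := by
            rw [← Real.rpow_add hH0']
            congr 1
            push_cast
            ring
    hA := Nat.lt_floor_add_one _
    hA' := Nat.floor_le (by positivity)
    hAN := by
      have h6 : ((⌊Real.exp B * (2 * D * m) * Y⌋₊ : ℕ) : ℝ) ≤ N :=
        (Nat.floor_le (by positivity)).trans h4
      exact_mod_cast h6
    hy1 := hy1
    hy := h5
    hJ := Nat.lt_pow_succ_log_self (by norm_num) y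
    hJ' := by
      intro j hj
      calc 2 ^ j ≤ 2 ^ (Nat.log 2 y) := Nat.pow_le_pow_right (by norm_num) (by omega)
        _ ≤ y := Nat.pow_log_le_self 2 (by omega)
    hU1 := by
      have h6 := Nat.le_ceil ((H ^ (ε / 20)) ^ 6 / Y)
      have h7 : (1 : ℝ) ≤ (⌈(H ^ (ε / 20)) ^ 6 / Y⌉₊ : ℕ) := hU1.trans h6
      exact_mod_cast h7
    hU2 := by
      have h6 := Nat.le_ceil ((H ^ (ε / 20)) ^ 6 / Y)
      rwa [div_le_iff₀ hY] at h6
    hU3 := by
      have h6 := Nat.ceil_lt_add_one hU0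
      have h7 : ((⌈(H ^ (ε / 20)) ^ 6 / Y⌉₊ : ℕ) : ℝ) * Y ≤
        ((H ^ (ε / 20)) ^ 6 / Y + 1) * Y := by gcongr
      have h8 : ((H ^ (ε / 20)) ^ 6 / Y + 1) * Y = (H ^ (ε / 20)) ^ 6 + Y := by
        field_simp
      linarith
  }

/-- the sharp bilinear estimate as a hypothesis -/
def TTsStatement : Prop := ∃ C : ℝ, 0 < C ∧ ∀ (B M : ℝ) (l : ℝ → ℂ), CTest B M l →
    ∀ Y : ℝ, 0 < Y →
    ∀ D A N m J y : ℕ, 1 ≤ D → 1 ≤ m → 1 ≤ y → y < 2 ^ J →
    Real.exp B * (2 * D * m) * Y < A + 1 → A ≤ N → ∀ (α β : ℕ → ℂ) (Kb : ℝ), 0 ≤ Kb →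
    (∀ j ∈ range J, ∀ ξ η : ℝ, ∑ p ∈ PC D, ‖PP (fun _ => 1) m A ξ p.2‖ *
      (‖PP (dy j α) m (2 ^ (j + 1)) η p.2‖ * ‖PP β m (y / 2 ^ j) η p.2‖) ≤ Kb) →
    ∑ p ∈ PC D, Real.sqrt p.1 * (‖KKcm l Y N m p.2‖ * ‖TTs y m α β p.2‖) ≤
      Real.sqrt (2 * D) * (J * (Kb * M * (C * (1 + Real.log y))))

lemma TT_part {C : ℝ} (hC : 0 < C) (hT : ∀ (B M : ℝ) (l : ℝ → ℂ), CTest B M l →
    ∀ Y : ℝ, 0 < Y →
    ∀ D A N m J y : ℕ, 1 ≤ D → 1 ≤ m → 1 ≤ y → y < 2 ^ J →
    Real.exp B * (2 * D * m) * Y < A + 1 → A ≤ N → ∀ (α β : ℕ → ℂ) (Kb : ℝ), 0 ≤ Kb →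
    (∀ j ∈ range J, ∀ ξ η : ℝ, ∑ p ∈ PC D, ‖PP (fun _ => 1) m A ξ p.2‖ *
      (‖PP (dy j α) m (2 ^ (j + 1)) η p.2‖ * ‖PP β m (y / 2 ^ j) η p.2‖) ≤ Kb) →
    ∑ p ∈ PC D, Real.sqrt p.1 * (‖KKcm l Y N m p.2‖ * ‖TTs y m α β p.2‖) ≤
      Real.sqrt (2 * D) * (J * (Kb * M * (C * (1 + Real.log y)))))
    {B x Y s e : ℝ} {D m A N y J U : ℕ} (P : ParV B x Y s e D m A N y J U)
    {M : ℝ} (hM : 0 ≤ M) {l : ℝ → ℂ} (hl : CTest B M l)
    (α β : ℕ → ℂ) (W : ℝ) (hW : 0 ≤ W) (hKb : ∀ j ∈ range J, ∀ ξ η : ℝ,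
      e ^ 2 * Real.sqrt D * ∑ p ∈ PC D, ‖PP (fun _ => 1) m A ξ p.2‖ *
        (‖PP (dy j α) m (2 ^ (j + 1)) η p.2‖ *
        ‖PP β m (y / 2 ^ j) η p.2‖) ≤ W) :
    e ^ 2 * ∑ p ∈ PC D, Real.sqrt p.1 * (‖KKcm l Y N m p.2‖ * ‖TTs y m α β p.2‖) ≤
      48 * (1 + Real.log s) ^ 2 * W * M * C := by
  have hs := P.hs
  have he := P.he
  have hls0 : 0 ≤ Real.log s := Real.log_nonneg hs
  have hD1 : (1 : ℝ) ≤ D := by exact_mod_cast P.hD
  have hsD : 0 < Real.sqrt D := Real.sqrt_pos.2 (by linarith)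
  have he2 : 0 < e ^ 2 * Real.sqrt D := by positivity
  have h := hT B M l hl Y P.hY D A N m J y P.hD P.hm P.hy1 P.hJ P.hA P.hAN α β
    (W / (e ^ 2 * Real.sqrt D)) (by positivity) (by
      intro j hj ξ η
      rw [le_div_iff₀ he2, mul_comm]
      exact hKb j hj ξ η)
  have hsq : Real.sqrt (2 * D) ≤ 2 * Real.sqrt D := by
    calc Real.sqrt (2 * D) ≤ Real.sqrt (2 ^ 2 * D) := by
          apply Real.sqrt_le_sqrt
          linarith
      _ = 2 * Real.sqrt D := by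
          rw [Real.sqrt_mul (by norm_num), Real.sqrt_sq (by norm_num)]
  have hy0 : 0 ≤ Real.log y := Real.log_natCast_nonneg y
  calc e ^ 2 * ∑ p ∈ PC D, Real.sqrt p.1 * (‖KKcm l Y N m p.2‖ * ‖TTs y m α β p.2‖)
      ≤ e ^ 2 * (Real.sqrt (2 * D) * (J * (W / (e ^ 2 * Real.sqrt D) * M *
          (C * (1 + Real.log y))))) := by gcongr
    _ ≤ e ^ 2 * ((2 * Real.sqrt D) * ((8 * (1 + Real.log s)) *
          (W / (e ^ 2 * Real.sqrt D) * M * (C * (3 * (1 + Real.log s)))))) := by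
        have h1 := P.J_le
        have h2 : 1 + Real.log y ≤ 3 * (1 + Real.log s) := by
          have := P.logy
          linarith
        gcongr
    _ = _ := by
        field_simp
        ring

/-- small pieces -/
lemma small_sup (δ : ℝ) (hδ : 0 < δ) : ∃ C : ℝ, 0 < C ∧
    ∀ (B x Y s e : ℝ) (D m A N y J U : ℕ), ParV B x Y s e D m A N y J U → ∀ p ∈ PC D,
    ‖∑ n ∈ (Icc 1 y).filter (fun n => n.Coprime m), ((l1 U n : ℝ) : ℂ) *
        p.2 (n : ZMod p.1)‖ +
      ‖TTs y m (fun n => ((mu1 U n : ℝ) : ℂ)) (fun n => (((Real.log n) ^ 1 : ℝ) : ℂ)) p.2‖ +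
      ‖TTs y m (gS U) (fun n => (((Real.log n) ^ 0 : ℝ) : ℂ)) p.2‖ ≤
      C * (U * Real.sqrt D) * (s ^ δ * (1 + Real.log s) ^ 4) := by
  obtain ⟨C1, hC1, hdiv⟩ := div_bound δ hδ
  refine ⟨1 + 2016 * C1, by positivity, ?_⟩
  intro B x Y s e D m A N y J U P p hp
  obtain ⟨hq1, hq2, hprim⟩ := mem_PC hp
  have hD1' := P.hD
  have hs := P.hs
  have he := P.he
  have hls0 : 0 ≤ Real.log s := Real.log_nonneg hs
  have hD1 : (1 : ℝ) ≤ D := by exact_mod_cast P.hD
  have hU1 : (1 : ℝ) ≤ U := by exact_mod_cast P.hU1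
  have hsD : 1 ≤ Real.sqrt D := by
    rw [Real.one_le_sqrt]; exact hD1
  have hsδ : 1 ≤ s ^ δ := Real.one_le_rpow hs hδ.le
  have hlU : Real.log U ≤ 1 + Real.log s := by
    have h1 : (U : ℝ) ≤ 2 * s := by
      have h := P.U_le
      have : 1 ≤ e ^ 14 := one_le_pow₀ he
      nlinarith
    have h2 := Real.log_le_log (by linarith) h1
    rw [Real.log_mul (by norm_num) (by linarith)] at h2
    have h6 := Real.log_two_lt_d9
    linarith
  have hlU0 : 0 ≤ Real.log U := Real.log_natCast_nonneg U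
  have hq0 : (1 : ℝ) ≤ p.1 := by
    have : 1 ≤ p.1 := by omega
    exact_mod_cast this
  have hq3 : (p.1 : ℝ) ≤ 2 * D := by exact_mod_cast hq2
  have hy0 : 0 ≤ Real.log y := Real.log_natCast_nonneg y
  set X : ℝ := 14 * (1 + Real.log y) ^ 2 *
        (m.divisors.card * (2 * Real.sqrt p.1 * (1 + Real.log p.1))) with hX
  have hXb : X ≤ 1008 * C1 * (s ^ δ * Real.sqrt D * (1 + Real.log s) ^ 3) := by
    have h2 : (m.divisors.card : ℝ) ≤ C1 * s ^ δ := by
      refine (hdiv m P.hm).trans ?_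
      have := P.m_le
      gcongr
    have h3 : Real.sqrt p.1 ≤ 2 * Real.sqrt D := by
      calc Real.sqrt p.1 ≤ Real.sqrt (2 ^ 2 * D) := by
            apply Real.sqrt_le_sqrt
            linarith
        _ = 2 * Real.sqrt D := by
            rw [Real.sqrt_mul (by norm_num), Real.sqrt_sq (by norm_num)]
    have h4 : 1 + Real.log p.1 ≤ 2 * (1 + Real.log s) := by
      have h5 : Real.log p.1 ≤ Real.log (2 * s) := by
        apply Real.log_le_log (by linarith)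
        have := P.D_le
        linarith
      rw [Real.log_mul (by norm_num) (by linarith)] at h5
      have h6 := Real.log_two_lt_d9
      linarith
    have h4' : 0 ≤ Real.log p.1 := Real.log_nonneg hq0
    have h5 : 1 + Real.log y ≤ 3 * (1 + Real.log s) := by
      have := P.logy
      linarith
    calc X ≤ 14 * (3 * (1 + Real.log s)) ^ 2 *
          ((C1 * s ^ δ) * (2 * (2 * Real.sqrt D) * (2 * (1 + Real.log s)))) := by
          rw [hX]; gcongr
      _ = _ := by ring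
  have hX0 : 0 ≤ X := by
    have h4' : 0 ≤ Real.log p.1 := Real.log_nonneg hq0
    rw [hX]; positivity
  have hq2' : 2 ≤ p.1 := by omega
  have b1 := small_l1 U y m p.2
  have b2 := typeI_sup 1 le_rfl U y m p.1 P.hm hq2' p.2 hprim (fun n => ((mu1 U n : ℝ) : ℂ)) 1
    zero_le_one (fun n _ => mu1_norm U n) (fun n hn => by
      rw [mu1_apply, if_neg (by omega)]; simp)
  have b3 := typeI_sup 0 (by norm_num) U y m p.1 P.hm hq2' p.2 hprim (gS U) (1 + Real.log s)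
    (by linarith) (fun n hn => by
      rw [mem_Icc] at hn
      refine (gS_norm U).trans (le_trans ?_ hlU)
      apply Real.log_le_log (by exact_mod_cast hn.1)
      exact_mod_cast hn.2) (fun n hn => by
      unfold gS
      rw [if_neg (by omega)])
  rw [← hX] at b2 b3
  have hE : 1 ≤ 1 + Real.log s := by linarith
  have h34 : (1 + Real.log s) ^ 3 ≤ (1 + Real.log s) ^ 4 := pow_le_pow_right₀ hE (by norm_num)
  have h14 : (1 + Real.log s) ≤ (1 + Real.log s) ^ 4 := le_self_pow₀ hE (by norm_num)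
  have c1 : (U : ℝ) * Real.log U ≤ (U * Real.sqrt D) * (s ^ δ * (1 + Real.log s) ^ 4) := by
    calc (U : ℝ) * Real.log U ≤ U * (1 + Real.log s) := by gcongr
      _ ≤ U * (1 + Real.log s) ^ 4 := by gcongr
      _ = (U * 1) * (1 * (1 + Real.log s) ^ 4) := by ring
      _ ≤ (U * Real.sqrt D) * (s ^ δ * (1 + Real.log s) ^ 4) := by gcongr
  have c2 : (U : ℝ) * (1 * X) ≤ 1008 * C1 * ((U * Real.sqrt D) *
      (s ^ δ * (1 + Real.log s) ^ 4)) := by
    calc (U : ℝ) * (1 * X) ≤ U * (1 * (1008 * C1 * (s ^ δ * Real.sqrt D *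
          (1 + Real.log s) ^ 3))) := by gcongr
      _ ≤ U * (1 * (1008 * C1 * (s ^ δ * Real.sqrt D * (1 + Real.log s) ^ 4))) := by gcongr
      _ = _ := by ring
  have c3 : (U : ℝ) * ((1 + Real.log s) * X) ≤ 1008 * C1 * ((U * Real.sqrt D) *
      (s ^ δ * (1 + Real.log s) ^ 4)) := by
    calc (U : ℝ) * ((1 + Real.log s) * X) ≤ U * ((1 + Real.log s) *
          (1008 * C1 * (s ^ δ * Real.sqrt D * (1 + Real.log s) ^ 3))) := by gcongr
      _ = _ := by ring
  calc _ ≤ (U : ℝ) * Real.log U + U * (1 * X) + U * ((1 + Real.log s) * X) := by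
        gcongr
    _ ≤ (U * Real.sqrt D) * (s ^ δ * (1 + Real.log s) ^ 4) +
        1008 * C1 * ((U * Real.sqrt D) * (s ^ δ * (1 + Real.log s) ^ 4)) +
        1008 * C1 * ((U * Real.sqrt D) * (s ^ δ * (1 + Real.log s) ^ 4)) := by gcongr
    _ = _ := by ring

/-- type II blocks -/
lemma blockII (B δ : ℝ) (hB : 0 ≤ B) (hδ : 0 < δ) : ∃ C : ℝ, 0 < C ∧
    ∀ (x Y s e : ℝ) (D m A N y J U : ℕ),
    ParV B x Y s e D m A N y J U → ∀ j ∈ range J, ∀ ξ η : ℝ,
    e ^ 2 * Real.sqrt D * ∑ p ∈ PC D, ‖PP (fun _ => 1) m A ξ p.2‖ *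
      (‖PP (dy j (fun n => (betaV U n : ℂ))) m (2 ^ (j + 1)) η p.2‖ *
        ‖PP (LU U) m (y / 2 ^ j) η p.2‖) ≤
      C * ((1 + Real.log s) * s ^ (7 * δ)) * (D ^ 2 * m * s ^ 2) := by
  obtain ⟨C1, hC1, hdiv⟩ := div_bound δ hδ
  obtain ⟨C2, hC2, hbl⟩ := blockV B δ hB hδ
  refine ⟨C2 * (C1 * 2 ^ δ * 3), by positivity, ?_⟩
  intro x Y s e D m A N y J U P j hj ξ η
  have hs := P.hs
  have he := P.he
  have hx := P.hx
  have hY := P.hY
  have hls0 : 0 ≤ Real.log s := Real.log_nonneg hs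
  have hR : 0 ≤ C2 * (C1 * 2 ^ δ * 3) *
      ((1 + Real.log s) * s ^ (7 * δ)) * (D ^ 2 * m * s ^ 2) := by
    positivity
  have hj' := mem_range.1 hj
  by_cases hU1 : 2 ^ (j + 1) ≤ U
  · refine le_trans (le_of_eq ?_) hR
    rw [sum_eq_zero, mul_zero]
    intro p _
    have : PP (dy j (fun n => (betaV U n : ℂ))) m (2 ^ (j + 1)) η p.2 = 0 := by
      unfold PP
      apply sum_eq_zero
      intro k hk
      rw [mem_Icc] at hk
      unfold tw dy
      beta_reduce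
      rw [betaV_zero (hk.2.trans hU1)]
      simp
    rw [this]; simp
  by_cases hU2 : y / 2 ^ j ≤ U
  · refine le_trans (le_of_eq ?_) hR
    rw [sum_eq_zero, mul_zero]
    intro p _
    have : PP (LU U) m (y / 2 ^ j) η p.2 = 0 := by
      unfold PP
      apply sum_eq_zero
      intro k hk
      rw [mem_Icc] at hk
      unfold tw
      rw [LU_zero (hk.2.trans hU2)]
      simp
    rw [this]; simp
  push Not at hU1 hU2
  have hKs := P.K_le hj'
  have hUK : (U : ℝ) ≤ ((2 ^ (j + 1) : ℕ) : ℝ) := by exact_mod_cast hU1.le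
  have hUL : (U : ℝ) ≤ ((y / 2 ^ j : ℕ) : ℝ) := by exact_mod_cast hU2.le
  have hKL : ((2 ^ (j + 1) : ℕ) : ℝ) * ((y / 2 ^ j : ℕ) : ℝ) ≤ 2 * x := by
    have := P.L_le' j
    rw [Nat.cast_pow, pow_succ]
    push_cast at this ⊢
    linarith
  set K : ℝ := ((2 ^ (j + 1) : ℕ) : ℝ) with hK
  set L : ℝ := ((y / 2 ^ j : ℕ) : ℝ) with hL
  have hK0 : 0 ≤ K := Nat.cast_nonneg _
  have hL0 : 0 ≤ L := Nat.cast_nonneg _
  have hLe : L * e ^ 6 ≤ 8 * s ^ 2 := by
    calc L * e ^ 6 ≤ L * (U * Y) := by gcongr; exact P.hU2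
      _ ≤ L * (K * Y) := by gcongr
      _ = (K * L) * Y := by ring
      _ ≤ (2 * x) * Y := by gcongr
      _ = 2 * s ^ 2 := by rw [← P.hxY]; ring
      _ ≤ 8 * s ^ 2 := by gcongr; norm_num
  have hKe : K * e ^ 6 ≤ 8 * s ^ 2 := by
    calc K * e ^ 6 ≤ K * (U * Y) := by gcongr; exact P.hU2
      _ ≤ K * (L * Y) := by gcongr
      _ = (K * L) * Y := by ring
      _ ≤ (2 * x) * Y := by gcongr
      _ = 2 * s ^ 2 := by rw [← P.hxY]; ring
      _ ≤ 8 * s ^ 2 := by gcongr; norm_num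
  have h := hbl x Y s e D m A N y J U P (dy j (fun n => (betaV U n : ℂ))) (LU U)
    (C1 * (2 * s ^ 3) ^ δ) (3 * (1 + Real.log s)) (by positivity) (by positivity) j hj
    (fun n hn => by
      rw [mem_Icc] at hn
      refine (dy_norm _ _ _).trans ?_
      simp only [Complex.norm_real, Real.norm_eq_abs]
      refine (betaV_le U n).trans ((hdiv n hn.1).trans ?_)
      have : (n : ℝ) ≤ K := by rw [hK]; exact_mod_cast hn.2
      have : (n : ℝ) ≤ 2 * s ^ 3 := this.trans hKs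
      gcongr)
    (fun n hn => by
      rw [mem_Icc] at hn
      exact (LU_norm U hn.1 hn.2).trans (P.logL j)) hKe hLe ξ η
  refine h.trans (le_of_eq ?_)
  have h2 : (2 * s ^ 3) ^ δ = 2 ^ δ * s ^ (3 * δ) := by
    rw [Real.mul_rpow (by positivity) (by positivity)]
    congr 1
    rw [show (s ^ 3 : ℝ) = s ^ (3 : ℝ) by
      rw [show (3 : ℝ) = ((3 : ℕ) : ℝ) by norm_num, Real.rpow_natCast]]
    rw [← Real.rpow_mul (by linarith)]
  have h3 : s ^ (7 * δ) = s ^ (3 * δ) * s ^ (4 * δ) := by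
    rw [← Real.rpow_add (by linarith)]; congr 1; ring
  rw [h2, h3]
  ring

/-- the blocks of `ζ * (μ₁ Λ₁)` with `U < k ≤ U²` -/
lemma blockIb (B δ : ℝ) (hB : 0 ≤ B) (hδ : 0 < δ) : ∃ C : ℝ, 0 < C ∧
    ∀ (x Y s e : ℝ) (D m A N y J U : ℕ),
    ParV B x Y s e D m A N y J U → ∀ j ∈ range J, ∀ ξ η : ℝ,
    e ^ 2 * Real.sqrt D * ∑ p ∈ PC D, ‖PP (fun _ => 1) m A ξ p.2‖ *
      (‖PP (dy j (gL U)) m (2 ^ (j + 1)) η p.2‖ *
        ‖PP (fun n => (((Real.log n) ^ 0 : ℝ) : ℂ)) m (y / 2 ^ j) η p.2‖) ≤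
      C * ((1 + Real.log s) * s ^ (7 * δ)) * (D ^ 2 * m * s ^ 2) := by
  obtain ⟨C2, hC2, hbl⟩ := blockV B δ hB hδ
  refine ⟨C2 * 3, by positivity, ?_⟩
  intro x Y s e D m A N y J U P j hj ξ η
  have hs := P.hs
  have he := P.he
  have hx := P.hx
  have hY := P.hY
  have hls0 : 0 ≤ Real.log s := Real.log_nonneg hs
  have hR : 0 ≤ C2 * 3 *
      ((1 + Real.log s) * s ^ (7 * δ)) * (D ^ 2 * m * s ^ 2) := by
    positivity
  have hj' := mem_range.1 hj
  by_cases hU1 : 2 ^ (j + 1) ≤ U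
  · refine le_trans (le_of_eq ?_) hR
    rw [sum_eq_zero, mul_zero]
    intro p _
    have : PP (dy j (gL U)) m (2 ^ (j + 1)) η p.2 = 0 := by
      unfold PP
      apply sum_eq_zero
      intro k hk
      rw [mem_Icc] at hk
      unfold tw dy
      rw [gL_zero (Or.inl (hk.2.trans hU1))]
      simp
    rw [this]; simp
  by_cases hU2 : U * U < 2 ^ j
  · refine le_trans (le_of_eq ?_) hR
    rw [sum_eq_zero, mul_zero]
    intro p _
    have : PP (dy j (gL U)) m (2 ^ (j + 1)) η p.2 = 0 := by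
      unfold PP
      apply sum_eq_zero
      intro k hk
      unfold tw dy
      by_cases hk2 : k ∈ Ico (2 ^ j) (2 ^ (j + 1))
      · rw [mem_Ico] at hk2
        rw [gL_zero (Or.inr (by omega))]
        simp
      · rw [if_neg hk2]; simp
    rw [this]; simp
  push Not at hU1 hU2
  have hKs := P.K_le hj'
  have hUK : (U : ℝ) ≤ ((2 ^ (j + 1) : ℕ) : ℝ) := by exact_mod_cast hU1.le
  have hKU : ((2 ^ (j + 1) : ℕ) : ℝ) ≤ 2 * ((U : ℝ) * U) := by
    have : 2 ^ (j + 1) ≤ 2 * (U * U) := by rw [pow_succ]; omega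
    exact_mod_cast this
  have hKL : ((2 ^ (j + 1) : ℕ) : ℝ) * ((y / 2 ^ j : ℕ) : ℝ) ≤ 2 * x := by
    have := P.L_le' j
    rw [Nat.cast_pow, pow_succ]
    push_cast at this ⊢
    linarith
  set K : ℝ := ((2 ^ (j + 1) : ℕ) : ℝ) with hK
  set L : ℝ := ((y / 2 ^ j : ℕ) : ℝ) with hL
  have hK0 : 0 ≤ K := Nat.cast_nonneg _
  have hL0 : 0 ≤ L := Nat.cast_nonneg _
  have hLe : L * e ^ 6 ≤ 8 * s ^ 2 := by
    calc L * e ^ 6 ≤ L * (U * Y) := by gcongr; exact P.hU2
      _ ≤ L * (K * Y) := by gcongr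
      _ = (K * L) * Y := by ring
      _ ≤ (2 * x) * Y := by gcongr
      _ = 2 * s ^ 2 := by rw [← P.hxY]; ring
      _ ≤ 8 * s ^ 2 := by gcongr; norm_num
  have hKe : K * e ^ 6 ≤ 8 * s ^ 2 := by
    calc K * e ^ 6 ≤ (2 * ((U : ℝ) * U)) * e ^ 6 := by gcongr
      _ = 2 * (((U : ℝ) * U) * e ^ 6) := by ring
      _ ≤ 2 * (4 * s ^ 2) := by have := P.UU_le; gcongr
      _ = 8 * s ^ 2 := by ring
  have h := hbl x Y s e D m A N y J U P (dy j (gL U)) (fun n => (((Real.log n) ^ 0 : ℝ) : ℂ))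
    (3 * (1 + Real.log s)) 1 (by positivity) zero_le_one j hj
    (fun n hn => by
      rw [mem_Icc] at hn
      refine (dy_norm _ _ _).trans ((gL_norm U).trans ?_)
      have h1 : (n : ℝ) ≤ K := by rw [hK]; exact_mod_cast hn.2
      have h2 : (n : ℝ) ≤ 2 * s ^ 3 := h1.trans hKs
      have h3 := Real.log_le_log (by exact_mod_cast hn.1) h2
      rw [Real.log_mul (by norm_num) (by positivity), Real.log_pow] at h3
      have h6 := Real.log_two_lt_d9
      push_cast at h3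
      linarith)
    (fun n hn => by simp) hKe hLe ξ η
  refine h.trans ?_
  have h3 : s ^ (4 * δ) ≤ s ^ (7 * δ) := by
    apply Real.rpow_le_rpow_of_exponent_le hs
    linarith
  calc C2 * (3 * (1 + Real.log s) * 1 * s ^ (4 * δ)) * (D ^ 2 * m * s ^ 2)
      ≤ C2 * (3 * (1 + Real.log s) * 1 * s ^ (7 * δ)) * (D ^ 2 * m * s ^ 2) := by gcongr
    _ = _ := by ring

open Classical in
theorem key_fixed_sharp_of (hT : TTsStatement) (B M ε : ℝ) (hB : 1 ≤ B) (hM : 0 < M)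
    (hε : 0 < ε) (_hε1 : ε ≤ 1 / 100) :
    ∃ H0 : ℝ, ∀ x Y : ℝ, RangeV ε x Y → H0 ≤ x * Y →
    ∀ D m N y : ℕ, (x * Y) ^ (ε / 5) ≤ D → 1 ≤ m → (D * m : ℝ) ≤ (x * Y) ^ (1 / 2 - ε) →
      Real.exp B * (2 * D * m) * Y ≤ N → (y : ℝ) ≤ x → ∀ l : ℝ → ℂ, CTest B M l →
    ∑ q ∈ Ioc D (2 * D), Real.sqrt q * ∑ χ ∈ (univ : Finset (DirichletCharacter ℂ q)).filter
        (fun χ => χ.IsPrimitive), ‖KKcm l Y N m χ‖ * ‖psiCm y m χ‖
      ≤ (x * Y) ^ (1 - ε / 20) * D ^ 2 * m := by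
  have hB0 : 0 ≤ B := by linarith
  have hδ : 0 < ε / 140 := by positivity
  obtain ⟨CT, hCT, hTT⟩ := hT
  obtain ⟨C1, hC1, hII⟩ := blockII B (ε / 140) hB0 hδ
  obtain ⟨C2, hC2, hI⟩ := blockIb B (ε / 140) hB0 hδ
  obtain ⟨C3, hC3, hsm⟩ := small_sup (ε / 140) hδ
  obtain ⟨C4, hC4, hnum⟩ := num_alone B (ε / 140) hB0 hδ
  obtain ⟨H2, hH2, hlarge⟩ := large (48 * M * CT * (C1 + C2) + 2 * C3 * C4 * M) (ε / 40) 5
    (by positivity)
  refine ⟨H2, ?_⟩
  intro x Y hR hH D m N y h1 h2 h3 h4 h5 l hl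
  rcases Nat.eq_zero_or_pos y with hy0 | hy1
  · subst hy0
    have : ∀ (q : ℕ) (χ : DirichletCharacter ℂ q), psiCm 0 m χ = 0 := by
      intro q χ
      unfold psiCm
      rw [Icc_eq_empty (by norm_num)]
      simp
    simp only [this, norm_zero, mul_zero, sum_const_zero]
    have := hR.hx
    have := hR.hY
    positivity
  obtain ⟨A, J, U, P⟩ := par_exists B ε hε x Y hR D m N y h1 h2 h3 h4 h5 hy1
  have hl' := hlarge (x * Y) hH
  have hXY1 := hR.h1
  set H := x * Y with hHdef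
  set s := H ^ (1 / 2 : ℝ) with hs
  set e := H ^ (ε / 20) with he
  have hs1 := P.hs
  have he1 := P.he
  have hH0 : 0 < H := by linarith
  have hls0 : 0 ≤ Real.log s := Real.log_nonneg hs1
  set Z : ℝ := (D : ℝ) ^ 2 * m * s ^ 2 with hZ
  have hZ0 : 0 ≤ Z := by rw [hZ]; positivity
  set E : ℝ := (1 + Real.log s) * s ^ (7 * (ε / 140)) with hE
  have hE0 : 0 ≤ E := by rw [hE]; positivity
  have hB1 := TT_part hCT hTT P hM.le hl (fun n => (betaV U n : ℂ)) (LU U)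
    (C1 * E * Z) (by positivity) (hII x Y s e D m A N y J U P)
  have hB2 := TT_part hCT hTT P hM.le hl (gL U) (fun n => (((Real.log n) ^ 0 : ℝ) : ℂ))
    (C2 * E * Z) (by positivity) (hI x Y s e D m A N y J U P)
  have hB3 : e ^ 2 * ∑ p ∈ PC D, Real.sqrt p.1 * (‖KKcm l Y N m p.2‖ *
      (‖∑ n ∈ (Icc 1 y).filter (fun n => n.Coprime m), ((l1 U n : ℝ) : ℂ) *
        p.2 (n : ZMod p.1)‖ +
      ‖TTs y m (fun n => ((mu1 U n : ℝ) : ℂ)) (fun n => (((Real.log n) ^ 1 : ℝ) : ℂ)) p.2‖ +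
      ‖TTs y m (gS U) (fun n => (((Real.log n) ^ 0 : ℝ) : ℂ)) p.2‖)) ≤
      2 * C3 * C4 * M * (1 + Real.log s) ^ 4 * s ^ (7 * (ε / 140)) * Z := by
    have hU0 : (0 : ℝ) ≤ U := Nat.cast_nonneg U
    calc _ ≤ e ^ 2 * ∑ p ∈ PC D, (2 * Real.sqrt D) * (‖KKcm l Y N m p.2‖ *
          (C3 * (U * Real.sqrt D) * (s ^ (ε / 140) * (1 + Real.log s) ^ 4))) := by
          gcongr with p hp
          · obtain ⟨hq1, hq2, _⟩ := mem_PC hp
            have hq3 : (p.1 : ℝ) ≤ 2 * D := by exact_mod_cast hq2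
            calc Real.sqrt p.1 ≤ Real.sqrt (2 ^ 2 * D) := by
                  apply Real.sqrt_le_sqrt
                  have : (0 : ℝ) ≤ D := Nat.cast_nonneg D
                  linarith
              _ = 2 * Real.sqrt D := by
                  rw [Real.sqrt_mul (by norm_num), Real.sqrt_sq (by norm_num)]
          · exact hsm B x Y s e D m A N y J U P p hp
      _ = (2 * C3 * (s ^ (ε / 140) * (1 + Real.log s) ^ 4)) *
          (e ^ 2 * (U * (Real.sqrt D * Real.sqrt D) * ∑ p ∈ PC D, ‖KKcm l Y N m p.2‖)) := by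
          rw [← mul_sum, ← sum_mul]
          ring
      _ ≤ (2 * C3 * (s ^ (ε / 140) * (1 + Real.log s) ^ 4)) *
          (C4 * M * s ^ (ε / 140) * Z) := by
          rw [Real.mul_self_sqrt (Nat.cast_nonneg D)]
          have := hnum x Y s e D m A N y J U P M l hl
          gcongr
      _ = 2 * C3 * C4 * M * (1 + Real.log s) ^ 4 * (s ^ (ε / 140) * s ^ (ε / 140)) * Z := by
          ring
      _ ≤ _ := by
          have h6 : s ^ (ε / 140) * s ^ (ε / 140) ≤ s ^ (7 * (ε / 140)) := by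
            rw [← Real.rpow_add (by linarith)]
            apply Real.rpow_le_rpow_of_exponent_le hs1
            linarith
          gcongr
  have hsum : ∑ q ∈ Ioc D (2 * D), Real.sqrt q *
      ∑ χ ∈ (univ : Finset (DirichletCharacter ℂ q)).filter
        (fun χ => χ.IsPrimitive), ‖KKcm l Y N m χ‖ * ‖psiCm y m χ‖ =
      ∑ p ∈ PC D, Real.sqrt p.1 * (‖KKcm l Y N m p.2‖ * ‖psiCm y m p.2‖) := by
    unfold PC
    rw [sum_sigma]
    apply sum_congr rfl
    intro q _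
    rw [mul_sum]
  rw [hsum]
  have hle : ∑ p ∈ PC D, Real.sqrt p.1 * (‖KKcm l Y N m p.2‖ * ‖psiCm y m p.2‖) ≤
      ∑ p ∈ PC D, Real.sqrt p.1 * (‖KKcm l Y N m p.2‖ *
        ‖TTs y m (fun n => (betaV U n : ℂ)) (LU U) p.2‖) +
      ∑ p ∈ PC D, Real.sqrt p.1 * (‖KKcm l Y N m p.2‖ *
        ‖TTs y m (gL U) (fun n => (((Real.log n) ^ 0 : ℝ) : ℂ)) p.2‖) +
      ∑ p ∈ PC D, Real.sqrt p.1 * (‖KKcm l Y N m p.2‖ *
        (‖∑ n ∈ (Icc 1 y).filter (fun n => n.Coprime m), ((l1 U n : ℝ) : ℂ) *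
          p.2 (n : ZMod p.1)‖ +
        ‖TTs y m (fun n => ((mu1 U n : ℝ) : ℂ)) (fun n => (((Real.log n) ^ 1 : ℝ) : ℂ)) p.2‖ +
        ‖TTs y m (gS U) (fun n => (((Real.log n) ^ 0 : ℝ) : ℂ)) p.2‖)) := by
    rw [← sum_add_distrib, ← sum_add_distrib]
    apply sum_le_sum
    intro p _
    rw [← mul_add, ← mul_add, ← mul_add, ← mul_add]
    rw [psi_split U y m p.2]
    gcongr
    refine (norm_sub_le _ _).trans ?_
    have a1 := norm_sub_le ((∑ n ∈ (Icc 1 y).filter (fun n => n.Coprime m), ((l1 U n : ℝ) : ℂ) *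
        p.2 (n : ZMod p.1))
      + TTs y m (fun n => (betaV U n : ℂ)) (LU U) p.2
      + TTs y m (fun n => ((mu1 U n : ℝ) : ℂ)) (fun n => (((Real.log n) ^ 1 : ℝ) : ℂ)) p.2)
      (TTs y m (gS U) (fun n => (((Real.log n) ^ 0 : ℝ) : ℂ)) p.2)
    have a2 := norm_add_le ((∑ n ∈ (Icc 1 y).filter (fun n => n.Coprime m), ((l1 U n : ℝ) : ℂ) *
        p.2 (n : ZMod p.1))
      + TTs y m (fun n => (betaV U n : ℂ)) (LU U) p.2)
      (TTs y m (fun n => ((mu1 U n : ℝ) : ℂ)) (fun n => (((Real.log n) ^ 1 : ℝ) : ℂ)) p.2)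
    have a3 := norm_add_le (∑ n ∈ (Icc 1 y).filter (fun n => n.Coprime m),
        ((l1 U n : ℝ) : ℂ) * p.2 (n : ZMod p.1))
      (TTs y m (fun n => (betaV U n : ℂ)) (LU U) p.2)
    linarith
  have he2 : 0 < e ^ 2 := by positivity
  have hfin : e ^ 2 * ∑ p ∈ PC D, Real.sqrt p.1 * (‖KKcm l Y N m p.2‖ * ‖psiCm y m p.2‖) ≤
      e ^ 2 * (H ^ (1 - ε / 20) * D ^ 2 * m) := by
    calc e ^ 2 * ∑ p ∈ PC D, Real.sqrt p.1 * (‖KKcm l Y N m p.2‖ * ‖psiCm y m p.2‖)
        ≤ 48 * (1 + Real.log s) ^ 2 * (C1 * E * Z) * M * CT +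
          48 * (1 + Real.log s) ^ 2 * (C2 * E * Z) * M * CT +
          2 * C3 * C4 * M * (1 + Real.log s) ^ 4 * s ^ (7 * (ε / 140)) * Z := by
          refine (mul_le_mul_of_nonneg_left hle he2.le).trans ?_
          rw [mul_add, mul_add]
          exact add_le_add (add_le_add hB1 hB2) hB3
      _ = (48 * M * CT * (C1 + C2) * (1 + Real.log s) ^ 3 +
          2 * C3 * C4 * M * (1 + Real.log s) ^ 4) *
          s ^ (7 * (ε / 140)) * Z := by rw [hE]; ring
      _ ≤ ((48 * M * CT * (C1 + C2) + 2 * C3 * C4 * M) * (1 + Real.log s) ^ 5) *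
          s ^ (7 * (ε / 140)) * Z := by
          have hE1 : 1 ≤ 1 + Real.log s := by linarith
          have p1 : (1 + Real.log s) ^ 3 ≤ (1 + Real.log s) ^ 5 :=
            pow_le_pow_right₀ hE1 (by norm_num)
          have p2 : (1 + Real.log s) ^ 4 ≤ (1 + Real.log s) ^ 5 :=
            pow_le_pow_right₀ hE1 (by norm_num)
          have hs7 : 0 ≤ s ^ (7 * (ε / 140)) := by positivity
          rw [add_mul (48 * M * CT * (C1 + C2))]
          gcongr
      _ ≤ H ^ (ε / 40) * s ^ (7 * (ε / 140)) * Z := by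
          have h6 : (48 * M * CT * (C1 + C2) + 2 * C3 * C4 * M) * (1 + Real.log s) ^ 5 ≤
            H ^ (ε / 40) := by
            refine le_trans ?_ hl'
            have h7 : Real.log s ≤ Real.log H := by
              rw [hs, Real.log_rpow hH0]
              have := Real.log_nonneg hXY1
              linarith
            gcongr
          gcongr
      _ = e ^ 2 * (H ^ (1 - ε / 20) * D ^ 2 * m) := by
          have h6 : s ^ (7 * (ε / 140)) = H ^ (ε / 40) := by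
            rw [hs, ← Real.rpow_mul hH0.le]
            congr 1
            ring
          have h7 : s ^ 2 = H := by
            have := P.hxY
            rw [← this]
          have h8 : e ^ 2 * H ^ (1 - ε / 20) = H ^ (ε / 40) * H ^ (ε / 40) * H := by
            have : H ^ (ε / 40) * H ^ (ε / 40) * H = H ^ (ε / 40) * H ^ (ε / 40) * H ^ (1 : ℝ) := by
              rw [Real.rpow_one]
            rw [this, he, ← Real.rpow_natCast, ← Real.rpow_mul hH0.le, ← Real.rpow_add hH0,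
              ← Real.rpow_add hH0, ← Real.rpow_add hH0]
            congr 1
            push_cast
            ring
          rw [hZ, h6, h7]
          calc H ^ (ε / 40) * H ^ (ε / 40) * ((D : ℝ) ^ 2 * m * H) =
              (H ^ (ε / 40) * H ^ (ε / 40) * H) * (D ^ 2 * m) := by ring
            _ = (e ^ 2 * H ^ (1 - ε / 20)) * (D ^ 2 * m) := by rw [h8]
            _ = _ := by ring
  exact le_of_mul_le_mul_left hfin he2

end KFV

end H336V
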