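import Pool.Agent.H336R2.V.KeySharpOf
import Pool.Agent.H336R2.V.KeyFixed

open Finset MeasureTheory

namespace H336V

open H343

open Classical in
/-- key estimate, sharp cut-off -/
theorem key_sharp (B M ε : ℝ) (hB : 1 ≤ B) (hM : 0 < M) (hε : 0 < ε) (hε1 : ε ≤ 1 / 100) :
    ∃ H0 : ℝ, ∀ x Y : ℝ, RangeV ε x Y → H0 ≤ x * Y →
    ∀ Q R N y : ℕ, CutsV ε B x Y Q R N → (y : ℝ) ≤ x → ∀ l : ℝ → ℂ, CTest B M l →
    ∑ q ∈ Mod Q R, 1 / (Nat.totient q : ℝ) ^ 2 *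
      ∑ χ ∈ (univ : Finset (DirichletCharacter ℂ q)).filter (fun χ => χ ≠ 1),
        ‖GS χ⁻¹‖ * ‖KKc l Y N χ‖ * ‖psiC y χ‖ ≤ (x * Y) ^ (1 - ε / 40) :=
  KeySharp.key_sharp_of key_fixed_sharp B M ε hB hM hε hε1

end H336V
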