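import Pool.Agent.H336R2.V.Defs

open Finset MeasureTheory

namespace H336V

open H343 H343.KeyAux

namespace KeySharp

theorem KKc_changeLevel (l : ℝ → ℂ) (Y : ℝ) (N f g : ℕ) (h : f ∣ f * g)
    (ψ : DirichletCharacter ℂ f) :
    KKc l Y N (DirichletCharacter.changeLevel h ψ) = KKcm l Y N g ψ := by
  unfold KKc KKcm
  exact sum_changeLevel f g h ψ (Icc 1 N) (fun a => l (Real.log (a / ((f * g : ℕ) * Y))))

theorem psiC_changeLevel (y f g : ℕ) (h : f ∣ f * g)
    (ψ : DirichletCharacter ℂ f) :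
    psiC y (DirichletCharacter.changeLevel h ψ) = psiCm y g ψ := by
  unfold psiC psiCm
  have h1 := sum_changeLevel f g h ψ (Icc 1 y)
    (fun n => (ArithmeticFunction.vonMangoldt n : ℂ))
  calc _ = ∑ n ∈ Icc 1 y, DirichletCharacter.changeLevel h ψ (n : ZMod (f * g)) *
        (ArithmeticFunction.vonMangoldt n : ℂ) := by
        apply sum_congr rfl
        intro n _
        ring
    _ = _ := h1
    _ = _ := by
        apply sum_congr rfl
        intro n _
        ring

open Classical in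
/-- conductor `q`, cofactor `m` contribution -/
noncomputable def GGs (l : ℝ → ℂ) (Y : ℝ) (N y m q : ℕ) : ℝ :=
  Real.sqrt q * ∑ χ ∈ (univ : Finset (DirichletCharacter ℂ q)).filter
        (fun χ => χ.IsPrimitive), ‖KKcm l Y N m χ‖ * ‖psiCm y m χ‖

theorem GGs_nonneg (l : ℝ → ℂ) (Y : ℝ) (N y m q : ℕ) : 0 ≤ GGs l Y N y m q :=
  mul_nonneg (Real.sqrt_nonneg _) (sum_nonneg fun _ _ => by positivity)

open Classical in
theorem inner_le_s (l : ℝ → ℂ) (Y : ℝ) (N y q : ℕ) (hq1 : 1 ≤ q) (hq : Squarefree q) :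
    ∑ χ ∈ (univ : Finset (DirichletCharacter ℂ q)).filter (fun χ => χ ≠ 1),
        ‖GS χ⁻¹‖ * ‖KKc l Y N χ‖ * ‖psiC y χ‖ ≤
      ∑ d ∈ q.divisors.filter (fun d => d ≠ 1), GGs l Y N y (q / d) d := by
  unfold GGs
  simp_rw [mul_sum]
  apply step2' q (by omega) (fun χ => ‖GS χ⁻¹‖ * ‖KKc l Y N χ‖ * ‖psiC y χ‖) (fun χ => by positivity)
    (fun d ψ => Real.sqrt d * (‖KKcm l Y N (q / d) ψ‖ * ‖psiCm y (q / d) ψ‖))
  intro d h ψ hψ
  obtain ⟨g, rfl⟩ := h
  have hd : 0 < d := Nat.pos_of_ne_zero (by rintro rfl; simp at hq1)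
  have hg : 0 < g := Nat.pos_of_ne_zero (by rintro rfl; simp at hq1)
  rw [Nat.mul_div_cancel_left g hd]
  rw [KKc_changeLevel, psiC_changeLevel]
  have h1 := GS_imprimitive d g hd hg (Nat.coprime_of_squarefree_mul hq) ψ hψ
  rw [mul_assoc]
  exact mul_le_mul_of_nonneg_right h1 (by positivity)

theorem test_eq_zero_of_le_c {B M : ℝ} {l : ℝ → ℂ} (hl : CTest B M l) {a c : ℝ} (hc : 0 < c)
    (h : Real.exp B * c ≤ a) : l (Real.log (a / c)) = 0 := by
  apply hl.supp
  have h1 : Real.exp B ≤ a / c := by rwa [le_div_iff₀ hc]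
  have h2 := Real.log_le_log (Real.exp_pos B) h1
  rw [Real.log_exp] at h2
  exact h2.trans (le_abs_self _)

theorem psiCm_le : ∃ C : ℝ, 0 < C ∧ ∀ (x : ℝ) (y m q : ℕ) (χ : DirichletCharacter ℂ q),
    (y : ℝ) ≤ x → ‖psiCm y m χ‖ ≤ C * x := by
  have h4 : 0 < Real.log 4 := Real.log_pos (by norm_num)
  refine ⟨Real.log 4 + 4, by positivity, ?_⟩
  intro x y m q χ hy
  have h5 := Chebyshev.psi_le_const_mul_self (x := (y : ℝ)) (by positivity)
  unfold Chebyshev.psi at h5
  rw [Nat.floor_natCast] at h5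
  have h6 : ‖psiCm y m χ‖ ≤ ∑ n ∈ Ioc 0 y, ArithmeticFunction.vonMangoldt n := by
    unfold psiCm
    refine (norm_sum_le _ _).trans ?_
    refine le_trans (sum_le_sum (g := fun n : ℕ => ArithmeticFunction.vonMangoldt n) ?_) ?_
    · intro n _
      rw [norm_mul, Complex.norm_real, Real.norm_eq_abs,
        abs_of_nonneg ArithmeticFunction.vonMangoldt_nonneg]
      have h1 : ‖χ (n : ZMod q)‖ ≤ 1 := DirichletCharacter.norm_le_one _ _
      have h0 : 0 ≤ ArithmeticFunction.vonMangoldt n := ArithmeticFunction.vonMangoldt_nonneg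
      nlinarith
    · apply sum_le_sum_of_subset_of_nonneg
      · intro n hn
        rw [mem_filter, mem_Icc] at hn
        rw [mem_Ioc]
        omega
      · intro n _ _
        exact ArithmeticFunction.vonMangoldt_nonneg
  calc _ ≤ (Real.log 4 + 4) * y := h6.trans h5
    _ ≤ _ := by gcongr

/-- derivative of `l (log (t / c))` -/
theorem hasDerivAt_comp_log_c {l : ℝ → ℂ} (hl : Differentiable ℝ l) {c t : ℝ} (hc : 0 < c)
    (ht : 0 < t) : HasDerivAt (fun t => l (Real.log (t / c)))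
      (((t⁻¹ : ℝ)) • deriv l (Real.log (t / c))) t := by
  have h1 : HasDerivAt (fun t : ℝ => Real.log (t / c)) (t⁻¹) t := by
    have h2 : HasDerivAt (fun t : ℝ => t / c) (1 / c) t := (hasDerivAt_id t).div_const c
    have h3 := h2.log (by positivity)
    convert h3 using 1
    field_simp
  exact ((hl (Real.log (t / c))).hasDerivAt).scomp t h1

theorem ctest_hasCompactSupport {B M : ℝ} {l : ℝ → ℂ} (hl : CTest B M l) : HasCompactSupport l := by
  apply HasCompactSupport.intro (isCompact_Icc : IsCompact (Set.Icc (-B) B))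
  intro v hv
  apply hl.supp
  by_contra h
  push Not at h
  rw [abs_lt] at h
  exact hv ⟨h.1.le, h.2.le⟩

theorem KKcm_le {B M : ℝ} {l : ℝ → ℂ} (hM : 0 < M) (hl : CTest B M l)
    (Y : ℝ) (N m q : ℕ) (χ : DirichletCharacter ℂ q) (hY : 0 < Y) (hm : 1 ≤ m) (hq : 2 ≤ q)
    (hχ : χ.IsPrimitive) :
      ‖KKcm l Y N m χ‖ ≤ (8 * M) * (m.divisors.card * (Real.sqrt q * (1 + Real.log q))) := by
  have hcs := ctest_hasCompactSupport hl
  have hld : Differentiable ℝ l := hl.diff.differentiable (by simp)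
  have hdc : Continuous (deriv l) := hl.diff.continuous_deriv (by simp)
  have hint : Integrable (fun v => ‖deriv l v‖) :=
    (hdc.norm).integrable_of_hasCompactSupport hcs.deriv.norm
  rcases Nat.eq_zero_or_pos N with hN | hN
  · subst hN
    have : KKcm l Y 0 m χ = 0 := by unfold KKcm; simp
    rw [this, norm_zero]
    have hlog : 0 ≤ Real.log q := Real.log_natCast_nonneg q
    positivity
  · have hqm : (0 : ℝ) < (q * m : ℕ) := by
      have : 0 < q * m := by positivity
      exact_mod_cast this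
    set c : ℝ := (q * m : ℕ) * Y with hc
    have hc0 : 0 < c := by positivity
    have hN1 : (1 : ℝ) ≤ N := by exact_mod_cast hN
    have hder : ∀ t : ℝ, 0 < t → HasDerivAt (fun t => l (Real.log (t / c)))
      ((t⁻¹ : ℝ) • deriv l (Real.log (t / c))) t := fun t ht =>
        hasDerivAt_comp_log_c hld hc0 ht
    have h1 := PV_weight q m 1 N hq hm le_rfl hN χ hχ
      (fun t => l (Real.log (t / c))) ?_ (2 * M) ?_
    · unfold KKcm
      rw [← hc]
      refine h1.trans (le_of_eq ?_)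
      ring
    · -- ContDiffOn
      apply hl.diff.comp_contDiffOn
      apply ContDiffOn.log
      · exact contDiffOn_id.div_const c
      · intro t ht
        have : (0 : ℝ) < t := by
          have := ht.1
          push_cast at this
          linarith
        positivity
    · have h2 : ‖l (Real.log ((N : ℝ) / c))‖ ≤ M := hl.bd _
      have h3 : ∫ t in ((1 : ℕ) : ℝ)..N, ‖deriv (fun t => l (Real.log (t / c))) t‖ ≤
          ∫ v, ‖deriv l v‖ := by
        push_cast
        have h4 : ∫ t in (1 : ℝ)..N, ‖deriv (fun t => l (Real.log (t / c))) t‖ =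
            ∫ t in (1 : ℝ)..N, ((fun v => ‖deriv l v‖) ∘ (fun t => Real.log (t / c))) t * t⁻¹ := by
          apply intervalIntegral.integral_congr
          intro t ht
          rw [Set.uIcc_of_le hN1] at ht
          have ht0 : 0 < t := by linarith [ht.1]
          dsimp only [Function.comp]
          rw [(hder t ht0).deriv, norm_smul, Real.norm_eq_abs,
            abs_of_pos (inv_pos.mpr ht0), mul_comm]
        rw [h4]
        have h5 := intervalIntegral.integral_comp_mul_deriv (a := (1 : ℝ)) (b := N)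
          (f := fun t => Real.log (t / c)) (f' := fun t => t⁻¹) (g := fun v => ‖deriv l v‖) (by
            intro t ht
            rw [Set.uIcc_of_le hN1] at ht
            have ht0 : 0 < t := by linarith [ht.1]
            have h2 : HasDerivAt (fun t : ℝ => t / c) (1 / c) t := (hasDerivAt_id t).div_const c
            have h3 := h2.log (by positivity)
            convert h3 using 1
            field_simp) (by
            intro t ht
            rw [Set.uIcc_of_le hN1] at ht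
            have ht0 : 0 < t := by linarith [ht.1]
            exact (continuousAt_inv₀ ht0.ne').continuousWithinAt) hdc.norm
        rw [h5]
        have hle : Real.log (1 / c) ≤ Real.log (N / c) := by
          apply Real.log_le_log (by positivity)
          gcongr
        rw [intervalIntegral.integral_of_le hle]
        exact setIntegral_le_integral hint (Filter.Eventually.of_forall fun v => norm_nonneg _)
      have h2' : ‖(fun t => l (Real.log (t / c))) (N : ℝ)‖ ≤ M := h2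
      have h6 := hl.var
      linarith

/-- small conductors: trivial bound via Pólya–Vinogradov -/
theorem GGs_le (M : ℝ) (hM : 0 < M) : ∃ C : ℝ, 0 < C ∧
    ∀ (B : ℝ) (l : ℝ → ℂ), CTest B M l →
    ∀ (x Y : ℝ) (N y m q : ℕ), 0 < x → 0 < Y → 1 ≤ m → 2 ≤ q → (y : ℝ) ≤ x →
      GGs l Y N y m q ≤ C * x * m.divisors.card * (q : ℝ) ^ 3 := by
  obtain ⟨C2, hC2, h2⟩ := psiCm_le
  refine ⟨(8 * M) * C2, by positivity, ?_⟩
  intro B l hl x Y N y m q hx hY hm hq hy
  classical
  unfold GGs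
  have hq0 : (0 : ℝ) < q := by
    have : 0 < q := by omega
    exact_mod_cast this
  have hlog : 0 ≤ Real.log q := Real.log_natCast_nonneg q
  have hlog2 : 1 + Real.log q ≤ q := by
    have := Real.log_le_sub_one_of_pos hq0
    linarith
  have h3 : ∀ χ ∈ (univ : Finset (DirichletCharacter ℂ q)).filter (fun χ => χ.IsPrimitive),
      ‖KKcm l Y N m χ‖ * ‖psiCm y m χ‖ ≤
        ((8 * M) * (m.divisors.card * (Real.sqrt q * q))) * (C2 * x) := by
    intro χ hχ
    rw [mem_filter] at hχ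
    have h4 := KKcm_le hM hl Y N m q χ hY hm hq hχ.2
    have h5 := h2 x y m q χ hy
    have h6 : (8 * M) * (m.divisors.card * (Real.sqrt q * (1 + Real.log q))) ≤
        (8 * M) * (m.divisors.card * (Real.sqrt q * q)) := by gcongr
    exact mul_le_mul (h4.trans h6) h5 (norm_nonneg _) (by positivity)
  have h7 := sum_le_card_nsmul _ _ _ h3
  rw [nsmul_eq_mul] at h7
  have h8 := card_prim_le q (by omega)
  calc _ ≤ Real.sqrt q * ((q : ℝ) * (((8 * M) * (m.divisors.card * (Real.sqrt q * q))) *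
        (C2 * x))) := by
        gcongr
        refine h7.trans ?_
        gcongr
    _ = (8 * M) * C2 * x * m.divisors.card * ((Real.sqrt q * Real.sqrt q) * q ^ 2) := by ring
    _ = _ := by rw [Real.mul_self_sqrt hq0.le]; ring

/-- extending the range of the numerators -/
theorem KKcm_mono {B M : ℝ} {l : ℝ → ℂ} (hl : CTest B M l) (Y : ℝ) (N N' m q : ℕ)
    (χ : DirichletCharacter ℂ q) (hY : 0 < Y) (hm : 1 ≤ m) (hq : 1 ≤ q) (hNN : N ≤ N')
    (hN : Real.exp B * ((q * m : ℕ) * Y) ≤ N) :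
    KKcm l Y N m χ = KKcm l Y N' m χ := by
  unfold KKcm
  have hqm : (0 : ℝ) < (q * m : ℕ) := by
    have : 0 < q * m := by positivity
    exact_mod_cast this
  apply sum_subset
  · intro a ha
    rw [mem_filter, mem_Icc] at ha ⊢
    exact ⟨⟨ha.1.1, ha.1.2.trans hNN⟩, ha.2⟩
  · intro a ha ha'
    rw [mem_filter, mem_Icc] at ha ha'
    have h1 : N < a := by
      by_contra h
      exact ha' ⟨⟨ha.1.1, not_lt.mp h⟩, ha.2⟩
    have h2 : (N : ℝ) ≤ a := by exact_mod_cast h1.le
    rw [test_eq_zero_of_le_c hl (by positivity) (hN.trans h2)]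
    simp

theorem GGs_mono {B M : ℝ} {l : ℝ → ℂ} (hl : CTest B M l) (Y : ℝ) (N N' y m q : ℕ)
    (hY : 0 < Y) (hm : 1 ≤ m) (hq : 1 ≤ q) (hNN : N ≤ N')
    (hN : Real.exp B * ((q * m : ℕ) * Y) ≤ N) :
    GGs l Y N y m q = GGs l Y N' y m q := by
  unfold GGs
  congr 1
  apply sum_congr rfl
  intro χ _
  rw [KKcm_mono hl Y N N' m q χ hY hm hq hNN hN]

open Classical in
/-- the statement of the key estimate for fixed size of the conductor -/
def KeyFixedStmt : Prop := ∀ (B M ε : ℝ) (_ : 1 ≤ B) (_ : 0 < M) (_ : 0 < ε) (_ : ε ≤ 1 / 100),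
    ∃ H0 : ℝ, ∀ x Y : ℝ, RangeV ε x Y → H0 ≤ x * Y →
    ∀ D m N y : ℕ, (x * Y) ^ (ε / 5) ≤ D → 1 ≤ m → (D * m : ℝ) ≤ (x * Y) ^ (1 / 2 - ε) →
      Real.exp B * (2 * D * m) * Y ≤ N → (y : ℝ) ≤ x → ∀ l : ℝ → ℂ, CTest B M l →
    ∑ q ∈ Ioc D (2 * D), Real.sqrt q * ∑ χ ∈ (univ : Finset (DirichletCharacter ℂ q)).filter
        (fun χ => χ.IsPrimitive), ‖KKcm l Y N m χ‖ * ‖psiCm y m χ‖
      ≤ (x * Y) ^ (1 - ε / 20) * D ^ 2 * m

open Classical in
theorem key_sharp_of (hKFS : KeyFixedStmt) (B M ε : ℝ) (hB : 1 ≤ B) (hM : 0 < M) (hε : 0 < ε)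
    (hε1 : ε ≤ 1 / 100) :
    ∃ H0 : ℝ, ∀ x Y : ℝ, RangeV ε x Y → H0 ≤ x * Y →
    ∀ Q R N y : ℕ, CutsV ε B x Y Q R N → (y : ℝ) ≤ x → ∀ l : ℝ → ℂ, CTest B M l →
    ∑ q ∈ Mod Q R, 1 / (Nat.totient q : ℝ) ^ 2 *
      ∑ χ ∈ (univ : Finset (DirichletCharacter ℂ q)).filter (fun χ => χ ≠ 1),
        ‖GS χ⁻¹‖ * ‖KKc l Y N χ‖ * ‖psiC y χ‖ ≤ (x * Y) ^ (1 - ε / 40) := by
  set δ : ℝ := ε / 1000 with hδdef
  have hδ : 0 < δ := by positivity
  obtain ⟨C1, hC1, hdiv⟩ := div_bound δ hδ
  obtain ⟨c2, hc2, hphi⟩ := phi_bound δ hδ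
  obtain ⟨C3, hC3, hGG0⟩ := GGs_le M hM
  obtain ⟨HK, hKF⟩ := hKFS B M ε hB hM hε hε1
  -- constants
  set K1 : ℝ := 8 * ((1 / c2 ^ 2) * (C3 * C1 ^ 2)) with hK1
  set K2 : ℝ := (1 / c2 ^ 2) * (3 * (1 + 1 / δ) ^ 2) with hK2
  have hK1p : 0 < K1 := by positivity
  have hK2p : 0 < K2 := by positivity
  have hev := (tendsto_rpow_atTop (by positivity : 0 < ε / 100)).eventually_ge_atTop (K1 + K2)
  obtain ⟨HE, hHE⟩ := Filter.eventually_atTop.mp hev
  refine ⟨max (max HK HE) 1, ?_⟩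
  intro x Y hr hH0 Q R N y hcut hyx l hl
  have hGG := hGG0 B l hl
  set H : ℝ := x * Y with hHdef
  have hH1 : 1 ≤ H := le_trans (le_max_right _ _) hH0
  have hHK : HK ≤ H := le_trans ((le_max_left _ _).trans (le_max_left _ _)) hH0
  have hHE' : HE ≤ H := le_trans ((le_max_right _ _).trans (le_max_left _ _)) hH0
  have hHpos : 0 < H := by linarith
  have hx := hr.hx
  have hY := hr.hY
  have hfin := hHE H hHE'
  -- facts on the cutoffs
  have hQ4 : 1 ≤ H ^ (4 * ε) := Real.one_le_rpow hH1 (by positivity)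
  have hQ1 : 1 ≤ Q := by
    have := hcut.hQ1
    have h2 : (1 : ℝ) ≤ Q := hQ4.trans this
    exact_mod_cast h2
  have hQ0 : (0 : ℝ) < Q := by exact_mod_cast hQ1
  have hRH : (R : ℝ) ≤ H ^ (1 / 2 - ε) := hcut.hR
  have hRH1 : (R : ℝ) ≤ H := by
    refine hRH.trans ?_
    calc H ^ (1 / 2 - ε) ≤ H ^ (1 : ℝ) := Real.rpow_le_rpow_of_exponent_le hH1 (by linarith)
      _ = H := Real.rpow_one H
  set D0 : ℕ := ⌈H ^ (ε / 5)⌉₊ with hD0
  have hHe5 : 1 ≤ H ^ (ε / 5) := Real.one_le_rpow hH1 (by positivity)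
  have hD0le : (D0 : ℝ) ≤ 2 * H ^ (ε / 5) := by
    have := Nat.ceil_lt_add_one (by linarith : 0 ≤ H ^ (ε / 5))
    linarith
  have hD0ge : H ^ (ε / 5) ≤ D0 := Nat.le_ceil _
  have hD01 : 1 ≤ D0 := by
    have : (1 : ℝ) ≤ D0 := hHe5.trans hD0ge
    exact_mod_cast this
  -- step 1 : reduction to primitive characters
  have hs1 : ∀ q ∈ Mod Q R, 1 / (Nat.totient q : ℝ) ^ 2 *
      ∑ χ ∈ (univ : Finset (DirichletCharacter ℂ q)).filter (fun χ => χ ≠ 1),
        ‖GS χ⁻¹‖ * ‖KKc l Y N χ‖ * ‖psiC y χ‖ ≤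
      1 / (Nat.totient q : ℝ) ^ 2 * ∑ d ∈ q.divisors.filter (fun d => d ≠ 1 ∧ d ≤ D0),
          GGs l Y N y (q / d) d +
        ∑ d ∈ q.divisors.filter (fun d => D0 < d),
          1 / (Nat.totient (d * (q / d)) : ℝ) ^ 2 * GGs l Y N y (q / d) d := by
    intro q hq
    unfold H343.Mod at hq
    rw [mem_filter, mem_Ioc] at hq
    have h1 := inner_le_s l Y N y q (by omega) hq.2
    have h2 : ∑ d ∈ q.divisors.filter (fun d => d ≠ 1), GGs l Y N y (q / d) d ≤
        ∑ d ∈ q.divisors.filter (fun d => d ≠ 1 ∧ d ≤ D0), GGs l Y N y (q / d) d +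
        ∑ d ∈ q.divisors.filter (fun d => D0 < d), GGs l Y N y (q / d) d := by
      have hsub : q.divisors.filter (fun d => d ≠ 1) ⊆
          q.divisors.filter (fun d => d ≠ 1 ∧ d ≤ D0) ∪ q.divisors.filter (fun d => D0 < d) := by
        intro d hd
        rw [mem_filter] at hd
        rw [mem_union, mem_filter, mem_filter]
        rcases le_or_gt d D0 with h | h
        · left; exact ⟨hd.1, hd.2, h⟩
        · right; exact ⟨hd.1, h⟩
      refine (sum_le_sum_of_subset_of_nonneg hsub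
        (fun d _ _ => GGs_nonneg l Y N y (q / d) d)).trans ?_
      rw [← sum_union_inter]
      have : 0 ≤ ∑ d ∈ q.divisors.filter (fun d => d ≠ 1 ∧ d ≤ D0) ∩
          q.divisors.filter (fun d => D0 < d), GGs l Y N y (q / d) d :=
        sum_nonneg fun d _ => GGs_nonneg l Y N y (q / d) d
      linarith
    have h3 : ∑ d ∈ q.divisors.filter (fun d => D0 < d),
          1 / (Nat.totient (d * (q / d)) : ℝ) ^ 2 * GGs l Y N y (q / d) d =
        1 / (Nat.totient q : ℝ) ^ 2 * ∑ d ∈ q.divisors.filter (fun d => D0 < d),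
          GGs l Y N y (q / d) d := by
      rw [mul_sum]
      apply sum_congr rfl
      intro d hd
      rw [mem_filter, Nat.mem_divisors] at hd
      rw [Nat.mul_div_cancel' hd.1.1]
    rw [h3, ← mul_add]
    exact mul_le_mul_of_nonneg_left (h1.trans h2) (by positivity)
  refine (sum_le_sum hs1).trans ?_
  rw [sum_add_distrib]
  -- step 2 : small conductors
  have hsmall : ∑ q ∈ Mod Q R, 1 / (Nat.totient q : ℝ) ^ 2 *
      ∑ d ∈ q.divisors.filter (fun d => d ≠ 1 ∧ d ≤ D0), GGs l Y N y (q / d) d ≤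
      K1 * H ^ (1 - 3 * ε) := by
    have h1 : ∀ q ∈ Mod Q R, 1 / (Nat.totient q : ℝ) ^ 2 *
        ∑ d ∈ q.divisors.filter (fun d => d ≠ 1 ∧ d ≤ D0), GGs l Y N y (q / d) d ≤
        ((1 / c2 ^ 2) * (C3 * C1 ^ 2) * H ^ (4 * δ) * x * (D0 : ℝ) ^ 3) * (1 / (q : ℝ) ^ 2) := by
      intro q hq
      unfold H343.Mod at hq
      rw [mem_filter, mem_Ioc] at hq
      have hq1 : 1 ≤ q := by omega
      have hqR : (q : ℝ) ≤ H := by
        refine le_trans ?_ hRH1
        exact_mod_cast hq.1.2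
      have hq0 : (0 : ℝ) < q := by exact_mod_cast hq1
      have h2 := phi_inv_sq hδ hc2 hphi H q hq1 hqR
      have hdq : (q.divisors.card : ℝ) ≤ C1 * H ^ δ := by
        refine (hdiv q hq1).trans ?_
        gcongr
      have h3 : ∀ d ∈ q.divisors.filter (fun d => d ≠ 1 ∧ d ≤ D0),
          GGs l Y N y (q / d) d ≤ C3 * x * (C1 * H ^ δ) * (D0 : ℝ) ^ 3 := by
        intro d hd
        rw [mem_filter, Nat.mem_divisors] at hd
        have hd0 : 0 < d := Nat.pos_of_dvd_of_pos hd.1.1 hq1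
        have hm1 : 1 ≤ q / d := Nat.div_pos (Nat.le_of_dvd hq1 hd.1.1) hd0
        refine (hGG x Y N y (q / d) d hx hY hm1 (by omega) hyx).trans ?_
        have h4 : ((q / d).divisors.card : ℝ) ≤ C1 * H ^ δ := by
          refine le_trans ?_ hdq
          have h5 : (q / d).divisors ⊆ q.divisors :=
            Nat.divisors_subset_of_dvd (by omega) (Nat.div_dvd_of_dvd hd.1.1)
          exact_mod_cast card_le_card h5
        have h6 : (d : ℝ) ≤ D0 := by exact_mod_cast hd.2.2
        gcongr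
      have h4 := sum_le_card_nsmul _ _ _ h3
      rw [nsmul_eq_mul] at h4
      have h5 : ((q.divisors.filter (fun d => d ≠ 1 ∧ d ≤ D0)).card : ℝ) ≤ C1 * H ^ δ := by
        refine le_trans ?_ hdq
        exact_mod_cast card_le_card (filter_subset _ _)
      calc _ ≤ ((1 / c2 ^ 2) * H ^ (2 * δ) * (1 / (q : ℝ) ^ 2)) *
            ((C1 * H ^ δ) * (C3 * x * (C1 * H ^ δ) * (D0 : ℝ) ^ 3)) := by
            apply mul_le_mul h2 _ _ (by positivity)
            · refine h4.trans ?_
              gcongr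
            · exact sum_nonneg fun d _ => GGs_nonneg l Y N y (q / d) d
        _ = ((1 / c2 ^ 2) * (C3 * C1 ^ 2) * (H ^ (2 * δ) * H ^ δ * H ^ δ) * x * (D0 : ℝ) ^ 3) *
            (1 / (q : ℝ) ^ 2) := by ring
        _ = _ := by
            rw [← Real.rpow_add hHpos, ← Real.rpow_add hHpos]
            congr 4
            ring_nf
    refine (sum_le_sum h1).trans ?_
    rw [← mul_sum]
    have h2 : ∑ q ∈ Mod Q R, 1 / (q : ℝ) ^ 2 ≤ 1 / (Q : ℝ) := by
      refine le_trans ?_ (sum_inv_sq_Ioc Q R hQ1)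
      unfold H343.Mod
      exact sum_le_sum_of_subset_of_nonneg (filter_subset _ _) fun q _ _ => by positivity
    have h3 : x * (1 / (Q : ℝ)) ≤ H ^ (1 - 4 * ε) := by
      have h4 := hcut.hQ2
      rw [div_le_iff₀ hY] at h4
      rw [mul_one_div, div_le_iff₀ hQ0]
      have h5 : H ^ (1 - 4 * ε) * H ^ (4 * ε) = x * Y := by
        rw [← Real.rpow_add hHpos]
        have : 1 - 4 * ε + 4 * ε = 1 := by ring
        rw [this, Real.rpow_one]
      have h6 : 0 < H ^ (1 - 4 * ε) := by positivity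
      have h7 : x * Y ≤ H ^ (1 - 4 * ε) * (Q * Y) := by
        rw [← h5]
        exact mul_le_mul_of_nonneg_left h4 h6.le
      have h8 : x * Y ≤ (H ^ (1 - 4 * ε) * Q) * Y := by linarith
      exact le_of_mul_le_mul_right h8 hY
    have h9 : (D0 : ℝ) ^ 3 ≤ 8 * H ^ (3 * ε / 5) := by
      calc (D0 : ℝ) ^ 3 ≤ (2 * H ^ (ε / 5)) ^ 3 := by gcongr
        _ = 8 * (H ^ (ε / 5)) ^ 3 := by ring
        _ = 8 * H ^ (3 * ε / 5) := by
            rw [← Real.rpow_natCast, ← Real.rpow_mul hHpos.le]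
            congr 2
            push_cast
            ring
    calc _ ≤ ((1 / c2 ^ 2) * (C3 * C1 ^ 2) * H ^ (4 * δ) * x * (D0 : ℝ) ^ 3) * (1 / (Q : ℝ)) := by
          gcongr
      _ = (1 / c2 ^ 2) * (C3 * C1 ^ 2) * H ^ (4 * δ) * (x * (1 / (Q : ℝ))) * (D0 : ℝ) ^ 3 := by ring
      _ ≤ (1 / c2 ^ 2) * (C3 * C1 ^ 2) * H ^ (4 * δ) * H ^ (1 - 4 * ε) *
          (8 * H ^ (3 * ε / 5)) := by gcongr
      _ = K1 * (H ^ (4 * δ) * H ^ (1 - 4 * ε) * H ^ (3 * ε / 5)) := by rw [hK1]; ring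
      _ = K1 * H ^ (4 * δ + (1 - 4 * ε) + 3 * ε / 5) := by
          rw [← Real.rpow_add hHpos, ← Real.rpow_add hHpos]
      _ ≤ K1 * H ^ (1 - 3 * ε) :=
          mul_le_mul_of_nonneg_left
            (Real.rpow_le_rpow_of_exponent_le hH1 (by rw [hδdef]; linarith)) hK1p.le
  -- step 3 : large conductors
  have hlarge : ∑ q ∈ Mod Q R, ∑ d ∈ q.divisors.filter (fun d => D0 < d),
          1 / (Nat.totient (d * (q / d)) : ℝ) ^ 2 * GGs l Y N y (q / d) d ≤
      K2 * H ^ (1 - ε / 20 + 4 * δ) := by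
    rcases Nat.eq_zero_or_pos R with hR0 | hR0
    · subst hR0
      have : Mod Q 0 = ∅ := by
        unfold H343.Mod
        rw [Ioc_eq_empty (by omega)]
        simp
      rw [this, sum_empty]
      positivity
    set J : ℕ := Nat.log 2 R + 1 with hJ
    have hJR : R ≤ 2 ^ J * D0 := by
      have h1 : R < 2 ^ J := Nat.lt_pow_succ_log_self (by norm_num) R
      calc R ≤ 2 ^ J * 1 := by omega
        _ ≤ 2 ^ J * D0 := Nat.mul_le_mul_left _ hD01
    have h1 := rearrange (fun d m => 1 / (Nat.totient (d * m) : ℝ) ^ 2 * GGs l Y N y m d)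
      (fun d m => mul_nonneg (by positivity) (GGs_nonneg l Y N y m d)) Q R D0 J hJR
    refine h1.trans ?_
    have hHs : 0 < H ^ (1 - ε / 20) := by positivity
    have h2 : ∀ j ∈ range J, ∀ m ∈ Icc 1 R, ∑ d ∈ Ioc (2 ^ j * D0) (2 * (2 ^ j * D0)),
        (if d * m ≤ R then 1 / (Nat.totient (d * m) : ℝ) ^ 2 * GGs l Y N y m d else 0) ≤
        (1 / c2 ^ 2) * H ^ (2 * δ) * H ^ (1 - ε / 20) * (1 / (m : ℝ)) := by
      intro j _ m hm
      rw [mem_Icc] at hm
      set D : ℕ := 2 ^ j * D0 with hD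
      have hDD0 : D0 ≤ D := Nat.le_mul_of_pos_left _ (by positivity)
      have hDpos : 0 < D := by omega
      have hD0' : (0 : ℝ) < D := by exact_mod_cast hDpos
      have hm0 : (0 : ℝ) < m := by exact_mod_cast hm.1
      rcases Nat.lt_or_ge R (D * m) with hbig | hsm
      · -- empty
        have h3 : ∀ d ∈ Ioc D (2 * D), (if d * m ≤ R then
            1 / (Nat.totient (d * m) : ℝ) ^ 2 * GGs l Y N y m d else 0) = 0 := by
          intro d hd
          rw [mem_Ioc] at hd
          rw [if_neg]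
          intro h
          have : D * m ≤ d * m := Nat.mul_le_mul_right _ hd.1.le
          omega
        rw [sum_eq_zero h3]
        positivity
      · have h3 : ∀ d ∈ Ioc D (2 * D), (if d * m ≤ R then
            1 / (Nat.totient (d * m) : ℝ) ^ 2 * GGs l Y N y m d else 0) ≤
            ((1 / c2 ^ 2) * H ^ (2 * δ) * (1 / ((D : ℝ) * m) ^ 2)) *
              GGs l Y (2 * N) y m d := by
          intro d hd
          rw [mem_Ioc] at hd
          have hd0 : 0 < d := by omega
          have hG0 := GGs_nonneg l Y (2 * N) y m d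
          split_ifs with h
          · have hdm1 : 1 ≤ d * m := Nat.mul_pos hd0 hm.1
            have hdmH : ((d * m : ℕ) : ℝ) ≤ H := by
              refine le_trans ?_ hRH1
              exact_mod_cast h
            have h4 := phi_inv_sq hδ hc2 hphi H (d * m) hdm1 hdmH
            have h5 : GGs l Y N y m d = GGs l Y (2 * N) y m d := by
              apply GGs_mono hl Y N (2 * N) y m d hY hm.1 hd0 (by omega)
              refine le_trans ?_ hcut.hN
              have : ((d * m : ℕ) : ℝ) ≤ R := by exact_mod_cast h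
              calc Real.exp B * (((d * m : ℕ) : ℝ) * Y) ≤ Real.exp B * ((R : ℝ) * Y) := by gcongr
                _ = _ := by ring
            rw [h5]
            apply mul_le_mul_of_nonneg_right _ hG0
            refine h4.trans ?_
            have h6 : (D : ℝ) * m ≤ ((d * m : ℕ) : ℝ) := by
              push_cast
              have : (D : ℝ) ≤ d := by exact_mod_cast hd.1.le
              gcongr
            gcongr
          · positivity
        refine (sum_le_sum h3).trans ?_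
        rw [← mul_sum]
        have h4 := hKF x Y hr hHK D m (2 * N) y ?_ hm.1 ?_ ?_ hyx l hl
        · have h5 : ∑ d ∈ Ioc D (2 * D), GGs l Y (2 * N) y m d ≤
              H ^ (1 - ε / 20) * D ^ 2 * m := h4
          calc _ ≤ ((1 / c2 ^ 2) * H ^ (2 * δ) * (1 / ((D : ℝ) * m) ^ 2)) *
                (H ^ (1 - ε / 20) * D ^ 2 * m) := by gcongr
            _ = _ := by field_simp
        · refine hD0ge.trans ?_
          exact_mod_cast hDD0
        · refine le_trans ?_ hRH
          exact_mod_cast hsm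
        · have h6 := hcut.hN
          have h7 : ((D : ℝ) * m) ≤ R := by exact_mod_cast hsm
          push_cast
          calc Real.exp B * (2 * D * m) * Y = 2 * (Real.exp B * ((D : ℝ) * m) * Y) := by ring
            _ ≤ 2 * (Real.exp B * R * Y) := by gcongr
            _ ≤ 2 * N := by gcongr
    have h3 : ∑ j ∈ range J, ∑ m ∈ Icc 1 R, ∑ d ∈ Ioc (2 ^ j * D0) (2 * (2 ^ j * D0)),
        (if d * m ≤ R then 1 / (Nat.totient (d * m) : ℝ) ^ 2 * GGs l Y N y m d else 0) ≤
        ∑ j ∈ range J, ∑ m ∈ Icc 1 R,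
          (1 / c2 ^ 2) * H ^ (2 * δ) * H ^ (1 - ε / 20) * (1 / (m : ℝ)) :=
      sum_le_sum fun j hj => sum_le_sum fun m hm => h2 j hj m hm
    refine h3.trans ?_
    rw [sum_const, card_range, nsmul_eq_mul, ← mul_sum]
    -- harmonic sum and J
    have hR1 : (1 : ℝ) ≤ R := by exact_mod_cast hR0
    have hlogR0 : 0 ≤ Real.log R := Real.log_nonneg hR1
    have hlogRH : Real.log R ≤ Real.log H := Real.log_le_log (by linarith) hRH1
    have hlogH : Real.log H ≤ H ^ δ / δ := Real.log_le_rpow_div hHpos.le hδ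
    have hHδ : 1 ≤ H ^ δ := Real.one_le_rpow hH1 hδ.le
    have h4 : ∑ m ∈ Icc 1 R, 1 / (m : ℝ) ≤ (1 + 1 / δ) * H ^ δ := by
      have h := harmonic_le_one_add_log R
      have h5 : ∑ m ∈ Icc 1 R, 1 / (m : ℝ) = (harmonic R : ℝ) := by
        rw [harmonic_eq_sum_Icc]
        push_cast
        exact sum_congr rfl fun m _ => one_div _
      rw [h5]
      have h6 : (1 + 1 / δ) * H ^ δ = H ^ δ + H ^ δ / δ := by ring
      rw [h6]
      linarith
    have h5 : (J : ℝ) ≤ 3 * ((1 + 1 / δ) * H ^ δ) := by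
      have h6 : ((Nat.log 2 R : ℕ) : ℝ) * Real.log 2 ≤ Real.log R := by
        have h7 : (2 : ℝ) ^ (Nat.log 2 R) ≤ R := by
          exact_mod_cast Nat.pow_log_le_self 2 (by omega)
        have h8 := Real.log_le_log (by positivity) h7
        rwa [Real.log_pow] at h8
      have hl2 : 1 / 2 < Real.log 2 := by
        have := Real.log_two_gt_d9
        linarith
      have hn0 : (0 : ℝ) ≤ ((Nat.log 2 R : ℕ) : ℝ) := by positivity
      rw [hJ]
      push_cast
      have h6 : 3 * ((1 + 1 / δ) * H ^ δ) = 3 * H ^ δ + 3 * (H ^ δ / δ) := by ring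
      rw [h6]
      have h9 : 0 ≤ H ^ δ / δ := by positivity
      nlinarith
    have h6 : 0 ≤ ∑ m ∈ Icc 1 R, 1 / (m : ℝ) := sum_nonneg fun m _ => by positivity
    calc (J : ℝ) * ((1 / c2 ^ 2) * H ^ (2 * δ) * H ^ (1 - ε / 20) * ∑ m ∈ Icc 1 R, 1 / (m : ℝ))
        ≤ (3 * ((1 + 1 / δ) * H ^ δ)) * ((1 / c2 ^ 2) * H ^ (2 * δ) * H ^ (1 - ε / 20) *
            ((1 + 1 / δ) * H ^ δ)) := by gcongr
      _ = K2 * (H ^ δ * H ^ (2 * δ) * H ^ (1 - ε / 20) * H ^ δ) := by rw [hK2]; ring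
      _ = K2 * H ^ (1 - ε / 20 + 4 * δ) := by
          rw [← Real.rpow_add hHpos, ← Real.rpow_add hHpos, ← Real.rpow_add hHpos]
          congr 2
          ring
  -- conclusion
  have hA : H ^ (1 - 3 * ε) ≤ H ^ (1 - ε / 20 + 4 * δ) :=
    Real.rpow_le_rpow_of_exponent_le hH1 (by rw [hδdef]; linarith)
  calc _ ≤ K1 * H ^ (1 - 3 * ε) + K2 * H ^ (1 - ε / 20 + 4 * δ) := add_le_add hsmall hlarge
    _ ≤ K1 * H ^ (1 - ε / 20 + 4 * δ) + K2 * H ^ (1 - ε / 20 + 4 * δ) := by gcongr
    _ = (K1 + K2) * H ^ (1 - ε / 20 + 4 * δ) := by ring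
    _ ≤ H ^ (ε / 100) * H ^ (1 - ε / 20 + 4 * δ) := by gcongr
    _ = H ^ (ε / 100 + (1 - ε / 20 + 4 * δ)) := by rw [← Real.rpow_add hHpos]
    _ ≤ H ^ (1 - ε / 40) := Real.rpow_le_rpow_of_exponent_le hH1 (by rw [hδdef]; linarith)

end KeySharp

end H336V
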