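import Pool.Agent.H336R2.V.TotLog

set_option autoImplicit false

open Finset

namespace H336V

open H343

namespace LLKLower

theorem LLK_nonneg (k Q R : ℕ) : 0 ≤ LLK k Q R := sum_nonneg fun _ _ => by positivity

theorem LLK_mono {k R R' : ℕ} (h : R ≤ R') : LLK k 0 R ≤ LLK k 0 R' := by
  unfold LLK
  apply sum_le_sum_of_subset_of_nonneg
  · intro q hq
    simp only [ModK, H343.Mod, mem_filter, mem_Ioc] at hq ⊢
    exact ⟨⟨⟨hq.1.1.1, hq.1.1.2.trans h⟩, hq.1.2⟩, hq.2⟩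
  · intros; positivity

theorem LLK_le_LL (k R : ℕ) : LLK k 0 R ≤ LL 0 R := by
  unfold LLK LL
  apply sum_le_sum_of_subset_of_nonneg
  · intro q hq
    exact (mem_filter.1 hq).1
  · intros; positivity

theorem inner_sum (k N l : ℕ) (hl : l ∣ k) (hk : 1 ≤ k) (hls : Squarefree l) :
    ∑ q ∈ (H343.Mod 0 N).filter (fun q => Nat.gcd q k = l), (1 : ℝ) / Nat.totient q =
      (1 : ℝ) / Nat.totient l * LLK k 0 (N / l) := by
  have hl0 : 0 < l := Nat.pos_of_dvd_of_pos hl hk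
  unfold LLK
  rw [mul_sum]
  symm
  apply sum_nbij' (fun h => l * h) (fun q => q / l)
  · intro h hh
    simp only [ModK, H343.Mod, mem_filter, mem_Ioc] at hh ⊢
    obtain ⟨⟨⟨h1, h2⟩, h3⟩, h4⟩ := hh
    have hc : Nat.Coprime l h := (Nat.Coprime.coprime_dvd_right hl h4).symm
    refine ⟨⟨⟨Nat.mul_pos hl0 h1, ?_⟩, ?_⟩, ?_⟩
    · rw [mul_comm]; exact (Nat.le_div_iff_mul_le hl0).1 h2
    · exact (Nat.squarefree_mul hc).2 ⟨hls, h3⟩
    · rw [Nat.Coprime.gcd_mul_right_cancel l h4]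
      exact Nat.gcd_eq_left hl
  · intro q hq
    simp only [ModK, H343.Mod, mem_filter, mem_Ioc] at hq ⊢
    obtain ⟨⟨⟨h1, h2⟩, h3⟩, h4⟩ := hq
    have hlq : l ∣ q := by rw [← h4]; exact Nat.gcd_dvd_left _ _
    have hq' : l * (q / l) = q := Nat.mul_div_cancel' hlq
    refine ⟨⟨⟨Nat.div_pos (Nat.le_of_dvd h1 hlq) hl0, Nat.div_le_div_right h2⟩, ?_⟩, ?_⟩
    · exact h3.squarefree_of_dvd (Nat.div_dvd_of_dvd hlq)
    · have h5 : (q / l).gcd k ∣ l := by
        have h55 : (q / l).gcd k ∣ Nat.gcd q k :=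
          Nat.dvd_gcd ((Nat.gcd_dvd_left _ _).trans (Nat.div_dvd_of_dvd hlq))
            (Nat.gcd_dvd_right _ _)
        rwa [h4] at h55
      have h6 : (q / l).gcd k * (q / l).gcd k ∣ q := by
        conv_rhs => rw [← hq']
        exact Nat.mul_dvd_mul h5 (Nat.gcd_dvd_left _ _)
      exact Nat.isUnit_iff.1 (h3 _ h6)
  · intro h _
    exact Nat.mul_div_cancel_left h hl0
  · intro q hq
    simp only [mem_filter] at hq
    have hlq : l ∣ q := by rw [← hq.2]; exact Nat.gcd_dvd_left _ _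
    exact Nat.mul_div_cancel' hlq
  · intro h hh
    simp only [ModK, H343.Mod, mem_filter, mem_Ioc] at hh
    have hc : Nat.Coprime l h := (Nat.Coprime.coprime_dvd_right hl hh.2).symm
    rw [Nat.totient_mul hc]
    push_cast
    rw [one_div_mul_one_div]

theorem LL_decomp (k N : ℕ) (hk : 1 ≤ k) :
    LL 0 N = ∑ l ∈ k.divisors.filter Squarefree, (1 : ℝ) / Nat.totient l * LLK k 0 (N / l) := by
  unfold LL
  rw [← sum_fiberwise_of_maps_to (s := H343.Mod 0 N) (t := k.divisors.filter Squarefree)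
    (g := fun q => Nat.gcd q k)]
  · apply sum_congr rfl
    intro l hl
    simp only [mem_filter, Nat.mem_divisors] at hl
    exact inner_sum k N l hl.1.1 hk hl.2
  · intro q hq
    simp only [H343.Mod, mem_filter, mem_Ioc] at hq
    simp only [mem_filter, Nat.mem_divisors]
    exact ⟨⟨Nat.gcd_dvd_right _ _, by omega⟩, hq.2.squarefree_of_dvd (Nat.gcd_dvd_left _ _)⟩

/-- lower bound for the full sum -/
theorem lower (k N : ℕ) (hk : 1 ≤ k) (hN : 1 ≤ N) :
    Real.log N ≤ (k : ℝ) / Nat.totient k * LLK k 0 N := by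
  refine (PhiSum.totient_lower N hN).trans ?_
  rw [LL_decomp k N hk, TotLog.div_totient k hk, sum_mul]
  apply sum_le_sum
  intro l hl
  apply mul_le_mul_of_nonneg_left _ (by positivity)
  exact LLK_mono (Nat.div_le_self _ _)

theorem upper : ∃ C1 : ℝ, 0 < C1 ∧ ∃ D : ℝ, 0 < D ∧ ∀ k Q L : ℕ, 1 ≤ k → 1 ≤ Q → 1 ≤ L →
    ((k : ℝ) / Nat.totient k - (k.divisors.card : ℝ) * (D * (L : ℝ) ^ (-(1 / 2) : ℝ))) *
      LLK k 0 Q ≤ Real.log Q + Real.log L + C1 := by
  obtain ⟨C1, hC1, h1⟩ := PhiSum.totient_upper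
  obtain ⟨c, hc, h2⟩ := phi_bound (1 / 2) (by norm_num)
  refine ⟨C1, hC1, 1 / c, by positivity, fun k Q L hk hQ hL => ?_⟩
  have hQ0 : (0 : ℝ) < Q := by exact_mod_cast hQ
  have hL0 : (0 : ℝ) < L := by exact_mod_cast hL
  have h3 := h1 (Q * L) (Nat.mul_pos hQ hL)
  push_cast at h3
  rw [Real.log_mul hQ0.ne' hL0.ne', LL_decomp k _ hk] at h3
  refine le_trans ?_ h3
  have h4 : ∑ l ∈ (k.divisors.filter Squarefree).filter (fun l => l ≤ L), (1 : ℝ) / Nat.totient l *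
      LLK k 0 Q ≤ ∑ l ∈ k.divisors.filter Squarefree,
        (1 : ℝ) / Nat.totient l * LLK k 0 (Q * L / l) := by
    refine le_trans (sum_le_sum (g := fun l => (1 : ℝ) / Nat.totient l *
      LLK k 0 (Q * L / l)) ?_) (sum_le_sum_of_subset_of_nonneg (filter_subset _ _) ?_)
    · intro l hl
      simp only [mem_filter, Nat.mem_divisors] at hl
      apply mul_le_mul_of_nonneg_left _ (by positivity)
      apply LLK_mono
      have hl0 : 0 < l := Nat.pos_of_dvd_of_pos hl.1.1.1 hk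
      rw [Nat.le_div_iff_mul_le hl0]
      exact Nat.mul_le_mul_left _ hl.2
    · intro l _ _
      exact mul_nonneg (by positivity) (LLK_nonneg _ _ _)
  refine le_trans ?_ h4
  rw [← sum_mul]
  apply mul_le_mul_of_nonneg_right _ (LLK_nonneg _ _ _)
  rw [TotLog.div_totient k hk,
    ← sum_filter_add_sum_filter_not (k.divisors.filter Squarefree) (fun l => l ≤ L)]
  have h5 : ∑ l ∈ (k.divisors.filter Squarefree).filter (fun l => ¬ l ≤ L),
      (1 : ℝ) / Nat.totient l ≤ (k.divisors.card : ℝ) * (1 / c * (L : ℝ) ^ (-(1 / 2) : ℝ)) := by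
    have hterm : ∀ l ∈ (k.divisors.filter Squarefree).filter (fun l => ¬ l ≤ L),
        (1 : ℝ) / Nat.totient l ≤ 1 / c * (L : ℝ) ^ (-(1 / 2) : ℝ) := by
      intro l hl
      simp only [mem_filter, Nat.mem_divisors, not_le] at hl
      have hLl : (L : ℝ) ≤ l := by exact_mod_cast hl.2.le
      have h6 := h2 l (by omega)
      have h7 : c * (L : ℝ) ^ (1 / 2 : ℝ) ≤ Nat.totient l := by
        refine le_trans ?_ h6
        apply mul_le_mul_of_nonneg_left _ hc.le
        rw [show (1 - 1 / 2 : ℝ) = 1 / 2 by norm_num]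
        exact Real.rpow_le_rpow hL0.le hLl (by norm_num)
      rw [Real.rpow_neg hL0.le, one_div c, ← mul_inv, one_div]
      exact inv_anti₀ (by positivity) h7
    refine (sum_le_sum hterm).trans ?_
    rw [sum_const, nsmul_eq_mul]
    apply mul_le_mul_of_nonneg_right _ (by positivity)
    exact_mod_cast (card_filter_le _ _).trans (card_filter_le _ _)
  linarith

theorem split (k Q R : ℕ) (h : Q ≤ R) : LLK k 0 Q + LLK k Q R = LLK k 0 R := by
  unfold LLK
  rw [← sum_union]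
  · congr 1
    ext q
    simp only [ModK, H343.Mod, mem_union, mem_filter, mem_Ioc]
    constructor
    · rintro (⟨⟨h1, h2⟩, h3⟩ | ⟨⟨h1, h2⟩, h3⟩)
      · exact ⟨⟨⟨h1.1, h1.2.trans h⟩, h2⟩, h3⟩
      · exact ⟨⟨⟨by omega, h1.2⟩, h2⟩, h3⟩
    · rintro ⟨⟨h1, h2⟩, h3⟩
      by_cases h4 : q ≤ Q
      · exact Or.inl ⟨⟨⟨h1.1, h4⟩, h2⟩, h3⟩
      · exact Or.inr ⟨⟨⟨by omega, h1.2⟩, h2⟩, h3⟩
  · rw [Finset.disjoint_left]
    intro q hq hq'
    simp only [ModK, H343.Mod, mem_filter, mem_Ioc] at hq hq'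
    omega

end LLKLower

open LLKLower in
theorem LLK_lower (ε η : ℝ) (hε : 0 < ε) (hη : 0 < η) : ∃ k0 : ℝ, ∀ k Q R : ℕ, k0 ≤ k →
    (k : ℝ) ^ ε ≤ Q → Q ≤ R → R ≤ k →
    ((Nat.totient k : ℝ) / k) * (Real.log (R / Q) - η * Real.log k) ≤ LLK k Q R := by
  obtain ⟨C1, hC1, D, hD, hup⟩ := upper
  obtain ⟨C2, hC2, hll⟩ := PhiSum.totient_upper
  obtain ⟨C, hC, hdiv⟩ := div_bound (η / 8) (by positivity)
  -- size conditions
  set M : ℝ := Real.log 2 + C1 + C2 + 1 with hM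
  have hlog2 : 0 < Real.log 2 := Real.log_pos (by norm_num)
  have hM0 : 0 < M := by positivity
  set E : ℝ := C * D with hE
  have hE0 : 0 < E := by positivity
  -- `E k^(-η/8) ≤ min 1 (η/8)`
  set m : ℝ := min 1 (η / 8) with hm
  have hm0 : 0 < m := by positivity
  refine ⟨max (max 1 (Real.exp (M * 4 / η))) ((E / m) ^ (8 / η)), fun k Q R hk hQ hQR hRk => ?_⟩
  have hk1r : (1 : ℝ) ≤ k := ((le_max_left _ _).trans (le_max_left _ _)).trans hk
  have hk2 : Real.exp (M * 4 / η) ≤ k := ((le_max_right _ _).trans (le_max_left _ _)).trans hk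
  have hk3 : (E / m) ^ (8 / η) ≤ k := (le_max_right _ _).trans hk
  have hk1 : 1 ≤ k := by exact_mod_cast hk1r
  have hk0 : (0 : ℝ) < k := by linarith
  have hkε : (1 : ℝ) ≤ (k : ℝ) ^ ε := Real.one_le_rpow hk1r hε.le
  have hQ1 : 1 ≤ Q := by
    have : (1 : ℝ) ≤ Q := hkε.trans hQ
    exact_mod_cast this
  have hR1 : 1 ≤ R := hQ1.trans hQR
  have hQ0 : (0 : ℝ) < Q := by exact_mod_cast hQ1
  have hR0 : (0 : ℝ) < R := by exact_mod_cast hR1
  have htot : (0 : ℝ) < Nat.totient k := by exact_mod_cast Nat.totient_pos.2 hk1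
  have hlogk : M * 4 / η ≤ Real.log k := by
    rw [← Real.log_exp (M * 4 / η)]
    exact Real.log_le_log (Real.exp_pos _) hk2
  have hlogk' : M ≤ η / 4 * Real.log k := by
    rw [div_le_iff₀ hη] at hlogk
    linarith
  have hEk : E * (k : ℝ) ^ (-(η / 8)) ≤ m := by
    have h1 : E / m ≤ (k : ℝ) ^ (η / 8) := by
      have h2 := Real.rpow_le_rpow (by positivity) hk3 (by positivity : 0 ≤ η / 8)
      rwa [← Real.rpow_mul (by positivity), show 8 / η * (η / 8) = 1 by field_simp,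
        Real.rpow_one] at h2
    have h3 : 0 < (k : ℝ) ^ (η / 8) := by positivity
    rw [Real.rpow_neg hk0.le, ← div_eq_mul_inv, div_le_iff₀ h3]
    rw [div_le_iff₀ hm0] at h1
    linarith
  set L : ℕ := ⌈(k : ℝ) ^ (η / 2)⌉₊ with hL
  have hkη : (1 : ℝ) ≤ (k : ℝ) ^ (η / 2) := Real.one_le_rpow hk1r (by positivity)
  have hLge : (k : ℝ) ^ (η / 2) ≤ L := Nat.le_ceil _
  have hL1 : 1 ≤ L := by
    have : (1 : ℝ) ≤ L := hkη.trans hLge
    exact_mod_cast this
  have hLle : (L : ℝ) ≤ 2 * (k : ℝ) ^ (η / 2) := by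
    have := (Nat.ceil_lt_add_one (by positivity : (0 : ℝ) ≤ (k : ℝ) ^ (η / 2))).le
    rw [← hL] at this
    linarith
  have hlogL : Real.log L ≤ Real.log 2 + η / 2 * Real.log k := by
    have h1 : Real.log L ≤ Real.log (2 * (k : ℝ) ^ (η / 2)) :=
      Real.log_le_log (by exact_mod_cast hL1) hLle
    rw [Real.log_mul (by norm_num) (by positivity), Real.log_rpow hk0] at h1
    exact h1
  have hL0 : (0 : ℝ) < L := by exact_mod_cast hL1
  have hτ : (k.divisors.card : ℝ) * (D * (L : ℝ) ^ (-(1 / 2) : ℝ)) ≤ m := by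
    refine le_trans ?_ hEk
    have h1 : (L : ℝ) ^ (-(1 / 2) : ℝ) ≤ (k : ℝ) ^ (-(η / 4)) := by
      have h2 : (k : ℝ) ^ (-(η / 4)) = ((k : ℝ) ^ (η / 2)) ^ (-(1 / 2) : ℝ) := by
        rw [← Real.rpow_mul hk0.le]; congr 1; ring
      rw [h2]
      exact Real.rpow_le_rpow_of_nonpos (by positivity) hLge (by norm_num)
    have h3 := hdiv k hk1
    calc (k.divisors.card : ℝ) * (D * (L : ℝ) ^ (-(1 / 2) : ℝ))
        ≤ (C * (k : ℝ) ^ (η / 8)) * (D * (k : ℝ) ^ (-(η / 4))) := by gcongr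
      _ = E * ((k : ℝ) ^ (η / 8) * (k : ℝ) ^ (-(η / 4))) := by rw [hE]; ring
      _ = E * (k : ℝ) ^ (-(η / 8)) := by
        rw [← Real.rpow_add hk0]; congr 2; ring
  have h1 := lower k R hk1 hR1
  have h2 := hup k Q L hk1 hQ1 hL1
  have h3 := split k Q R hQR
  have h4 : LLK k 0 Q ≤ Real.log k + C2 := by
    refine (LLK_le_LL k Q).trans ((hll Q hQ1).trans ?_)
    have : Real.log Q ≤ Real.log k := Real.log_le_log hQ0 (by exact_mod_cast hQR.trans hRk)
    linarith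
  have hSnn := LLK_nonneg k 0 Q
  have h5 : (k.divisors.card : ℝ) * (D * (L : ℝ) ^ (-(1 / 2) : ℝ)) * LLK k 0 Q ≤
      m * (Real.log k + C2) := by
    apply mul_le_mul hτ h4 hSnn hm0.le
  have hlk : 0 ≤ Real.log k := Real.log_nonneg hk1r
  have h6 : m * (Real.log k + C2) ≤ η / 8 * Real.log k + C2 := by
    have a1 : m ≤ η / 8 := min_le_right _ _
    have a2 : m ≤ 1 := min_le_left _ _
    nlinarith
  have h7 : (k : ℝ) / Nat.totient k * LLK k 0 Q ≤ Real.log Q + η * Real.log k := by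
    have : (k : ℝ) / Nat.totient k * LLK k 0 Q ≤ Real.log Q + Real.log L + C1 +
        (k.divisors.card : ℝ) * (D * (L : ℝ) ^ (-(1 / 2) : ℝ)) * LLK k 0 Q := by
      linarith [h2, sub_mul ((k : ℝ) / Nat.totient k)
        ((k.divisors.card : ℝ) * (D * (L : ℝ) ^ (-(1 / 2) : ℝ))) (LLK k 0 Q)]
    have hM' : Real.log 2 + C1 + C2 ≤ η / 4 * Real.log k := by
      refine le_trans ?_ hlogk'
      rw [hM]; linarith
    nlinarith
  have h8 : Real.log (R / Q) = Real.log R - Real.log Q := Real.log_div hR0.ne' hQ0.ne'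
  have h9 : Real.log (R / Q) - η * Real.log k ≤ (k : ℝ) / Nat.totient k * LLK k Q R := by
    have : (k : ℝ) / Nat.totient k * LLK k Q R = (k : ℝ) / Nat.totient k * LLK k 0 R -
        (k : ℝ) / Nat.totient k * LLK k 0 Q := by
      rw [← h3]; ring
    rw [this, h8]
    linarith
  calc ((Nat.totient k : ℝ) / k) * (Real.log (R / Q) - η * Real.log k)
      ≤ ((Nat.totient k : ℝ) / k) * ((k : ℝ) / Nat.totient k * LLK k Q R) := by
        apply mul_le_mul_of_nonneg_left h9 (by positivity)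
    _ = LLK k Q R := by
        field_simp

end H336V
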