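import Pool.Agent.H336R2.V.Defs
import Pool.Agent.H336R2.V.Raman

set_option autoImplicit false

open Finset MeasureTheory

namespace H336V

open H343

namespace MeanSum

theorem inv_coprime (k q : ℕ) (h : q.Coprime k) : (inv k q).Coprime k := by
  unfold inv
  have h1 : ((q : ZMod k))⁻¹ = ((ZMod.unitOfCoprime q h)⁻¹ : (ZMod k)ˣ) := by
    rw [← ZMod.coe_unitOfCoprime q h, ZMod.inv_coe_unit]
  rw [h1]
  exact ZMod.val_coe_unit_coprime _

theorem dvd_of_dvd_mul_inv {k q a d : ℕ} (h : q.Coprime k) (hd : d ∣ k)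
    (hda : d ∣ a * inv k q) : d ∣ a := by
  have h1 : Nat.Coprime d (inv k q) := Nat.Coprime.coprime_dvd_left hd (inv_coprime k q h).symm
  exact h1.dvd_of_dvd_mul_right hda

theorem norm_ex (x : ℝ) : ‖ex x‖ = 1 := by
  unfold ex
  exact Complex.norm_exp_ofReal_mul_I _

theorem norm_co {B M : ℝ} {lam : ℝ → ℝ} (hl : Test B lam) (hM : ∀ v, |lam v| ≤ M) (hM0 : 0 ≤ M)
    {Y : ℝ} (hY : 0 < Y) (q a : ℕ) (hq : 1 ≤ q) (ha : 1 ≤ a) :
    ‖co lam Y q a‖ ≤ if a ≤ ⌊Real.exp B * q * Y⌋₊ then M / Nat.totient q else 0 := by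
  have hq0 : (0 : ℝ) < q := by exact_mod_cast hq
  have ha0 : (0 : ℝ) < a := by exact_mod_cast ha
  unfold co
  rw [norm_mul, norm_ex, mul_one, Complex.norm_real, Real.norm_eq_abs, abs_mul, abs_div]
  have hmu : |((ArithmeticFunction.moebius q : ℤ) : ℝ)| ≤ 1 := by
    have := ArithmeticFunction.abs_moebius_le_one (n := q)
    exact_mod_cast this
  have htot : (0 : ℝ) < Nat.totient q := by exact_mod_cast Nat.totient_pos.2 hq
  split_ifs with h
  · rw [abs_of_pos htot]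
    calc |((ArithmeticFunction.moebius q : ℤ) : ℝ)| / (Nat.totient q : ℝ) *
          |lam (Real.log (a / (q * Y)))| ≤ 1 / (Nat.totient q : ℝ) * M := by
          gcongr
          exact hM _
      _ = M / Nat.totient q := by ring
  · have h1 : Real.exp B * q * Y < a := by
      rw [not_le] at h
      exact Nat.lt_of_floor_lt h
    have h2 : B ≤ |Real.log (a / (q * Y))| := by
      refine le_trans ?_ (le_abs_self _)
      rw [Real.le_log_iff_exp_le (by positivity), le_div_iff₀ (by positivity)]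
      linarith
    rw [hl.supp _ h2]
    simp

theorem sum_div_count (k n : ℕ) :
    ∑ a ∈ Icc 1 n, ∑ d ∈ k.divisors.filter (fun d => d ∣ a), (d : ℝ) ≤
      (k.divisors.card : ℝ) * n := by
  have h1 : ∑ a ∈ Icc 1 n, ∑ d ∈ k.divisors.filter (fun d => d ∣ a), (d : ℝ) =
      ∑ d ∈ k.divisors, ((n / d : ℕ) : ℝ) * d := by
    simp only [sum_filter]
    rw [sum_comm]
    apply sum_congr rfl
    intro d _
    rw [← sum_filter, sum_const, nsmul_eq_mul]
    congr 2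
    exact Nat.Ioc_filter_dvd_card_eq_div n d
  rw [h1]
  have h2 : ∀ d ∈ k.divisors, ((n / d : ℕ) : ℝ) * d ≤ n := by
    intro d _
    exact_mod_cast Nat.div_mul_le_self n d
  refine (sum_le_sum h2).trans ?_
  rw [sum_const, nsmul_eq_mul]

theorem mean_sum_of
    (hr : ∀ (k : ℕ), 1 ≤ k → ∀ b : ℤ,
      ‖∑ n ∈ (range k).filter (fun n => n.Coprime k), ex ((n : ℝ) * b / k)‖ ≤
        ∑ d ∈ k.divisors.filter (fun d : ℕ => (d : ℤ) ∣ b), (d : ℝ))
    {B : ℝ} {lam : ℝ → ℝ} (hB : 1 ≤ B) (hl : Test B lam) (ε η : ℝ) (hε : 0 < ε)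
    (hε1 : ε ≤ 1 / 100) (hη : 0 < η) : ∃ X0 : ℝ, ∀ (X : ℝ) (k : ℕ), X0 ≤ X →
    RangeV ε X (k / X) → ∀ Q R N : ℕ, CutsV ε B X (k / X) Q R N →
    ‖∑ n ∈ (range k).filter (fun n => n.Coprime k), FF lam (k / X) k Q R N n‖ ≤
      η * Nat.totient k * (k / X) := by
  obtain ⟨M, hM0, hM⟩ := hl.bounded
  obtain ⟨C, hC, hdiv⟩ := div_bound (1 / 8) (by norm_num)
  obtain ⟨c, hc, hphi⟩ := phi_bound (1 / 8) (by norm_num)
  set E : ℝ := M * Real.exp B * C / (c * c * η) with hE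
  have hE0 : 0 < E := by positivity
  refine ⟨max 1 ((E ^ (16 / 3 : ℝ)) ^ 2), fun X k hX hR Q R N hcut => ?_⟩
  have hX0 : 0 < X := hR.hx
  have hY := hR.hY
  have hxY : X * (k / X) = k := by field_simp
  have hk1r : (1 : ℝ) ≤ k := by rw [← hxY]; exact hR.h1
  have hk1 : 1 ≤ k := by exact_mod_cast hk1r
  have hk0 : (0 : ℝ) < k := by linarith
  have hXk : X ≤ (k : ℝ) ^ 2 := by
    have h1 := hR.hhigh
    rw [hxY] at h1
    refine h1.trans ?_
    rw [← Real.rpow_natCast]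
    exact Real.rpow_le_rpow_of_exponent_le hk1r (by norm_num; linarith)
  have hEk : E ^ (16 / 3 : ℝ) ≤ k := by
    have h1 : (E ^ (16 / 3 : ℝ)) ^ 2 ≤ (k : ℝ) ^ 2 := ((le_max_right _ _).trans hX).trans hXk
    exact (pow_le_pow_iff_left₀ (by positivity) hk0.le (by norm_num)).1 h1
  have hEk' : E ≤ (k : ℝ) ^ (3 / 16 : ℝ) := by
    have := Real.rpow_le_rpow (by positivity) hEk (by norm_num : (0 : ℝ) ≤ 3 / 16)
    rwa [← Real.rpow_mul hE0.le, show (16 / 3 * (3 / 16) : ℝ) = 1 by norm_num,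
      Real.rpow_one] at this
  have hRle : (R : ℝ) ≤ (k : ℝ) ^ (1 / 2 : ℝ) := by
    have h1 := hcut.hR
    rw [hxY] at h1
    refine h1.trans ?_
    exact Real.rpow_le_rpow_of_exponent_le hk1r (by linarith)
  set Y : ℝ := k / X with hYdef
  -- the sum
  have step1 : ‖∑ n ∈ (range k).filter (fun n => n.Coprime k), FF lam Y k Q R N n‖ ≤
      ∑ q ∈ ModK k Q R, ∑ a ∈ (Icc 1 N).filter (fun a => a.Coprime q),
        ‖co lam Y q a‖ * ∑ d ∈ k.divisors.filter (fun d => d ∣ a), (d : ℝ) := by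
    have h1 : ∑ n ∈ (range k).filter (fun n => n.Coprime k), FF lam Y k Q R N n =
        ∑ q ∈ ModK k Q R, ∑ a ∈ (Icc 1 N).filter (fun a => a.Coprime q),
          co lam Y q a * ∑ n ∈ (range k).filter (fun n => n.Coprime k),
            ex ((n : ℝ) * ((a * inv k q : ℕ) : ℝ) / k) := by
      unfold FF
      rw [sum_comm]
      apply sum_congr rfl
      intro q _
      rw [sum_comm]
      apply sum_congr rfl
      intro a _
      rw [mul_sum]
    rw [h1]
    refine (norm_sum_le _ _).trans (sum_le_sum fun q hq => ?_)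
    refine (norm_sum_le _ _).trans (sum_le_sum fun a ha => ?_)
    rw [norm_mul]
    apply mul_le_mul_of_nonneg_left _ (norm_nonneg _)
    have h2 := hr k hk1 ((a * inv k q : ℕ) : ℤ)
    rw [Int.cast_natCast] at h2
    refine h2.trans ?_
    apply sum_le_sum_of_subset_of_nonneg
    · intro d hd
      simp only [mem_filter, Nat.mem_divisors] at hd ⊢
      refine ⟨hd.1, ?_⟩
      have h3 : d ∣ a * inv k q := by exact_mod_cast hd.2
      exact dvd_of_dvd_mul_inv (mem_filter.1 hq).2 hd.1.1 h3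
    · intros; positivity
  refine step1.trans ?_
  have step2 : ∀ q ∈ ModK k Q R, ∑ a ∈ (Icc 1 N).filter (fun a => a.Coprime q),
        ‖co lam Y q a‖ * ∑ d ∈ k.divisors.filter (fun d => d ∣ a), (d : ℝ) ≤
      M * Real.exp B * C / c * Y * (k : ℝ) ^ (1 / 8 + 1 / 16 : ℝ) := by
    intro q hq
    simp only [ModK, H343.Mod, mem_filter, mem_Ioc] at hq
    have hq1 : 1 ≤ q := by omega
    have hq0 : (0 : ℝ) < q := by exact_mod_cast hq1
    set n := ⌊Real.exp B * q * Y⌋₊ with hn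
    have htot : (0 : ℝ) < Nat.totient q := by exact_mod_cast Nat.totient_pos.2 hq1
    have h1 : ∑ a ∈ (Icc 1 N).filter (fun a => a.Coprime q),
        ‖co lam Y q a‖ * ∑ d ∈ k.divisors.filter (fun d => d ∣ a), (d : ℝ) ≤
        ∑ a ∈ Icc 1 n, M / Nat.totient q * ∑ d ∈ k.divisors.filter (fun d => d ∣ a), (d : ℝ) := by
      have h2 : ∀ a ∈ (Icc 1 N).filter (fun a => a.Coprime q),
          ‖co lam Y q a‖ * ∑ d ∈ k.divisors.filter (fun d => d ∣ a), (d : ℝ) ≤
          if a ≤ n then M / Nat.totient q * ∑ d ∈ k.divisors.filter (fun d => d ∣ a), (d : ℝ)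
            else 0 := by
        intro a ha
        simp only [mem_filter, mem_Icc] at ha
        have h3 := norm_co hl hM hM0.le hY q a hq1 ha.1.1
        rw [← hn] at h3
        have h4 : 0 ≤ ∑ d ∈ k.divisors.filter (fun d => d ∣ a), (d : ℝ) :=
          sum_nonneg fun _ _ => by positivity
        split_ifs at h3 ⊢ with h5
        · exact mul_le_mul_of_nonneg_right h3 h4
        · have : ‖co lam Y q a‖ = 0 := le_antisymm h3 (norm_nonneg _)
          rw [this, zero_mul]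
      refine (sum_le_sum h2).trans ?_
      rw [← sum_filter]
      apply sum_le_sum_of_subset_of_nonneg
      · intro a ha
        simp only [mem_filter, mem_Icc] at ha ⊢
        exact ⟨ha.1.1.1, ha.2⟩
      · intro a _ _
        exact mul_nonneg (by positivity) (sum_nonneg fun _ _ => by positivity)
    refine h1.trans ?_
    rw [← mul_sum]
    have h2 := sum_div_count k n
    have h3 : (n : ℝ) ≤ Real.exp B * q * Y := Nat.floor_le (by positivity)
    have h4 := hdiv k hk1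
    have h5 := hphi q hq1
    have h6 : (q : ℝ) / Nat.totient q ≤ (k : ℝ) ^ (1 / 16 : ℝ) / c := by
      rw [div_le_div_iff₀ htot hc]
      have h7 : (q : ℝ) = (q : ℝ) ^ (1 / 8 : ℝ) * (q : ℝ) ^ (1 - 1 / 8 : ℝ) := by
        rw [← Real.rpow_add hq0]; norm_num
      have h8 : (q : ℝ) ^ (1 / 8 : ℝ) ≤ (k : ℝ) ^ (1 / 16 : ℝ) := by
        have h9 : (q : ℝ) ≤ (k : ℝ) ^ (1 / 2 : ℝ) := by
          refine le_trans ?_ hRle
          exact_mod_cast hq.1.1.2
        have h10 := Real.rpow_le_rpow hq0.le h9 (by norm_num : (0 : ℝ) ≤ 1 / 8)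
        rwa [← Real.rpow_mul hk0.le, show (1 / 2 * (1 / 8) : ℝ) = 1 / 16 by norm_num] at h10
      calc (q : ℝ) * c = (q : ℝ) ^ (1 / 8 : ℝ) * (c * (q : ℝ) ^ (1 - 1 / 8 : ℝ)) := by
            conv_lhs => rw [h7]
            ring
        _ ≤ (k : ℝ) ^ (1 / 16 : ℝ) * Nat.totient q := by gcongr
    calc M / Nat.totient q * ∑ a ∈ Icc 1 n, ∑ d ∈ k.divisors.filter (fun d => d ∣ a), (d : ℝ)
        ≤ M / Nat.totient q * ((C * (k : ℝ) ^ (1 / 8 : ℝ)) * (Real.exp B * q * Y)) := by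
          apply mul_le_mul_of_nonneg_left _ (by positivity)
          refine h2.trans ?_
          gcongr
      _ = M * Real.exp B * C * Y * (k : ℝ) ^ (1 / 8 : ℝ) * ((q : ℝ) / Nat.totient q) := by
          field_simp
      _ ≤ M * Real.exp B * C * Y * (k : ℝ) ^ (1 / 8 : ℝ) * ((k : ℝ) ^ (1 / 16 : ℝ) / c) := by
          gcongr
      _ = M * Real.exp B * C / c * Y * (k : ℝ) ^ (1 / 8 + 1 / 16 : ℝ) := by
          rw [Real.rpow_add hk0]; ring
  refine (sum_le_sum step2).trans ?_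
  rw [sum_const, nsmul_eq_mul]
  have hcard : ((ModK k Q R).card : ℝ) ≤ (k : ℝ) ^ (1 / 2 : ℝ) := by
    refine le_trans ?_ hRle
    have h1 : (ModK k Q R).card ≤ (Ioc Q R).card :=
      (card_filter_le _ _).trans (card_filter_le _ _)
    rw [Nat.card_Ioc] at h1
    exact_mod_cast h1.trans (Nat.sub_le _ _)
  have hφ := hphi k hk1
  calc ((ModK k Q R).card : ℝ) * (M * Real.exp B * C / c * Y * (k : ℝ) ^ (1 / 8 + 1 / 16 : ℝ))
      ≤ (k : ℝ) ^ (1 / 2 : ℝ) * (M * Real.exp B * C / c * Y * (k : ℝ) ^ (1 / 8 + 1 / 16 : ℝ)) := by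
        gcongr
    _ = (E * η * c) * Y * ((k : ℝ) ^ (1 / 2 : ℝ) * (k : ℝ) ^ (1 / 8 + 1 / 16 : ℝ)) := by
        rw [hE]; field_simp
    _ ≤ ((k : ℝ) ^ (3 / 16 : ℝ) * η * c) * Y *
          ((k : ℝ) ^ (1 / 2 : ℝ) * (k : ℝ) ^ (1 / 8 + 1 / 16 : ℝ)) := by gcongr
    _ = η * (c * ((k : ℝ) ^ (3 / 16 : ℝ) *
          ((k : ℝ) ^ (1 / 2 : ℝ) * (k : ℝ) ^ (1 / 8 + 1 / 16 : ℝ)))) * Y := by ring
    _ = η * (c * (k : ℝ) ^ (1 - 1 / 8 : ℝ)) * Y := by
        rw [← Real.rpow_add hk0, ← Real.rpow_add hk0]; norm_num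
    _ ≤ η * Nat.totient k * Y := by gcongr

end MeanSum

theorem mean_sum {B : ℝ} {lam : ℝ → ℝ} (hB : 1 ≤ B) (hl : Test B lam) (ε η : ℝ) (hε : 0 < ε)
    (hε1 : ε ≤ 1 / 100) (hη : 0 < η) : ∃ X0 : ℝ, ∀ (X : ℝ) (k : ℕ), X0 ≤ X →
    RangeV ε X (k / X) → ∀ Q R N : ℕ, CutsV ε B X (k / X) Q R N →
    ‖∑ n ∈ (range k).filter (fun n => n.Coprime k), FF lam (k / X) k Q R N n‖ ≤
      η * Nat.totient k * (k / X) :=
  MeanSum.mean_sum_of raman hB hl ε η hε hε1 hη

end H336V
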