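import Pool.Agent.H336R2.V.Defs

/-! Module 7 (PairCount). -/

open Finset MeasureTheory

namespace H336V

open H343

namespace PairCount

/-- for one divisor `d` -/
theorem core (c Y : ℝ) (hc : 1 ≤ c) (hY : 0 < Y) (hY1 : Y ≤ 1) (g q1 q1' d A A' : ℕ)
    (hg : 1 ≤ g) (hq1 : 1 ≤ q1) (hq1' : 1 ≤ q1') (hcop : q1.Coprime q1')
    (hd : 1 ≤ d) (hdg : d.Coprime g)
    (hA : (A : ℝ) ≤ c * (g * q1 : ℕ) * Y) (σ : ℤ) (hσ : σ = 1 ∨ σ = -1)
    (T : Finset ℤ)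
    (hT : ∀ a ∈ Icc 1 A, ∀ a' ∈ Icc 1 A', ∀ l : ℤ, l ≠ 0 →
      ((a : ℤ) * q1' + σ * (a' * q1) : ℤ) = d * l → l ∈ T)
    (hTc : (T.card : ℝ) * (g * d) ≤ 2 * c * (g * q1 : ℕ) * (g * q1' : ℕ) * Y) :
    (((Icc 1 A ×ˢ Icc 1 A').filter (fun p : ℕ × ℕ =>
      ((p.1 : ℤ) * (g * q1' : ℕ) + σ * (p.2 * (g * q1 : ℕ)) : ℤ) ≠ 0 ∧
      (d : ℤ) ∣ ((p.1 : ℤ) * (g * q1' : ℕ) + σ * (p.2 * (g * q1 : ℕ)) : ℤ))).card : ℝ) * d ≤
      4 * c ^ 2 * (g * q1 : ℕ) * (g * q1' : ℕ) * Y := by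
  set S := (Icc 1 A ×ˢ Icc 1 A').filter (fun p : ℕ × ℕ =>
      ((p.1 : ℤ) * (g * q1' : ℕ) + σ * (p.2 * (g * q1 : ℕ)) : ℤ) ≠ 0 ∧
      (d : ℤ) ∣ ((p.1 : ℤ) * (g * q1' : ℕ) + σ * (p.2 * (g * q1 : ℕ)) : ℤ)) with hS
  have hm : ∀ p : ℕ × ℕ, ((p.1 : ℤ) * (g * q1' : ℕ) + σ * (p.2 * (g * q1 : ℕ)) : ℤ) =
      g * ((p.1 : ℤ) * q1' + σ * (p.2 * q1)) := by
    intro p; push_cast; ring
  have hcard : S.card ≤ (T ×ˢ range ((A - 1) / q1 + 1)).card := by
    refine Finset.card_le_card_of_injOn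
      (fun p => (((p.1 : ℤ) * q1' + σ * (p.2 * q1)) / d, (p.1 - 1) / q1)) ?_ ?_
    · intro p hp
      rw [Finset.mem_coe, hS, mem_filter, mem_product, hm] at hp
      obtain ⟨⟨h1, h2⟩, h3, h4⟩ := hp
      have h5 : (d : ℤ) ∣ ((p.1 : ℤ) * q1' + σ * (p.2 * q1)) := by
        have : IsCoprime (d : ℤ) (g : ℤ) := Nat.isCoprime_iff_coprime.2 hdg
        exact this.dvd_of_dvd_mul_left h4
      rw [Finset.mem_coe, mem_product]
      constructor
      · refine hT p.1 h1 p.2 h2 _ ?_ (Int.mul_ediv_cancel' h5).symm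
        intro h6
        have h7 := Int.mul_ediv_cancel' h5
        simp only at h6
        rw [h6, mul_zero] at h7
        apply h3
        rw [← h7, mul_zero]
      · rw [mem_range, Nat.lt_succ_iff]
        rw [mem_Icc] at h1
        exact Nat.div_le_div_right (by omega)
    · intro p hp p' hp' heq
      rw [Finset.mem_coe, hS, mem_filter, mem_product, hm] at hp hp'
      obtain ⟨⟨h1, h2⟩, h3, h4⟩ := hp
      obtain ⟨⟨h1', h2'⟩, h3', h4'⟩ := hp'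
      have hcdg : IsCoprime (d : ℤ) (g : ℤ) := Nat.isCoprime_iff_coprime.2 hdg
      have h5 : (d : ℤ) ∣ ((p.1 : ℤ) * q1' + σ * (p.2 * q1)) := hcdg.dvd_of_dvd_mul_left h4
      have h5' : (d : ℤ) ∣ ((p'.1 : ℤ) * q1' + σ * (p'.2 * q1)) := hcdg.dvd_of_dvd_mul_left h4'
      simp only [Prod.mk.injEq] at heq
      obtain ⟨e1, e2⟩ := heq
      have e3 : ((p.1 : ℤ) * q1' + σ * (p.2 * q1)) = ((p'.1 : ℤ) * q1' + σ * (p'.2 * q1)) := by
        rw [← Int.mul_ediv_cancel' h5, ← Int.mul_ediv_cancel' h5', e1]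
      have e4 : (q1 : ℤ) ∣ (p.1 : ℤ) - p'.1 := by
        have h6 : (q1 : ℤ) ∣ (q1' : ℤ) * ((p.1 : ℤ) - p'.1) := by
          refine ⟨σ * ((p'.2 : ℤ) - p.2), ?_⟩
          linear_combination e3
        exact (Nat.isCoprime_iff_coprime.2 hcop).dvd_of_dvd_mul_left h6
      rw [mem_Icc] at h1 h1'
      have e5 : p.1 = p'.1 := by
        have h7 : (p.1 - 1) % q1 = (p'.1 - 1) % q1 := by
          have h8 : (p'.1 - 1) ≡ (p.1 - 1) [MOD q1] := by
            rw [Nat.modEq_iff_dvd]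
            have : ((p.1 - 1 : ℕ) : ℤ) - ((p'.1 - 1 : ℕ) : ℤ) = (p.1 : ℤ) - p'.1 := by
              rw [Nat.cast_sub h1.1, Nat.cast_sub h1'.1]; ring
            rw [this]
            exact e4
          exact h8.symm
        have h9 := Nat.div_add_mod (p.1 - 1) q1
        have h10 := Nat.div_add_mod (p'.1 - 1) q1
        rw [e2, h7] at h9
        omega
      have e6 : p.2 = p'.2 := by
        rw [e5] at e3
        have h11 : σ * ((p.2 : ℤ) * q1) = σ * ((p'.2 : ℤ) * q1) := by linarith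
        have hσ0 : σ ≠ 0 := by rcases hσ with h | h <;> rw [h] <;> norm_num
        have h12 := mul_left_cancel₀ hσ0 h11
        have hq10 : (q1 : ℤ) ≠ 0 := by exact_mod_cast (by omega : q1 ≠ 0)
        have h13 := mul_right_cancel₀ hq10 h12
        exact_mod_cast h13
      exact Prod.ext e5 e6
  rw [card_product, card_range] at hcard
  have hgR : (1 : ℝ) ≤ g := by exact_mod_cast hg
  have hq1R : (1 : ℝ) ≤ q1 := by exact_mod_cast hq1
  have hq1R' : (1 : ℝ) ≤ q1' := by exact_mod_cast hq1'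
  have hdR : (1 : ℝ) ≤ d := by exact_mod_cast hd
  have h1 : (((A - 1) / q1 + 1 : ℕ) : ℝ) ≤ c * g * Y + 1 := by
    push_cast
    have h2 : (((A - 1) / q1 : ℕ) : ℝ) ≤ ((A - 1 : ℕ) : ℝ) / q1 := Nat.cast_div_le
    have h3 : ((A - 1 : ℕ) : ℝ) ≤ A := by exact_mod_cast Nat.sub_le A 1
    have h4 : ((A - 1 : ℕ) : ℝ) / q1 ≤ c * g * Y := by
      rw [div_le_iff₀ (by linarith)]
      refine h3.trans (hA.trans (le_of_eq ?_))
      push_cast; ring
    linarith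
  have h5 : (S.card : ℝ) ≤ T.card * (c * g * Y + 1) := by
    calc (S.card : ℝ) ≤ ((T.card * ((A - 1) / q1 + 1) : ℕ) : ℝ) := by exact_mod_cast hcard
      _ = T.card * (((A - 1) / q1 + 1 : ℕ) : ℝ) := by push_cast; ring
      _ ≤ T.card * (c * g * Y + 1) := mul_le_mul_of_nonneg_left h1 (by positivity)
  have h6 : c * g * Y + 1 ≤ 2 * c * g := by
    have h7 : c * g * Y ≤ c * g * 1 := mul_le_mul_of_nonneg_left hY1 (by positivity)
    have h8 : 1 ≤ c * g := one_le_mul_of_one_le_of_one_le hc hgR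
    linarith
  calc (S.card : ℝ) * d ≤ (T.card * (c * g * Y + 1)) * d := by gcongr
    _ ≤ (T.card * (2 * c * g)) * d := by gcongr
    _ = (2 * c) * ((T.card : ℝ) * (g * d)) := by ring
    _ ≤ (2 * c) * (2 * c * (g * q1 : ℕ) * (g * q1' : ℕ) * Y) :=
        mul_le_mul_of_nonneg_left hTc (by positivity)
    _ = 4 * c ^ 2 * (g * q1 : ℕ) * (g * q1' : ℕ) * Y := by ring

/-- for one divisor `d` -/
theorem one_div (c Y : ℝ) (hc : 1 ≤ c) (hY : 0 < Y) (hY1 : Y ≤ 1) (k q q' d A A' : ℕ)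
    (hk : 1 ≤ k) (hq : 1 ≤ q) (hq' : 1 ≤ q') (hqk : q.Coprime k) (hdk : d ∣ k)
    (hA : (A : ℝ) ≤ c * q * Y) (hA' : (A' : ℝ) ≤ c * q' * Y) (σ : ℤ) (hσ : σ = 1 ∨ σ = -1) :
    (((Icc 1 A ×ˢ Icc 1 A').filter (fun p : ℕ × ℕ =>
      ((p.1 : ℤ) * q' + σ * (p.2 * q) : ℤ) ≠ 0 ∧
      (d : ℤ) ∣ ((p.1 : ℤ) * q' + σ * (p.2 * q) : ℤ))).card : ℝ) * d ≤
      4 * c ^ 2 * q * q' * Y := by
  obtain ⟨g, q1, q1', hg, hcop, e1, e2⟩ := Nat.exists_coprime' (m := q) (n := q')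
    (Nat.gcd_pos_of_pos_left q' (by omega))
  have e1' : q = g * q1 := by rw [e1, mul_comm]
  have e2' : q' = g * q1' := by rw [e2, mul_comm]
  have hq1 : 1 ≤ q1 := by
    rcases Nat.eq_zero_or_pos q1 with h | h
    · rw [h, mul_zero] at e1'; omega
    · exact h
  have hq1' : 1 ≤ q1' := by
    rcases Nat.eq_zero_or_pos q1' with h | h
    · rw [h, mul_zero] at e2'; omega
    · exact h
  have hd : 1 ≤ d := Nat.pos_of_dvd_of_pos hdk hk
  have hdg : d.Coprime g := by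
    have h1 : d.Coprime q := (Nat.Coprime.coprime_dvd_left hdk hqk.symm)
    exact Nat.Coprime.coprime_dvd_right (by rw [e1']; exact Dvd.intro _ rfl) h1
  have hgR : (1 : ℝ) ≤ g := by exact_mod_cast hg
  have hdR : (1 : ℝ) ≤ d := by exact_mod_cast hd
  have hqR : (1 : ℝ) ≤ q := by exact_mod_cast hq
  have hqR' : (1 : ℝ) ≤ q' := by exact_mod_cast hq'
  have hq1R : (1 : ℝ) ≤ q1 := by exact_mod_cast hq1
  have hq1R' : (1 : ℝ) ≤ q1' := by exact_mod_cast hq1'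
  have hgq : (q : ℝ) = g * q1 := by rw [e1']; push_cast; ring
  have hgq' : (q' : ℝ) = g * q1' := by rw [e2']; push_cast; ring
  -- bounds for `a q1'` and `a' q1`
  have hb1 : ∀ a ∈ Icc 1 A, (a : ℝ) * q1' ≤ c * (g * q1 * q1') * Y := by
    intro a ha
    rw [mem_Icc] at ha
    have h1 : (a : ℝ) ≤ A := by exact_mod_cast ha.2
    have h2 : (a : ℝ) ≤ c * q * Y := h1.trans hA
    calc (a : ℝ) * q1' ≤ (c * q * Y) * q1' := by gcongr
      _ = c * (g * q1 * q1') * Y := by rw [hgq]; ring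
  have hb2 : ∀ a' ∈ Icc 1 A', (a' : ℝ) * q1 ≤ c * (g * q1 * q1') * Y := by
    intro a ha
    rw [mem_Icc] at ha
    have h1 : (a : ℝ) ≤ A' := by exact_mod_cast ha.2
    have h2 : (a : ℝ) ≤ c * q' * Y := h1.trans hA'
    calc (a : ℝ) * q1 ≤ (c * q' * Y) * q1 := by gcongr
      _ = c * (g * q1 * q1') * Y := by rw [hgq']; ring
  have hgd : (0 : ℝ) < g * d := by positivity
  have hd0 : (0 : ℝ) < d := by positivity
  have hRpos : 0 ≤ c * (g * q1 * q1') * Y := by positivity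
  rcases hσ with hσ1 | hσ1
  · -- sigma = 1
    have key := core c Y hc hY hY1 g q1 q1' d A A' hg hq1 hq1' hcop hd hdg
      (by rw [← e1']; exact hA) σ (Or.inl hσ1)
      (Icc 1 (⌊2 * (c * (g * q1 * q1') * Y) / d⌋₊ : ℤ)) ?_ ?_
    · rw [← e1', ← e2'] at key
      exact key
    · intro a ha a' ha' l hl0 hl
      rw [hσ1] at hl
      have h1 := hb1 a ha
      have h2 := hb2 a' ha'
      rw [mem_Icc] at ha ha' ⊢
      have hlR : (a : ℝ) * q1' + a' * q1 = d * l := by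
        have : ((a : ℤ) * q1' + a' * q1 : ℤ) = d * l := by linarith
        exact_mod_cast this
      have hpos : (0 : ℝ) < d * l := by
        rw [← hlR]
        have ha1 : (1 : ℝ) ≤ a := by exact_mod_cast ha.1
        have : (0 : ℝ) < (a : ℝ) * q1' := by positivity
        have : (0 : ℝ) ≤ (a' : ℝ) * q1 := by positivity
        linarith
      have hlpos : (0 : ℝ) < l := (mul_pos_iff_of_pos_left hd0).1 hpos
      have hlpos' : 0 < l := by exact_mod_cast hlpos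
      refine ⟨by omega, ?_⟩
      have h3 : (l.toNat : ℝ) ≤ 2 * (c * (g * q1 * q1') * Y) / d := by
        rw [le_div_iff₀ hd0]
        have : ((l.toNat : ℕ) : ℝ) = (l : ℝ) := by
          have := Int.toNat_of_nonneg hlpos'.le
          exact_mod_cast this
        rw [this]
        linarith
      have h4 := Nat.le_floor h3
      have h5 := Int.toNat_of_nonneg hlpos'.le
      omega
    · rw [Int.card_Icc]
      have h1 : ((⌊2 * (c * (g * q1 * q1') * Y) / d⌋₊ : ℕ) : ℝ) ≤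
          2 * (c * (g * q1 * q1') * Y) / d := Nat.floor_le (by positivity)
      have h2 : ((⌊2 * (c * (g * q1 * q1') * Y) / d⌋₊ : ℤ) + 1 - 1).toNat =
          ⌊2 * (c * (g * q1 * q1') * Y) / d⌋₊ := by simp
      rw [h2]
      calc (⌊2 * (c * (g * q1 * q1') * Y) / d⌋₊ : ℝ) * (g * d) ≤
            (2 * (c * (g * q1 * q1') * Y) / d) * (g * d) := by gcongr
        _ = 2 * c * (g * q1 : ℕ) * (g * q1' : ℕ) * Y := by
            push_cast
            field_simp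
  · -- sigma = -1
    have key := core c Y hc hY hY1 g q1 q1' d A A' hg hq1 hq1' hcop hd hdg
      (by rw [← e1']; exact hA) σ (Or.inr hσ1)
      ((Icc (-(⌊(c * (g * q1 * q1') * Y) / d⌋₊ : ℤ)) (⌊(c * (g * q1 * q1') * Y) / d⌋₊ : ℤ)).erase 0)
        ?_ ?_
    · rw [← e1', ← e2'] at key
      exact key
    · intro a ha a' ha' l hl0 hl
      rw [hσ1] at hl
      have h1 := hb1 a ha
      have h2 := hb2 a' ha'
      rw [mem_Icc] at ha ha'
      rw [mem_erase, mem_Icc]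
      refine ⟨hl0, ?_⟩
      have hlR : (a : ℝ) * q1' - a' * q1 = d * l := by
        have : ((a : ℤ) * q1' - a' * q1 : ℤ) = d * l := by linarith
        exact_mod_cast this
      have h0 : (0 : ℝ) ≤ (a : ℝ) * q1' := by positivity
      have h0' : (0 : ℝ) ≤ (a' : ℝ) * q1 := by positivity
      have h3 : ((l.natAbs : ℕ) : ℝ) ≤ (c * (g * q1 * q1') * Y) / d := by
        rw [le_div_iff₀ hd0]
        have h4 : ((l.natAbs : ℕ) : ℝ) = |(l : ℝ)| := by
          rw [Nat.cast_natAbs]; push_cast; rfl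
        rw [h4]
        have h5 : |(l : ℝ)| * d = |(d : ℝ) * l| := by
          rw [abs_mul, abs_of_pos hd0]; ring
        rw [h5, ← hlR, abs_le]
        constructor <;> linarith
      have h4 := Nat.le_floor h3
      omega
    · have h1 : ((⌊(c * (g * q1 * q1') * Y) / d⌋₊ : ℕ) : ℝ) ≤
          (c * (g * q1 * q1') * Y) / d := Nat.floor_le (by positivity)
      rw [Finset.card_erase_of_mem (by rw [mem_Icc]; omega), Int.card_Icc]
      have h2 : (((⌊(c * (g * q1 * q1') * Y) / d⌋₊ : ℤ) + 1 -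
          (-(⌊(c * (g * q1 * q1') * Y) / d⌋₊ : ℤ))).toNat - 1) =
          2 * ⌊(c * (g * q1 * q1') * Y) / d⌋₊ := by omega
      rw [h2]
      push_cast
      calc 2 * (⌊(c * (g * q1 * q1') * Y) / d⌋₊ : ℝ) * (g * d) ≤
            2 * ((c * (g * q1 * q1') * Y) / d) * (g * d) := by gcongr
        _ = 2 * c * (g * q1) * (g * q1') * Y := by
            field_simp

end PairCount

theorem pair_count (c Y : ℝ) (hc : 1 ≤ c) (hY : 0 < Y) (hY1 : Y ≤ 1) (k q q' A A' : ℕ)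
    (hk : 1 ≤ k) (hq : 1 ≤ q) (hq' : 1 ≤ q') (hqk : q.Coprime k) (hqk' : q'.Coprime k)
    (hA : (A : ℝ) ≤ c * q * Y) (hA' : (A' : ℝ) ≤ c * q' * Y) (σ : ℤ) (hσ : σ = 1 ∨ σ = -1) :
    ∑ a ∈ Icc 1 A, ∑ a' ∈ Icc 1 A', (if (a * q' + σ * (a' * q) : ℤ) = 0 then 0 else
      ∑ d ∈ k.divisors.filter (fun d : ℕ => (d : ℤ) ∣ (a * q' + σ * (a' * q) : ℤ)), (d : ℝ)) ≤
      4 * c ^ 2 * k.divisors.card * q * q' * Y := by
  have h1 : ∑ a ∈ Icc 1 A, ∑ a' ∈ Icc 1 A', (if (a * q' + σ * (a' * q) : ℤ) = 0 then 0 else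
      ∑ d ∈ k.divisors.filter (fun d : ℕ => (d : ℤ) ∣ (a * q' + σ * (a' * q) : ℤ)), (d : ℝ)) =
      ∑ d ∈ k.divisors, (((Icc 1 A ×ˢ Icc 1 A').filter (fun p : ℕ × ℕ =>
      ((p.1 : ℤ) * q' + σ * (p.2 * q) : ℤ) ≠ 0 ∧
      (d : ℤ) ∣ ((p.1 : ℤ) * q' + σ * (p.2 * q) : ℤ))).card : ℝ) * d := by
    rw [← Finset.sum_product' (f := fun (a a' : ℕ) =>
      (if (a * q' + σ * (a' * q) : ℤ) = 0 then (0 : ℝ) else
      ∑ d ∈ k.divisors.filter (fun d : ℕ => (d : ℤ) ∣ (a * q' + σ * (a' * q) : ℤ)), (d : ℝ)))]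
    have h2 : ∀ p ∈ Icc 1 A ×ˢ Icc 1 A',
        (if (p.1 * q' + σ * (p.2 * q) : ℤ) = 0 then (0 : ℝ) else
        ∑ d ∈ k.divisors.filter (fun d : ℕ => (d : ℤ) ∣ (p.1 * q' + σ * (p.2 * q) : ℤ)), (d : ℝ)) =
        ∑ d ∈ k.divisors, if ((p.1 : ℤ) * q' + σ * (p.2 * q) : ℤ) ≠ 0 ∧
          (d : ℤ) ∣ ((p.1 : ℤ) * q' + σ * (p.2 * q) : ℤ) then (d : ℝ) else 0 := by
      intro p _
      by_cases h : (p.1 * q' + σ * (p.2 * q) : ℤ) = 0
      · rw [if_pos h]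
        symm
        refine Finset.sum_eq_zero (fun d _ => ?_)
        rw [if_neg]
        rintro ⟨h', _⟩
        exact h' h
      · rw [if_neg h, Finset.sum_filter]
        refine Finset.sum_congr rfl (fun d _ => ?_)
        simp [h]
    rw [Finset.sum_congr rfl h2, Finset.sum_comm]
    refine Finset.sum_congr rfl (fun d _ => ?_)
    rw [← Finset.sum_filter, Finset.sum_const, nsmul_eq_mul]
  rw [h1]
  calc ∑ d ∈ k.divisors, (((Icc 1 A ×ˢ Icc 1 A').filter (fun p : ℕ × ℕ =>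
      ((p.1 : ℤ) * q' + σ * (p.2 * q) : ℤ) ≠ 0 ∧
      (d : ℤ) ∣ ((p.1 : ℤ) * q' + σ * (p.2 * q) : ℤ))).card : ℝ) * d
      ≤ ∑ d ∈ k.divisors, (4 * c ^ 2 * q * q' * Y) :=
        Finset.sum_le_sum (fun d hd => PairCount.one_div c Y hc hY hY1 k q q' d A A' hk hq hq'
          hqk (Nat.dvd_of_mem_divisors hd) hA hA' σ hσ)
    _ = 4 * c ^ 2 * k.divisors.card * q * q' * Y := by
        rw [Finset.sum_const, nsmul_eq_mul]; ring

end H336V
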