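import Pool.Agent.H336R2.V.NormSumA
import Pool.Agent.H336R2.V.PairCount

open Finset MeasureTheory

namespace H336V

open H343

namespace NormSumAux

lemma co_norm_le {lam : ℝ → ℝ} {L : ℝ} (hL : ∀ v, |lam v| ≤ L) (Y : ℝ) (q a : ℕ) :
    ‖co lam Y q a‖ ≤ L / Nat.totient q := by
  have hL0 : 0 ≤ L := (abs_nonneg _).trans (hL 0)
  unfold co
  have h1 : ‖ex (-(a / (q * Y)) / 2)‖ = 1 := by
    unfold ex; exact Complex.norm_exp_ofReal_mul_I _
  rw [norm_mul, h1, mul_one, Complex.norm_real, Real.norm_eq_abs, abs_mul, abs_div,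
    Nat.abs_cast]
  have h2 : |((ArithmeticFunction.moebius q : ℤ) : ℝ)| ≤ 1 := by
    exact_mod_cast ArithmeticFunction.abs_moebius_le_one
  have h3 := hL (Real.log (a / (q * Y)))
  calc |((ArithmeticFunction.moebius q : ℤ) : ℝ)| / (Nat.totient q : ℝ) *
        |lam (Real.log (a / (q * Y)))| ≤ 1 / (Nat.totient q : ℝ) * L := by
        gcongr
    _ = L / Nat.totient q := by ring

lemma co_zero {B : ℝ} {lam : ℝ → ℝ} (hl : Test B lam) {Y : ℝ} (hY : 0 < Y) {q a : ℕ}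
    (hq : 1 ≤ q) (ha : Real.exp B * q * Y < a) : co lam Y q a = 0 := by
  have hq0 : (0 : ℝ) < q := by exact_mod_cast hq
  have h1 : Real.exp B < a / (q * Y) := by
    rw [lt_div_iff₀ (by positivity)]
    linarith
  have h2 : B ≤ Real.log (a / (q * Y)) := by
    rw [Real.le_log_iff_exp_le ((Real.exp_pos B).trans h1)]
    exact h1.le
  unfold co
  rw [hl.supp _ (h2.trans (le_abs_self _))]
  simp

lemma restrict {B : ℝ} {lam : ℝ → ℝ} (hl : Test B lam) {L : ℝ} (hL : ∀ v, |lam v| ≤ L)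
    {Y : ℝ} (hY : 0 < Y) {q : ℕ} (hq : 1 ≤ q) (N : ℕ) (g : ℕ → ℝ) (hg : ∀ a, 0 ≤ g a) :
    ∑ a ∈ (Icc 1 N).filter (fun a => a.Coprime q), ‖co lam Y q a‖ * g a ≤
      ∑ a ∈ Icc 1 ⌊Real.exp B * q * Y⌋₊, L / Nat.totient q * g a := by
  have hL0 : 0 ≤ L := (abs_nonneg _).trans (hL 0)
  rw [← sum_filter_of_ne (s := (Icc 1 N).filter (fun a => a.Coprime q))
    (p := fun a : ℕ => (a : ℝ) ≤ Real.exp B * q * Y)]
  · calc ∑ a ∈ ((Icc 1 N).filter (fun a => a.Coprime q)).filter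
          (fun a : ℕ => (a : ℝ) ≤ Real.exp B * q * Y), ‖co lam Y q a‖ * g a
        ≤ ∑ a ∈ ((Icc 1 N).filter (fun a => a.Coprime q)).filter
          (fun a : ℕ => (a : ℝ) ≤ Real.exp B * q * Y), L / Nat.totient q * g a := by
          apply sum_le_sum
          intro a _
          exact mul_le_mul_of_nonneg_right (co_norm_le hL Y q a) (hg a)
      _ ≤ ∑ a ∈ Icc 1 ⌊Real.exp B * q * Y⌋₊, L / Nat.totient q * g a := by
          apply sum_le_sum_of_subset_of_nonneg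
          · intro a ha
            rw [mem_filter, mem_filter, mem_Icc] at ha
            rw [mem_Icc]
            exact ⟨ha.1.1.1, Nat.le_floor ha.2⟩
          · intro a _ _
            exact mul_nonneg (by positivity) (hg a)
  · intro a _ hne
    by_contra hcon
    push Not at hcon
    apply hne
    rw [co_zero hl hY hq hcon]
    simp

lemma offdiag {B : ℝ} {lam : ℝ → ℝ} (hB : 1 ≤ B) (hl : Test B lam) {L : ℝ}
    (hL : ∀ v, |lam v| ≤ L) {Y : ℝ} (hY : 0 < Y) (hY1 : Y ≤ 1) (k Q R N : ℕ) (hk : 1 ≤ k)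
    (σ : ℤ) (hσ : σ = 1 ∨ σ = -1) :
    ∑ q ∈ ModK k Q R, ∑ a ∈ (Icc 1 N).filter (fun a => a.Coprime q),
      ∑ q' ∈ ModK k Q R, ∑ a' ∈ (Icc 1 N).filter (fun a => a.Coprime q'),
        ‖co lam Y q a‖ * ‖co lam Y q' a'‖ * HH k σ q a q' a' ≤
      4 * Real.exp B ^ 2 * L ^ 2 * k.divisors.card * Y *
        (∑ q ∈ ModK k Q R, (q : ℝ) / Nat.totient q) ^ 2 := by
  have hL0 : 0 ≤ L := (abs_nonneg _).trans (hL 0)
  have hexp : 1 ≤ Real.exp B := Real.one_le_exp (by linarith)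
  have hmem : ∀ q ∈ ModK k Q R, 1 ≤ q ∧ q.Coprime k := by
    intro q hq
    unfold ModK H343.Mod at hq
    rw [mem_filter, mem_filter, mem_Ioc] at hq
    exact ⟨by omega, hq.2⟩
  have hpair : ∀ q ∈ ModK k Q R, ∀ q' ∈ ModK k Q R,
      ∑ a ∈ (Icc 1 N).filter (fun a => a.Coprime q),
        ∑ a' ∈ (Icc 1 N).filter (fun a => a.Coprime q'),
        ‖co lam Y q a‖ * ‖co lam Y q' a'‖ * HH k σ q a q' a' ≤
      4 * Real.exp B ^ 2 * L ^ 2 * k.divisors.card * Y *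
        (((q : ℝ) / Nat.totient q) * ((q' : ℝ) / Nat.totient q')) := by
    intro q hq q' hq'
    obtain ⟨hq1, hqk⟩ := hmem q hq
    obtain ⟨hq1', hqk'⟩ := hmem q' hq'
    have hφ : (0 : ℝ) < Nat.totient q := by exact_mod_cast Nat.totient_pos.mpr hq1
    have hφ' : (0 : ℝ) < Nat.totient q' := by exact_mod_cast Nat.totient_pos.mpr hq1'
    calc ∑ a ∈ (Icc 1 N).filter (fun a => a.Coprime q),
          ∑ a' ∈ (Icc 1 N).filter (fun a => a.Coprime q'),
          ‖co lam Y q a‖ * ‖co lam Y q' a'‖ * HH k σ q a q' a'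
        = ∑ a ∈ (Icc 1 N).filter (fun a => a.Coprime q), ‖co lam Y q a‖ *
          ∑ a' ∈ (Icc 1 N).filter (fun a => a.Coprime q'),
            ‖co lam Y q' a'‖ * HH k σ q a q' a' := by
          apply sum_congr rfl
          intro a _
          rw [mul_sum]
          apply sum_congr rfl
          intro a' _
          ring
      _ ≤ ∑ a ∈ (Icc 1 N).filter (fun a => a.Coprime q), ‖co lam Y q a‖ *
          ∑ a' ∈ Icc 1 ⌊Real.exp B * q' * Y⌋₊, L / Nat.totient q' * HH k σ q a q' a' := by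
          apply sum_le_sum
          intro a _
          apply mul_le_mul_of_nonneg_left _ (norm_nonneg _)
          exact restrict hl hL hY hq1' N (fun a' => HH k σ q a q' a')
            (fun a' => HH_nonneg k σ q a q' a')
      _ ≤ ∑ a ∈ Icc 1 ⌊Real.exp B * q * Y⌋₊, L / Nat.totient q *
          ∑ a' ∈ Icc 1 ⌊Real.exp B * q' * Y⌋₊, L / Nat.totient q' * HH k σ q a q' a' :=
          restrict hl hL hY hq1 N (fun a => ∑ a' ∈ Icc 1 ⌊Real.exp B * q' * Y⌋₊,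
            L / Nat.totient q' * HH k σ q a q' a')
            (fun a => sum_nonneg (fun a' _ => mul_nonneg (by positivity) (HH_nonneg _ _ _ _ _ _)))
      _ = (L / Nat.totient q * (L / Nat.totient q')) *
          ∑ a ∈ Icc 1 ⌊Real.exp B * q * Y⌋₊, ∑ a' ∈ Icc 1 ⌊Real.exp B * q' * Y⌋₊,
            HH k σ q a q' a' := by
          rw [mul_sum]
          apply sum_congr rfl
          intro a _
          rw [mul_sum, mul_sum]
          apply sum_congr rfl
          intro a' _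
          ring
      _ ≤ (L / Nat.totient q * (L / Nat.totient q')) *
          (4 * Real.exp B ^ 2 * k.divisors.card * q * q' * Y) := by
          apply mul_le_mul_of_nonneg_left _ (by positivity)
          exact pair_count (Real.exp B) Y hexp hY hY1 k q q' _ _ hk hq1 hq1' hqk hqk'
            (Nat.floor_le (by positivity)) (Nat.floor_le (by positivity)) σ hσ
      _ = _ := by
          field_simp
  calc ∑ q ∈ ModK k Q R, ∑ a ∈ (Icc 1 N).filter (fun a => a.Coprime q),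
      ∑ q' ∈ ModK k Q R, ∑ a' ∈ (Icc 1 N).filter (fun a => a.Coprime q'),
        ‖co lam Y q a‖ * ‖co lam Y q' a'‖ * HH k σ q a q' a'
      = ∑ q ∈ ModK k Q R, ∑ q' ∈ ModK k Q R,
        ∑ a ∈ (Icc 1 N).filter (fun a => a.Coprime q),
        ∑ a' ∈ (Icc 1 N).filter (fun a => a.Coprime q'),
        ‖co lam Y q a‖ * ‖co lam Y q' a'‖ * HH k σ q a q' a' := by
        apply sum_congr rfl
        intro q _
        rw [sum_comm]
    _ ≤ ∑ q ∈ ModK k Q R, ∑ q' ∈ ModK k Q R,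
        4 * Real.exp B ^ 2 * L ^ 2 * k.divisors.card * Y *
        (((q : ℝ) / Nat.totient q) * ((q' : ℝ) / Nat.totient q')) :=
        sum_le_sum (fun q hq => sum_le_sum (fun q' hq' => hpair q hq q' hq'))
    _ = _ := by
        rw [pow_two (∑ q ∈ ModK k Q R, (q : ℝ) / Nat.totient q), sum_mul_sum, mul_sum]
        apply sum_congr rfl
        intro q _
        rw [mul_sum]

/-- the diagonal -/
lemma diag {B : ℝ} {lam : ℝ → ℝ} (hl : Test B lam) : ∃ C : ℝ, 0 < C ∧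
    ∀ (Y : ℝ) (k Q R N : ℕ), 0 < Y → Real.exp B * R * Y ≤ N →
    ∑ q ∈ ModK k Q R, ∑ a ∈ (Icc 1 N).filter (fun a => a.Coprime q), ‖co lam Y q a‖ ^ 2 ≤
      Y * (∫ v, lam v ^ 2 * Real.exp v) * LLK k Q R +
        C * ∑ q ∈ Mod Q R, (q.divisors.card : ℝ) / (Nat.totient q : ℝ) ^ 2 := by
  have hl2 : Test B (fun v => lam v ^ 2) :=
    ⟨hl.smooth.pow 2, fun v hv => by simp [hl.supp v hv]⟩
  obtain ⟨C2, hC2, h2⟩ := coprime_count hl2
  refine ⟨C2, hC2, ?_⟩
  intro Y k Q R N hY hN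
  set J := ∫ v, lam v ^ 2 * Real.exp v with hJ
  calc ∑ q ∈ ModK k Q R, ∑ a ∈ (Icc 1 N).filter (fun a => a.Coprime q), ‖co lam Y q a‖ ^ 2
      ≤ ∑ q ∈ ModK k Q R, (Y * J * (1 / Nat.totient q) +
            C2 * ((q.divisors.card : ℝ) / (Nat.totient q : ℝ) ^ 2)) := by
          apply sum_le_sum
          intro q hq
          unfold ModK H343.Mod at hq
          rw [mem_filter, mem_filter, mem_Ioc] at hq
          have hq1 : 1 ≤ q := by omega
          have hφ : (0 : ℝ) < Nat.totient q := by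
            exact_mod_cast Nat.totient_pos.mpr hq1
          have hqR : (q : ℝ) ≤ R := by exact_mod_cast hq.1.1.2
          have hcc := h2 q N Y hq1 hY (by
            refine le_trans ?_ hN
            have := Real.exp_pos B
            gcongr)
          have hcc2 := (abs_le.mp hcc).2
          have hmu : |((ArithmeticFunction.moebius q : ℤ) : ℝ)| ≤ 1 := by
            exact_mod_cast ArithmeticFunction.abs_moebius_le_one
          have hmu2 : (((ArithmeticFunction.moebius q : ℤ) : ℝ)) ^ 2 ≤ 1 := by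
            rw [← sq_abs]
            have h7 := abs_nonneg ((ArithmeticFunction.moebius q : ℤ) : ℝ)
            nlinarith
          have hs0 : 0 ≤ ∑ a ∈ (Icc 1 N).filter (fun a => a.Coprime q),
              lam (Real.log (a / (q * Y))) ^ 2 := sum_nonneg (fun _ _ => by positivity)
          calc ∑ a ∈ (Icc 1 N).filter (fun a => a.Coprime q), ‖co lam Y q a‖ ^ 2
              = (((ArithmeticFunction.moebius q : ℤ) : ℝ)) ^ 2 / (Nat.totient q : ℝ) ^ 2 *
                ∑ a ∈ (Icc 1 N).filter (fun a => a.Coprime q), lam (Real.log (a / (q * Y))) ^ 2 := by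
                rw [mul_sum]
                apply sum_congr rfl
                intro a _
                unfold co
                have h1 : ‖ex (-(a / (q * Y)) / 2)‖ = 1 := by
                  unfold ex; exact Complex.norm_exp_ofReal_mul_I _
                rw [norm_mul, h1, mul_one, Complex.norm_real, Real.norm_eq_abs, sq_abs, mul_pow,
                  div_pow]
            _ ≤ 1 / (Nat.totient q : ℝ) ^ 2 *
                ∑ a ∈ (Icc 1 N).filter (fun a => a.Coprime q), lam (Real.log (a / (q * Y))) ^ 2 := by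
                gcongr
            _ ≤ 1 / (Nat.totient q : ℝ) ^ 2 *
                (Nat.totient q * Y * J + C2 * q.divisors.card) := by
                gcongr
                rw [hJ]
                linarith
            _ = Y * J * (1 / Nat.totient q) +
                C2 * ((q.divisors.card : ℝ) / (Nat.totient q : ℝ) ^ 2) := by
                field_simp
    _ = Y * J * LLK k Q R + C2 * ∑ q ∈ ModK k Q R,
          (q.divisors.card : ℝ) / (Nat.totient q : ℝ) ^ 2 := by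
          rw [sum_add_distrib, ← mul_sum, ← mul_sum]
          rfl
    _ ≤ _ := by
          have : ∑ q ∈ ModK k Q R, (q.divisors.card : ℝ) / (Nat.totient q : ℝ) ^ 2 ≤
            ∑ q ∈ Mod Q R, (q.divisors.card : ℝ) / (Nat.totient q : ℝ) ^ 2 := by
            apply sum_le_sum_of_subset_of_nonneg (filter_subset _ _)
            intro _ _ _
            positivity
          gcongr

/-- combination -/
lemma combine {B : ℝ} {lam : ℝ → ℝ} (hB : 1 ≤ B) (hl : Test B lam) {L : ℝ}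
    (hL : ∀ v, |lam v| ≤ L) {Y : ℝ} (hY : 0 < Y) (hY1 : Y ≤ 1) (k Q R N : ℕ) (hk : 1 ≤ k) :
    ∑ n ∈ (range k).filter (fun n => n.Coprime k), (2 * (FF lam Y k Q R N n).re) ^ 2 ≤
      2 * (Nat.totient k * ∑ q ∈ ModK k Q R, ∑ a ∈ (Icc 1 N).filter (fun a => a.Coprime q),
        ‖co lam Y q a‖ ^ 2 +
      2 * (4 * Real.exp B ^ 2 * L ^ 2 * k.divisors.card * Y *
        (∑ q ∈ ModK k Q R, (q : ℝ) / Nat.totient q) ^ 2)) := by
  classical
  set S : Finset (Σ _ : ℕ, ℕ) := (ModK k Q R).sigma (fun q => (Icc 1 N).filter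
    (fun a => a.Coprime q)) with hS
  have hmem : ∀ p ∈ S, 1 ≤ p.1 ∧ p.1.Coprime k ∧ 1 ≤ p.2 ∧ p.2.Coprime p.1 := by
    intro p hp
    rw [hS, mem_sigma, mem_filter, mem_Icc] at hp
    unfold ModK H343.Mod at hp
    rw [mem_filter, mem_filter, mem_Ioc] at hp
    exact ⟨by omega, hp.1.2, hp.2.1.1, hp.2.2⟩
  have hF : ∀ n : ℕ, FF lam Y k Q R N n = ∑ p ∈ S, co lam Y p.1 p.2 *
      ex ((n : ℝ) * (((p.2 * inv k p.1 : ℕ) : ℤ) : ℝ) / k) := by
    intro n
    unfold FF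
    rw [sum_sigma']
    apply sum_congr rfl
    intro p _
    rw [Int.cast_natCast]
  simp_rw [hF]
  refine (expand k S (fun p => co lam Y p.1 p.2) (fun p => ((p.2 * inv k p.1 : ℕ) : ℤ))).trans ?_
  apply mul_le_mul_of_nonneg_left _ (by norm_num)
  have hterm : ∀ p ∈ S, ∀ p' ∈ S, ‖co lam Y p.1 p.2‖ * ‖co lam Y p'.1 p'.2‖ *
      (‖RR k (((p.2 * inv k p.1 : ℕ) : ℤ) - ((p'.2 * inv k p'.1 : ℕ) : ℤ))‖ +
       ‖RR k (((p.2 * inv k p.1 : ℕ) : ℤ) + ((p'.2 * inv k p'.1 : ℕ) : ℤ))‖) ≤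
      (if p = p' then Nat.totient k * ‖co lam Y p.1 p.2‖ ^ 2 else 0) +
      ‖co lam Y p.1 p.2‖ * ‖co lam Y p'.1 p'.2‖ * HH k (-1) p.1 p.2 p'.1 p'.2 +
      ‖co lam Y p.1 p.2‖ * ‖co lam Y p'.1 p'.2‖ * HH k 1 p.1 p.2 p'.1 p'.2 := by
    intro p hp p' hp'
    obtain ⟨h1, h2, h3, h4⟩ := hmem p hp
    obtain ⟨h1', h2', h3', h4'⟩ := hmem p' hp'
    have hm := RR_minus k p.1 p'.1 p.2 p'.2 hk h1 h2 h2' h4 h4'
    have hp2 := RR_plus k p.1 p'.1 p.2 p'.2 hk h1' h3 h2 h2'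
    have hc0 : 0 ≤ ‖co lam Y p.1 p.2‖ * ‖co lam Y p'.1 p'.2‖ := by positivity
    by_cases hpp : p = p'
    · subst hpp
      rw [if_pos ⟨rfl, rfl⟩] at hm
      rw [if_pos rfl]
      nlinarith
    · rw [if_neg hpp, zero_add]
      have hne : ¬ (p.1 = p'.1 ∧ p.2 = p'.2) := by
        rintro ⟨e1, e2⟩
        exact hpp (Sigma.ext e1 (heq_of_eq e2))
      rw [if_neg hne, zero_add] at hm
      rw [mul_add]
      exact add_le_add (mul_le_mul_of_nonneg_left hm hc0) (mul_le_mul_of_nonneg_left hp2 hc0)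
  refine (sum_le_sum (fun p hp => sum_le_sum (fun p' hp' => hterm p hp p' hp'))).trans ?_
  simp_rw [sum_add_distrib]
  have hd : ∑ p ∈ S, ∑ p' ∈ S, (if p = p' then (Nat.totient k : ℝ) * ‖co lam Y p.1 p.2‖ ^ 2 else 0)
      = Nat.totient k * ∑ q ∈ ModK k Q R, ∑ a ∈ (Icc 1 N).filter (fun a => a.Coprime q),
        ‖co lam Y q a‖ ^ 2 := by
    have : ∀ p ∈ S, ∑ p' ∈ S, (if p = p' then (Nat.totient k : ℝ) * ‖co lam Y p.1 p.2‖ ^ 2 else 0)
        = Nat.totient k * ‖co lam Y p.1 p.2‖ ^ 2 := by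
      intro p hp
      rw [sum_ite_eq, if_pos hp]
    rw [sum_congr rfl this, ← mul_sum, hS, sum_sigma]
  rw [hd]
  have ho : ∀ σ : ℤ, (σ = 1 ∨ σ = -1) → ∑ p ∈ S, ∑ p' ∈ S,
      ‖co lam Y p.1 p.2‖ * ‖co lam Y p'.1 p'.2‖ * HH k σ p.1 p.2 p'.1 p'.2 ≤
      4 * Real.exp B ^ 2 * L ^ 2 * k.divisors.card * Y *
        (∑ q ∈ ModK k Q R, (q : ℝ) / Nat.totient q) ^ 2 := by
    intro σ hσ
    have := offdiag hB hl hL hY hY1 k Q R N hk σ hσ
    refine le_trans (le_of_eq ?_) this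
    rw [hS, sum_sigma]
    apply sum_congr rfl
    intro q _
    apply sum_congr rfl
    intro a _
    rw [sum_sigma]
  have h1 := ho 1 (Or.inl rfl)
  have h2 := ho (-1) (Or.inr rfl)
  linarith

/-- `∑ q/φ(q)` -/
lemma ratio_sum (δ : ℝ) (hδ : 0 < δ) : ∃ C : ℝ, 0 < C ∧ ∀ k Q R : ℕ,
    ∑ q ∈ ModK k Q R, (q : ℝ) / Nat.totient q ≤ C * ((R : ℝ) * (R : ℝ) ^ δ) := by
  obtain ⟨c, hc, h⟩ := phi_bound δ hδ
  refine ⟨1 / c, by positivity, ?_⟩
  intro k Q R
  calc ∑ q ∈ ModK k Q R, (q : ℝ) / Nat.totient q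
      ≤ ∑ q ∈ ModK k Q R, 1 / c * (R : ℝ) ^ δ := by
        apply sum_le_sum
        intro q hq
        unfold ModK H343.Mod at hq
        rw [mem_filter, mem_filter, mem_Ioc] at hq
        have hq1 : 1 ≤ q := by omega
        have hq0 : (0 : ℝ) < q := by exact_mod_cast hq1
        have hφ : (0 : ℝ) < Nat.totient q := by exact_mod_cast Nat.totient_pos.mpr hq1
        have h1 := h q hq1
        rw [div_le_iff₀ hφ]
        have h2 : (q : ℝ) = (q : ℝ) ^ (1 - δ) * (q : ℝ) ^ δ := by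
          rw [← Real.rpow_add hq0]; simp
        have h3 : (q : ℝ) ^ δ ≤ (R : ℝ) ^ δ :=
          Real.rpow_le_rpow hq0.le (by exact_mod_cast hq.1.1.2) hδ.le
        calc (q : ℝ) = (q : ℝ) ^ (1 - δ) * (q : ℝ) ^ δ := h2
          _ ≤ (q : ℝ) ^ (1 - δ) * (R : ℝ) ^ δ := by gcongr
          _ = 1 / c * (R : ℝ) ^ δ * (c * (q : ℝ) ^ (1 - δ)) := by field_simp
          _ ≤ 1 / c * (R : ℝ) ^ δ * Nat.totient q := by gcongr
    _ = ((ModK k Q R).card : ℝ) * (1 / c * (R : ℝ) ^ δ) := by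
        rw [sum_const, nsmul_eq_mul]
    _ ≤ (R : ℝ) * (1 / c * (R : ℝ) ^ δ) := by
        apply mul_le_mul_of_nonneg_right _ (by positivity)
        have : (ModK k Q R).card ≤ (Ioc Q R).card := by
          apply card_le_card
          unfold ModK H343.Mod
          exact (filter_subset _ _).trans (filter_subset _ _)
        rw [Nat.card_Ioc] at this
        exact_mod_cast (by omega : (ModK k Q R).card ≤ R)
    _ = 1 / c * ((R : ℝ) * (R : ℝ) ^ δ) := by ring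

/-- the numerical part -/
lemma numeric (ε η C1 C2 C3 C4 c0 b J : ℝ) (hε : 0 < ε) (hη : 0 < η)
    (hC1 : 0 < C1) (hC2 : 0 < C2) (hC3 : 0 < C3) (hC4 : 0 < C4) (hc0 : 0 < c0) (hb : 0 ≤ b) :
    ∃ X0 : ℝ, ∀ (X Y k Qr Rr φ dk LK E T D : ℝ), X0 ≤ X → 1 ≤ k → 0 < X → 0 < Y → 1 ≤ Qr →
      0 ≤ Rr → X ≤ k ^ (3 / 2 - ε) →
      k ^ (4 * ε) / Y ≤ Qr → Rr ≤ k ^ (1 / 2 - ε) → 
      c0 * k ^ (1 - ε / 4) ≤ φ → dk ≤ C1 * k ^ (ε / 4) → 0 ≤ dk →
      E ≤ C4 * Rr ^ ε / Qr → 0 ≤ E → T ≤ C3 * (Rr * Rr ^ (ε / 4)) → 0 ≤ T →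
      D ≤ Y * J * LK + C2 * E →
      2 * (φ * D + 2 * (b * dk * Y * T ^ 2)) ≤ 2 * φ * Y * (J * LK + η) := by
  set M : ℝ := max 1 (max (2 * C2 * C4 / η) (4 * b * C1 * C3 ^ 2 / (c0 * η))) with hM
  have hM1 : 1 ≤ M := le_max_left _ _
  have hM2 : 2 * C2 * C4 / η ≤ M := (le_max_left _ _).trans (le_max_right _ _)
  have hM3 : 4 * b * C1 * C3 ^ 2 / (c0 * η) ≤ M := (le_max_right _ _).trans (le_max_right _ _)
  refine ⟨M ^ ((3 / 2) / ε), ?_⟩
  intro X Y k Qr Rr φ dk LK E T D hX hk hX0 hY hQ1 hR0 hXk hQ hR hφ hdk hdk0 hE hE0 hT hT0 hD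
  have hk0 : 0 < k := by linarith
  have hkε : M ≤ k ^ ε := by
    have h1 : M ^ ((3 / 2) / ε) ≤ k ^ (3 / 2 : ℝ) :=
      (hX.trans hXk).trans (Real.rpow_le_rpow_of_exponent_le hk (by linarith))
    have h2 := Real.rpow_le_rpow (by positivity) h1 (by positivity : 0 ≤ ε / (3 / 2))
    rw [← Real.rpow_mul (by positivity), ← Real.rpow_mul hk0.le] at h2
    have e1 : 3 / 2 / ε * (ε / (3 / 2)) = 1 := by field_simp
    have e2 : 3 / 2 * (ε / (3 / 2)) = ε := by field_simp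
    rw [e1, e2, Real.rpow_one] at h2
    exact h2
  have hkε1 : 1 ≤ k ^ ε := hM1.trans hkε
  have hφ0 : 0 < φ := lt_of_lt_of_le (by positivity) hφ
  have hRk : Rr ≤ k := by
    refine hR.trans ?_
    calc k ^ (1 / 2 - ε) ≤ k ^ (1 : ℝ) := Real.rpow_le_rpow_of_exponent_le hk (by linarith)
      _ = k := Real.rpow_one k
  -- E
  have hE2 : E ≤ C4 * Y / k ^ (3 * ε) := by
    have hQ0 : 0 < k ^ (4 * ε) / Y := by positivity
    calc E ≤ C4 * Rr ^ ε / Qr := hE
      _ ≤ C4 * k ^ ε / (k ^ (4 * ε) / Y) := by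
          apply div_le_div₀ (by positivity) _ hQ0 hQ
          exact mul_le_mul_of_nonneg_left (Real.rpow_le_rpow hR0 hRk hε.le) hC4.le
      _ = C4 * Y / k ^ (3 * ε) := by
          have : k ^ (4 * ε) = k ^ ε * k ^ (3 * ε) := by
            rw [← Real.rpow_add hk0]; congr 1; ring
          rw [this]
          field_simp
  have hE3 : 2 * C2 * E ≤ Y * η := by
    have h1 : 2 * C2 * C4 ≤ η * k ^ (3 * ε) := by
      have h2 : 2 * C2 * C4 ≤ M * η := by
        rwa [div_le_iff₀ hη] at hM2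
      have h3 : k ^ ε ≤ k ^ (3 * ε) := Real.rpow_le_rpow_of_exponent_le hk (by linarith)
      calc 2 * C2 * C4 ≤ M * η := h2
        _ ≤ k ^ (3 * ε) * η := by gcongr; exact hkε.trans h3
        _ = η * k ^ (3 * ε) := by ring
    calc 2 * C2 * E ≤ 2 * C2 * (C4 * Y / k ^ (3 * ε)) := by gcongr
      _ = (2 * C2 * C4) * Y / k ^ (3 * ε) := by ring
      _ ≤ (η * k ^ (3 * ε)) * Y / k ^ (3 * ε) := by gcongr
      _ = Y * η := by
          have : k ^ (3 * ε) ≠ 0 := by positivity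
          field_simp
  -- T
  have hR2 : Rr * Rr ^ (ε / 4) ≤ k ^ (1 / 2 - ε) * k ^ (ε / 4) :=
    mul_le_mul hR (Real.rpow_le_rpow hR0 hRk (by positivity)) (by positivity) (by positivity)
  have hT2 : T ^ 2 ≤ C3 ^ 2 * k ^ (1 - 3 * ε / 2) := by
    calc T ^ 2 ≤ (C3 * (k ^ (1 / 2 - ε) * k ^ (ε / 4))) ^ 2 := by
          apply pow_le_pow_left₀ hT0
          exact hT.trans (mul_le_mul_of_nonneg_left hR2 hC3.le)
      _ = C3 ^ 2 * k ^ (1 - 3 * ε / 2) := by
          rw [mul_pow, ← Real.rpow_add hk0, ← Real.rpow_natCast (k ^ _) 2, ← Real.rpow_mul hk0.le]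
          congr 2
          push_cast
          ring
  have hdT : 4 * b * (dk * T ^ 2) ≤ φ * η := by
    have h1 : dk * T ^ 2 ≤ C1 * C3 ^ 2 * k ^ (1 - 5 * ε / 4) := by
      calc dk * T ^ 2 ≤ (C1 * k ^ (ε / 4)) * (C3 ^ 2 * k ^ (1 - 3 * ε / 2)) := by
            gcongr
        _ = C1 * C3 ^ 2 * (k ^ (ε / 4) * k ^ (1 - 3 * ε / 2)) := by ring
        _ = C1 * C3 ^ 2 * k ^ (1 - 5 * ε / 4) := by
            rw [← Real.rpow_add hk0]; congr 2; ring
    have h2 : 4 * b * C1 * C3 ^ 2 ≤ c0 * η * k ^ ε := by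
      have h3 : 4 * b * C1 * C3 ^ 2 ≤ M * (c0 * η) := by
        rwa [div_le_iff₀ (by positivity)] at hM3
      calc 4 * b * C1 * C3 ^ 2 ≤ M * (c0 * η) := h3
        _ ≤ k ^ ε * (c0 * η) := by gcongr
        _ = c0 * η * k ^ ε := by ring
    calc 4 * b * (dk * T ^ 2) ≤ 4 * b * (C1 * C3 ^ 2 * k ^ (1 - 5 * ε / 4)) := by gcongr
      _ = (4 * b * C1 * C3 ^ 2) * k ^ (1 - 5 * ε / 4) := by ring
      _ ≤ (c0 * η * k ^ ε) * k ^ (1 - 5 * ε / 4) := by gcongr
      _ = η * (c0 * (k ^ ε * k ^ (1 - 5 * ε / 4))) := by ring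
      _ = η * (c0 * k ^ (1 - ε / 4)) := by
          rw [← Real.rpow_add hk0]
          congr 3
          ring
      _ ≤ η * φ := by gcongr
      _ = φ * η := by ring
  have hA : φ * D ≤ φ * (Y * J * LK + C2 * E) := mul_le_mul_of_nonneg_left hD hφ0.le
  have hB1 : φ * (2 * C2 * E) ≤ φ * (Y * η) := mul_le_mul_of_nonneg_left hE3 hφ0.le
  have hB2 : 4 * b * (dk * T ^ 2) * Y ≤ φ * η * Y := mul_le_mul_of_nonneg_right hdT hY.le
  nlinarith

end NormSumAux

open NormSumAux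

theorem norm_sum {B : ℝ} {lam : ℝ → ℝ} (hB : 1 ≤ B) (hl : Test B lam) (ε η : ℝ) (hε : 0 < ε)
    (hε1 : ε ≤ 1 / 100) (hη : 0 < η) : ∃ X0 : ℝ, ∀ (X : ℝ) (k : ℕ), X0 ≤ X →
    RangeV ε X (k / X) → ∀ Q R N : ℕ, CutsV ε B X (k / X) Q R N →
    ∑ n ∈ (range k).filter (fun n => n.Coprime k), (2 * (FF lam (k / X) k Q R N n).re) ^ 2 ≤
      2 * Nat.totient k * (k / X) * ((∫ v, lam v ^ 2 * Real.exp v) * LLK k Q R + η) := by
  obtain ⟨L, hL0, hL⟩ := hl.bounded
  obtain ⟨C1, hC1, h1⟩ := div_bound (ε / 4) (by positivity)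
  obtain ⟨C2, hC2, h2⟩ := diag hl
  obtain ⟨C3, hC3, h3⟩ := ratio_sum (ε / 4) (by positivity)
  obtain ⟨C4, hC4, h4⟩ := H343.NormAux.div_phi_sum ε hε
  obtain ⟨c0, hc0, h5⟩ := phi_bound (ε / 4) (by positivity)
  obtain ⟨X0, hX0⟩ := numeric ε η C1 C2 C3 C4 c0 (4 * Real.exp B ^ 2 * L ^ 2)
    (∫ v, lam v ^ 2 * Real.exp v) hε hη hC1 hC2 hC3 hC4 hc0 (by positivity)
  refine ⟨X0, ?_⟩
  intro X k hX hr Q R N hcut
  have hXp := hr.hx
  have hxy : X * ((k : ℝ) / X) = k := by field_simp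
  have hk1 : (1 : ℝ) ≤ k := by
    have := hr.h1
    rwa [hxy] at this
  have hk : 1 ≤ k := by exact_mod_cast hk1
  have hq1 := hcut.hQ1
  have hq2 := hcut.hQ2
  have hR := hcut.hR
  have hX2 := hr.hhigh
  rw [hxy] at hq1 hq2 hR hX2
  have hQ1 : (1 : ℝ) ≤ Q := (Real.one_le_rpow hk1 (by positivity)).trans hq1
  have hQn : 1 ≤ Q := by exact_mod_cast hQ1
  refine (combine hB hl hL hr.hY hr.hY1 k Q R N hk).trans ?_
  exact hX0 X (k / X) k Q R (Nat.totient k) (k.divisors.card) (LLK k Q R)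
    (∑ q ∈ H343.Mod Q R, (q.divisors.card : ℝ) / (Nat.totient q : ℝ) ^ 2)
    (∑ q ∈ ModK k Q R, (q : ℝ) / Nat.totient q)
    (∑ q ∈ ModK k Q R, ∑ a ∈ (Icc 1 N).filter (fun a => a.Coprime q),
        ‖co lam (k / X) q a‖ ^ 2)
    hX hk1 hXp hr.hY hQ1 (by positivity) hX2 hq2 hR (h5 k hk) (h1 k hk) (by positivity)
    (h4 Q R hQn) (sum_nonneg (fun _ _ => by positivity)) (h3 k Q R)
    (sum_nonneg (fun _ _ => by positivity)) (h2 (k / X) k Q R N hr.hY hcut.hN)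

end H336V
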