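import Pool.Agent.H336R2.V.Pairing
import Pool.Agent.H336R2.V.ExistsLam
import Pool.Agent.H336R2.V.NormSum
import Pool.Agent.H336R2.V.MeanSum
import Pool.Agent.H336R2.V.LLKLower
import Pool.Agent.H336R2.V.TotLog

open Finset MeasureTheory

namespace H336V

open H343 H343.KF

namespace Main

lemma ex_nat (n : ℕ) : ex (n : ℝ) = 1 := by
  unfold ex
  rw [show ((2 * Real.pi * (n : ℝ) : ℝ) : ℂ) * Complex.I = n * (2 * Real.pi * Complex.I) by
    push_cast; ring]
  exact Complex.exp_nat_mul_two_pi_mul_I n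

lemma ex_mod (k n b : ℕ) (hk : 1 ≤ k) :
    ex ((n : ℝ) * (b : ℝ) / k) = ex (((n % k : ℕ) : ℝ) * (b : ℝ) / k) := by
  have hk0 : (k : ℝ) ≠ 0 := by
    have : (0 : ℝ) < k := by exact_mod_cast hk
    exact this.ne'
  have h := Nat.div_add_mod n k
  have h1 : (n : ℝ) * (b : ℝ) / k = ((n / k * b : ℕ) : ℝ) + ((n % k : ℕ) : ℝ) * (b : ℝ) / k := by
    have h2 : (n : ℝ) = (k : ℝ) * ((n / k : ℕ) : ℝ) + ((n % k : ℕ) : ℝ) := by exact_mod_cast h.symm
    rw [h2]
    push_cast
    field_simp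
  rw [h1, ex_add, ex_nat, one_mul]

lemma FF_mod (lam : ℝ → ℝ) (Y : ℝ) (k Q R N n : ℕ) (hk : 1 ≤ k) :
    FF lam Y k Q R N n = FF lam Y k Q R N (n % k) := by
  unfold FF
  apply sum_congr rfl
  intro q _
  apply sum_congr rfl
  intro a _
  rw [ex_mod k n _ hk]

lemma pair_eq (lam : ℝ → ℝ) (X Y : ℝ) (k Q R N : ℕ) (hk : 1 ≤ k) :
    ∑ A ∈ (range k).filter (fun A => A.Coprime k), (psiA X k A : ℂ) * FF lam Y k Q R N A =
      ∑ n ∈ (Icc 1 ⌊X⌋₊).filter (fun n => n.Coprime k),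
        (ArithmeticFunction.vonMangoldt n : ℂ) * FF lam Y k Q R N n := by
  have hmap : ∀ n ∈ (Icc 1 ⌊X⌋₊).filter (fun n => n.Coprime k),
      n % k ∈ (range k).filter (fun A => A.Coprime k) := by
    intro n hn
    rw [mem_filter] at hn ⊢
    refine ⟨mem_range.2 (Nat.mod_lt _ hk), ?_⟩
    have := hn.2
    unfold Nat.Coprime at this ⊢
    rw [← this]
    rw [Nat.gcd_comm n k, Nat.gcd_rec k n]
  rw [← sum_fiberwise_of_maps_to hmap]
  apply sum_congr rfl
  intro A hA
  rw [mem_filter, mem_range] at hA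
  unfold psiA
  push_cast
  rw [sum_mul, filter_filter]
  have hset : (Icc 1 ⌊X⌋₊).filter (fun n => n ≡ A [MOD k]) =
      (Icc 1 ⌊X⌋₊).filter (fun n => n.Coprime k ∧ n % k = A) := by
    ext n
    simp only [mem_filter, and_congr_right_iff]
    intro _
    constructor
    · intro h
      have h1 : n % k = A := by
        have : n % k = A % k := h
        rw [this, Nat.mod_eq_of_lt hA.1]
      refine ⟨?_, h1⟩
      have := hA.2
      rw [← h1] at this
      unfold Nat.Coprime at this ⊢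
      rw [Nat.gcd_comm n k, Nat.gcd_rec k n]
      exact this
    · rintro ⟨_, h⟩
      show n % k = A % k
      rw [h, Nat.mod_eq_of_lt hA.1]
  rw [hset]
  apply sum_congr rfl
  intro n hn
  rw [mem_filter] at hn
  rw [FF_mod lam Y k Q R N n hk, hn.2.2]

lemma final (X k φ L I1 I2 η G P NF Λ : ℝ) (hX : 0 < X) (hk : 0 < k) (hφ : 0 < φ) (hη : 0 < η)
    (hη' : η ≤ 1 / 100) (hG0 : 0 ≤ G) (hI21 : I2 ≤ I1) (hI1 : 1 / 2 - η ≤ I1)
    (hL : 1 ≤ L) (hLΛ : (φ / k) * Λ ≤ L)
    (hCS : P ^ 2 ≤ G * NF) (hP : 2 * k * (I1 * L - η * (2 + L)) ≤ P)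
    (hNF : NF ≤ 2 * φ * (k / X) * (I2 * L + η)) : X * Λ * (1 - 16 * η) ≤ G := by
  have hI : 0 < I1 - 3 * η := by linarith
  have hI7 : 0 < I1 - 7 * η := by linarith
  have hIη : 0 < I1 + η := by linarith
  have hL0 : 0 < L := by linarith
  have hp0 : 2 * k * (L * (I1 - 3 * η)) ≤ P := by
    refine le_trans ?_ hP
    apply mul_le_mul_of_nonneg_left _ (by positivity)
    nlinarith
  have hp1 : (2 * k * (L * (I1 - 3 * η))) ^ 2 ≤ P ^ 2 := by
    apply pow_le_pow_left₀ (by positivity) hp0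
  have hN : NF ≤ 2 * φ * (k / X) * ((I1 + η) * L) := by
    refine hNF.trans ?_
    apply mul_le_mul_of_nonneg_left _ (by positivity)
    nlinarith
  have hW : 0 < 2 * φ * (k / X) * ((I1 + η) * L) := by positivity
  have h1 : (2 * k * (L * (I1 - 3 * η))) ^ 2 ≤ G * (2 * φ * (k / X) * ((I1 + η) * L)) :=
    hp1.trans (hCS.trans (mul_le_mul_of_nonneg_left hN hG0))
  have h2 : X * Λ * (1 - 16 * η) * (2 * φ * (k / X) * ((I1 + η) * L)) ≤
      (2 * k * (L * (I1 - 3 * η))) ^ 2 := by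
    have e1 : X * Λ * (1 - 16 * η) * (2 * φ * (k / X) * ((I1 + η) * L)) =
        2 * (φ * Λ) * k * L * ((1 - 16 * η) * (I1 + η)) := by
      field_simp
    rw [e1]
    have h3 : φ * Λ ≤ k * L := by
      rw [div_mul_eq_mul_div, div_le_iff₀ hk] at hLΛ
      linarith
    have h4 : (1 - 16 * η) * (I1 + η) ≤ 2 * (I1 - 3 * η) ^ 2 := by
      have : (1 - 16 * η) * (I1 + η) ≤ (2 * (I1 - 7 * η)) * (I1 + η) := by
        apply mul_le_mul_of_nonneg_right _ hIη.le
        linarith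
      nlinarith
    have h5 : 0 ≤ (1 - 16 * η) * (I1 + η) := mul_nonneg (by linarith) hIη.le
    calc 2 * (φ * Λ) * k * L * ((1 - 16 * η) * (I1 + η))
        ≤ 2 * (k * L) * k * L * ((1 - 16 * η) * (I1 + η)) := by gcongr
      _ ≤ 2 * (k * L) * k * L * (2 * (I1 - 3 * η) ^ 2) := by gcongr
      _ = _ := by ring
  exact le_of_mul_le_mul_right (h2.trans h1) hW

end Main

open Main in
theorem main (ε : ℝ) (hε : 0 < ε) : ∃ X0 : ℝ, ∀ X : ℝ, X0 ≤ X → ∀ k : ℕ, 1 ≤ k → (k : ℝ) ≤ X →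
    X * (3 / 2 * Real.log k - Real.log X - ε * Real.log X) ≤ GV X k := by
  -- parameters
  set η : ℝ := min (ε / 64) (1 / 100) with hηdef
  set ε0 : ℝ := min (ε / 40) (1 / 100) with hε0def
  have hη : 0 < η := by positivity
  have hε0 : 0 < ε0 := by positivity
  have hη1 : η ≤ ε / 64 := min_le_left _ _
  have hη2 : η ≤ 1 / 100 := min_le_right _ _
  have hε1 : ε0 ≤ ε / 40 := min_le_left _ _
  have hε2 : ε0 ≤ 1 / 100 := min_le_right _ _
  obtain ⟨B, lam, hB, hlam, hI21, hI1⟩ := exists_lam η hη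
  obtain ⟨X1, hX1⟩ := norm_sum hB hlam ε0 η hε0 hε2 hη
  obtain ⟨X2, hX2⟩ := mean_sum hB hlam ε0 η hε0 hε2 hη
  obtain ⟨X3, hX3⟩ := pairing hB hlam ε0 η hε0 hε2 hη
  obtain ⟨k1, hk1⟩ := LLK_lower (4 * ε0) η (by positivity) hη
  obtain ⟨k2, hk2⟩ := totient_log (2 / ε)
  set I1 := ∫ v, lam v * Real.sinc (Real.pi * Real.exp v) * Real.exp v with hI1def
  set I2 := ∫ v, lam v ^ 2 * Real.exp v with hI2def
  set K0 : ℝ := max (max k1 k2) 16 with hK0
  have hK16 : (16 : ℝ) ≤ K0 := le_max_right _ _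
  refine ⟨max (max (max X1 X2) (max X3 (K0 ^ 2))) (Real.exp (16 * Real.log 4 / ε)), ?_⟩
  intro X hX k hk hkX
  have hXX1 : X1 ≤ X := le_trans (le_max_left _ _) (le_trans (le_max_left _ _) (le_trans (le_max_left _ _) hX))
  have hXX2 : X2 ≤ X := le_trans (le_max_right _ _) (le_trans (le_max_left _ _) (le_trans (le_max_left _ _) hX))
  have hXX3 : X3 ≤ X := le_trans (le_max_left _ _) (le_trans (le_max_right _ _) (le_trans (le_max_left _ _) hX))
  have hXK : K0 ^ 2 ≤ X := le_trans (le_max_right _ _) (le_trans (le_max_right _ _) (le_trans (le_max_left _ _) hX))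
  have hXE : Real.exp (16 * Real.log 4 / ε) ≤ X := (le_max_right _ _).trans hX
  have hX256 : (256 : ℝ) ≤ X := by nlinarith
  have hX0 : 0 < X := by linarith
  have hlogX : 0 < Real.log X := Real.log_pos (by linarith)
  have hlog4 : Real.log 4 ≤ ε / 16 * Real.log X := by
    have h1 : 16 * Real.log 4 / ε ≤ Real.log X := by
      rw [← Real.log_exp (16 * Real.log 4 / ε)]
      exact Real.log_le_log (Real.exp_pos _) hXE
    rw [div_le_iff₀ hε] at h1
    linarith
  have hG0 : 0 ≤ GV X k := sum_nonneg fun _ _ => sq_nonneg _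
  have hk0 : (0 : ℝ) < k := by exact_mod_cast hk
  have hk1' : (1 : ℝ) ≤ k := by exact_mod_cast hk
  have hlogk0 : 0 ≤ Real.log k := Real.log_nonneg hk1'
  have hlogkX : Real.log k ≤ Real.log X := Real.log_le_log hk0 hkX
  rcases le_or_gt (3 / 2 * Real.log k - Real.log X - ε * Real.log X) 0 with hneg | hpos
  · exact (mul_nonpos_of_nonneg_of_nonpos hX0.le hneg).trans hG0
  -- the main range
  have hεX : 0 < ε * Real.log X := by positivity
  have hlk : Real.log X / 2 ≤ Real.log k := by nlinarith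
  have hkK : K0 ≤ k := by
    have h1 : Real.log (K0 ^ 2) ≤ Real.log X := Real.log_le_log (by positivity) hXK
    rw [Real.log_pow] at h1
    push_cast at h1
    have h2 : Real.log K0 ≤ Real.log k := by linarith
    exact (Real.log_le_log_iff (by positivity) hk0).1 h2
  have hkk1 : k1 ≤ k := ((le_max_left _ _).trans (le_max_left _ _)).trans hkK
  have hkk2 : k2 ≤ k := ((le_max_right _ _).trans (le_max_left _ _)).trans hkK
  have hk16 : (16 : ℝ) ≤ k := hK16.trans hkK
  have hXY : X * (k / X) = k := by field_simp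
  have hRange : RangeV ε0 X (k / X) := by
    refine ⟨hX0, by positivity, by rw [div_le_one hX0]; exact hkX, by rw [hXY]; exact hk1', ?_⟩
    rw [hXY]
    have h1 : Real.log X ≤ Real.log ((k : ℝ) ^ (3 / 2 - ε0)) := by
      rw [Real.log_rpow hk0]
      have h2 : ε0 * Real.log k ≤ ε * Real.log X := by
        have : ε0 ≤ ε := by linarith
        gcongr
      nlinarith
    exact (Real.log_le_log_iff hX0 (by positivity)).1 h1
  set Q : ℕ := ⌈(k : ℝ) ^ (4 * ε0) / (k / X)⌉₊ with hQ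
  set R : ℕ := ⌊(k : ℝ) ^ (1 / 2 - ε0)⌋₊ with hR
  set N : ℕ := ⌈Real.exp B * R * (k / X)⌉₊ with hN
  have hkXp : 0 < (k : ℝ) / X := by positivity
  have hkX1 : (k : ℝ) / X ≤ 1 := by rw [div_le_one hX0]; exact hkX
  have hq1 : (k : ℝ) ^ (4 * ε0) ≤ (k : ℝ) ^ (4 * ε0) / (k / X) := by
    rw [le_div_iff₀ hkXp]
    have : 0 < (k : ℝ) ^ (4 * ε0) := by positivity
    nlinarith
  have hq2 : (k : ℝ) ^ (4 * ε0) / (k / X) ≤ Q := Nat.le_ceil _
  have hkε1 : 1 ≤ (k : ℝ) ^ (4 * ε0) := Real.one_le_rpow hk1' (by positivity)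
  have hCuts : CutsV ε0 B X (k / X) Q R N := by
    refine ⟨?_, ?_, ?_, ?_⟩
    · rw [hXY]; exact hq1.trans hq2
    · rw [hXY]; exact hq2
    · rw [hXY]; exact Nat.floor_le (by positivity)
    · exact Nat.le_ceil _
  have hQ1 : (1 : ℝ) ≤ Q := hkε1.trans (hq1.trans hq2)
  have hQ2 : (Q : ℝ) ≤ 2 * ((k : ℝ) ^ (4 * ε0) / (k / X)) := by
    have := Nat.ceil_lt_add_one (a := (k : ℝ) ^ (4 * ε0) / (k / X)) (by positivity)
    have h1 : 1 ≤ (k : ℝ) ^ (4 * ε0) / (k / X) := hkε1.trans hq1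
    rw [← hQ] at this
    linarith
  have hkr : 2 ≤ (k : ℝ) ^ (1 / 2 - ε0) := by
    calc (2 : ℝ) = (16 : ℝ) ^ (1 / 4 : ℝ) := by
          rw [show (16 : ℝ) = 2 ^ (4 : ℝ) by norm_num, ← Real.rpow_mul (by norm_num)]
          norm_num
      _ ≤ (k : ℝ) ^ (1 / 4 : ℝ) := by gcongr
      _ ≤ (k : ℝ) ^ (1 / 2 - ε0) := by
          apply Real.rpow_le_rpow_of_exponent_le hk1'
          linarith
  have hR2 : (k : ℝ) ^ (1 / 2 - ε0) / 2 ≤ R := by
    have := Nat.lt_floor_add_one ((k : ℝ) ^ (1 / 2 - ε0))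
    rw [← hR] at this
    linarith
  have hRle : (R : ℝ) ≤ (k : ℝ) ^ (1 / 2 - ε0) := Nat.floor_le (by positivity)
  have hRk : (R : ℝ) ≤ k := by
    refine hRle.trans ?_
    calc (k : ℝ) ^ (1 / 2 - ε0) ≤ (k : ℝ) ^ (1 : ℝ) := by
          apply Real.rpow_le_rpow_of_exponent_le hk1'
          linarith
      _ = k := Real.rpow_one _
  have hR0 : (0 : ℝ) < R := by linarith
  have hQ0 : (0 : ℝ) < Q := by linarith
  set T : ℝ := 3 / 2 * Real.log k - Real.log X with hT
  have hlogRQ : T - 5 * ε0 * Real.log k - Real.log 4 ≤ Real.log (R / Q) := by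
    have h1 : (k : ℝ) ^ (1 / 2 - ε0) / 2 / (2 * ((k : ℝ) ^ (4 * ε0) / (k / X))) ≤ R / Q := by
      gcongr
    have h2 : 0 < (k : ℝ) ^ (1 / 2 - ε0) / 2 / (2 * ((k : ℝ) ^ (4 * ε0) / (k / X))) := by positivity
    refine le_trans (le_of_eq ?_) (Real.log_le_log h2 h1)
    rw [Real.log_div (by positivity) (by positivity), Real.log_div (by positivity) (by norm_num),
      Real.log_mul (by norm_num) (by positivity), Real.log_div (by positivity) (by positivity),
      Real.log_div (by positivity) (by positivity), Real.log_rpow hk0, Real.log_rpow hk0,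
      show (4 : ℝ) = 2 * 2 by norm_num, Real.log_mul (by norm_num) (by norm_num), hT]
    ring
  have hek : ε0 * Real.log k ≤ ε / 40 * Real.log X := by gcongr
  have hηk : η * Real.log k ≤ ε / 64 * Real.log X := by gcongr
  set Λ : ℝ := Real.log (R / Q) - η * Real.log k with hΛ
  have hΛ1 : T - ε / 4 * Real.log X ≤ Λ := by
    rw [hΛ]
    have : 5 * ε0 * Real.log k = 5 * (ε0 * Real.log k) := by ring
    linarith
  have hTε : ε * Real.log X < T := by rw [hT]; linarith
  have hΛ0 : 0 ≤ Λ := by linarith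
  have hRQ0 : 0 ≤ Real.log (R / Q) := by
    have : 0 ≤ η * Real.log k := by positivity
    linarith
  have hQR : Q ≤ R := by
    have h1 : (1 : ℝ) ≤ R / Q := by
      by_contra h
      push Not at h
      have := Real.log_neg (by positivity) h
      linarith
    rw [le_div_iff₀ hQ0, one_mul] at h1
    exact_mod_cast h1
  have hRk' : R ≤ k := by exact_mod_cast hRk
  have hLL := hk1 k Q R hkk1 (hq1.trans hq2) hQR hRk'
  rw [← hΛ] at hLL
  have hΛX : Λ ≤ Real.log X := by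
    have h1 : Real.log (R / Q) ≤ Real.log k := by
      apply Real.log_le_log (by positivity)
      rw [div_le_iff₀ hQ0]
      nlinarith
    have : 0 ≤ η * Real.log k := by positivity
    rw [hΛ]; linarith
  have htot : (0 : ℝ) < Nat.totient k := by exact_mod_cast Nat.totient_pos.2 hk
  have hL1 : 1 ≤ LLK k Q R := by
    refine le_trans ?_ hLL
    have h1 := hk2 k hkk2
    have h2 : 3 / 4 * ε * Real.log k ≤ Λ := by
      have h3 : 3 / 4 * ε * Real.log k ≤ 3 / 4 * ε * Real.log X := by gcongr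
      linarith
    calc (1 : ℝ) ≤ 3 / 4 * ε * (2 / ε) := by field_simp; norm_num
      _ ≤ 3 / 4 * ε * ((Nat.totient k : ℝ) / k * Real.log k) := by gcongr
      _ = (Nat.totient k : ℝ) / k * (3 / 4 * ε * Real.log k) := by ring
      _ ≤ (Nat.totient k : ℝ) / k * Λ := by gcongr
  -- Cauchy-Schwarz
  set F := FF lam (k / X) k Q R N with hF
  set S := (range k).filter (fun n => n.Coprime k) with hS
  have hnorm := hX1 X k hXX1 hRange Q R N hCuts
  have hmean := hX2 X k hXX2 hRange Q R N hCuts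
  have hpair := hX3 X k hXX3 hRange Q R N hCuts
  rw [← pair_eq lam X (k / X) k Q R N hk] at hpair
  have hCS : (∑ A ∈ S, (psiA X k A - X / Nat.totient k) * (2 * (F A).re)) ^ 2 ≤
      GV X k * ∑ A ∈ S, (2 * (F A).re) ^ 2 := by
    have := sum_mul_sq_le_sq_mul_sq S (fun A => psiA X k A - X / Nat.totient k)
      (fun A => 2 * (F A).re)
    exact this
  have hPeq : ∑ A ∈ S, (psiA X k A - X / Nat.totient k) * (2 * (F A).re) =
      2 * (∑ A ∈ S, (psiA X k A : ℂ) * F A).re - 2 * (X / Nat.totient k) * (∑ A ∈ S, F A).re := by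
    rw [Complex.re_sum, Complex.re_sum, mul_sum, mul_sum, ← sum_sub_distrib]
    apply sum_congr rfl
    intro A _
    rw [Complex.re_ofReal_mul]
    ring
  have hP : 2 * (k : ℝ) * (I1 * LLK k Q R - η * (2 + LLK k Q R)) ≤
      ∑ A ∈ S, (psiA X k A - X / Nat.totient k) * (2 * (F A).re) := by
    rw [hPeq]
    have h1 : (∑ A ∈ S, F A).re ≤ η * Nat.totient k * (k / X) :=
      (Complex.re_le_norm _).trans hmean
    have h2 : 2 * (X / Nat.totient k) * (∑ A ∈ S, F A).re ≤ 2 * η * k := by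
      calc 2 * (X / Nat.totient k) * (∑ A ∈ S, F A).re ≤
          2 * (X / Nat.totient k) * (η * Nat.totient k * (k / X)) := by gcongr
        _ = 2 * η * k := by field_simp
    have h3 : (k : ℝ) * (I1 * LLK k Q R - η * (1 + LLK k Q R)) ≤
      (∑ A ∈ S, (psiA X k A : ℂ) * F A).re := hpair
    nlinarith
  have hfin := final X k (Nat.totient k) (LLK k Q R) I1 I2 η (GV X k) _ _ Λ hX0 hk0 htot hη hη2 hG0
    hI21 hI1 hL1 hLL hCS hP hnorm
  refine le_trans ?_ hfin
  have h16 : 16 * η * Λ ≤ ε / 4 * Real.log X := by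
    calc 16 * η * Λ ≤ 16 * (ε / 64) * Real.log X := by gcongr
      _ = _ := by ring
  calc X * (T - ε * Real.log X) ≤ X * (Λ - 16 * η * Λ) := by
        apply mul_le_mul_of_nonneg_left _ hX0.le
        linarith
    _ = X * Λ * (1 - 16 * η) := by ring

end H336V
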