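import Pool.Agent.H336R2.V.Defs
import Pool.Agent.H336R2.V.Raman
import Pool.Agent.H343R2.Norm

open Finset MeasureTheory

namespace H336V

open H343

namespace NormSumAux

/-- the Ramanujan sum -/
noncomputable def RR (k : ℕ) (b : ℤ) : ℂ :=
  ∑ n ∈ (range k).filter (fun n => n.Coprime k), ex ((n : ℝ) * b / k)

/-- sum of common divisors -/
noncomputable def GG (k : ℕ) (m : ℤ) : ℝ :=
  ∑ d ∈ k.divisors.filter (fun d : ℕ => (d : ℤ) ∣ m), (d : ℝ)

lemma GG_nonneg (k : ℕ) (m : ℤ) : 0 ≤ GG k m := sum_nonneg (fun _ _ => by positivity)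

lemma RR_le (k : ℕ) (hk : 1 ≤ k) (b : ℤ) : ‖RR k b‖ ≤ GG k b := raman k hk b

lemma ex_conj (y : ℝ) : (starRingEnd ℂ) (ex y) = ex (-y) := by
  unfold ex
  rw [← Complex.exp_conj]
  congr 1
  rw [map_mul, Complex.conj_ofReal, Complex.conj_I]
  push_cast
  ring

lemma ex_add' (y z : ℝ) : ex y * ex z = ex (y + z) := by
  unfold ex
  rw [← Complex.exp_add]
  congr 1
  push_cast
  ring

lemma re_sq (z : ℂ) : (2 * z.re) ^ 2 = 2 * (z * (starRingEnd ℂ) z).re + 2 * (z * z).re := by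
  simp only [Complex.mul_re, Complex.conj_re, Complex.conj_im]
  ring

lemma expand (k : ℕ) {ι : Type*} (S : Finset ι) (c : ι → ℂ) (b : ι → ℤ) :
    ∑ n ∈ (range k).filter (fun n => n.Coprime k),
      (2 * (∑ p ∈ S, c p * ex ((n : ℝ) * b p / k)).re) ^ 2 ≤
    2 * ∑ p ∈ S, ∑ p' ∈ S, ‖c p‖ * ‖c p'‖ * (‖RR k (b p - b p')‖ + ‖RR k (b p + b p')‖) := by
  have h1 : ∀ n ∈ (range k).filter (fun n => n.Coprime k),
      (2 * (∑ p ∈ S, c p * ex ((n : ℝ) * b p / k)).re) ^ 2 =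
      2 * (∑ p ∈ S, ∑ p' ∈ S, c p * (starRingEnd ℂ) (c p') *
        ex ((n : ℝ) * ((b p - b p' : ℤ) : ℝ) / k)).re +
      2 * (∑ p ∈ S, ∑ p' ∈ S, c p * c p' * ex ((n : ℝ) * ((b p + b p' : ℤ) : ℝ) / k)).re := by
    intro n _
    rw [re_sq, map_sum, sum_mul_sum, sum_mul_sum]
    congr 3
    · apply sum_congr rfl
      intro p _
      apply sum_congr rfl
      intro p' _
      rw [map_mul, ex_conj]
      have : (n : ℝ) * ((b p - b p' : ℤ) : ℝ) / k = (n : ℝ) * b p / k + -((n : ℝ) * b p' / k) := by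
        push_cast; ring
      rw [this, ← ex_add']
      ring
    · apply sum_congr rfl
      intro p _
      apply sum_congr rfl
      intro p' _
      have : (n : ℝ) * ((b p + b p' : ℤ) : ℝ) / k = (n : ℝ) * b p / k + (n : ℝ) * b p' / k := by
        push_cast; ring
      rw [this, ← ex_add']
      ring
  rw [sum_congr rfl h1, sum_add_distrib, ← mul_sum, ← mul_sum, ← Complex.re_sum, ← Complex.re_sum]
  have h2 : ∀ (d : ι → ι → ℂ) (f : ι → ι → ℤ),
      (∑ n ∈ (range k).filter (fun n => n.Coprime k), ∑ p ∈ S, ∑ p' ∈ S,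
        d p p' * ex ((n : ℝ) * (f p p' : ℝ) / k)).re ≤
      ∑ p ∈ S, ∑ p' ∈ S, ‖d p p'‖ * ‖RR k (f p p')‖ := by
    intro d f
    refine (Complex.re_le_norm _).trans ?_
    rw [sum_comm]
    refine (norm_sum_le _ _).trans (sum_le_sum ?_)
    intro p _
    rw [sum_comm]
    refine (norm_sum_le _ _).trans (sum_le_sum ?_)
    intro p' _
    rw [← mul_sum, norm_mul]
    rfl
  have h3 := h2 (fun p p' => c p * (starRingEnd ℂ) (c p')) (fun p p' => b p - b p')
  have h4 := h2 (fun p p' => c p * c p') (fun p p' => b p + b p')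
  simp only [norm_mul, RCLike.norm_conj] at h3 h4
  simp_rw [mul_add]
  simp_rw [sum_add_distrib]
  rw [mul_add]
  linarith

/-- reduction of the frequency -/
lemma freq (k q q' a a' : ℕ) (hk : 1 ≤ k) (hq : q.Coprime k) (hq' : q'.Coprime k) (σ : ℤ) :
    GG k (((a * inv k q : ℕ) : ℤ) + σ * ((a' * inv k q' : ℕ) : ℤ)) =
      GG k ((a * q' + σ * (a' * q) : ℤ)) := by
  unfold GG
  apply sum_congr _ (fun _ _ => rfl)
  apply filter_congr
  intro d hd
  have hdk : d ∣ k := (Nat.mem_divisors.mp hd).1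
  have : NeZero k := ⟨by omega⟩
  have hinv : ∀ r : ℕ, r.Coprime k → ((r * inv k r : ℕ) : ZMod k) = 1 := by
    intro r hr
    unfold inv
    rw [Nat.cast_mul, ZMod.natCast_zmod_val]
    exact ZMod.coe_mul_inv_eq_one r hr
  have hinv' : ∀ r : ℕ, r.Coprime k → ((d : ℤ) ∣ ((r * inv k r : ℕ) : ℤ) - 1) := by
    intro r hr
    have h1 := hinv r hr
    have h2 : ((((r * inv k r : ℕ) : ℤ) - 1 : ℤ) : ZMod k) = 0 := by
      rw [Int.cast_sub, Int.cast_natCast, h1]; simp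
    rw [ZMod.intCast_zmod_eq_zero_iff_dvd] at h2
    exact (Int.natCast_dvd_natCast.mpr hdk).trans h2
  have h1 := hinv' q hq
  have h2 := hinv' q' hq'
  have hcop : IsCoprime (d : ℤ) ((q : ℤ) * q') := by
    rw [IsCoprime.mul_right_iff]
    constructor
    · exact (Nat.isCoprime_iff_coprime.mpr (Nat.Coprime.coprime_dvd_right hdk hq)).symm
    · exact (Nat.isCoprime_iff_coprime.mpr (Nat.Coprime.coprime_dvd_right hdk hq')).symm
  have key : (d : ℤ) ∣ ((q : ℤ) * q') * (((a * inv k q : ℕ) : ℤ) + σ * ((a' * inv k q' : ℕ) : ℤ)) -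
      (a * q' + σ * (a' * q)) := by
    have e : ((q : ℤ) * q') * (((a * inv k q : ℕ) : ℤ) + σ * ((a' * inv k q' : ℕ) : ℤ)) -
      (a * q' + σ * (a' * q)) = (a * q') * (((q * inv k q : ℕ) : ℤ) - 1) +
        (σ * (a' * q)) * (((q' * inv k q' : ℕ) : ℤ) - 1) := by
      push_cast
      ring
    rw [e]
    exact dvd_add (h1.mul_left _) (h2.mul_left _)
  constructor
  · intro h
    have h3 : (d : ℤ) ∣ ((q : ℤ) * q') *
      (((a * inv k q : ℕ) : ℤ) + σ * ((a' * inv k q' : ℕ) : ℤ)) := h.mul_left _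
    have := dvd_sub h3 key
    simpa using this
  · intro h
    have h3 := dvd_add key h
    rw [sub_add_cancel] at h3
    exact hcop.dvd_of_dvd_mul_left h3

/-- distinct reduced fractions -/
lemma frac_ne (q q' a a' : ℕ) (hq : 1 ≤ q) 
    (ha : a.Coprime q) (ha' : a'.Coprime q') (hne : ¬ (q = q' ∧ a = a')) :
    (a * q' + (-1) * (a' * q) : ℤ) ≠ 0 := by
  intro h
  have h1 : a * q' = a' * q := by
    have : (a : ℤ) * q' = a' * q := by linarith
    exact_mod_cast this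
  have h2 : q ∣ q' := by
    have : q ∣ a * q' := by rw [h1]; exact dvd_mul_left _ _
    exact (Nat.Coprime.symm ha).dvd_of_dvd_mul_left this
  have h3 : q' ∣ q := by
    have : q' ∣ a' * q := by rw [← h1]; exact dvd_mul_left _ _
    exact (Nat.Coprime.symm ha').dvd_of_dvd_mul_left this
  have h4 : q = q' := Nat.dvd_antisymm h2 h3
  subst h4
  exact hne ⟨rfl, Nat.eq_of_mul_eq_mul_right (by omega) h1⟩

/-- the off-diagonal weight -/
noncomputable def HH (k : ℕ) (σ : ℤ) (q a q' a' : ℕ) : ℝ :=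
  if (a * q' + σ * (a' * q) : ℤ) = 0 then 0 else
      ∑ d ∈ k.divisors.filter (fun d : ℕ => (d : ℤ) ∣ (a * q' + σ * (a' * q) : ℤ)), (d : ℝ)

lemma HH_nonneg (k : ℕ) (σ : ℤ) (q a q' a' : ℕ) : 0 ≤ HH k σ q a q' a' := by
  unfold HH
  split_ifs
  · exact le_rfl
  · exact sum_nonneg (fun _ _ => by positivity)

lemma RR_zero (k : ℕ) : ‖RR k 0‖ = Nat.totient k := by
  unfold RR
  have : ∀ n ∈ (range k).filter (fun n => n.Coprime k), ex ((n : ℝ) * ((0 : ℤ) : ℝ) / k) = 1 := by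
    intro n _
    unfold ex
    simp
  rw [sum_congr rfl this, sum_const, nsmul_eq_mul, mul_one]
  rw [Complex.norm_natCast]
  congr 1
  rw [Nat.totient_eq_card_coprime]
  congr 1
  apply filter_congr
  intro n _
  exact Nat.coprime_comm

lemma RR_minus (k q q' a a' : ℕ) (hk : 1 ≤ k) (hq1 : 1 ≤ q) (hq : q.Coprime k) (hq' : q'.Coprime k)
    (ha : a.Coprime q) (ha' : a'.Coprime q') :
    ‖RR k (((a * inv k q : ℕ) : ℤ) - ((a' * inv k q' : ℕ) : ℤ))‖ ≤
      (if (q = q' ∧ a = a') then (Nat.totient k : ℝ) else 0) + HH k (-1) q a q' a' := by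
  by_cases h : q = q' ∧ a = a'
  · rw [if_pos h]
    obtain ⟨rfl, rfl⟩ := h
    rw [sub_self, RR_zero]
    linarith [HH_nonneg k (-1) q a q a]
  · rw [if_neg h, zero_add]
    have h1 := frac_ne q q' a a' hq1 ha ha' h
    unfold HH
    rw [if_neg h1]
    have h2 := freq k q q' a a' hk hq hq' (-1)
    have h3 : ((a * inv k q : ℕ) : ℤ) - ((a' * inv k q' : ℕ) : ℤ) =
      ((a * inv k q : ℕ) : ℤ) + (-1) * ((a' * inv k q' : ℕ) : ℤ) := by ring
    rw [h3]
    refine (RR_le k hk _).trans ?_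
    rw [h2]
    exact le_rfl

lemma RR_plus (k q q' a a' : ℕ) (hk : 1 ≤ k) (hq' : 1 ≤ q') (ha1 : 1 ≤ a)
    (hqk : q.Coprime k) (hqk' : q'.Coprime k) :
    ‖RR k (((a * inv k q : ℕ) : ℤ) + ((a' * inv k q' : ℕ) : ℤ))‖ ≤ HH k 1 q a q' a' := by
  have h1 : (a * q' + 1 * (a' * q) : ℤ) ≠ 0 := by
    have h2 : 0 < (a : ℤ) * q' := by positivity
    have h3 : 0 ≤ (a' : ℤ) * q := by positivity
    omega
  unfold HH
  rw [if_neg h1]
  have h2 := freq k q q' a a' hk hqk hqk' 1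
  rw [one_mul] at h2
  refine (RR_le k hk _).trans ?_
  rw [h2]
  exact le_rfl

end NormSumAux

end H336V
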