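import Pool.Agent.H336R2.V.Recip
import Pool.Agent.H343R2.KF7

open Finset MeasureTheory

namespace H336V

open H343 H343.KF

namespace PairA

/-- oscillating factor -/
noncomputable def gg (X w : ℝ) (n : ℕ) : ℂ := ex (w * (n / X - 1 / 2))

lemma gg_norm (X w : ℝ) (n : ℕ) : ‖gg X w n‖ = 1 := norm_ex _

/-- bilinear sum attached to a character -/
noncomputable def ZZ (lam : ℝ → ℝ) (X Y : ℝ) (N : ℕ) {q : ℕ} (χ : DirichletCharacter ℂ q) : ℂ :=
  ∑ a ∈ Icc 1 N, χ (a : ZMod q) * (lam (Real.log (a / (q * Y))) : ℂ) *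
    ∑ n ∈ Icc 1 ⌊X⌋₊, (ArithmeticFunction.vonMangoldt n : ℂ) * χ (n : ZMod q) *
      gg X (a / (q * Y)) n

/-- main term for the modulus `q` -/
noncomputable def mainq (lam : ℝ → ℝ) (X Y : ℝ) (N q : ℕ) : ℂ :=
  ((1 / (Nat.totient q : ℝ) ^ 2 : ℝ) : ℂ) * ∑ a ∈ (Icc 1 N).filter (fun a => a.Coprime q),
    (lam (Real.log (a / (q * Y))) : ℂ) * ∑ n ∈ (Icc 1 ⌊X⌋₊).filter (fun n => n.Coprime q),
      (ArithmeticFunction.vonMangoldt n : ℂ) * gg X (a / (q * Y)) n

/-- the contribution of the modulus `q` -/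
noncomputable def termq (lam : ℝ → ℝ) (X Y : ℝ) (k N q : ℕ) : ℂ :=
  ∑ a ∈ (Icc 1 N).filter (fun a => a.Coprime q), co lam Y q a *
    ∑ n ∈ (Icc 1 ⌊X⌋₊).filter (fun n => n.Coprime k), (ArithmeticFunction.vonMangoldt n : ℂ) *
      ex ((n : ℝ) * ((a * inv k q : ℕ) : ℝ) / k)

lemma sum_termq (lam : ℝ → ℝ) (X Y : ℝ) (k Q R N : ℕ) :
    ∑ n ∈ (Icc 1 ⌊X⌋₊).filter (fun n => n.Coprime k),
        (ArithmeticFunction.vonMangoldt n : ℂ) * FF lam Y k Q R N n =
      ∑ q ∈ ModK k Q R, termq lam X Y k N q := by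
  unfold FF termq
  simp_rw [mul_sum]
  rw [sum_comm]
  apply sum_congr rfl
  intro q _
  rw [sum_comm]
  apply sum_congr rfl
  intro a _
  apply sum_congr rfl
  intro n _
  ring

lemma co_mul (lam : ℝ → ℝ) (X Y : ℝ) (k q a n t : ℕ) (hX : 0 < X) (hk : 1 ≤ k) (hq : 1 ≤ q)
    (hY : Y = k / X)
    (h : ex ((n : ℝ) * ((a * inv k q : ℕ) : ℝ) / k) =
      ex ((n : ℝ) * a / (q * k)) * ex ((n * a * t : ℕ) / q)) :
    co lam Y q a * ex ((n : ℝ) * ((a * inv k q : ℕ) : ℝ) / k) =
      ((((ArithmeticFunction.moebius q : ℤ) : ℝ) / (Nat.totient q : ℝ) : ℝ) : ℂ) *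
        ((lam (Real.log (a / (q * Y))) : ℂ) * (gg X (a / (q * Y)) n * ex ((n * a * t : ℕ) / q))) := by
  have hk0 : (0 : ℝ) < k := by exact_mod_cast hk
  have hq0 : (0 : ℝ) < q := by exact_mod_cast hq
  rw [h]
  unfold co gg
  have e1 : (a : ℝ) / (q * Y) * (n / X - 1 / 2) = -(a / (q * Y)) / 2 + (n : ℝ) * a / (q * k) := by
    rw [hY]
    field_simp
    ring
  rw [e1, ex_add]
  push_cast
  ring

/-- change of the coprimality condition -/
lemma swap_cop (X : ℝ) (hX : 1 ≤ X) (k q : ℕ) (hk : 1 ≤ k) (hq : 1 ≤ q) (u : ℕ → ℂ)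
    (hu : ∀ n, ‖u n‖ ≤ 1) :
    ‖∑ n ∈ (Icc 1 ⌊X⌋₊).filter (fun n => n.Coprime k), (ArithmeticFunction.vonMangoldt n : ℂ) * u n
      - ∑ n ∈ (Icc 1 ⌊X⌋₊).filter (fun n => n.Coprime q),
        (ArithmeticFunction.vonMangoldt n : ℂ) * u n‖ ≤
      (k.divisors.card + q.divisors.card) * Real.log X := by
  have hM : 1 ≤ ⌊X⌋₊ := Nat.le_floor (by exact_mod_cast hX)
  have hlog : Real.log (⌊X⌋₊ : ℕ) ≤ Real.log X :=
    Real.log_le_log (by exact_mod_cast hM) (Nat.floor_le (by linarith))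
  have key : ∀ m : ℕ, 1 ≤ m →
      ‖∑ n ∈ Icc 1 ⌊X⌋₊, (ArithmeticFunction.vonMangoldt n : ℂ) * u n -
        ∑ n ∈ (Icc 1 ⌊X⌋₊).filter (fun n => n.Coprime m),
        (ArithmeticFunction.vonMangoldt n : ℂ) * u n‖ ≤ m.divisors.card * Real.log X := by
    intro m hm
    have e1 : ∑ n ∈ Icc 1 ⌊X⌋₊, (ArithmeticFunction.vonMangoldt n : ℂ) * u n -
        ∑ n ∈ (Icc 1 ⌊X⌋₊).filter (fun n => n.Coprime m),
        (ArithmeticFunction.vonMangoldt n : ℂ) * u n =
        ∑ n ∈ (Icc 1 ⌊X⌋₊).filter (fun n => ¬ n.Coprime m),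
        (ArithmeticFunction.vonMangoldt n : ℂ) * u n := by
      rw [← sum_filter_add_sum_filter_not (Icc 1 ⌊X⌋₊) (fun n => n.Coprime m)]
      ring
    rw [e1]
    refine (norm_sum_le _ _).trans ?_
    have h1 := sum_not_coprime m ⌊X⌋₊ hm hM
    refine le_trans (sum_le_sum fun n _ => ?_) (h1.trans ?_)
    · rw [norm_mul, Complex.norm_real,
        Real.norm_of_nonneg ArithmeticFunction.vonMangoldt_nonneg]
      calc ArithmeticFunction.vonMangoldt n * ‖u n‖ ≤ ArithmeticFunction.vonMangoldt n * 1 :=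
            mul_le_mul_of_nonneg_left (hu n) ArithmeticFunction.vonMangoldt_nonneg
        _ = _ := mul_one _
    · gcongr
  have h1 := key k hk
  have h2 := key q hq
  have e : ∀ A B T : ℂ, ‖A - B‖ ≤ ‖T - A‖ + ‖T - B‖ := by
    intro A B T
    have : A - B = (T - B) - (T - A) := by ring
    rw [this]
    refine (norm_sub_le _ _).trans ?_
    linarith
  refine (e _ _ (∑ n ∈ Icc 1 ⌊X⌋₊, (ArithmeticFunction.vonMangoldt n : ℂ) * u n)).trans ?_
  rw [add_mul]
  exact add_le_add h1 h2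

open Classical in
/-- expansion into characters for one modulus -/
lemma termq_main (lam : ℝ → ℝ) (X Y : ℝ) (k N q : ℕ) (hX : 1 ≤ X) (hk : 1 ≤ k) (hq : 1 ≤ q)
    (hqk : q.Coprime k) (hsq : Squarefree q) (hY : Y = k / X) :
    ‖termq lam X Y k N q - mainq lam X Y N q‖ ≤
      1 / (Nat.totient q : ℝ) ^ 2 * ∑ χ ∈ (univ : Finset (DirichletCharacter ℂ q)).filter
        (fun χ => χ ≠ 1), ‖GS χ⁻¹‖ * ‖ZZ lam X Y N χ‖ +
      1 / (Nat.totient q : ℝ) * (∑ a ∈ (Icc 1 N).filter (fun a => a.Coprime q),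
        |lam (Real.log (a / (q * Y)))|) * ((k.divisors.card + q.divisors.card) * Real.log X) := by
  have hX0 : 0 < X := by linarith
  have htot : (0 : ℝ) < Nat.totient q := by exact_mod_cast Nat.totient_pos.2 hq
  obtain ⟨t, htq, ht⟩ := recip k q hk hq hqk
  set c : ℂ := ((((ArithmeticFunction.moebius q : ℤ) : ℝ) / (Nat.totient q : ℝ) : ℝ) : ℂ) with hc
  have hmu : ‖(((ArithmeticFunction.moebius q : ℤ) : ℝ) : ℂ)‖ ≤ 1 := by
    rw [Complex.norm_real, Real.norm_eq_abs]
    exact_mod_cast ArithmeticFunction.abs_moebius_le_one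
  have hcn : ‖c‖ ≤ 1 / Nat.totient q := by
    rw [hc]
    push_cast
    rw [norm_div]
    have : ‖((Nat.totient q : ℕ) : ℂ)‖ = (Nat.totient q : ℝ) := by
      rw [Complex.norm_natCast]
    rw [this]
    have hmu' : ‖(((ArithmeticFunction.moebius q : ℤ)) : ℂ)‖ ≤ 1 := by
      have := hmu
      push_cast at this
      exact this
    gcongr
  -- first form
  set u : ℕ → ℕ → ℂ := fun a n => gg X (a / (q * Y)) n * ex ((n * a * t : ℕ) / q) with hu
  have hun : ∀ a n, ‖u a n‖ ≤ 1 := by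
    intro a n
    rw [hu]
    simp only
    rw [norm_mul, gg_norm, norm_ex, mul_one]
  have hterm : termq lam X Y k N q = c * ∑ a ∈ (Icc 1 N).filter (fun a => a.Coprime q),
      (lam (Real.log (a / (q * Y))) : ℂ) * ∑ n ∈ (Icc 1 ⌊X⌋₊).filter (fun n => n.Coprime k),
        (ArithmeticFunction.vonMangoldt n : ℂ) * u a n := by
    unfold termq
    rw [mul_sum]
    apply sum_congr rfl
    intro a _
    rw [mul_sum, mul_sum, mul_sum]
    apply sum_congr rfl
    intro n _
    have := co_mul lam X Y k q a n t hX0 hk hq hY (ht n a)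
    calc co lam Y q a * ((ArithmeticFunction.vonMangoldt n : ℂ) *
          ex ((n : ℝ) * ((a * inv k q : ℕ) : ℝ) / k))
        = (ArithmeticFunction.vonMangoldt n : ℂ) * (co lam Y q a *
          ex ((n : ℝ) * ((a * inv k q : ℕ) : ℝ) / k)) := by ring
      _ = _ := by rw [this, hu]; ring
  -- second form
  set T2 : ℂ := c * ∑ a ∈ (Icc 1 N).filter (fun a => a.Coprime q),
      (lam (Real.log (a / (q * Y))) : ℂ) * ∑ n ∈ (Icc 1 ⌊X⌋₊).filter (fun n => n.Coprime q),
        (ArithmeticFunction.vonMangoldt n : ℂ) * u a n with hT2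
  have hd : ‖termq lam X Y k N q - T2‖ ≤ 1 / (Nat.totient q : ℝ) *
      (∑ a ∈ (Icc 1 N).filter (fun a => a.Coprime q),
        |lam (Real.log (a / (q * Y)))|) * ((k.divisors.card + q.divisors.card) * Real.log X) := by
    rw [hterm, hT2, ← mul_sub, ← sum_sub_distrib, norm_mul, mul_assoc]
    apply mul_le_mul hcn _ (norm_nonneg _) (by positivity)
    refine (norm_sum_le _ _).trans ?_
    rw [sum_mul]
    apply sum_le_sum
    intro a _
    rw [← mul_sub, norm_mul, Complex.norm_real, Real.norm_eq_abs]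
    apply mul_le_mul_of_nonneg_left _ (abs_nonneg _)
    exact swap_cop X hX k q hk hq (u a) (hun a)
  -- characters
  have hT2' : T2 = c * ((1 / (Nat.totient q : ℝ) : ℝ) : ℂ) *
      ∑ χ : DirichletCharacter ℂ q, χ (t : ZMod q) * GS χ⁻¹ * ZZ lam X Y N χ := by
    rw [hT2, mul_assoc]
    congr 1
    rw [sum_filter]
    have e1 : ∀ a ∈ Icc 1 N, (if a.Coprime q then (lam (Real.log (a / (q * Y))) : ℂ) *
        ∑ n ∈ (Icc 1 ⌊X⌋₊).filter (fun n => n.Coprime q),
          (ArithmeticFunction.vonMangoldt n : ℂ) * u a n else 0) =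
        ((1 / (Nat.totient q : ℝ) : ℝ) : ℂ) * ∑ χ : DirichletCharacter ℂ q,
          χ (t : ZMod q) * GS χ⁻¹ * (χ (a : ZMod q) * (lam (Real.log (a / (q * Y))) : ℂ) *
            ∑ n ∈ Icc 1 ⌊X⌋₊, (ArithmeticFunction.vonMangoldt n : ℂ) * χ (n : ZMod q) *
              gg X (a / (q * Y)) n) := by
      intro a _
      by_cases ha : a.Coprime q
      · rw [if_pos ha]
        have e2 : ∀ χ : DirichletCharacter ℂ q, χ (t : ZMod q) * GS χ⁻¹ *
            (χ (a : ZMod q) * (lam (Real.log (a / (q * Y))) : ℂ) *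
            ∑ n ∈ Icc 1 ⌊X⌋₊, (ArithmeticFunction.vonMangoldt n : ℂ) * χ (n : ZMod q) *
              gg X (a / (q * Y)) n) =
            (lam (Real.log (a / (q * Y))) : ℂ) * ∑ n ∈ Icc 1 ⌊X⌋₊,
              (ArithmeticFunction.vonMangoldt n : ℂ) * gg X (a / (q * Y)) n *
              (χ ((n * a * t : ℕ) : ZMod q) * GS χ⁻¹) := by
          intro χ
          rw [mul_sum, mul_sum, mul_sum]
          apply sum_congr rfl
          intro n _
          push_cast
          rw [map_mul, map_mul]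
          ring
        rw [sum_congr rfl fun χ _ => e2 χ, ← mul_sum, sum_comm]
        rw [mul_left_comm]
        congr 1
        rw [sum_filter, mul_sum]
        apply sum_congr rfl
        intro n _
        rw [← mul_sum]
        by_cases hn : n.Coprime q
        · rw [if_pos hn]
          have hcop : (n * a * t).Coprime q :=
            Nat.Coprime.mul_left (Nat.Coprime.mul_left hn ha) htq
          have h3 := GS_expand q (n * a * t) hq hcop
          rw [← h3, hu]
          have htc : ((Nat.totient q : ℕ) : ℂ) ≠ 0 := by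
            have := htot.ne'
            exact_mod_cast this
          push_cast
          field_simp
        · rw [if_neg hn]
          have h3 : ∀ χ : DirichletCharacter ℂ q, χ ((n * a * t : ℕ) : ZMod q) * GS χ⁻¹ = 0 := by
            intro χ
            have : ¬ IsUnit ((n * a * t : ℕ) : ZMod q) := by
              rw [ZMod.isUnit_iff_coprime]
              intro h4
              exact hn (Nat.Coprime.coprime_dvd_left ⟨a * t, by ring⟩ h4)
            rw [χ.map_nonunit this, zero_mul]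
          rw [sum_congr rfl fun χ _ => h3 χ]
          simp
      · rw [if_neg ha]
        have h3 : ∀ χ : DirichletCharacter ℂ q, χ (a : ZMod q) = 0 := by
          intro χ
          apply χ.map_nonunit
          rw [ZMod.isUnit_iff_coprime]
          exact ha
        simp [h3]
    rw [sum_congr rfl e1, ← mul_sum, sum_comm]
    congr 1
    apply sum_congr rfl
    intro χ _
    unfold ZZ
    rw [mul_sum]
  -- principal character
  have hZ1 : ZZ lam X Y N (1 : DirichletCharacter ℂ q) =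
      ∑ a ∈ (Icc 1 N).filter (fun a => a.Coprime q),
      (lam (Real.log (a / (q * Y))) : ℂ) * ∑ n ∈ (Icc 1 ⌊X⌋₊).filter (fun n => n.Coprime q),
        (ArithmeticFunction.vonMangoldt n : ℂ) * gg X (a / (q * Y)) n := by
    have h1 : ∀ n : ℕ, (1 : DirichletCharacter ℂ q) (n : ZMod q) = if n.Coprime q then 1 else 0 := by
      intro n
      by_cases hn : n.Coprime q
      · rw [if_pos hn, MulChar.one_apply ((ZMod.isUnit_iff_coprime n q).2 hn)]
      · rw [if_neg hn]
        apply MulChar.map_nonunit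
        rw [ZMod.isUnit_iff_coprime]
        exact hn
    unfold ZZ
    rw [sum_filter]
    apply sum_congr rfl
    intro a _
    rw [h1]
    by_cases ha : a.Coprime q
    · rw [if_pos ha, if_pos ha, one_mul, sum_filter]
      congr 1
      apply sum_congr rfl
      intro n _
      rw [h1]
      split_ifs <;> simp
    · rw [if_neg ha, if_neg ha]; simp
  have hmain : c * ((1 / (Nat.totient q : ℝ) : ℝ) : ℂ) *
      ((1 : DirichletCharacter ℂ q) (t : ZMod q) * GS (1 : DirichletCharacter ℂ q)⁻¹ *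
        ZZ lam X Y N (1 : DirichletCharacter ℂ q)) = mainq lam X Y N q := by
    have h1 : (1 : DirichletCharacter ℂ q) (t : ZMod q) = 1 :=
      MulChar.one_apply ((ZMod.isUnit_iff_coprime t q).2 htq)
    rw [h1, inv_one, GS_one q hq, hZ1, hc]
    unfold mainq
    have h2 : ((ArithmeticFunction.moebius q : ℤ) : ℂ) * ((ArithmeticFunction.moebius q : ℤ) : ℂ) = 1 := by
      have := ArithmeticFunction.moebius_sq_eq_one_of_squarefree hsq
      rw [← pow_two]
      exact_mod_cast this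
    push_cast
    have h3 : ∀ (a b z : ℂ), a / b * (1 / b) * (1 * a * z) = (a * a) * (1 / b ^ 2 * z) := by
      intro a b z
      ring
    rw [h3, h2, one_mul]
  have hsplit : T2 - mainq lam X Y N q = c * ((1 / (Nat.totient q : ℝ) : ℝ) : ℂ) *
      ∑ χ ∈ (univ : Finset (DirichletCharacter ℂ q)).filter (fun χ => χ ≠ 1),
        χ (t : ZMod q) * GS χ⁻¹ * ZZ lam X Y N χ := by
    rw [hT2', ← hmain, ← mul_sub]
    congr 1
    rw [filter_ne', ← Finset.add_sum_erase univ _ (mem_univ (1 : DirichletCharacter ℂ q))]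
    ring
  have hT3 : ‖T2 - mainq lam X Y N q‖ ≤ 1 / (Nat.totient q : ℝ) ^ 2 *
      ∑ χ ∈ (univ : Finset (DirichletCharacter ℂ q)).filter
        (fun χ => χ ≠ 1), ‖GS χ⁻¹‖ * ‖ZZ lam X Y N χ‖ := by
    have hn1 : ‖((1 / (Nat.totient q : ℝ) : ℝ) : ℂ)‖ = 1 / (Nat.totient q : ℝ) := by
      rw [Complex.norm_real, Real.norm_of_nonneg (by positivity)]
    rw [hsplit, norm_mul]
    apply mul_le_mul
    · rw [norm_mul, hn1]
      calc ‖c‖ * (1 / (Nat.totient q : ℝ)) ≤ 1 / (Nat.totient q : ℝ) * (1 / (Nat.totient q : ℝ)) := by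
            gcongr
        _ = _ := by ring
    · refine (norm_sum_le _ _).trans (sum_le_sum fun χ _ => ?_)
      rw [norm_mul, norm_mul]
      calc ‖χ (t : ZMod q)‖ * ‖GS χ⁻¹‖ * ‖ZZ lam X Y N χ‖ ≤
          1 * ‖GS χ⁻¹‖ * ‖ZZ lam X Y N χ‖ := by
            have := χ.norm_le_one (t : ZMod q)
            gcongr
        _ = _ := by rw [one_mul]
    · exact norm_nonneg _
    · positivity
  have : termq lam X Y k N q - mainq lam X Y N q =
      (T2 - mainq lam X Y N q) + (termq lam X Y k N q - T2) := by ring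
  rw [this]
  exact (norm_add_le _ _).trans (add_le_add hT3 hd)

end PairA

end H336V
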