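import Pool.Agent.H336R2.V.PairA
import Pool.Agent.H336R2.V.CTestFamily
import Pool.Agent.H336R2.V.KeySharp

open Finset MeasureTheory

namespace H336V

open H343 H343.KF

namespace PairA

lemma abel (c g : ℕ → ℂ) (M : ℕ) (hM : 1 ≤ M) : ∑ n ∈ Icc 1 M, c n * g n =
    (∑ n ∈ Icc 1 M, c n) * g M - ∑ y ∈ Ico 1 M, (∑ n ∈ Icc 1 y, c n) * (g (y + 1) - g y) := by
  induction M, hM using Nat.le_induction with
  | base => simp
  | succ M hM ih =>
    rw [sum_Icc_succ_top (by omega), sum_Icc_succ_top (by omega), ih,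
      sum_Ico_succ_top hM]
    ring

lemma gg_diff (X w : ℝ) (y : ℕ) :
    gg X w (y + 1) - gg X w y = ∫ u in (y / X : ℝ)..((y + 1 : ℕ) / X : ℝ),
      (2 * Real.pi * Complex.I) * ((w : ℂ) * ex (w * (u - 1 / 2))) := by
  have h : ∀ u ∈ Set.uIcc (y / X : ℝ) ((y + 1 : ℕ) / X : ℝ),
      HasDerivAt (fun u : ℝ => ex (w * (u - 1 / 2)))
        ((2 * Real.pi * Complex.I) * ((w : ℂ) * ex (w * (u - 1 / 2)))) u := by
    intro u _
    have h2 : HasDerivAt (fun u : ℝ => w * (u - 1 / 2)) w u := by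
      have := ((hasDerivAt_id u).sub_const (1 / 2)).const_mul w
      rw [mul_one] at this
      exact this
    have := (hasDerivAt_ex (w * (u - 1 / 2))).scomp u h2
    have e : w • (2 * ↑Real.pi * Complex.I * ex (w * (u - 1 / 2))) =
        (2 * Real.pi * Complex.I) * ((w : ℂ) * ex (w * (u - 1 / 2))) := by
      rw [Complex.real_smul]; ring
    rw [e] at this
    exact this
  rw [intervalIntegral.integral_eq_sub_of_hasDerivAt h]
  · unfold gg
    rfl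
  · apply Continuous.intervalIntegrable
    have := ex_cont
    fun_prop

/-- numerators attached to the test function `lam(v) e(e^v τ)` -/
noncomputable def lt (lam : ℝ → ℝ) (τ : ℝ) : ℝ → ℂ := fun v => (lam v : ℂ) * ex (Real.exp v * τ)

lemma KKc_cont (lam : ℝ → ℝ) (Y : ℝ) (N : ℕ) {q : ℕ} (χ : DirichletCharacter ℂ q) :
    Continuous (fun u : ℝ => KKc (lt lam (u - 1 / 2)) Y N χ) := by
  unfold KKc lt
  apply continuous_finsetSum
  intro a _
  have := ex_cont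
  fun_prop

lemma exp_log_w (q a : ℕ) (Y : ℝ) (hq : 1 ≤ q) (ha : 1 ≤ a) (hY : 0 < Y) :
    Real.exp (Real.log (a / (q * Y))) = a / (q * Y) := by
  apply Real.exp_log
  have : (0 : ℝ) < a := by exact_mod_cast ha
  have : (0 : ℝ) < q := by exact_mod_cast hq
  positivity

lemma KKc_diff (lam : ℝ → ℝ) (X Y : ℝ) (N y : ℕ) {q : ℕ} (hq : 1 ≤ q) (hY : 0 < Y)
    (χ : DirichletCharacter ℂ q) :
    ∑ a ∈ Icc 1 N, χ (a : ZMod q) * (lam (Real.log (a / (q * Y))) : ℂ) *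
      (gg X (a / (q * Y)) (y + 1) - gg X (a / (q * Y)) y) =
    ∫ u in (y / X : ℝ)..((y + 1 : ℕ) / X : ℝ), (2 * Real.pi * Complex.I) *
      KKc (lt (fun v => lam v * Real.exp v) (u - 1 / 2)) Y N χ := by
  unfold KKc
  simp_rw [mul_sum]
  rw [intervalIntegral.integral_finsetSum]
  · apply sum_congr rfl
    intro a ha
    rw [mem_Icc] at ha
    rw [gg_diff, ← intervalIntegral.integral_const_mul]
    congr 1
    ext u
    unfold lt
    simp only [exp_log_w q a Y hq ha.1 hY]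
    push_cast
    ring
  · intro a _
    apply Continuous.intervalIntegrable
    unfold lt
    have := ex_cont
    fun_prop

lemma ZZ_eq (lam : ℝ → ℝ) (X Y : ℝ) (N : ℕ) {q : ℕ} (hq : 1 ≤ q) (hY : 0 < Y) (hX : 1 ≤ X)
    (χ : DirichletCharacter ℂ q) :
    ZZ lam X Y N χ = psiC ⌊X⌋₊ χ * KKc (lt lam (⌊X⌋₊ / X - 1 / 2)) Y N χ -
      ∑ y ∈ Ico 1 ⌊X⌋₊, psiC y χ * ∫ u in (y / X : ℝ)..((y + 1 : ℕ) / X : ℝ),
        (2 * Real.pi * Complex.I) *
        KKc (lt (fun v => lam v * Real.exp v) (u - 1 / 2)) Y N χ := by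
  have hM : 1 ≤ ⌊X⌋₊ := Nat.le_floor (by exact_mod_cast hX)
  unfold ZZ
  have h1 : ∀ a ∈ Icc 1 N, χ (a : ZMod q) * (lam (Real.log (a / (q * Y))) : ℂ) *
      ∑ n ∈ Icc 1 ⌊X⌋₊, (ArithmeticFunction.vonMangoldt n : ℂ) * χ (n : ZMod q) *
        gg X (a / (q * Y)) n =
      psiC ⌊X⌋₊ χ * (χ (a : ZMod q) * lt lam (⌊X⌋₊ / X - 1 / 2) (Real.log (a / (q * Y)))) -
      ∑ y ∈ Ico 1 ⌊X⌋₊, psiC y χ * (χ (a : ZMod q) * (lam (Real.log (a / (q * Y))) : ℂ) *
      (gg X (a / (q * Y)) (y + 1) - gg X (a / (q * Y)) y)) := by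
    intro a ha
    rw [mem_Icc] at ha
    rw [abel _ _ _ hM, mul_sub, mul_sum]
    congr 1
    · unfold psiC lt gg
      rw [exp_log_w q a Y hq ha.1 hY]
      ring
    · apply sum_congr rfl
      intro y _
      unfold psiC
      ring
  rw [sum_congr rfl h1, sum_sub_distrib]
  congr 1
  · unfold KKc
    rw [mul_sum]
  · rw [sum_comm]
    apply sum_congr rfl
    intro y _
    rw [← mul_sum, KKc_diff lam X Y N y hq hY χ]

lemma ZZ_norm (lam : ℝ → ℝ) (X Y : ℝ) (N : ℕ) {q : ℕ} (hq : 1 ≤ q) (hY : 0 < Y) (hX : 1 ≤ X)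
    (χ : DirichletCharacter ℂ q) :
    ‖ZZ lam X Y N χ‖ ≤ ‖KKc (lt lam (⌊X⌋₊ / X - 1 / 2)) Y N χ‖ * ‖psiC ⌊X⌋₊ χ‖ +
      ∑ y ∈ Ico 1 ⌊X⌋₊, ∫ u in (y / X : ℝ)..((y + 1 : ℕ) / X : ℝ), (2 * Real.pi) *
        (‖KKc (lt (fun v => lam v * Real.exp v) (u - 1 / 2)) Y N χ‖ * ‖psiC y χ‖) := by
  have hX0 : 0 < X := by linarith
  rw [ZZ_eq lam X Y N hq hY hX χ]
  refine (norm_sub_le _ _).trans ?_
  apply add_le_add
  · rw [norm_mul, mul_comm]
  · refine (norm_sum_le _ _).trans (sum_le_sum fun y _ => ?_)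
    have hle : (y / X : ℝ) ≤ ((y + 1 : ℕ) / X : ℝ) := by
      push_cast
      gcongr
      linarith
    rw [norm_mul]
    have h1 := intervalIntegral.norm_integral_le_integral_norm (μ := volume)
      (f := fun u => (2 * Real.pi * Complex.I) *
        KKc (lt (fun v => lam v * Real.exp v) (u - 1 / 2)) Y N χ) hle
    have h2 : ∀ u : ℝ, ‖(2 * Real.pi * Complex.I) *
        KKc (lt (fun v => lam v * Real.exp v) (u - 1 / 2)) Y N χ‖ =
        (2 * Real.pi) * ‖KKc (lt (fun v => lam v * Real.exp v) (u - 1 / 2)) Y N χ‖ := by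
      intro u
      rw [norm_mul, norm_mul, norm_mul, Complex.norm_I, Complex.norm_real, Real.norm_eq_abs,
        abs_of_pos Real.pi_pos]
      simp
    simp_rw [h2] at h1
    calc ‖psiC y χ‖ * _ ≤ ‖psiC y χ‖ * ∫ u in (y / X : ℝ)..((y + 1 : ℕ) / X : ℝ),
          (2 * Real.pi) * ‖KKc (lt (fun v => lam v * Real.exp v) (u - 1 / 2)) Y N χ‖ :=
          mul_le_mul_of_nonneg_left h1 (norm_nonneg _)
      _ = _ := by
          rw [← intervalIntegral.integral_const_mul]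
          congr 1
          ext u
          ring

open Classical in
/-- the non-principal characters -/
theorem rem_bound {B : ℝ} {lam : ℝ → ℝ} (hB : 1 ≤ B) (hl : Test B lam) (ε : ℝ) (hε : 0 < ε)
    (hε1 : ε ≤ 1 / 100) : ∃ C H0 : ℝ, 0 < C ∧ ∀ (X : ℝ) (k : ℕ), 1 ≤ X → 1 ≤ k → H0 ≤ k →
    RangeV ε X (k / X) → ∀ Q R N : ℕ, CutsV ε B X (k / X) Q R N →
    ∑ q ∈ ModK k Q R, 1 / (Nat.totient q : ℝ) ^ 2 *
      ∑ χ ∈ (univ : Finset (DirichletCharacter ℂ q)).filter (fun χ => χ ≠ 1),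
        ‖GS χ⁻¹‖ * ‖ZZ lam X (k / X) N χ‖ ≤ C * (k : ℝ) ^ (1 - ε / 40) := by
  have hl2 : Test B (fun v => lam v * Real.exp v) :=
    ⟨hl.smooth.mul Real.contDiff_exp, fun v hv => by simp [hl.supp v hv]⟩
  obtain ⟨M1, hM1, hf1⟩ := ctest_family hl
  obtain ⟨M2, hM2, hf2⟩ := ctest_family hl2
  obtain ⟨H1, hH1⟩ := key_sharp B M1 ε hB hM1 hε hε1
  obtain ⟨H2, hH2⟩ := key_sharp B M2 ε hB hM2 hε hε1
  have hπ := Real.pi_pos
  refine ⟨1 + 2 * Real.pi, max H1 H2, by positivity, ?_⟩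
  intro X k hX hk hH hr Q R N hc
  have hX0 : 0 < X := by linarith
  have hY := hr.hY
  have hXY : X * (k / X) = k := by field_simp
  set Y : ℝ := k / X with hYdef
  have hM : 1 ≤ ⌊X⌋₊ := Nat.le_floor (by exact_mod_cast hX)
  have hMX : ((⌊X⌋₊ : ℕ) : ℝ) ≤ X := Nat.floor_le hX0.le
  -- bound for the forms
  set S : Finset (Σ q : ℕ, DirichletCharacter ℂ q) := (Mod Q R).sigma
    (fun q => (univ : Finset (DirichletCharacter ℂ q)).filter (fun χ => χ ≠ 1)) with hS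
  set wt : (Σ q : ℕ, DirichletCharacter ℂ q) → ℝ := fun p =>
    1 / (Nat.totient p.1 : ℝ) ^ 2 * ‖GS (p.2)⁻¹‖ with hwt
  have hwt0 : ∀ p, 0 ≤ wt p := fun p => by rw [hwt]; positivity
  have conv : ∀ (l : ℝ → ℂ) (y : ℕ), ∑ q ∈ Mod Q R, 1 / (Nat.totient q : ℝ) ^ 2 *
      ∑ χ ∈ (univ : Finset (DirichletCharacter ℂ q)).filter (fun χ => χ ≠ 1),
        ‖GS χ⁻¹‖ * ‖KKc l Y N χ‖ * ‖psiC y χ‖ =
      ∑ p ∈ S, wt p * (‖KKc l Y N p.2‖ * ‖psiC y p.2‖) := by
    intro l y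
    rw [hS, sum_sigma]
    apply sum_congr rfl
    intro q _
    rw [mul_sum]
    apply sum_congr rfl
    intro χ _
    rw [hwt]
    ring
  have b1 : ∀ (τ : ℝ) (y : ℕ), |τ| ≤ 1 → (y : ℝ) ≤ X →
      ∑ p ∈ S, wt p * (‖KKc (lt lam τ) Y N p.2‖ * ‖psiC y p.2‖) ≤ (k : ℝ) ^ (1 - ε / 40) := by
    intro τ y hτ hy
    rw [← conv]
    have := hH1 X Y hr (by rw [hXY]; exact (le_max_left _ _).trans hH) Q R N y hc hy _ (hf1 τ hτ)
    rw [hXY] at this
    exact this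
  have b2 : ∀ (τ : ℝ) (y : ℕ), |τ| ≤ 1 → (y : ℝ) ≤ X →
      ∑ p ∈ S, wt p * (‖KKc (lt (fun v => lam v * Real.exp v) τ) Y N p.2‖ * ‖psiC y p.2‖) ≤
        (k : ℝ) ^ (1 - ε / 40) := by
    intro τ y hτ hy
    rw [← conv]
    have := hH2 X Y hr (by rw [hXY]; exact (le_max_right _ _).trans hH) Q R N y hc hy _ (hf2 τ hτ)
    rw [hXY] at this
    exact this
  -- reduce to S
  have e1 : ∑ q ∈ ModK k Q R, 1 / (Nat.totient q : ℝ) ^ 2 *
      ∑ χ ∈ (univ : Finset (DirichletCharacter ℂ q)).filter (fun χ => χ ≠ 1),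
        ‖GS χ⁻¹‖ * ‖ZZ lam X Y N χ‖ ≤ ∑ p ∈ S, wt p * ‖ZZ lam X Y N p.2‖ := by
    rw [hS, sum_sigma]
    have hsub : ModK k Q R ⊆ Mod Q R := filter_subset _ _
    refine (sum_le_sum_of_subset_of_nonneg hsub ?_).trans (le_of_eq ?_)
    · intro q _ _
      positivity
    · apply sum_congr rfl
      intro q _
      rw [mul_sum]
      apply sum_congr rfl
      intro χ _
      rw [hwt]
      ring
  refine e1.trans ?_
  have hqS : ∀ p ∈ S, 1 ≤ p.1 := by
    intro p hp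
    rw [hS, mem_sigma] at hp
    have := hp.1
    unfold H343.Mod at this
    rw [mem_filter, mem_Ioc] at this
    omega
  have e2 : ∑ p ∈ S, wt p * ‖ZZ lam X Y N p.2‖ ≤
      ∑ p ∈ S, wt p * (‖KKc (lt lam (⌊X⌋₊ / X - 1 / 2)) Y N p.2‖ * ‖psiC ⌊X⌋₊ p.2‖) +
      ∑ y ∈ Ico 1 ⌊X⌋₊, ∫ u in (y / X : ℝ)..((y + 1 : ℕ) / X : ℝ), (2 * Real.pi) *
        ∑ p ∈ S, wt p * (‖KKc (lt (fun v => lam v * Real.exp v) (u - 1 / 2)) Y N p.2‖ *
          ‖psiC y p.2‖) := by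
    have e3 : ∀ y : ℕ, ∫ u in (y / X : ℝ)..((y + 1 : ℕ) / X : ℝ), (2 * Real.pi) *
        ∑ p ∈ S, wt p * (‖KKc (lt (fun v => lam v * Real.exp v) (u - 1 / 2)) Y N p.2‖ *
          ‖psiC y p.2‖) = ∑ p ∈ S, wt p * ∫ u in (y / X : ℝ)..((y + 1 : ℕ) / X : ℝ),
            (2 * Real.pi) *
        (‖KKc (lt (fun v => lam v * Real.exp v) (u - 1 / 2)) Y N p.2‖ * ‖psiC y p.2‖) := by
      intro y
      simp_rw [mul_sum]
      rw [intervalIntegral.integral_finsetSum]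
      · apply sum_congr rfl
        intro p _
        rw [← intervalIntegral.integral_const_mul]
        congr 1
        ext u
        ring
      · intro p _
        apply Continuous.intervalIntegrable
        have := (KKc_cont (fun v => lam v * Real.exp v) Y N p.2).norm
        fun_prop
    simp_rw [e3]
    rw [sum_comm, ← sum_add_distrib]
    apply sum_le_sum
    intro p hp
    rw [← mul_sum, ← mul_add]
    exact mul_le_mul_of_nonneg_left (ZZ_norm lam X Y N (hqS p hp) hY hX p.2) (hwt0 p)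
  refine e2.trans ?_
  have hpow : 0 ≤ (k : ℝ) ^ (1 - ε / 40) := by positivity
  have t1 : ∑ p ∈ S, wt p * (‖KKc (lt lam (⌊X⌋₊ / X - 1 / 2)) Y N p.2‖ * ‖psiC ⌊X⌋₊ p.2‖) ≤
      (k : ℝ) ^ (1 - ε / 40) := by
    apply b1 _ _ _ hMX
    have h1 : (⌊X⌋₊ : ℝ) / X ≤ 1 := by rw [div_le_one hX0]; exact hMX
    have h0 : 0 ≤ (⌊X⌋₊ : ℝ) / X := by positivity
    rw [abs_le]
    constructor <;> linarith
  have t2 : ∀ y ∈ Ico 1 ⌊X⌋₊, ∫ u in (y / X : ℝ)..((y + 1 : ℕ) / X : ℝ), (2 * Real.pi) *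
        ∑ p ∈ S, wt p * (‖KKc (lt (fun v => lam v * Real.exp v) (u - 1 / 2)) Y N p.2‖ *
          ‖psiC y p.2‖) ≤ 2 * Real.pi * (k : ℝ) ^ (1 - ε / 40) * (1 / X) := by
    intro y hy
    rw [mem_Ico] at hy
    have hle : (y / X : ℝ) ≤ ((y + 1 : ℕ) / X : ℝ) := by
      push_cast
      gcongr
      linarith
    have hyM : ((y + 1 : ℕ) : ℝ) ≤ X := by
      refine le_trans ?_ hMX
      exact_mod_cast hy.2
    have h1 : ∫ u in (y / X : ℝ)..((y + 1 : ℕ) / X : ℝ), (2 * Real.pi) *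
        ∑ p ∈ S, wt p * (‖KKc (lt (fun v => lam v * Real.exp v) (u - 1 / 2)) Y N p.2‖ *
          ‖psiC y p.2‖) ≤ ∫ u in (y / X : ℝ)..((y + 1 : ℕ) / X : ℝ),
            (2 * Real.pi * (k : ℝ) ^ (1 - ε / 40)) := by
      apply intervalIntegral.integral_mono_on hle
      · apply Continuous.intervalIntegrable
        apply Continuous.mul continuous_const
        apply continuous_finsetSum
        intro p _
        have := (KKc_cont (fun v => lam v * Real.exp v) Y N p.2).norm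
        fun_prop
      · exact _root_.intervalIntegrable_const
      · intro u hu
        apply mul_le_mul_of_nonneg_left _ (by positivity)
        apply b2
        · have h2 : 0 ≤ (y : ℝ) / X := by positivity
          have h3 : ((y + 1 : ℕ) : ℝ) / X ≤ 1 := by rw [div_le_one hX0]; exact hyM
          have h4 := hu.1
          have h5 := hu.2
          rw [abs_le]
          constructor <;> linarith
        · push_cast at hyM
          linarith
    refine h1.trans (le_of_eq ?_)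
    rw [intervalIntegral.integral_const, smul_eq_mul]
    push_cast
    field_simp
    ring
  calc _ ≤ (k : ℝ) ^ (1 - ε / 40) + ∑ y ∈ Ico 1 ⌊X⌋₊,
        2 * Real.pi * (k : ℝ) ^ (1 - ε / 40) * (1 / X) := add_le_add t1 (sum_le_sum t2)
    _ ≤ (k : ℝ) ^ (1 - ε / 40) + X * (2 * Real.pi * (k : ℝ) ^ (1 - ε / 40) * (1 / X)) := by
        rw [sum_const, nsmul_eq_mul]
        have hcard : (((Ico 1 ⌊X⌋₊).card : ℕ) : ℝ) ≤ X := by
          refine le_trans ?_ hMX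
          rw [Nat.card_Ico]
          exact_mod_cast Nat.sub_le _ _
        gcongr
    _ = _ := by
        field_simp

end PairA

end H336V
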