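import Pool.Agent.H336R2.V.Defs
import Pool.Agent.H343R2.KF7
import Pool.Agent.Helper923.PNT

open Finset MeasureTheory

namespace H336V

open H343

namespace PntOsc

lemma psi_bound (δ : ℝ) (hδ : 0 < δ) : ∃ K : ℝ, 0 ≤ K ∧
    ∀ t : ℝ, 0 ≤ t → |Chebyshev.psi t - t| ≤ δ * t + K := by
  have h := Pool.Agent.Helper923.PNT.psi_div_tendsto
  obtain ⟨T, hT⟩ := Filter.eventually_atTop.1 ((Metric.tendsto_nhds.mp h) δ hδ)
  have hT1 : (0 : ℝ) < max T 1 := lt_of_lt_of_le one_pos (le_max_right _ _)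
  refine ⟨Chebyshev.psi (max T 1) + max T 1, by
    have := Chebyshev.psi_nonneg (max T 1)
    linarith, fun t ht => ?_⟩
  by_cases htT : max T 1 ≤ t
  · have ht0 : 0 < t := lt_of_lt_of_le hT1 htT
    have h1 := hT t ((le_max_left _ _).trans htT)
    rw [Real.dist_eq] at h1
    have h2 : Chebyshev.psi t - t = (Chebyshev.psi t / t - 1) * t := by
      field_simp
    rw [h2, abs_mul, abs_of_pos ht0]
    have := mul_le_mul_of_nonneg_right h1.le ht0.le
    have h3 := Chebyshev.psi_nonneg (max T 1)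
    linarith
  · push Not at htT
    have h1 := Chebyshev.psi_mono htT.le
    have h2 := Chebyshev.psi_nonneg t
    have h3 := Chebyshev.psi_nonneg (max T 1)
    have h4 : 0 ≤ δ * t := mul_nonneg hδ.le ht
    rw [abs_le]
    constructor <;> linarith

lemma hasDerivAt_g (X v t : ℝ) : HasDerivAt (fun t : ℝ => ex (v * (t / X - 1 / 2)))
    (2 * Real.pi * Complex.I * (v / X : ℝ) * ex (v * (t / X - 1 / 2))) t := by
  have h1 : HasDerivAt (fun t : ℝ => v * (t / X - 1 / 2)) (v / X) t := by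
    have := (((hasDerivAt_id t).div_const X).sub_const (1 / 2)).const_mul v
    convert! this using 1
    ring
  have := (H343.KF.hasDerivAt_ex (v * (t / X - 1 / 2))).scomp t h1
  convert! this using 1
  rw [Complex.real_smul]
  ring

lemma ex_norm (y : ℝ) : ‖ex y‖ = 1 := by
  unfold ex
  exact Complex.norm_exp_ofReal_mul_I _

lemma ex_cont : Continuous ex := by unfold ex; fun_prop

lemma int_g (X v : ℝ) (hX : 0 < X) :
    ∫ t in (0 : ℝ)..X, ex (v * (t / X - 1 / 2)) = ((X * Real.sinc (Real.pi * v) : ℝ) : ℂ) := by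
  by_cases hv : v = 0
  · subst hv
    simp only [zero_mul, mul_zero, Real.sinc_zero, mul_one]
    have : ex 0 = 1 := by simp [ex]
    rw [this]
    simp
  · have hvC : (v : ℂ) ≠ 0 := by exact_mod_cast hv
    have hXC : (X : ℂ) ≠ 0 := by exact_mod_cast hX.ne'
    have hpC : (Real.pi : ℂ) ≠ 0 := by exact_mod_cast Real.pi_ne_zero
    have hk : (2 * Real.pi * Complex.I * (v / X : ℝ) : ℂ) ≠ 0 := by
      push_cast
      simp [hvC, hXC, hpC]
    have hd : ∀ t ∈ Set.uIcc (0 : ℝ) X, HasDerivAt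
        (fun t : ℝ => (2 * Real.pi * Complex.I * (v / X : ℝ))⁻¹ * ex (v * (t / X - 1 / 2)))
        (ex (v * (t / X - 1 / 2))) t := by
      intro t _
      have := (hasDerivAt_g X v t).const_mul (2 * Real.pi * Complex.I * (v / X : ℝ) : ℂ)⁻¹
      convert! this using 1
      rw [← mul_assoc, inv_mul_cancel₀ hk, one_mul]
    rw [intervalIntegral.integral_eq_sub_of_hasDerivAt hd
      ((ex_cont.comp (by fun_prop : Continuous fun t : ℝ => v * (t / X - 1 / 2))).intervalIntegrable
        _ _)]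
    have hs : Real.sinc (Real.pi * v) = Real.sin (Real.pi * v) / (Real.pi * v) :=
      Real.sinc_of_ne_zero (mul_ne_zero Real.pi_ne_zero hv)
    rw [hs]
    have e1 : v * (X / X - 1 / 2) = v / 2 := by
      rw [div_self hX.ne']
      ring
    have e2 : v * (0 / X - 1 / 2) = -(v / 2) := by
      rw [zero_div]
      ring
    rw [e1, e2]
    unfold ex
    push_cast
    rw [Complex.sin]
    have e3 : 2 * (Real.pi : ℂ) * (v / 2) * Complex.I = Real.pi * v * Complex.I := by ring
    have e4 : 2 * (Real.pi : ℂ) * -(v / 2) * Complex.I = -(Real.pi * v) * Complex.I := by ring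
    rw [e3, e4]
    have hI : Complex.I ≠ 0 := Complex.I_ne_zero
    field_simp
    rw [Complex.I_sq]
    ring

end PntOsc

open PntOsc in
theorem pnt_osc (V η : ℝ) (hη : 0 < η) : ∃ X0 : ℝ, ∀ X : ℝ, X0 ≤ X → ∀ v : ℝ, 0 ≤ v → v ≤ V →
    ‖∑ n ∈ Icc 1 ⌊X⌋₊, (ArithmeticFunction.vonMangoldt n : ℂ) * ex (v * (n / X - 1 / 2))
      - (X * Real.sinc (Real.pi * v) : ℝ)‖ ≤ η * X := by
  set W : ℝ := 1 + 2 * Real.pi * max V 0 with hW
  have hW1 : 1 ≤ W := by
    have : 0 ≤ 2 * Real.pi * max V 0 := by positivity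
    linarith
  have hW0 : 0 < W := by linarith
  obtain ⟨K, hK0, hK⟩ := psi_bound (η / (2 * W)) (by positivity)
  refine ⟨max 1 (2 * W * K / η), fun X hX v hv0 hvV => ?_⟩
  have hX1 : 1 ≤ X := (le_max_left _ _).trans hX
  have hX0 : 0 < X := by linarith
  have hX2 : 2 * W * K / η ≤ X := (le_max_right _ _).trans hX
  have hvm : v ≤ max V 0 := hvV.trans (le_max_left _ _)
  set g : ℝ → ℂ := fun t => ex (v * (t / X - 1 / 2)) with hg
  set g' : ℝ → ℂ := fun t => 2 * Real.pi * Complex.I * (v / X : ℝ) * ex (v * (t / X - 1 / 2))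
    with hg'
  have hd : ∀ t, HasDerivAt g (g' t) t := fun t => hasDerivAt_g X v t
  have hderiv : deriv g = g' := funext fun t => (hd t).deriv
  have cg : Continuous g := ex_cont.comp (by fun_prop)
  have cg' : Continuous g' := by
    simp only [hg']
    exact continuous_const.mul cg
  have hgn : ∀ t, ‖g t‖ = 1 := fun t => ex_norm _
  have hg'n : ∀ t, ‖g' t‖ = 2 * Real.pi * v / X := by
    intro t
    simp only [hg']
    rw [norm_mul, ex_norm, norm_mul, norm_mul, norm_mul, Complex.norm_I, Complex.norm_real,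
      Complex.norm_real, Real.norm_of_nonneg Real.pi_pos.le,
      Real.norm_of_nonneg (div_nonneg hv0 hX0.le)]
    simp
    ring
  -- Abel summation
  have hpsi : ∀ t : ℝ, ∑ k ∈ Icc 0 ⌊t⌋₊, ((ArithmeticFunction.vonMangoldt k : ℝ) : ℂ) =
      ((Chebyshev.psi t : ℝ) : ℂ) := by
    intro t
    rw [Chebyshev.psi_eq_sum_Icc]
    push_cast
    rfl
  have hA := sum_mul_eq_sub_integral_mul (𝕜 := ℂ) (f := g)
    (fun k => ((ArithmeticFunction.vonMangoldt k : ℝ) : ℂ)) hX0.le
    (fun t _ => (hd t).differentiableAt) (by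
      rw [hderiv]
      exact cg'.continuousOn.integrableOn_compact isCompact_Icc)
  rw [hderiv, hpsi] at hA
  simp only [hpsi] at hA
  have hS : ∑ n ∈ Icc 1 ⌊X⌋₊, (ArithmeticFunction.vonMangoldt n : ℂ) * ex (v * (n / X - 1 / 2)) =
      ∑ k ∈ Icc 0 ⌊X⌋₊, g k * ((ArithmeticFunction.vonMangoldt k : ℝ) : ℂ) := by
    have h0 : Icc 0 ⌊X⌋₊ = insert 0 (Icc 1 ⌊X⌋₊) := by
      ext n
      simp only [mem_Icc, mem_insert]
      omega
    rw [h0, sum_insert (by simp)]
    simp only [ArithmeticFunction.map_zero, Complex.ofReal_zero, mul_zero, zero_add]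
    apply sum_congr rfl
    intro n _
    rw [mul_comm]
  rw [hS, hA, ← intervalIntegral.integral_of_le hX0.le]
  have hB : ∫ t in (0 : ℝ)..X, g' t * (t : ℂ) = g X * X - ((X * Real.sinc (Real.pi * v) : ℝ) : ℂ) := by
    have h1 := intervalIntegral.integral_deriv_mul_eq_sub (a := (0 : ℝ)) (b := X)
      (u := g) (v := fun t : ℝ => (t : ℂ)) (u' := g') (v' := fun _ => 1)
      (fun t _ => hd t) (fun t _ => by simpa using (hasDerivAt_id t).ofReal_comp)
      (cg'.intervalIntegrable _ _) (continuous_const.intervalIntegrable _ _)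
    have h1' : ∫ t in (0 : ℝ)..X, (g' t * (t : ℂ) + g t * 1) = (∫ t in (0 : ℝ)..X, g' t * (t : ℂ)) +
        ∫ t in (0 : ℝ)..X, g t * 1 :=
      intervalIntegral.integral_add ((cg'.mul Complex.continuous_ofReal).intervalIntegrable _ _)
        ((cg.mul continuous_const).intervalIntegrable _ _)
    rw [h1'] at h1
    have h2 : ∫ t in (0 : ℝ)..X, g t * 1 = ((X * Real.sinc (Real.pi * v) : ℝ) : ℂ) := by
      simp only [mul_one]
      exact int_g X v hX0
    rw [h2] at h1
    rw [eq_sub_iff_add_eq, h1]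
    simp
  have hintpsi : IntervalIntegrable (fun t => g' t * ((Chebyshev.psi t : ℝ) : ℂ)) volume 0 X := by
    have hm : IntervalIntegrable (fun t => ((Chebyshev.psi t : ℝ) : ℂ)) volume 0 X := by
      have := (Chebyshev.psi_mono.monotoneOn (Set.uIcc (0 : ℝ) X)).intervalIntegrable (μ := volume)
      rw [intervalIntegrable_iff] at this ⊢
      exact this.ofReal
    exact hm.continuousOn_mul cg'.continuousOn
  have hC : g X * ((Chebyshev.psi X : ℝ) : ℂ) - (∫ t in (0 : ℝ)..X, g' t * ((Chebyshev.psi t : ℝ) : ℂ))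
      - ((X * Real.sinc (Real.pi * v) : ℝ) : ℂ) =
      g X * ((Chebyshev.psi X - X : ℝ) : ℂ) -
        ∫ t in (0 : ℝ)..X, g' t * ((Chebyshev.psi t - t : ℝ) : ℂ) := by
    have h3 : ∫ t in (0 : ℝ)..X, g' t * ((Chebyshev.psi t - t : ℝ) : ℂ) =
        (∫ t in (0 : ℝ)..X, g' t * ((Chebyshev.psi t : ℝ) : ℂ)) - ∫ t in (0 : ℝ)..X, g' t * (t : ℂ) := by
      have h4 : IntervalIntegrable (fun t => g' t * (t : ℂ)) volume 0 X :=
        (cg'.mul Complex.continuous_ofReal).intervalIntegrable _ _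
      rw [← intervalIntegral.integral_sub hintpsi h4]
      congr 1
      ext t
      push_cast
      ring
    rw [h3, hB]
    push_cast
    ring
  rw [hC]
  have hb1 : ‖g X * ((Chebyshev.psi X - X : ℝ) : ℂ)‖ ≤ η / (2 * W) * X + K := by
    rw [norm_mul, hgn, one_mul, Complex.norm_real, Real.norm_eq_abs]
    exact hK X hX0.le
  have hb2 : ‖∫ t in (0 : ℝ)..X, g' t * ((Chebyshev.psi t - t : ℝ) : ℂ)‖ ≤
      (2 * Real.pi * v / X * (η / (2 * W) * X + K)) * |X - 0| := by
    apply intervalIntegral.norm_integral_le_of_norm_le_const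
    intro t ht
    rw [Set.uIoc_of_le hX0.le] at ht
    rw [norm_mul, hg'n, Complex.norm_real, Real.norm_eq_abs]
    apply mul_le_mul_of_nonneg_left _ (by positivity)
    refine (hK t ht.1.le).trans ?_
    have : η / (2 * W) * t ≤ η / (2 * W) * X := mul_le_mul_of_nonneg_left ht.2 (by positivity)
    linarith
  rw [sub_zero, abs_of_pos hX0] at hb2
  have hb3 : 2 * Real.pi * v / X * (η / (2 * W) * X + K) * X =
      2 * Real.pi * v * (η / (2 * W) * X + K) := by
    field_simp
  rw [hb3] at hb2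
  have hq : 0 ≤ η / (2 * W) * X + K := by positivity
  have hb4 : 2 * Real.pi * v * (η / (2 * W) * X + K) ≤
      2 * Real.pi * max V 0 * (η / (2 * W) * X + K) := by
    apply mul_le_mul_of_nonneg_right _ hq
    apply mul_le_mul_of_nonneg_left hvm (by positivity)
  have hb5 : (η / (2 * W) * X + K) + 2 * Real.pi * max V 0 * (η / (2 * W) * X + K) =
      W * (η / (2 * W) * X + K) := by
    rw [hW]
    ring
  have hb6 : W * (η / (2 * W) * X + K) = η / 2 * X + W * K := by
    field_simp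
  have hb7 : W * K ≤ η / 2 * X := by
    rw [div_le_iff₀ hη] at hX2
    linarith
  calc _ ≤ _ := norm_sub_le _ _
    _ ≤ η * X := by linarith

end H336V
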