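import Pool.Agent.H336R2.V.PairB
import Pool.Agent.H336R2.V.PntOsc

open Finset MeasureTheory

namespace H336V

open H343 H343.KF

namespace PairA

lemma majorant {B : ℝ} {lam : ℝ → ℝ} (hB : 1 ≤ B) (hl : Test B lam) :
    ∃ l' : ℝ → ℝ, Test (B + 1) l' ∧ ∀ v, |lam v| ≤ l' v := by
  obtain ⟨M, hM0, hM⟩ := hl.bounded
  let bump : ContDiffBump (0 : ℝ) := ⟨B, B + 1, by positivity, by linarith⟩
  have hbIn : bump.rIn = B := rfl
  have hbOut : bump.rOut = B + 1 := rfl
  refine ⟨fun v => M * bump v, ⟨?_, ?_⟩, ?_⟩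
  · exact contDiff_const.mul bump.contDiff
  · intro v hv
    rw [bump.zero_of_le_dist (by rw [hbOut, Real.dist_eq, sub_zero]; exact hv), mul_zero]
  · intro v
    by_cases h : |v| ≤ B
    · have : bump v = 1 := by
        apply bump.one_of_mem_closedBall
        rw [Metric.mem_closedBall, hbIn, Real.dist_eq, sub_zero]
        exact h
      simp only
      rw [this, mul_one]
      exact hM v
    · push Not at h
      rw [hl.supp v h.le, abs_zero]
      have := bump.nonneg (x := v)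
      positivity

/-- the number of numerators -/
lemma abs_sum {B : ℝ} {lam : ℝ → ℝ} (hB : 1 ≤ B) (hl : Test B lam) : ∃ C : ℝ, 0 < C ∧
    ∀ (q N : ℕ) (Y : ℝ), 1 ≤ q → 0 < Y →
      ∑ a ∈ (Icc 1 N).filter (fun a => a.Coprime q), |lam (Real.log (a / (q * Y)))| ≤
        C * (Nat.totient q * Y + q.divisors.card) := by
  obtain ⟨l', hl', hle⟩ := majorant hB hl
  obtain ⟨C, hC, h⟩ := coprime_count hl'
  set I := ∫ v, l' v * Real.exp v with hI
  have hI0 : 0 ≤ I := integral_nonneg fun v =>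
    mul_nonneg ((abs_nonneg _).trans (hle v)) (Real.exp_pos v).le
  refine ⟨I + C, by linarith, ?_⟩
  intro q N Y hq hY
  set N' := max N ⌈Real.exp (B + 1) * q * Y⌉₊ with hN'
  have hN'1 : Real.exp (B + 1) * q * Y ≤ N' := by
    refine (Nat.le_ceil _).trans ?_
    exact_mod_cast le_max_right _ _
  have h1 := h q N' Y hq hY hN'1
  have h2 : ∑ a ∈ (Icc 1 N).filter (fun a => a.Coprime q), |lam (Real.log (a / (q * Y)))| ≤
      ∑ a ∈ (Icc 1 N').filter (fun a => a.Coprime q), l' (Real.log (a / (q * Y))) := by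
    refine (sum_le_sum fun a _ => hle _).trans ?_
    apply sum_le_sum_of_subset_of_nonneg
    · apply filter_subset_filter
      exact Icc_subset_Icc_right (le_max_left _ _)
    · intro a _ _
      exact (abs_nonneg _).trans (hle _)
  refine h2.trans ?_
  have h3 := (abs_le.1 h1).2
  have ht : (0 : ℝ) ≤ Nat.totient q * Y := by positivity
  have hd : (0 : ℝ) ≤ q.divisors.card := by positivity
  have h4 : (Nat.totient q * Y) * I = Nat.totient q * Y * I := rfl
  nlinarith [mul_nonneg ht hC.le, mul_nonneg hd hI0]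

lemma test_sinc {B : ℝ} {lam : ℝ → ℝ} (hl : Test B lam) :
    Test B (fun v => lam v * Real.sinc (Real.pi * Real.exp v)) := by
  have hpos : ∀ v : ℝ, Real.pi * Real.exp v ≠ 0 := fun v => by positivity
  constructor
  · apply hl.smooth.mul
    have e : (fun v => Real.sinc (Real.pi * Real.exp v)) =
        fun v => (Real.sin (Real.pi * Real.exp v) / (Real.pi * Real.exp v)) := by
      ext v
      rw [Real.sinc_of_ne_zero (hpos v)]
    rw [e]
    apply ContDiff.div
    · exact Real.contDiff_sin.comp (contDiff_const.mul Real.contDiff_exp)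
    · exact contDiff_const.mul Real.contDiff_exp
    · exact hpos
  · intro v hv
    rw [hl.supp v hv, zero_mul]

/-- evaluation of the main term for one modulus -/
theorem mainq_eval {B : ℝ} {lam : ℝ → ℝ} (hl : Test B lam) : ∃ C : ℝ, 0 < C ∧
    ∀ η : ℝ, 0 < η → ∃ X0 : ℝ, ∀ (X Y : ℝ) (q N : ℕ), X0 ≤ X → 1 ≤ X → 0 < Y → 1 ≤ q →
      Real.exp B * q * Y ≤ N →
      ‖mainq lam X Y N q - ((1 / (Nat.totient q : ℝ) ^ 2 * (X * (Nat.totient q * Y *
        ∫ v, lam v * Real.sinc (Real.pi * Real.exp v) * Real.exp v)) : ℝ) : ℂ)‖ ≤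
      1 / (Nat.totient q : ℝ) ^ 2 * (X * (C * q.divisors.card) +
        (η * X + q.divisors.card * Real.log X) *
          ∑ a ∈ (Icc 1 N).filter (fun a => a.Coprime q), |lam (Real.log (a / (q * Y)))|) := by
  obtain ⟨C, hC, hcc⟩ := coprime_count (test_sinc hl)
  refine ⟨C, hC, ?_⟩
  intro η hη
  obtain ⟨X0, hX0⟩ := pnt_osc (Real.exp B) η hη
  refine ⟨X0, ?_⟩
  intro X Y q N hXX hX hY hq hN
  have hXp : 0 < X := by linarith
  have hM : 1 ≤ ⌊X⌋₊ := Nat.le_floor (by exact_mod_cast hX)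
  have hlog : Real.log (⌊X⌋₊ : ℕ) ≤ Real.log X :=
    Real.log_le_log (by exact_mod_cast hM) (Nat.floor_le (by linarith))
  have htot : (0 : ℝ) < Nat.totient q := by exact_mod_cast Nat.totient_pos.2 hq
  set I := ∫ v, lam v * Real.sinc (Real.pi * Real.exp v) * Real.exp v with hI
  -- inner sums
  have hin : ∀ a ∈ (Icc 1 N).filter (fun a => a.Coprime q),
      ‖(lam (Real.log (a / (q * Y))) : ℂ) * ∑ n ∈ (Icc 1 ⌊X⌋₊).filter (fun n => n.Coprime q),
        (ArithmeticFunction.vonMangoldt n : ℂ) * gg X (a / (q * Y)) n -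
      ((X * (lam (Real.log (a / (q * Y))) *
        Real.sinc (Real.pi * Real.exp (Real.log (a / (q * Y))))) : ℝ) : ℂ)‖ ≤
      |lam (Real.log (a / (q * Y)))| * (η * X + q.divisors.card * Real.log X) := by
    intro a ha
    rw [mem_filter, mem_Icc] at ha
    have ha0 : (0 : ℝ) < a := by exact_mod_cast ha.1.1
    have hq0 : (0 : ℝ) < q := by exact_mod_cast hq
    set w : ℝ := a / (q * Y) with hw
    have hw0 : 0 < w := by rw [hw]; positivity
    rw [Real.exp_log hw0]
    by_cases hwB : w ≤ Real.exp B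
    · have h1 := hX0 X hXX w hw0.le hwB
      have h2 : ‖∑ n ∈ (Icc 1 ⌊X⌋₊).filter (fun n => n.Coprime q),
          (ArithmeticFunction.vonMangoldt n : ℂ) * gg X w n -
          ∑ n ∈ Icc 1 ⌊X⌋₊, (ArithmeticFunction.vonMangoldt n : ℂ) * gg X w n‖ ≤
          q.divisors.card * Real.log X := by
        have e1 : ∑ n ∈ (Icc 1 ⌊X⌋₊).filter (fun n => n.Coprime q),
          (ArithmeticFunction.vonMangoldt n : ℂ) * gg X w n -
          ∑ n ∈ Icc 1 ⌊X⌋₊, (ArithmeticFunction.vonMangoldt n : ℂ) * gg X w n =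
          -∑ n ∈ (Icc 1 ⌊X⌋₊).filter (fun n => ¬ n.Coprime q),
            (ArithmeticFunction.vonMangoldt n : ℂ) * gg X w n := by
          rw [← sum_filter_add_sum_filter_not (Icc 1 ⌊X⌋₊) (fun n => n.Coprime q)]
          ring
        rw [e1, norm_neg]
        refine (norm_sum_le _ _).trans ?_
        have h3 := sum_not_coprime q ⌊X⌋₊ hq hM
        refine le_trans (sum_le_sum fun n _ => ?_) (h3.trans ?_)
        · rw [norm_mul, Complex.norm_real,
            Real.norm_of_nonneg ArithmeticFunction.vonMangoldt_nonneg, gg_norm, mul_one]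
        · gcongr
      have h3 : ∀ (L : ℝ) (S T : ℂ) (Z E1 E2 : ℝ), ‖T - (Z : ℂ)‖ ≤ E1 → ‖S - T‖ ≤ E2 →
          ‖(L : ℂ) * S - ((L * Z : ℝ) : ℂ)‖ ≤ |L| * (E1 + E2) := by
        intro L S T Z E1 E2 h4 h5
        have : (L : ℂ) * S - ((L * Z : ℝ) : ℂ) = (L : ℂ) * ((T - Z) + (S - T)) := by
          push_cast; ring
        rw [this, norm_mul, Complex.norm_real, Real.norm_eq_abs]
        apply mul_le_mul_of_nonneg_left _ (abs_nonneg _)
        exact (norm_add_le _ _).trans (add_le_add h4 h5)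
      have h4 := h3 (lam (Real.log w)) _ _ _ _ _ h1 h2
      refine le_trans (le_of_eq ?_) h4
      congr 3
      ring
    · push Not at hwB
      have : lam (Real.log w) = 0 := by
        apply hl.supp
        have h5 : B < Real.log w := by
          rw [← Real.log_exp B]
          exact Real.log_lt_log (Real.exp_pos _) hwB
        exact h5.le.trans (le_abs_self _)
      rw [this]
      simp
  have hsum := hcc q N Y hq hY hN
  unfold mainq
  have hfac : ∀ (c : ℝ) (S : ℂ) (Z : ℝ) (E : ℝ), 0 ≤ c → ‖S - (Z : ℂ)‖ ≤ E →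
      ‖(c : ℂ) * S - ((c * Z : ℝ) : ℂ)‖ ≤ c * E := by
    intro c S Z E hc h
    have : (c : ℂ) * S - ((c * Z : ℝ) : ℂ) = (c : ℂ) * (S - Z) := by push_cast; ring
    rw [this, norm_mul, Complex.norm_real, Real.norm_of_nonneg hc]
    exact mul_le_mul_of_nonneg_left h hc
  apply hfac _ _ _ _ (by positivity)
  set S1 := ∑ a ∈ (Icc 1 N).filter (fun a => a.Coprime q),
    (lam (Real.log (a / (q * Y))) : ℂ) * ∑ n ∈ (Icc 1 ⌊X⌋₊).filter (fun n => n.Coprime q),
      (ArithmeticFunction.vonMangoldt n : ℂ) * gg X (a / (q * Y)) n with hS1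
  set S2 : ℝ := ∑ a ∈ (Icc 1 N).filter (fun a => a.Coprime q),
    (lam (Real.log (a / (q * Y))) *
        Real.sinc (Real.pi * Real.exp (Real.log (a / (q * Y))))) with hS2
  have e1 : ‖S1 - ((X * S2 : ℝ) : ℂ)‖ ≤ (η * X + q.divisors.card * Real.log X) *
      ∑ a ∈ (Icc 1 N).filter (fun a => a.Coprime q), |lam (Real.log (a / (q * Y)))| := by
    rw [hS1, hS2, mul_sum]
    push_cast
    rw [← sum_sub_distrib, mul_sum]
    refine (norm_sum_le _ _).trans (sum_le_sum fun a ha => ?_)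
    have := hin a ha
    push_cast at this
    rw [mul_comm (η * X + _)]
    exact this
  have e2 : ‖((X * S2 : ℝ) : ℂ) - ((X * (Nat.totient q * Y * I) : ℝ) : ℂ)‖ ≤
      X * (C * q.divisors.card) := by
    rw [← Complex.ofReal_sub, Complex.norm_real, Real.norm_eq_abs, ← mul_sub, abs_mul,
      abs_of_pos hXp]
    exact mul_le_mul_of_nonneg_left hsum hXp.le
  have : S1 - ((X * (Nat.totient q * Y * I) : ℝ) : ℂ) = (((X * S2 : ℝ) : ℂ) -
      ((X * (Nat.totient q * Y * I) : ℝ) : ℂ)) + (S1 - ((X * S2 : ℝ) : ℂ)) := by ring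
  rw [this]
  exact (norm_add_le _ _).trans (add_le_add e2 e1)

end PairA

end H336V
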