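import Pool.Agent.H336R2.V.PairC

open Finset MeasureTheory

namespace H336V

open H343 H343.KF

namespace PairA

lemma mem_ModK {k Q R q : ℕ} (h : q ∈ ModK k Q R) :
    Q < q ∧ q ≤ R ∧ Squarefree q ∧ q.Coprime k := by
  unfold ModK H343.Mod at h
  simp only [mem_filter, mem_Ioc] at h
  exact ⟨h.1.1.1, h.1.1.2, h.1.2, h.2⟩

/-- `k` is large when `X` is -/
lemma k_large {ε X : ℝ} {k : ℕ} (hε : 0 < ε) (hk : 1 ≤ k) (hr : RangeV ε X (k / X)) (K : ℝ)
    (hK : 1 ≤ K) (hX : K ^ 2 ≤ X) : K ≤ k := by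
  have hX0 := hr.hx
  have hXY : X * (k / X) = k := by field_simp
  have h := hr.hhigh
  rw [hXY] at h
  have hk1 : (1 : ℝ) ≤ k := by exact_mod_cast hk
  have h2 : X ≤ (k : ℝ) ^ (2 : ℕ) := by
    refine h.trans ?_
    rw [← Real.rpow_natCast]
    apply Real.rpow_le_rpow_of_exponent_le hk1
    push_cast
    linarith
  have h3 : K ^ 2 ≤ (k : ℝ) ^ 2 := hX.trans h2
  exact (pow_le_pow_iff_left₀ (by linarith) (by linarith) (by norm_num)).1 h3

lemma log_le {ε X : ℝ} {k : ℕ} (hε : 0 < ε) (hk : 1 ≤ k) (hr : RangeV ε X (k / X)) :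
    Real.log X ≤ 3 / 2 * Real.log k := by
  have hX0 := hr.hx
  have hXY : X * (k / X) = k := by field_simp
  have h := hr.hhigh
  rw [hXY] at h
  have hk0 : (0 : ℝ) < k := by exact_mod_cast hk
  have hk1 : (1 : ℝ) ≤ k := by exact_mod_cast hk
  have h1 := Real.log_le_log hX0 h
  rw [Real.log_rpow hk0] at h1
  have := Real.log_nonneg hk1
  nlinarith

end PairA

open PairA in
theorem pairing {B : ℝ} {lam : ℝ → ℝ} (hB : 1 ≤ B) (hl : Test B lam) (ε η : ℝ) (hε : 0 < ε)
    (hε1 : ε ≤ 1 / 100) (hη : 0 < η) : ∃ X0 : ℝ, ∀ (X : ℝ) (k : ℕ), X0 ≤ X →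
    RangeV ε X (k / X) → ∀ Q R N : ℕ, CutsV ε B X (k / X) Q R N →
    k * ((∫ v, lam v * Real.sinc (Real.pi * Real.exp v) * Real.exp v) * LLK k Q R
        - η * (1 + LLK k Q R)) ≤
      (∑ n ∈ (Icc 1 ⌊X⌋₊).filter (fun n => n.Coprime k),
        (ArithmeticFunction.vonMangoldt n : ℂ) * FF lam (k / X) k Q R N n).re := by
  classical
  set δ : ℝ := ε / 10 with hδdef
  have hδ : 0 < δ := by positivity
  obtain ⟨C1, H1, hC1, hrem⟩ := rem_bound hB hl ε hε hε1
  obtain ⟨C2, hC2, hmain⟩ := mainq_eval hl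
  obtain ⟨C3, hC3, habs⟩ := abs_sum hB hl
  obtain ⟨C4, hC4, hdiv⟩ := div_bound δ hδ
  obtain ⟨c5, hc5, hphi⟩ := phi_bound δ hδ
  set η' : ℝ := min 1 (η / (2 * C3)) with hη'
  have hη'0 : 0 < η' := by positivity
  have hη'1 : η' ≤ 1 := min_le_left _ _
  have hη'2 : η' * C3 ≤ η / 2 := by
    calc η' * C3 ≤ η / (2 * C3) * C3 := by
          have : η' ≤ η / (2 * C3) := min_le_right _ _
          gcongr
      _ = η / 2 := by field_simp
  obtain ⟨X1, hX1⟩ := hmain η' hη'0
  set CD : ℝ := C4 * (1 / c5 ^ 2) with hCD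
  set CC : ℝ := C1 + 2 * (C3 * (1 + C4) * (2 * C4) * 2) + (C2 + C3) * CD with hCC
  obtain ⟨H2, hH2, hlarge⟩ := large (CC * (2 / η)) (ε / 40) 1 (by positivity)
  set K0 : ℝ := max (max H1 H2) 1 with hK0
  refine ⟨max (max X1 1) (K0 ^ 2), ?_⟩
  intro X k hX hr Q R N hc
  have hXX1 : X1 ≤ X := ((le_max_left _ _).trans (le_max_left _ _)).trans hX
  have hX1' : 1 ≤ X := ((le_max_right _ _).trans (le_max_left _ _)).trans hX
  have hXK : K0 ^ 2 ≤ X := (le_max_right _ _).trans hX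
  have hX0 : 0 < X := by linarith
  have hXY : X * (k / X) = k := by field_simp
  have hk1r : (1 : ℝ) ≤ k := by have := hr.h1; rwa [hXY] at this
  have hk : 1 ≤ k := by exact_mod_cast hk1r
  have hk0 : (0 : ℝ) < k := by linarith
  have hkK : K0 ≤ k := k_large hε hk hr K0 (le_max_right _ _) hXK
  have hkH1 : H1 ≤ k := ((le_max_left _ _).trans (le_max_left _ _)).trans hkK
  have hkH2 : H2 ≤ k := ((le_max_right _ _).trans (le_max_left _ _)).trans hkK
  have hlogX := log_le hε hk hr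
  have hlogk : 0 ≤ Real.log k := Real.log_nonneg hk1r
  have hlogX0 : 0 ≤ Real.log X := Real.log_nonneg hX1'
  have hY := hr.hY
  have hY1 := hr.hY1
  set Y : ℝ := k / X with hYdef
  set I := ∫ v, lam v * Real.sinc (Real.pi * Real.exp v) * Real.exp v with hI
  set L := LLK k Q R with hL
  have hL0 : 0 ≤ L := sum_nonneg fun _ _ => by positivity
  -- facts on the moduli
  have hRk : (R : ℝ) ≤ (k : ℝ) ^ (1 / 2 : ℝ) := by
    have := hc.hR
    rw [hXY] at this
    refine this.trans ?_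
    apply Real.rpow_le_rpow_of_exponent_le hk1r
    linarith
  have hRk' : (R : ℝ) ≤ k := by
    refine hRk.trans ?_
    calc (k : ℝ) ^ (1 / 2 : ℝ) ≤ (k : ℝ) ^ (1 : ℝ) :=
          Real.rpow_le_rpow_of_exponent_le hk1r (by norm_num)
      _ = k := Real.rpow_one _
  have hq1 : ∀ q ∈ ModK k Q R, 1 ≤ q := fun q hq => by
    have := (mem_ModK hq).1
    omega
  have hqk : ∀ q ∈ ModK k Q R, (q : ℝ) ≤ k := fun q hq => by
    have h1 := (mem_ModK hq).2.1
    have : (q : ℝ) ≤ R := by exact_mod_cast h1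
    linarith
  have hdq : ∀ q ∈ ModK k Q R, (q.divisors.card : ℝ) ≤ C4 * (k : ℝ) ^ δ := by
    intro q hq
    refine (hdiv q (hq1 q hq)).trans ?_
    have := hqk q hq
    gcongr
  have hdk : (k.divisors.card : ℝ) ≤ C4 * (k : ℝ) ^ δ := hdiv k hk
  have hkδ1 : 1 ≤ (k : ℝ) ^ δ := Real.one_le_rpow hk1r hδ.le
  have hphi1 : ∀ q ∈ ModK k Q R, (1 : ℝ) ≤ Nat.totient q := by
    intro q hq
    exact_mod_cast Nat.totient_pos.2 (hq1 q hq)
  -- the numerators
  set A : ℕ → ℝ := fun q => ∑ a ∈ (Icc 1 N).filter (fun a => a.Coprime q),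
    |lam (Real.log (a / (q * Y)))| with hA
  have hA0 : ∀ q, 0 ≤ A q := fun q => sum_nonneg fun _ _ => abs_nonneg _
  have hAle : ∀ q ∈ ModK k Q R, A q ≤ C3 * (Nat.totient q * Y + q.divisors.card) :=
    fun q hq => habs q N Y (hq1 q hq) hY
  have hN : ∀ q ∈ ModK k Q R, Real.exp B * q * Y ≤ N := by
    intro q hq
    refine le_trans ?_ hc.hN
    have h1 : (q : ℝ) ≤ R := by exact_mod_cast (mem_ModK hq).2.1
    gcongr
  -- D1
  have hD1 : X * ∑ q ∈ ModK k Q R, (q.divisors.card : ℝ) / (Nat.totient q : ℝ) ^ 2 ≤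
      CD * (k : ℝ) ^ (1 - ε / 40) := by
    have hQ1 : 1 ≤ Q := by
      have h1 := hc.hQ1
      rw [hXY] at h1
      have : (1 : ℝ) ≤ Q := (Real.one_le_rpow hk1r (by positivity)).trans h1
      exact_mod_cast this
    have hQ0 : (0 : ℝ) < Q := by exact_mod_cast hQ1
    have h1 : ∑ q ∈ ModK k Q R, (q.divisors.card : ℝ) / (Nat.totient q : ℝ) ^ 2 ≤
        ∑ q ∈ Ioc Q R, CD * (k : ℝ) ^ (3 * δ) * (1 / (q : ℝ) ^ 2) := by
      have hsub : ModK k Q R ⊆ Ioc Q R := by
        intro q hq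
        have := mem_ModK hq
        rw [mem_Ioc]
        exact ⟨this.1, this.2.1⟩
      refine le_trans (sum_le_sum fun q hq => ?_) (sum_le_sum_of_subset_of_nonneg hsub ?_)
      · have h2 := KeyAux.phi_inv_sq hδ hc5 hphi k q (hq1 q hq) (hqk q hq)
        have h3 := hdq q hq
        calc (q.divisors.card : ℝ) / (Nat.totient q : ℝ) ^ 2 =
              q.divisors.card * (1 / (Nat.totient q : ℝ) ^ 2) := by ring
          _ ≤ (C4 * (k : ℝ) ^ δ) * ((1 / c5 ^ 2) * (k : ℝ) ^ (2 * δ) * (1 / (q : ℝ) ^ 2)) := by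
              gcongr
          _ = CD * ((k : ℝ) ^ δ * (k : ℝ) ^ (2 * δ)) * (1 / (q : ℝ) ^ 2) := by rw [hCD]; ring
          _ = _ := by
              rw [← Real.rpow_add hk0]
              congr 3
              ring
      · intro q _ _
        positivity
    have h2 := KeyAux.sum_inv_sq_Ioc Q R hQ1
    rw [← mul_sum] at h1
    have h3 : X * (1 / (Q : ℝ)) ≤ (k : ℝ) ^ (1 - 4 * ε) := by
      have h4 := hc.hQ2
      rw [hXY] at h4
      rw [mul_one_div, div_le_iff₀ hQ0]
      have h5 : X = (k : ℝ) ^ (1 - 4 * ε) * ((k : ℝ) ^ (4 * ε) / Y) := by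
        rw [← mul_div_assoc, ← Real.rpow_add hk0]
        have : (1 - 4 * ε + 4 * ε) = (1 : ℝ) := by ring
        rw [this, Real.rpow_one, hYdef]
        field_simp
      calc X = (k : ℝ) ^ (1 - 4 * ε) * ((k : ℝ) ^ (4 * ε) / Y) := h5
        _ ≤ (k : ℝ) ^ (1 - 4 * ε) * Q := by gcongr
    calc X * ∑ q ∈ ModK k Q R, (q.divisors.card : ℝ) / (Nat.totient q : ℝ) ^ 2
        ≤ X * (CD * (k : ℝ) ^ (3 * δ) * ∑ q ∈ Ioc Q R, 1 / (q : ℝ) ^ 2) := by gcongr
      _ ≤ X * (CD * (k : ℝ) ^ (3 * δ) * (1 / (Q : ℝ))) := by gcongr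
      _ = CD * (k : ℝ) ^ (3 * δ) * (X * (1 / (Q : ℝ))) := by ring
      _ ≤ CD * (k : ℝ) ^ (3 * δ) * (k : ℝ) ^ (1 - 4 * ε) := by gcongr
      _ = CD * (k : ℝ) ^ (3 * δ + (1 - 4 * ε)) := by
          rw [mul_assoc, ← Real.rpow_add hk0]
      _ ≤ CD * (k : ℝ) ^ (1 - ε / 40) := by
          have h6 : (k : ℝ) ^ (3 * δ + (1 - 4 * ε)) ≤ (k : ℝ) ^ (1 - ε / 40) := by
            apply Real.rpow_le_rpow_of_exponent_le hk1r
            rw [hδdef]
            linarith
          gcongr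
  -- bound 2
  have hb2 : ∀ q ∈ ModK k Q R, 1 / (Nat.totient q : ℝ) * A q *
      ((k.divisors.card + q.divisors.card) * Real.log X) ≤
      C3 * (1 + C4) * (2 * C4) * 2 * (1 + Real.log k) * (k : ℝ) ^ (2 * δ) := by
    intro q hq
    have hφ := hphi1 q hq
    have h1 : 1 / (Nat.totient q : ℝ) * A q ≤ C3 * (1 + C4) * (k : ℝ) ^ δ := by
      have h2 : 1 / (Nat.totient q : ℝ) * A q ≤
          1 / (Nat.totient q : ℝ) * (C3 * (Nat.totient q * Y + q.divisors.card)) :=
        mul_le_mul_of_nonneg_left (hAle q hq) (by positivity)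
      refine h2.trans ?_
      have h3 : 1 / (Nat.totient q : ℝ) * (C3 * (Nat.totient q * Y + q.divisors.card)) =
          C3 * (Y + q.divisors.card / Nat.totient q) := by
        field_simp
      rw [h3]
      have h4 : (q.divisors.card : ℝ) / Nat.totient q ≤ C4 * (k : ℝ) ^ δ := by
        refine le_trans ?_ (hdq q hq)
        exact div_le_self (by positivity) hφ
      calc C3 * (Y + q.divisors.card / Nat.totient q) ≤ C3 * ((k : ℝ) ^ δ + C4 * (k : ℝ) ^ δ) := by
            have : Y ≤ (k : ℝ) ^ δ := hY1.trans hkδ1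
            gcongr
        _ = _ := by ring
    have h5 : (k.divisors.card + q.divisors.card : ℝ) * Real.log X ≤
        (2 * C4) * (k : ℝ) ^ δ * (2 * (1 + Real.log k)) := by
      have h6 : (k.divisors.card + q.divisors.card : ℝ) ≤ (2 * C4) * (k : ℝ) ^ δ := by
        have := hdq q hq
        linarith
      have h7 : Real.log X ≤ 2 * (1 + Real.log k) := by linarith
      gcongr
    calc 1 / (Nat.totient q : ℝ) * A q * ((k.divisors.card + q.divisors.card) * Real.log X)
        ≤ (C3 * (1 + C4) * (k : ℝ) ^ δ) * ((2 * C4) * (k : ℝ) ^ δ * (2 * (1 + Real.log k))) := by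
          apply mul_le_mul h1 h5 (by positivity) (by positivity)
      _ = C3 * (1 + C4) * (2 * C4) * 2 * (1 + Real.log k) * ((k : ℝ) ^ δ * (k : ℝ) ^ δ) := by ring
      _ = _ := by
          rw [← Real.rpow_add hk0]
          congr 2
          ring
  have hcardR : (((ModK k Q R).card : ℕ) : ℝ) ≤ R := by
    have h1 : (ModK k Q R).card ≤ (Ioc Q R).card := by
      apply card_le_card
      intro q hq
      have := mem_ModK hq
      rw [mem_Ioc]
      exact ⟨this.1, this.2.1⟩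
    rw [Nat.card_Ioc] at h1
    have : (ModK k Q R).card ≤ R := h1.trans (Nat.sub_le _ _)
    exact_mod_cast this
  have hB2 : ∑ q ∈ ModK k Q R, 1 / (Nat.totient q : ℝ) * A q *
      ((k.divisors.card + q.divisors.card) * Real.log X) ≤
      C3 * (1 + C4) * (2 * C4) * 2 * (1 + Real.log k) * (k : ℝ) ^ (1 - ε / 40) := by
    refine (sum_le_sum hb2).trans ?_
    rw [sum_const, nsmul_eq_mul]
    calc (((ModK k Q R).card : ℕ) : ℝ) * (C3 * (1 + C4) * (2 * C4) * 2 * (1 + Real.log k) *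
          (k : ℝ) ^ (2 * δ))
        ≤ (k : ℝ) ^ (1 / 2 : ℝ) * (C3 * (1 + C4) * (2 * C4) * 2 * (1 + Real.log k) *
          (k : ℝ) ^ (2 * δ)) := by
          have := hcardR.trans hRk
          gcongr
      _ = C3 * (1 + C4) * (2 * C4) * 2 * (1 + Real.log k) * ((k : ℝ) ^ (1 / 2 : ℝ) *
          (k : ℝ) ^ (2 * δ)) := by ring
      _ ≤ C3 * (1 + C4) * (2 * C4) * 2 * (1 + Real.log k) * (k : ℝ) ^ (1 - ε / 40) := by
          have h6 : (k : ℝ) ^ (1 / 2 : ℝ) * (k : ℝ) ^ (2 * δ) ≤ (k : ℝ) ^ (1 - ε / 40) := by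
            rw [← Real.rpow_add hk0]
            apply Real.rpow_le_rpow_of_exponent_le hk1r
            rw [hδdef]
            linarith
          gcongr
  -- bound for one modulus, difference with the expected main term
  have hdiff : ∀ q ∈ ModK k Q R, ‖termq lam X Y k N q - ((k * I * (1 / (Nat.totient q : ℝ)) : ℝ) : ℂ)‖ ≤
      1 / (Nat.totient q : ℝ) ^ 2 *
      ∑ χ ∈ (univ : Finset (DirichletCharacter ℂ q)).filter (fun χ => χ ≠ 1),
        ‖GS χ⁻¹‖ * ‖ZZ lam X Y N χ‖ +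
      2 * (1 / (Nat.totient q : ℝ) * A q * ((k.divisors.card + q.divisors.card) * Real.log X)) +
      (C2 + C3) * (X * ((q.divisors.card : ℝ) / (Nat.totient q : ℝ) ^ 2)) +
      η / 2 * k * (1 / (Nat.totient q : ℝ)) := by
    intro q hq
    have hφ := hphi1 q hq
    have hφ0 : (0 : ℝ) < Nat.totient q := by linarith
    obtain ⟨_, _, hsq, hcop⟩ := mem_ModK hq
    have h1 := termq_main lam X Y k N q hX1' hk (hq1 q hq) hcop hsq hYdef
    have h2 := hX1 X Y q N hXX1 hX1' hY (hq1 q hq) (hN q hq)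
    have h3 : 1 / (Nat.totient q : ℝ) ^ 2 * (X * (Nat.totient q * Y * I)) =
        k * I * (1 / (Nat.totient q : ℝ)) := by
      have : X * (Nat.totient q * Y * I) = Nat.totient q * (X * Y) * I := by ring
      rw [this, hXY]
      field_simp
    rw [h3] at h2
    have h4 : 1 / (Nat.totient q : ℝ) ^ 2 * (X * (C2 * q.divisors.card) +
        (η' * X + q.divisors.card * Real.log X) * A q) ≤
        1 / (Nat.totient q : ℝ) * A q * ((k.divisors.card + q.divisors.card) * Real.log X) +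
      (C2 + C3) * (X * ((q.divisors.card : ℝ) / (Nat.totient q : ℝ) ^ 2)) +
      η / 2 * k * (1 / (Nat.totient q : ℝ)) := by
      have e1 : 1 / (Nat.totient q : ℝ) ^ 2 * (X * (C2 * q.divisors.card) +
        (η' * X + q.divisors.card * Real.log X) * A q) =
        C2 * (X * ((q.divisors.card : ℝ) / (Nat.totient q : ℝ) ^ 2)) +
        η' * X * (1 / (Nat.totient q : ℝ) ^ 2 * A q) +
        1 / (Nat.totient q : ℝ) ^ 2 * A q * (q.divisors.card * Real.log X) := by ring
      rw [e1]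
      have e2 : η' * X * (1 / (Nat.totient q : ℝ) ^ 2 * A q) ≤
          C3 * (X * ((q.divisors.card : ℝ) / (Nat.totient q : ℝ) ^ 2)) +
            η / 2 * k * (1 / (Nat.totient q : ℝ)) := by
        calc η' * X * (1 / (Nat.totient q : ℝ) ^ 2 * A q) ≤
            η' * X * (1 / (Nat.totient q : ℝ) ^ 2 * (C3 * (Nat.totient q * Y + q.divisors.card))) := by
              have := hAle q hq
              gcongr
          _ = η' * C3 * (X * Y) * (1 / (Nat.totient q : ℝ)) +
              η' * C3 * (X * ((q.divisors.card : ℝ) / (Nat.totient q : ℝ) ^ 2)) := by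
              field_simp
          _ ≤ η / 2 * (X * Y) * (1 / (Nat.totient q : ℝ)) +
              1 * C3 * (X * ((q.divisors.card : ℝ) / (Nat.totient q : ℝ) ^ 2)) := by
              gcongr
          _ = _ := by rw [hXY]; ring
      have e3 : 1 / (Nat.totient q : ℝ) ^ 2 * A q * (q.divisors.card * Real.log X) ≤
          1 / (Nat.totient q : ℝ) * A q * ((k.divisors.card + q.divisors.card) * Real.log X) := by
        have h5 : 1 / (Nat.totient q : ℝ) ^ 2 ≤ 1 / (Nat.totient q : ℝ) := by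
          apply one_div_le_one_div_of_le hφ0
          nlinarith
        have h6 : (q.divisors.card : ℝ) ≤ k.divisors.card + q.divisors.card := by
          have : (0 : ℝ) ≤ k.divisors.card := by positivity
          linarith
        have h7 := hA0 q
        gcongr
      linarith
    have h5 : termq lam X Y k N q - ((k * I * (1 / (Nat.totient q : ℝ)) : ℝ) : ℂ) =
        (termq lam X Y k N q - mainq lam X Y N q) +
        (mainq lam X Y N q - ((k * I * (1 / (Nat.totient q : ℝ)) : ℝ) : ℂ)) := by ring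
    rw [h5]
    refine (norm_add_le _ _).trans ?_
    have h6 := add_le_add h1 (h2.trans h4)
    refine h6.trans (le_of_eq ?_)
    ring
  -- total
  rw [sum_termq]
  have hsumI : ∑ q ∈ ModK k Q R, ((k * I * (1 / (Nat.totient q : ℝ)) : ℝ) : ℂ) =
      ((k * I * L : ℝ) : ℂ) := by
    rw [← Complex.ofReal_sum, ← mul_sum]
    rfl
  have htot : ‖∑ q ∈ ModK k Q R, termq lam X Y k N q - ((k * I * L : ℝ) : ℂ)‖ ≤
      η * k * (1 + L) := by
    rw [← hsumI, ← sum_sub_distrib]
    refine (norm_sum_le _ _).trans ((sum_le_sum hdiff).trans ?_)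
    rw [sum_add_distrib, sum_add_distrib, sum_add_distrib, ← mul_sum, ← mul_sum, ← mul_sum,
      ← mul_sum]
    have g1 := hrem X k hX1' hk hkH1 hr Q R N hc
    have hlog1 : 1 ≤ 1 + Real.log k := by linarith
    have hpw : 0 ≤ (k : ℝ) ^ (1 - ε / 40) := by positivity
    have hCDp : 0 < CD := by positivity
    have g4 : C1 * (k : ℝ) ^ (1 - ε / 40) ≤ C1 * (1 + Real.log k) * (k : ℝ) ^ (1 - ε / 40) := by
      have : C1 * 1 ≤ C1 * (1 + Real.log k) := by gcongr
      calc C1 * (k : ℝ) ^ (1 - ε / 40) = C1 * 1 * (k : ℝ) ^ (1 - ε / 40) := by ring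
        _ ≤ _ := by gcongr
    have g5 : (C2 + C3) * (X * ∑ q ∈ ModK k Q R, (q.divisors.card : ℝ) / (Nat.totient q : ℝ) ^ 2) ≤
        (C2 + C3) * CD * (1 + Real.log k) * (k : ℝ) ^ (1 - ε / 40) := by
      calc (C2 + C3) * (X * ∑ q ∈ ModK k Q R, (q.divisors.card : ℝ) / (Nat.totient q : ℝ) ^ 2)
          ≤ (C2 + C3) * (CD * (k : ℝ) ^ (1 - ε / 40)) := by gcongr
        _ = (C2 + C3) * CD * 1 * (k : ℝ) ^ (1 - ε / 40) := by ring
        _ ≤ _ := by gcongr
    have hl' := hlarge k hkH2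
    rw [pow_one] at hl'
    have g6 : CC * (1 + Real.log k) * (k : ℝ) ^ (1 - ε / 40) ≤ η / 2 * k := by
      calc CC * (1 + Real.log k) * (k : ℝ) ^ (1 - ε / 40) =
            η / 2 * ((CC * (2 / η) * (1 + Real.log k)) * (k : ℝ) ^ (1 - ε / 40)) := by
              field_simp
        _ ≤ η / 2 * ((k : ℝ) ^ (ε / 40) * (k : ℝ) ^ (1 - ε / 40)) := by gcongr
        _ = η / 2 * k := by
            rw [← Real.rpow_add hk0]
            have : (ε / 40 + (1 - ε / 40)) = (1 : ℝ) := by ring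
            rw [this, Real.rpow_one]
    have g7 : η / 2 * k * ∑ q ∈ ModK k Q R, 1 / (Nat.totient q : ℝ) = η / 2 * k * L := rfl
    rw [g7]
    have g8 : η / 2 * k * L ≤ η * k * L := by
      have : 0 ≤ η * k * L := by positivity
      linarith
    have g9 : CC * (1 + Real.log k) * (k : ℝ) ^ (1 - ε / 40) =
        C1 * (1 + Real.log k) * (k : ℝ) ^ (1 - ε / 40) +
        2 * (C3 * (1 + C4) * (2 * C4) * 2 * (1 + Real.log k) * (k : ℝ) ^ (1 - ε / 40)) +
        (C2 + C3) * CD * (1 + Real.log k) * (k : ℝ) ^ (1 - ε / 40) := by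
      rw [hCC]; ring
    have g10 : η / 2 * k ≤ η * k := by
      have : 0 ≤ η * k := by positivity
      linarith
    linarith
  have hre := (Complex.abs_re_le_norm (∑ q ∈ ModK k Q R, termq lam X Y k N q -
    ((k * I * L : ℝ) : ℂ))).trans htot
  rw [Complex.sub_re, Complex.ofReal_re] at hre
  have := (abs_le.1 hre).1
  calc (k : ℝ) * (I * L - η * (1 + L)) = k * I * L - η * k * (1 + L) := by ring
    _ ≤ _ := by linarith

end H336V
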