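import Pool.Agent.H336R2.V.Defs

/-! Module 12 (Recip): reciprocity. -/

open Finset MeasureTheory

namespace H336V

open H343

theorem Recip.ex_natCast (n : ℕ) : ex n = 1 := by
  rw [ex]
  have : ((2 * Real.pi * (n : ℝ) : ℝ) * Complex.I : ℂ) = (n : ℂ) * (2 * Real.pi * Complex.I) := by
    push_cast; ring
  rw [this]
  exact Complex.exp_nat_mul_two_pi_mul_I n

theorem Recip.ex_zero' : ex 0 = 1 := by simp [ex]

/-- `t` with `k t ≡ -1 (mod q)` -/
theorem recip (k q : ℕ) (hk : 1 ≤ k) (hq : 1 ≤ q) (h : q.Coprime k) : ∃ t : ℕ, t.Coprime q ∧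
    ∀ n a : ℕ, ex ((n : ℝ) * ((a * inv k q : ℕ) : ℝ) / k) =
      ex ((n : ℝ) * a / (q * k)) * ex ((n * a * t : ℕ) / q) := by
  have hqR : (q : ℝ) ≠ 0 := by positivity
  have hkR : (k : ℝ) ≠ 0 := by positivity
  by_cases hk1 : k = 1
  · subst hk1
    refine ⟨q - 1, ?_, ?_⟩
    · have : (q - 1).Coprime (q - 1 + 1) := by simp
      rwa [Nat.sub_add_cancel hq] at this
    · intro n a
      have hinv : inv 1 q = 0 := by
        rw [inv]
        exact (ZMod.val_eq_zero _).2 (Subsingleton.elim _ _)
      rw [hinv, ← KF.ex_add]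
      have e1 : (n : ℝ) * a / (q * (1 : ℕ)) + ((n * a * (q - 1) : ℕ) : ℝ) / q = ((n * a : ℕ) : ℝ) := by
        rw [Nat.cast_mul, Nat.cast_sub hq]
        push_cast
        field_simp
        ring
      rw [e1, Recip.ex_natCast]
      simp [Recip.ex_zero']
  · have hk2 : 2 ≤ k := by omega
    have : NeZero k := ⟨by omega⟩
    have : Fact (1 < k) := ⟨by omega⟩
    have hmod : (q * inv k q) % k = 1 := by
      have h1 : ((q * inv k q : ℕ) : ZMod k) = 1 := by
        rw [inv]
        push_cast
        rw [ZMod.natCast_zmod_val]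
        exact ZMod.coe_mul_inv_eq_one q h
      have h2 : ((q * inv k q : ℕ) : ZMod k) = ((1 : ℕ) : ZMod k) := by rw [h1]; simp
      rw [ZMod.natCast_eq_natCast_iff'] at h2
      rwa [Nat.one_mod_eq_one.2 (by omega)] at h2
    set t : ℕ := (q * inv k q) / k with ht
    have hdiv : q * inv k q = k * t + 1 := by
      have := Nat.div_add_mod (q * inv k q) k
      rw [hmod] at this
      exact this.symm
    refine ⟨t, ?_, ?_⟩
    · rw [Nat.Coprime]
      have h3 : Nat.gcd t q ∣ 1 := by
        have h4 : Nat.gcd t q ∣ k * t + 1 := by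
          rw [← hdiv]
          exact Dvd.dvd.mul_right (Nat.gcd_dvd_right t q) _
        exact (Nat.dvd_add_right (Dvd.dvd.mul_left (Nat.gcd_dvd_left t q) k)).1 h4
      exact Nat.dvd_one.1 h3
    · intro n a
      rw [← KF.ex_add]
      congr 1
      have h5 : (q : ℝ) * (inv k q : ℝ) = k * t + 1 := by exact_mod_cast hdiv
      push_cast
      field_simp
      have : (a : ℝ) * inv k q * q = a * (k * t + 1) := by
        rw [← h5]; ring
      linear_combination (n : ℝ) * this

end H336V
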