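import Pool.Agent.H336R2.V.Defs
import Pool.Agent.Helper923.PNT

open Finset MeasureTheory

namespace H336V

open H343

namespace SepSharp

/-- the tent function -/
noncomputable def tent (L v : ℝ) : ℝ := max (L - |v|) 0

lemma tent_continuous (L : ℝ) : Continuous (tent L) := by
  unfold tent
  fun_prop

lemma tent_zero {L v : ℝ} (h : L ≤ |v|) : tent L v = 0 := by
  unfold tent
  exact max_eq_right (by linarith)

lemma tent_compact (L : ℝ) : HasCompactSupport (tent L) := by
  apply HasCompactSupport.intro (isCompact_Icc : IsCompact (Set.Icc (-L) L))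
  intro v hv
  apply tent_zero
  by_contra h
  rw [not_le, abs_lt] at h
  exact hv ⟨h.1.le, h.2.le⟩

/-- the Fourier transform of the tent function -/
noncomputable def th (L ξ : ℝ) : ℝ := L ^ 2 * Real.sinc (Real.pi * L * ξ) ^ 2

lemma K_eq_sinc (w : ℝ) : Pool.Agent.Helper923.PNT.K w = Real.sinc (w / 2) ^ 2 := by
  unfold Pool.Agent.Helper923.PNT.K
  split_ifs with h
  · subst h; simp
  · rw [Real.sinc_of_ne_zero (by simpa using h), div_pow]
    have h1 : Real.cos w = 1 - 2 * Real.sin (w / 2) ^ 2 := by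
      have := Real.cos_two_mul (w / 2)
      rw [mul_div_cancel₀ w two_ne_zero] at this
      rw [this, Real.cos_sq']; ring
    rw [h1]
    field_simp
    ring

lemma fourier_tent {L : ℝ} (hL : 0 ≤ L) (ξ : ℝ) :
    ∫ v : ℝ, Complex.exp (((-2 * Real.pi * v * ξ : ℝ) : ℂ) * Complex.I) * (tent L v : ℂ) =
      (th L ξ : ℂ) := by
  rcases hL.eq_or_lt with rfl | hL
  · have : ∀ v : ℝ, tent 0 v = 0 := fun v => tent_zero (abs_nonneg v)
    simp [this, th]
  · have h1 : ∫ v : ℝ, Complex.exp (((-2 * Real.pi * v * ξ : ℝ) : ℂ) * Complex.I) *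
        (tent L v : ℂ) = ∫ v in (-L)..L,
        Complex.exp (((-2 * Real.pi * v * ξ : ℝ) : ℂ) * Complex.I) * (tent L v : ℂ) := by
      rw [intervalIntegral.integral_of_le (by linarith), ← integral_Icc_eq_integral_Ioc]
      symm
      apply setIntegral_eq_integral_of_forall_compl_eq_zero
      intro v hv
      rw [tent_zero]
      · simp
      · by_contra h
        rw [not_le, abs_lt] at h
        exact hv ⟨h.1.le, h.2.le⟩
    rw [h1]
    have h2 := Pool.Agent.Helper923.PNT.fejer_complex L (-2 * Real.pi * ξ) hL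
    have h3 : ∫ v in (-L)..L,
        Complex.exp (((-2 * Real.pi * v * ξ : ℝ) : ℂ) * Complex.I) * (tent L v : ℂ) =
        ∫ y in (-L)..L, (L : ℂ) * (((1 - |y| / L : ℝ) : ℂ) *
          Complex.exp (Complex.I * (((-2 * Real.pi * ξ) * y : ℝ) : ℂ))) := by
      apply intervalIntegral.integral_congr
      intro v hv
      rw [Set.uIcc_of_le (by linarith)] at hv
      have hv' : |v| ≤ L := abs_le.2 hv
      simp only
      have e1 : tent L v = L * (1 - |v| / L) := by
        unfold tent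
        rw [max_eq_left (by linarith)]
        field_simp
      rw [e1]
      push_cast
      have e2 : (-2 * (Real.pi:ℂ) * v * ξ) * Complex.I = Complex.I * (-2 * (Real.pi:ℂ) * ξ * v) := by
        ring
      rw [e2]
      ring
    rw [h3, intervalIntegral.integral_const_mul, h2, K_eq_sinc]
    have e3 : L * (-2 * Real.pi * ξ) / 2 = -(Real.pi * L * ξ) := by ring
    rw [e3, Real.sinc_neg, th]
    push_cast
    ring

lemma th_continuous (L : ℝ) : Continuous (th L) := by
  unfold th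
  have := Real.continuous_sinc
  fun_prop

lemma th_neg (L ξ : ℝ) : th L (-ξ) = th L ξ := by
  unfold th
  rw [mul_neg, Real.sinc_neg]

lemma th_ne {L ξ : ℝ} (hξ : ξ ≠ 0) : th L ξ = Real.sin (Real.pi * L * ξ) ^ 2 / (Real.pi * ξ) ^ 2 := by
  have hpi := Real.pi_pos
  unfold th
  by_cases hL : L = 0
  · subst hL; simp
  · rw [Real.sinc_of_ne_zero (by positivity)]
    field_simp

/-- the kernel -/
noncomputable def gg (a b ξ : ℝ) : ℝ := (th b ξ - th a ξ) / (b - a)

lemma gg_continuous (a b : ℝ) : Continuous (gg a b) := by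
  unfold gg
  exact ((th_continuous b).sub (th_continuous a)).div_const _

lemma gg_neg (a b ξ : ℝ) : gg a b (-ξ) = gg a b ξ := by
  unfold gg
  rw [th_neg, th_neg]

lemma gg_abs_arg (a b ξ : ℝ) : gg a b |ξ| = gg a b ξ := by
  rcases abs_choice ξ with h | h
  · rw [h]
  · rw [h, gg_neg]

lemma gg_eq {a b ξ : ℝ} (hab : a < b) (hξ : ξ ≠ 0) : gg a b ξ =
    Real.sin (Real.pi * (b - a) * ξ) * Real.sin (Real.pi * (b + a) * ξ) /
      ((Real.pi * ξ) ^ 2 * (b - a)) := by
  unfold gg
  rw [th_ne hξ, th_ne hξ]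
  have h1 : Real.sin (Real.pi * (b - a) * ξ) * Real.sin (Real.pi * (b + a) * ξ) =
      Real.sin (Real.pi * b * ξ) ^ 2 - Real.sin (Real.pi * a * ξ) ^ 2 := by
    have e1 : Real.pi * (b - a) * ξ = Real.pi * b * ξ - Real.pi * a * ξ := by ring
    have e2 : Real.pi * (b + a) * ξ = Real.pi * b * ξ + Real.pi * a * ξ := by ring
    rw [e1, e2, Real.sin_sub, Real.sin_add]
    have h3 := Real.sin_sq_add_cos_sq (Real.pi * b * ξ)
    have h4 := Real.sin_sq_add_cos_sq (Real.pi * a * ξ)
    set s := Real.sin (Real.pi * b * ξ)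
    set c := Real.cos (Real.pi * b * ξ)
    set s' := Real.sin (Real.pi * a * ξ)
    set c' := Real.cos (Real.pi * a * ξ)
    have e : (s * c' - c * s') * (s * c' + c * s') = s ^ 2 * c' ^ 2 - c ^ 2 * s' ^ 2 := by ring
    rw [e]
    have e5 : c' ^ 2 = 1 - s' ^ 2 := by linarith
    have e6 : c ^ 2 = 1 - s ^ 2 := by linarith
    rw [e5, e6]; ring
  rw [h1]
  have : b - a ≠ 0 := by linarith
  have hpi := Real.pi_pos
  field_simp

lemma gg_bound1 {a b ξ : ℝ} (ha : 0 ≤ a) (hab : a < b) (hξ : 0 < ξ) : |gg a b ξ| ≤ a + b := by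
  have hpi := Real.pi_pos
  have hd : 0 < b - a := by linarith
  have hs : 0 < b + a := by linarith
  rw [gg_eq hab hξ.ne', abs_div, abs_mul, abs_of_pos (show 0 < (Real.pi * ξ) ^ 2 * (b - a) by positivity),
    div_le_iff₀ (by positivity)]
  have h1 : |Real.sin (Real.pi * (b - a) * ξ)| ≤ Real.pi * (b - a) * ξ := by
    refine (Real.abs_sin_le_abs).trans (le_of_eq (abs_of_pos (by positivity)))
  have h2 : |Real.sin (Real.pi * (b + a) * ξ)| ≤ Real.pi * (b + a) * ξ := by
    refine (Real.abs_sin_le_abs).trans (le_of_eq (abs_of_pos (by positivity)))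
  calc |Real.sin (Real.pi * (b - a) * ξ)| * |Real.sin (Real.pi * (b + a) * ξ)|
      ≤ (Real.pi * (b - a) * ξ) * (Real.pi * (b + a) * ξ) := by gcongr
    _ = (a + b) * ((Real.pi * ξ) ^ 2 * (b - a)) := by ring

lemma gg_bound2 {a b ξ : ℝ} (ha : 0 ≤ a) (hab : a < b) (hξ : 0 < ξ) : |gg a b ξ| ≤ ξ⁻¹ := by
  have hpi := Real.pi_pos
  have hpi3 := Real.pi_gt_three
  have hd : 0 < b - a := by linarith
  rw [gg_eq hab hξ.ne', abs_div, abs_mul, abs_of_pos (show 0 < (Real.pi * ξ) ^ 2 * (b - a) by positivity),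
    div_le_iff₀ (by positivity)]
  have h1 : |Real.sin (Real.pi * (b - a) * ξ)| ≤ Real.pi * (b - a) * ξ := by
    refine (Real.abs_sin_le_abs).trans (le_of_eq (abs_of_pos (by positivity)))
  have h2 : |Real.sin (Real.pi * (b + a) * ξ)| ≤ 1 := Real.abs_sin_le_one _
  calc |Real.sin (Real.pi * (b - a) * ξ)| * |Real.sin (Real.pi * (b + a) * ξ)|
      ≤ (Real.pi * (b - a) * ξ) * 1 := by gcongr
    _ ≤ (Real.pi * (b - a) * ξ) * Real.pi := by gcongr; linarith
    _ = ξ⁻¹ * ((Real.pi * ξ) ^ 2 * (b - a)) := by field_simp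

lemma gg_bound3 {a b ξ : ℝ} (hab : a < b) (hξ : 0 < ξ) :
    |gg a b ξ| ≤ (b - a)⁻¹ * ξ ^ (-2 : ℝ) := by
  have hpi := Real.pi_pos
  have hpi3 := Real.pi_gt_three
  have hd : 0 < b - a := by linarith
  rw [gg_eq hab hξ.ne', abs_div, abs_mul, abs_of_pos (show 0 < (Real.pi * ξ) ^ 2 * (b - a) by positivity),
    div_le_iff₀ (by positivity)]
  have h1 : |Real.sin (Real.pi * (b - a) * ξ)| ≤ 1 := Real.abs_sin_le_one _
  have h2 : |Real.sin (Real.pi * (b + a) * ξ)| ≤ 1 := Real.abs_sin_le_one _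
  have e : ξ ^ (-2 : ℝ) = (ξ ^ 2)⁻¹ := by
    rw [Real.rpow_neg hξ.le]; norm_num
  rw [e]
  calc |Real.sin (Real.pi * (b - a) * ξ)| * |Real.sin (Real.pi * (b + a) * ξ)|
      ≤ 1 * 1 := by gcongr
    _ ≤ Real.pi ^ 2 := by nlinarith
    _ = (b - a)⁻¹ * (ξ ^ 2)⁻¹ * ((Real.pi * ξ) ^ 2 * (b - a)) := by field_simp

lemma gg_half {a b : ℝ} (ha : 0 ≤ a) (hab : a < b) (hd1 : b - a ≤ 1) :
    IntegrableOn (fun ξ => |gg a b ξ|) (Set.Ioi 0) ∧
      ∫ ξ in Set.Ioi 0, |gg a b ξ| ≤ (a + b) + Real.log (b - a)⁻¹ + 1 := by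
  have hd : 0 < b - a := by linarith
  set N0 : ℝ := (b - a)⁻¹ with hN0
  have hN1 : 1 ≤ N0 := (one_le_inv₀ hd).2 hd1
  have hN00 : 0 < N0 := by positivity
  have hc : Continuous (fun ξ => |gg a b ξ|) := (gg_continuous a b).abs
  have i1 : IntegrableOn (fun ξ => |gg a b ξ|) (Set.Ioc 0 1) :=
    (hc.integrableOn_Icc (a := (0:ℝ)) (b := 1)).mono_set Set.Ioc_subset_Icc_self
  have i2 : IntegrableOn (fun ξ => |gg a b ξ|) (Set.Ioc 1 N0) :=
    (hc.integrableOn_Icc (a := (1:ℝ)) (b := N0)).mono_set Set.Ioc_subset_Icc_self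
  have i3' : IntegrableOn (fun ξ : ℝ => (b - a)⁻¹ * ξ ^ (-2 : ℝ)) (Set.Ioi N0) :=
    (integrableOn_Ioi_rpow_of_lt (by norm_num) hN00).const_mul _
  have i3 : IntegrableOn (fun ξ => |gg a b ξ|) (Set.Ioi N0) := by
    refine Integrable.mono' i3' hc.aestronglyMeasurable ?_
    rw [ae_restrict_iff' measurableSet_Ioi]
    refine Filter.Eventually.of_forall fun ξ hξ => ?_
    rw [Real.norm_eq_abs, abs_abs]
    exact gg_bound3 hab (hN00.trans hξ)
  have i23 : IntegrableOn (fun ξ => |gg a b ξ|) (Set.Ioi 1) := by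
    rw [← Set.Ioc_union_Ioi_eq_Ioi hN1]
    exact i2.union i3
  have i123 : IntegrableOn (fun ξ => |gg a b ξ|) (Set.Ioi 0) := by
    rw [← Set.Ioc_union_Ioi_eq_Ioi (zero_le_one (α := ℝ))]
    exact i1.union i23
  refine ⟨i123, ?_⟩
  have e1 : ∫ ξ in Set.Ioi 0, |gg a b ξ| = (∫ ξ in Set.Ioc 0 1, |gg a b ξ|) +
      ∫ ξ in Set.Ioi 1, |gg a b ξ| := by
    rw [← Set.Ioc_union_Ioi_eq_Ioi (zero_le_one (α := ℝ))]
    exact setIntegral_union (Set.Ioc_disjoint_Ioi le_rfl) measurableSet_Ioi i1 i23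
  have e2 : ∫ ξ in Set.Ioi 1, |gg a b ξ| = (∫ ξ in Set.Ioc 1 N0, |gg a b ξ|) +
      ∫ ξ in Set.Ioi N0, |gg a b ξ| := by
    rw [← Set.Ioc_union_Ioi_eq_Ioi hN1]
    exact setIntegral_union (Set.Ioc_disjoint_Ioi le_rfl) measurableSet_Ioi i2 i3
  have b1 : ∫ ξ in Set.Ioc 0 1, |gg a b ξ| ≤ a + b := by
    calc ∫ ξ in Set.Ioc 0 1, |gg a b ξ| ≤ ∫ ξ in Set.Ioc (0:ℝ) 1, (a + b) := by
          apply setIntegral_mono_on i1 (by simp) measurableSet_Ioc
          intro ξ hξ
          exact gg_bound1 ha hab hξ.1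
      _ = a + b := by simp
  have b2 : ∫ ξ in Set.Ioc 1 N0, |gg a b ξ| ≤ Real.log N0 := by
    have h0 : IntervalIntegrable (fun ξ : ℝ => ξ⁻¹) volume 1 N0 := by
      apply ContinuousOn.intervalIntegrable_of_Icc hN1
      apply ContinuousOn.inv₀ continuousOn_id
      intro x hx
      have : (1:ℝ) ≤ x := hx.1
      simp only [id]
      linarith
    calc ∫ ξ in Set.Ioc 1 N0, |gg a b ξ| ≤ ∫ ξ in Set.Ioc 1 N0, ξ⁻¹ := by
          apply setIntegral_mono_on i2 _ measurableSet_Ioc
          · intro ξ hξ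
            exact gg_bound2 ha hab (lt_trans one_pos hξ.1)
          · exact (intervalIntegrable_iff_integrableOn_Ioc_of_le hN1).1 h0
      _ = ∫ ξ in (1:ℝ)..N0, ξ⁻¹ := (intervalIntegral.integral_of_le hN1).symm
      _ = Real.log N0 := by
          rw [integral_inv_of_pos one_pos hN00, div_one]
  have b3 : ∫ ξ in Set.Ioi N0, |gg a b ξ| ≤ 1 := by
    calc ∫ ξ in Set.Ioi N0, |gg a b ξ| ≤ ∫ ξ in Set.Ioi N0, (b - a)⁻¹ * ξ ^ (-2 : ℝ) := by
          apply setIntegral_mono_on i3 i3' measurableSet_Ioi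
          intro ξ hξ
          exact gg_bound3 hab (hN00.trans hξ)
      _ = 1 := by
          rw [integral_const_mul, integral_Ioi_rpow_of_lt (by norm_num) hN00]
          have : N0 ^ (-2 + 1 : ℝ) = N0⁻¹ := by
            rw [show (-2 + 1 : ℝ) = -1 by norm_num, Real.rpow_neg_one]
          rw [this, hN0]
          field_simp
          norm_num
  rw [e1, e2]
  linarith

lemma integrable_of_even {f : ℝ → ℝ} (hf : ∀ x, f |x| = f x) (h : IntegrableOn f (Set.Ioi 0)) :
    Integrable f := by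
  have hneg : IntegrableOn f (Set.Iic 0) := by
    rw [← Measure.map_neg_eq_self (volume : Measure ℝ)]
    let m : MeasurableEmbedding fun x : ℝ => -x := (Homeomorph.neg ℝ).measurableEmbedding
    rw [m.integrableOn_map_iff]
    have e : (f ∘ fun x : ℝ => -x) = f := by
      ext x
      simp only [Function.comp]
      rw [← hf (-x), abs_neg, hf]
    rw [e]
    simp_rw [Set.neg_preimage, Set.neg_Iic, neg_zero]
    exact Iff.mpr integrableOn_Ici_iff_integrableOn_Ioi h
  rw [← integrableOn_univ, ← Set.Iic_union_Ioi]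
  exact hneg.union h

lemma gg_int {a b : ℝ} (ha : 0 ≤ a) (hab : a < b) (hd1 : b - a ≤ 1) :
    Integrable (fun ξ => |gg a b ξ|) ∧
      ∫ ξ, |gg a b ξ| ≤ 2 * ((a + b) + Real.log (b - a)⁻¹ + 1) := by
  obtain ⟨h1, h2⟩ := gg_half ha hab hd1
  have he : ∀ x, (fun ξ => |gg a b ξ|) |x| = (fun ξ => |gg a b ξ|) x := fun x => by
    simp only [gg_abs_arg]
  refine ⟨integrable_of_even he h1, ?_⟩
  have h3 : ∫ ξ, |gg a b ξ| = ∫ ξ, (fun ξ => |gg a b ξ|) |ξ| := by
    congr 1; ext ξ; exact (he ξ).symm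
  have h4 := integral_comp_abs (f := fun ξ => |gg a b ξ|)
  rw [h3, h4]
  linarith

/-- the trapezoid -/
noncomputable def TT (a b v : ℝ) : ℝ := (tent b v - tent a v) / (b - a)

open FourierTransform in
lemma inversion {a b : ℝ} (ha : 0 ≤ a) (hab : a < b) (hd1 : b - a ≤ 1) (v : ℝ) :
    ∫ ξ, (gg a b ξ : ℂ) * ex (ξ * v) = (TT a b v : ℂ) := by
  have hb : 0 ≤ b := by linarith
  have hTi : ∀ L : ℝ, Integrable (fun v => (tent L v : ℂ)) := fun L =>
    ((tent_continuous L).integrable_of_hasCompactSupport (tent_compact L)).ofReal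
  have hTc : Continuous (fun v => (TT a b v : ℂ)) := by
    unfold TT
    exact Complex.continuous_ofReal.comp
      (((tent_continuous b).sub (tent_continuous a)).div_const _)
  have hTint : Integrable (fun v => (TT a b v : ℂ)) := by
    have : (fun v => (TT a b v : ℂ)) = fun v => ((tent b v : ℂ) - (tent a v : ℂ)) / ((b - a : ℝ) : ℂ) := by
      ext v; unfold TT; push_cast; ring
    rw [this]
    exact ((hTi b).sub (hTi a)).div_const _
  have hexp : ∀ L ξ : ℝ, Integrable (fun v : ℝ =>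
      Complex.exp (((-2 * Real.pi * v * ξ : ℝ) : ℂ) * Complex.I) * (tent L v : ℂ)) := by
    intro L ξ
    apply (hTi L).bdd_mul (c := 1)
    · apply Continuous.aestronglyMeasurable; fun_prop
    · refine Filter.Eventually.of_forall fun v => ?_
      rw [Complex.norm_exp_ofReal_mul_I]
  have hF : 𝓕 (fun v => (TT a b v : ℂ)) = fun ξ => (gg a b ξ : ℂ) := by
    ext ξ
    rw [Real.fourier_eq']
    have e1 : ∀ v : ℝ, Complex.exp ((((-2 * Real.pi * inner ℝ v ξ : ℝ)) : ℂ) * Complex.I) •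
        ((TT a b v : ℝ) : ℂ) =
        (Complex.exp (((-2 * Real.pi * v * ξ : ℝ) : ℂ) * Complex.I) * (tent b v : ℂ) -
        Complex.exp (((-2 * Real.pi * v * ξ : ℝ) : ℂ) * Complex.I) * (tent a v : ℂ)) /
          ((b - a : ℝ) : ℂ) := by
      intro v
      have e2 : (-2 * Real.pi * inner ℝ v ξ : ℝ) = -2 * Real.pi * v * ξ := by
        simp only [RCLike.inner_apply, conj_trivial]
        ring
      rw [e2, smul_eq_mul]
      unfold TT
      push_cast
      ring
    simp_rw [e1]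
    rw [integral_div, integral_sub (hexp b ξ) (hexp a ξ), fourier_tent hb, fourier_tent ha]
    unfold gg
    push_cast
    ring
  have hgi : Integrable (fun ξ => (gg a b ξ : ℂ)) := by
    have h1 := (gg_int ha hab hd1).1
    have h2 : Integrable (gg a b) := by
      refine h1.mono' (gg_continuous a b).aestronglyMeasurable ?_
      exact Filter.Eventually.of_forall fun ξ => le_rfl
    exact h2.ofReal
  have h := congrFun (hTc.fourierInv_fourier_eq hTint (by rw [hF]; exact hgi)) v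
  rw [hF, Real.fourierInv_eq'] at h
  rw [← h]
  apply integral_congr_ae
  refine Filter.Eventually.of_forall fun ξ => ?_
  simp only [smul_eq_mul, ex]
  rw [mul_comm]
  congr 2
  simp only [RCLike.inner_apply, conj_trivial]
  push_cast
  ring

end SepSharp

open SepSharp in
theorem sep_sharp : ∃ C : ℝ, 0 < C ∧ ∀ y : ℕ, 1 ≤ y → ∃ G : ℝ → ℂ, Continuous G ∧ Integrable G ∧
    (∫ ξ, ‖G ξ‖) ≤ C * (1 + Real.log y) ∧
    ∀ n : ℕ, 1 ≤ n → (∫ ξ, G ξ * ex (ξ * Real.log n)) = if n ≤ y then 1 else 0 := by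
  refine ⟨10, by norm_num, fun y hy => ?_⟩
  set a : ℝ := Real.log y with ha
  set b : ℝ := Real.log ((y + 1 : ℕ) : ℝ) with hb
  have hy0 : (0:ℝ) < y := by exact_mod_cast hy
  have hy1 : (1:ℝ) ≤ y := by exact_mod_cast hy
  have ha0 : 0 ≤ a := Real.log_nonneg hy1
  have hab : a < b := by
    apply Real.log_lt_log hy0
    push_cast; linarith
  have hba : b - a = Real.log (1 + 1 / y) := by
    rw [ha, hb, ← Real.log_div (by positivity) (by positivity)]
    congr 1; push_cast; field_simp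
  have hd1 : b - a ≤ 1 := by
    rw [hba]
    have h1 := Real.log_le_sub_one_of_pos (show (0:ℝ) < 1 + 1 / y by positivity)
    have h2 : 1 / (y:ℝ) ≤ 1 := by rw [div_le_one hy0]; exact hy1
    linarith
  have hd2 : 1 / ((y:ℝ) + 1) ≤ b - a := by
    rw [hba]
    have h1 := Real.one_sub_inv_le_log_of_pos (show (0:ℝ) < 1 + 1 / y by positivity)
    refine le_trans (le_of_eq ?_) h1
    field_simp
    ring
  have hd0 : 0 < b - a := by linarith
  have hlogN : Real.log (b - a)⁻¹ ≤ 1 + a := by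
    have h1 : (b - a)⁻¹ ≤ 2 * y := by
      rw [inv_le_comm₀ hd0 (by positivity)]
      refine le_trans ?_ hd2
      rw [← one_div]
      apply one_div_le_one_div_of_le (by positivity)
      linarith
    calc Real.log (b - a)⁻¹ ≤ Real.log (2 * y) := Real.log_le_log (by positivity) h1
      _ = Real.log 2 + a := Real.log_mul (by norm_num) hy0.ne'
      _ ≤ 1 + a := by
          have := Real.log_two_lt_d9
          linarith
  have hbl : b ≤ 1 + a := by linarith
  obtain ⟨hi, hle⟩ := gg_int ha0 hab hd1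
  refine ⟨fun ξ => (gg a b ξ : ℂ), Complex.continuous_ofReal.comp (gg_continuous a b), ?_, ?_, ?_⟩
  · have h2 : Integrable (gg a b) := by
      refine hi.mono' (gg_continuous a b).aestronglyMeasurable ?_
      exact Filter.Eventually.of_forall fun ξ => le_rfl
    exact h2.ofReal
  · have e : ∀ ξ, ‖(gg a b ξ : ℂ)‖ = |gg a b ξ| := fun ξ => by
      rw [Complex.norm_real, Real.norm_eq_abs]
    simp only [e]
    refine hle.trans ?_
    linarith
  · intro n hn
    rw [inversion ha0 hab hd1]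
    have hn0 : (0:ℝ) < n := by exact_mod_cast hn
    have hn1 : (1:ℝ) ≤ n := by exact_mod_cast hn
    have hln : 0 ≤ Real.log n := Real.log_nonneg hn1
    split_ifs with h
    · have h1 : Real.log n ≤ a := Real.log_le_log hn0 (by exact_mod_cast h)
      have : TT a b (Real.log n) = 1 := by
        unfold TT tent
        rw [abs_of_nonneg hln, max_eq_left (by linarith), max_eq_left (by linarith)]
        field_simp
        ring
      rw [this]; simp
    · have h1 : b ≤ Real.log n := by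
        apply Real.log_le_log (by positivity)
        exact_mod_cast (by omega : y + 1 ≤ n)
      have : TT a b (Real.log n) = 0 := by
        unfold TT
        rw [tent_zero (by rw [abs_of_nonneg hln]; exact h1),
          tent_zero (by rw [abs_of_nonneg hln]; linarith)]
        simp
      rw [this]; simp

end H336V
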