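import Pool.Agent.H336R2.V.Defs
import Pool.Agent.H336R2.V.SepSharp

open Finset MeasureTheory

namespace H336V

open H343 H343.KF

namespace TTsL

/-- separation of a bilinear form, abstract version -/
lemma sep_boundC {G : ℝ → ℂ} (hGi : Integrable G) {W : ℕ → ℕ → ℂ}
    (S T : Finset ℕ) (hS : ∀ k ∈ S, 1 ≤ k) (hT : ∀ k ∈ T, 1 ≤ k)
    (hf : ∀ k ∈ S, ∀ l ∈ T, W k l = ∫ ξ, G ξ * ex (ξ * Real.log ((k * l : ℕ) : ℝ)))
    (α β : ℕ → ℂ) :
    ‖∑ k ∈ S, ∑ l ∈ T, α k * β l * W k l‖ ≤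
      ∫ η, ‖G η‖ * (‖∑ k ∈ S, α k * ex (η * Real.log k)‖ *
        ‖∑ l ∈ T, β l * ex (η * Real.log l)‖) := by
  have hint : ∀ v : ℝ, Integrable (fun ξ => G ξ * ex (ξ * v)) := by
    intro v
    refine Integrable.mono' hGi.norm (hGi.aestronglyMeasurable.mul
      (ex_cont.comp (by fun_prop : Continuous fun ξ : ℝ => ξ * v)).aestronglyMeasurable)
      (Filter.Eventually.of_forall fun ξ => ?_)
    rw [norm_mul, norm_ex, mul_one]
  have e1 : ∑ k ∈ S, ∑ l ∈ T, α k * β l * W k l =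
      ∫ η, G η * ((∑ k ∈ S, α k * ex (η * Real.log k)) *
        (∑ l ∈ T, β l * ex (η * Real.log l))) := by
    have e2 : ∀ k ∈ S, ∀ l ∈ T, α k * β l * W k l =
        ∫ η, α k * β l * (G η * ex (η * Real.log ((k * l : ℕ) : ℝ))) := by
      intro k hk l hl
      rw [hf k hk l hl, integral_const_mul]
    rw [sum_congr rfl fun k hk => sum_congr rfl fun l hl => e2 k hk l hl]
    rw [sum_congr rfl fun k hk => (integral_finsetSum T
      (fun l _ => (hint (Real.log ((k * l : ℕ) : ℝ))).const_mul (α k * β l))).symm]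
    rw [← integral_finsetSum S (fun k _ => integrable_finsetSum T
      (fun l _ => (hint (Real.log ((k * l : ℕ) : ℝ))).const_mul (α k * β l)))]
    apply integral_congr_ae
    refine Filter.Eventually.of_forall fun η => ?_
    simp only
    rw [sum_mul_sum, mul_sum]
    apply sum_congr rfl
    intro k hk
    rw [mul_sum]
    apply sum_congr rfl
    intro l hl
    have hk0 : (0 : ℝ) < k := by exact_mod_cast hS k hk
    have hl0 : (0 : ℝ) < l := by exact_mod_cast hT l hl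
    have : η * Real.log ((k * l : ℕ) : ℝ) = η * Real.log k + η * Real.log l := by
      push_cast
      rw [Real.log_mul hk0.ne' hl0.ne']
      ring
    rw [this, ex_add]
    ring
  rw [e1]
  refine (norm_integral_le_integral_norm _).trans (le_of_eq ?_)
  apply integral_congr_ae
  refine Filter.Eventually.of_forall fun η => ?_
  simp only
  rw [norm_mul, norm_mul]

/-- numerators: cut down the range -/
lemma KKcm_cut {B M : ℝ} {l : ℝ → ℂ} (hl : CTest B M l) (Y : ℝ) (hY : 0 < Y) (N m q A : ℕ)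
    (hq : 1 ≤ q) (hm : 1 ≤ m) (hA : Real.exp B * (q * m) * Y < A + 1) (hAN : A ≤ N)
    (χ : DirichletCharacter ℂ q) :
    KKcm l Y N m χ = ∑ a ∈ (Icc 1 A).filter (fun a => a.Coprime m), χ (a : ZMod q) *
      l (Real.log (a / ((q * m : ℕ) * Y))) := by
  unfold KKcm
  symm
  apply sum_subset
  · intro a ha
    rw [mem_filter, mem_Icc] at ha ⊢
    exact ⟨⟨ha.1.1, ha.1.2.trans hAN⟩, ha.2⟩
  · intro a ha ha'
    rw [mem_filter, mem_Icc] at ha ha'
    have h1 : A < a := by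
      by_contra h
      exact ha' ⟨⟨ha.1.1, by omega⟩, ha.2⟩
    have h2 : (A : ℝ) + 1 ≤ a := by exact_mod_cast h1
    have hqm : (0 : ℝ) < (q * m : ℕ) * Y := by
      have : 0 < q * m := Nat.mul_pos hq hm
      positivity
    have h3 : Real.exp B ≤ a / ((q * m : ℕ) * Y) := by
      rw [le_div_iff₀ hqm]
      push_cast
      linarith
    have h4 : B ≤ Real.log (a / ((q * m : ℕ) * Y)) := by
      rw [← Real.log_exp B]
      exact Real.log_le_log (Real.exp_pos B) h3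
    rw [hl.supp _ (h4.trans (le_abs_self _))]
    simp

lemma KKcm_sep {F : ℝ → ℂ} (hFi : Integrable F) {B M : ℝ} {l : ℝ → ℂ}
    (hf : ∀ v : ℝ, l v = ∫ ξ, F ξ * ex (ξ * v))
    (hl : CTest B M l) (Y : ℝ) (hY : 0 < Y) (N m q A : ℕ) (hq : 1 ≤ q)
    (hm : 1 ≤ m) (hA : Real.exp B * (q * m) * Y < A + 1) (hAN : A ≤ N)
    (χ : DirichletCharacter ℂ q) :
    ‖KKcm l Y N m χ‖ ≤ ∫ ξ, ‖F ξ‖ * ‖PP (fun _ => 1) m A ξ χ‖ := by
  have hqm : (0 : ℝ) < (q * m : ℕ) * Y := by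
    have : 0 < q * m := Nat.mul_pos hq hm
    positivity
  rw [KKcm_cut hl Y hY N m q A hq hm hA hAN χ]
  have hint : ∀ v : ℝ, Integrable (fun ξ => F ξ * ex (ξ * v)) := by
    intro v
    refine Integrable.mono' hFi.norm (hFi.aestronglyMeasurable.mul
      (ex_cont.comp (by fun_prop : Continuous fun ξ : ℝ => ξ * v)).aestronglyMeasurable)
      (Filter.Eventually.of_forall fun ξ => ?_)
    rw [norm_mul, norm_ex, mul_one]
  have e1 : ∑ a ∈ (Icc 1 A).filter (fun a => a.Coprime m), χ (a : ZMod q) *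
      l (Real.log (a / ((q * m : ℕ) * Y))) =
      ∫ ξ, F ξ * ex (-(ξ * Real.log ((q * m : ℕ) * Y))) * PP (fun _ => 1) m A ξ χ := by
    have e2 : ∀ a ∈ (Icc 1 A).filter (fun a => a.Coprime m), χ (a : ZMod q) *
        l (Real.log (a / ((q * m : ℕ) * Y))) =
        ∫ ξ, χ (a : ZMod q) * (F ξ * ex (ξ * Real.log (a / ((q * m : ℕ) * Y)))) := by
      intro a _
      rw [hf, integral_const_mul]
    rw [sum_congr rfl e2, ← integral_finsetSum _ (fun a _ => (hint _).const_mul _)]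
    apply integral_congr_ae
    refine Filter.Eventually.of_forall fun ξ => ?_
    simp only
    unfold PP
    rw [mul_sum, sum_filter]
    apply sum_congr rfl
    intro a ha
    unfold tw
    split_ifs
    · have ha0 : (0 : ℝ) < a := by exact_mod_cast (mem_Icc.1 ha).1
      have : ξ * Real.log (a / ((q * m : ℕ) * Y)) =
          ξ * Real.log a + -(ξ * Real.log ((q * m : ℕ) * Y)) := by
        rw [Real.log_div ha0.ne' hqm.ne']; ring
      rw [this, ex_add]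
      ring
    · simp
  rw [e1]
  refine (norm_integral_le_integral_norm _).trans (le_of_eq ?_)
  apply integral_congr_ae
  refine Filter.Eventually.of_forall fun ξ => ?_
  simp only
  rw [norm_mul, norm_mul, norm_ex, mul_one]

/-- dyadic decomposition of a sharp sum over `n = k l ≤ y` -/
lemma dyadic_sharp (y J : ℕ) (hJ : y < 2 ^ J) (g : ℕ → ℕ → ℂ) :
    ∑ n ∈ Icc 1 y, ∑ i ∈ n.divisorsAntidiagonal, g i.1 i.2 =
      ∑ j ∈ range J, ∑ k ∈ Ico (2 ^ j) (2 ^ (j + 1)), ∑ l ∈ Icc 1 (y / 2 ^ j),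
        if k * l ≤ y then g k l else 0 := by
  have h := dyadic_split ((y : ℝ) + 1) (y + 1) J (by push_cast; exact le_rfl)
    (by exact_mod_cast hJ) (fun k l => if k * l ≤ y then g k l else 0) (by
      intro k l hkl
      rw [if_neg]
      intro h
      have h1 : ((k * l : ℕ) : ℝ) ≤ y := by exact_mod_cast h
      linarith)
  have e0 : ∑ n ∈ Icc 1 y, ∑ i ∈ n.divisorsAntidiagonal, g i.1 i.2 =
      ∑ n ∈ Icc 1 (y + 1), ∑ i ∈ n.divisorsAntidiagonal,
        (if i.1 * i.2 ≤ y then g i.1 i.2 else 0) := by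
    have e00 : ∑ n ∈ Icc 1 y, ∑ i ∈ n.divisorsAntidiagonal,
        (if i.1 * i.2 ≤ y then g i.1 i.2 else 0) =
        ∑ n ∈ Icc 1 (y + 1), ∑ i ∈ n.divisorsAntidiagonal,
        (if i.1 * i.2 ≤ y then g i.1 i.2 else 0) := by
      apply sum_subset (Icc_subset_Icc le_rfl (by omega))
      intro n hn hn'
      apply sum_eq_zero
      intro i hi
      rw [if_neg]
      rw [(Nat.mem_divisorsAntidiagonal.1 hi).1]
      rw [mem_Icc] at hn hn'
      omega
    rw [← e00]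
    apply sum_congr rfl
    intro n hn
    apply sum_congr rfl
    intro i hi
    rw [if_pos]
    rw [(Nat.mem_divisorsAntidiagonal.1 hi).1]
    exact (mem_Icc.1 hn).2
  rw [e0, h]
  apply sum_congr rfl
  intro j _
  apply sum_congr rfl
  intro k hk
  rw [mem_Ico] at hk
  have hp : 0 < 2 ^ j := by positivity
  apply sum_eq_of_zero
  · intro l hl hl'
    rw [mem_Icc] at hl hl'
    rw [if_neg]
    intro h
    apply hl'
    refine ⟨hl.1, ?_⟩
    rw [Nat.le_div_iff_mul_le hp]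
    calc l * 2 ^ j ≤ l * k := Nat.mul_le_mul_left _ hk.1
      _ = k * l := Nat.mul_comm _ _
      _ ≤ y := h
  · intro l hl hl'
    exfalso
    rw [mem_Icc] at hl hl'
    apply hl'
    refine ⟨hl.1, ?_⟩
    rw [Nat.le_floor_iff (by positivity), le_div_iff₀ (by positivity)]
    have h1 := hl.2
    rw [Nat.le_div_iff_mul_le hp] at h1
    have h2 : ((l * 2 ^ j : ℕ) : ℝ) ≤ y := by exact_mod_cast h1
    push_cast at h2
    linarith

/-- dyadic decomposition and separation of variables -/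
lemma TTs_bound {G : ℝ → ℂ} (hGi : Integrable G) (y m J : ℕ) (hJ : y < 2 ^ J)
    (hG : ∀ n : ℕ, 1 ≤ n → (∫ ξ, G ξ * ex (ξ * Real.log n)) = if n ≤ y then 1 else 0)
    (α β : ℕ → ℂ) {q : ℕ} (χ : DirichletCharacter ℂ q) :
    ‖TTs y m α β χ‖ ≤ ∑ j ∈ range J, ∫ η, ‖G η‖ *
      (‖PP (dy j α) m (2 ^ (j + 1)) η χ‖ * ‖PP β m (y / 2 ^ j) η χ‖) := by
  set g : ℕ → ℕ → ℂ := fun k l => (if k.Coprime m then α k * χ (k : ZMod q) else 0) *
    (if l.Coprime m then β l * χ (l : ZMod q) else 0) with hg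
  have e1 : TTs y m α β χ = ∑ n ∈ Icc 1 y, ∑ i ∈ n.divisorsAntidiagonal, g i.1 i.2 := by
    unfold TTs
    rw [sum_filter]
    apply sum_congr rfl
    intro n _
    split_ifs with hn
    · rw [sum_mul]
      apply sum_congr rfl
      intro i hi
      have hi' := (Nat.mem_divisorsAntidiagonal.1 hi).1
      have hc : (i.1 * i.2).Coprime m := by rw [hi']; exact hn
      have h1 : i.1.Coprime m := Nat.Coprime.coprime_mul_right hc
      have h2 : i.2.Coprime m := Nat.Coprime.coprime_mul_left hc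
      simp only [hg]
      rw [if_pos h1, if_pos h2, ← hi']
      push_cast
      rw [map_mul]
      ring
    · symm
      apply sum_eq_zero
      intro i hi
      have hi' := (Nat.mem_divisorsAntidiagonal.1 hi).1
      simp only [hg]
      by_cases h1 : i.1.Coprime m
      · by_cases h2 : i.2.Coprime m
        · exfalso
          apply hn
          rw [← hi']
          exact Nat.Coprime.mul_left h1 h2
        · rw [if_neg h2]; simp
      · rw [if_neg h1]; simp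
  rw [e1, dyadic_sharp y J hJ g]
  refine (norm_sum_le _ _).trans (sum_le_sum fun j _ => ?_)
  have e2 : ∀ k l : ℕ, (if k * l ≤ y then g k l else 0) =
      (if k.Coprime m then α k * χ (k : ZMod q) else 0) *
      (if l.Coprime m then β l * χ (l : ZMod q) else 0) * (if k * l ≤ y then (1 : ℂ) else 0) := by
    intro k l
    simp only [hg]
    split_ifs <;> simp
  simp only [e2]
  have hS : ∀ k ∈ Ico (2 ^ j) (2 ^ (j + 1)), 1 ≤ k := by
    intro k hk
    rw [mem_Ico] at hk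
    exact Nat.one_le_two_pow.trans hk.1
  refine (sep_boundC hGi (W := fun k l => if k * l ≤ y then (1 : ℂ) else 0)
    (Ico (2 ^ j) (2 ^ (j + 1))) (Icc 1 (y / 2 ^ j)) hS (fun l hl => (mem_Icc.1 hl).1)
    (fun k hk l hl => ?_) _ _).trans (le_of_eq ?_)
  · exact (hG (k * l) (Nat.mul_pos (hS k hk) (mem_Icc.1 hl).1)).symm
  · apply integral_congr_ae
    refine Filter.Eventually.of_forall fun η => ?_
    simp only
    congr 2
    · congr 1
      unfold PP
      have : ∑ k ∈ Icc 1 (2 ^ (j + 1)), tw (dy j α) m η k * χ (k : ZMod q) =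
          ∑ k ∈ Ico (2 ^ j) (2 ^ (j + 1)), tw (dy j α) m η k * χ (k : ZMod q) := by
        apply sum_eq_of_zero
        · intro k _ hk'
          unfold tw dy
          rw [if_neg hk']
          simp
        · intro k hk hk'
          exfalso
          rw [mem_Ico] at hk
          rw [mem_Icc] at hk'
          exact hk' ⟨Nat.one_le_two_pow.trans hk.1, hk.2.le⟩
      rw [this]
      apply sum_congr rfl
      intro k hk
      unfold tw dy
      rw [if_pos hk]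
      split_ifs
      · ring
      · simp
    · congr 1
      unfold PP
      apply sum_congr rfl
      intro k _
      unfold tw
      split_ifs
      · ring
      · simp

/-- double integral separation without weights -/
lemma int2' {ι : Type*} (S : Finset ι) (a b : ι → ℝ) (u v : ι → ℝ → ℝ) (F G : ℝ → ℝ)
    (hF : Integrable F) (hF0 : ∀ ξ, 0 ≤ F ξ)
    (hGi : Integrable G) (hG0 : ∀ η, 0 ≤ G η)
    (hu : ∀ i ∈ S, Continuous (u i)) (hu0 : ∀ i ∈ S, ∀ ξ, 0 ≤ u i ξ)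
    (hub : ∀ i ∈ S, ∃ C, ∀ ξ, u i ξ ≤ C)
    (hv : ∀ i ∈ S, Continuous (v i)) (hv0 : ∀ i ∈ S, ∀ ξ, 0 ≤ v i ξ)
    (hvb : ∀ i ∈ S, ∃ C, ∀ ξ, v i ξ ≤ C)
    (ha : ∀ i ∈ S, a i ≤ ∫ ξ, F ξ * u i ξ) (hb0 : ∀ i ∈ S, 0 ≤ b i)
    (hb : ∀ i ∈ S, b i ≤ ∫ η, G η * v i η)
    (K : ℝ) (hK : ∀ ξ η, ∑ i ∈ S, u i ξ * v i η ≤ K) :
    ∑ i ∈ S, a i * b i ≤ K * (∫ ξ, F ξ) * ∫ η, G η := by
  have hintu : ∀ i ∈ S, Integrable (fun ξ => F ξ * u i ξ) := by
    intro i hi
    obtain ⟨C, hC⟩ := hub i hi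
    refine Integrable.mono' (hF.mul_const C) (hF.aestronglyMeasurable.mul (hu i hi).aestronglyMeasurable) (Filter.Eventually.of_forall fun ξ => ?_)
    rw [Real.norm_eq_abs, abs_mul, abs_of_nonneg (hF0 ξ), abs_of_nonneg (hu0 i hi ξ)]
    exact mul_le_mul_of_nonneg_left (hC ξ) (hF0 ξ)
  have hintv : ∀ i ∈ S, Integrable (fun ξ => G ξ * v i ξ) := by
    intro i hi
    obtain ⟨C, hC⟩ := hvb i hi
    refine Integrable.mono' (hGi.mul_const C) (hGi.aestronglyMeasurable.mul (hv i hi).aestronglyMeasurable) (Filter.Eventually.of_forall fun ξ => ?_)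
    rw [Real.norm_eq_abs, abs_mul, abs_of_nonneg (hG0 ξ), abs_of_nonneg (hv0 i hi ξ)]
    exact mul_le_mul_of_nonneg_left (hC ξ) (hG0 ξ)
  have step1 : ∑ i ∈ S, a i * b i ≤ ∑ i ∈ S, (∫ ξ, F ξ * u i ξ) * (∫ η, G η * v i η) := by
    apply sum_le_sum
    intro i hi
    exact mul_le_mul (ha i hi) (hb i hi) (hb0 i hi)
      (integral_nonneg fun ξ => mul_nonneg (hF0 ξ) (hu0 i hi ξ))
  have step2 : ∀ ξ, ∑ i ∈ S, u i ξ * (∫ η, G η * v i η) ≤ K * ∫ η, G η := by
    intro ξ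
    have e1 : ∑ i ∈ S, u i ξ * (∫ η, G η * v i η) = ∫ η, ∑ i ∈ S, u i ξ * (G η * v i η) := by
      rw [integral_finsetSum _ (fun i hi => (hintv i hi).const_mul _)]
      exact sum_congr rfl fun i _ => (integral_const_mul _ _).symm
    rw [e1, ← integral_const_mul]
    apply integral_mono
    · exact integrable_finsetSum _ (fun i hi => (hintv i hi).const_mul _)
    · exact hGi.const_mul K
    · intro η
      simp only
      calc ∑ i ∈ S, u i ξ * (G η * v i η) = G η * ∑ i ∈ S, u i ξ * v i η := by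
            rw [mul_sum]; exact sum_congr rfl fun i _ => by ring
        _ ≤ G η * K := mul_le_mul_of_nonneg_left (hK ξ η) (hG0 η)
        _ = K * G η := by ring
  calc ∑ i ∈ S, a i * b i ≤ ∑ i ∈ S, (∫ ξ, F ξ * u i ξ) * (∫ η, G η * v i η) := step1
    _ = ∫ ξ, ∑ i ∈ S, (F ξ * u i ξ) * (∫ η, G η * v i η) := by
        rw [integral_finsetSum _ (fun i hi => (hintu i hi).mul_const _)]
        exact sum_congr rfl fun i _ => (integral_mul_const _ _).symm
    _ ≤ ∫ ξ, F ξ * (K * ∫ η, G η) := by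
        apply integral_mono
        · exact integrable_finsetSum _ (fun i hi => (hintu i hi).mul_const _)
        · exact hF.mul_const _
        · intro ξ
          simp only
          calc ∑ i ∈ S, (F ξ * u i ξ) * (∫ η, G η * v i η)
              = F ξ * ∑ i ∈ S, u i ξ * (∫ η, G η * v i η) := by
                rw [mul_sum]; exact sum_congr rfl fun i _ => by ring
            _ ≤ _ := mul_le_mul_of_nonneg_left (step2 ξ) (hF0 ξ)
    _ = _ := by
        rw [integral_mul_const]; ring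

/-- the bilinear estimate, given the sharp separation -/
theorem TTs_sum_of (hsep : ∃ C : ℝ, 0 < C ∧ ∀ y : ℕ, 1 ≤ y → ∃ G : ℝ → ℂ, Continuous G ∧
    Integrable G ∧ (∫ ξ, ‖G ξ‖) ≤ C * (1 + Real.log y) ∧
    ∀ n : ℕ, 1 ≤ n → (∫ ξ, G ξ * ex (ξ * Real.log n)) = if n ≤ y then 1 else 0) :
    ∃ C : ℝ, 0 < C ∧ ∀ (B M : ℝ) (l : ℝ → ℂ), CTest B M l → ∀ Y : ℝ, 0 < Y →
    ∀ D A N m J y : ℕ, 1 ≤ D → 1 ≤ m → 1 ≤ y → y < 2 ^ J →
    Real.exp B * (2 * D * m) * Y < A + 1 → A ≤ N → ∀ (α β : ℕ → ℂ) (Kb : ℝ), 0 ≤ Kb →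
    (∀ j ∈ range J, ∀ ξ η : ℝ, ∑ p ∈ PC D, ‖PP (fun _ => 1) m A ξ p.2‖ *
      (‖PP (dy j α) m (2 ^ (j + 1)) η p.2‖ * ‖PP β m (y / 2 ^ j) η p.2‖) ≤ Kb) →
    ∑ p ∈ PC D, Real.sqrt p.1 * (‖KKcm l Y N m p.2‖ * ‖TTs y m α β p.2‖) ≤
      Real.sqrt (2 * D) * (J * (Kb * M * (C * (1 + Real.log y)))) := by
  obtain ⟨C, hC, hs⟩ := hsep
  refine ⟨C, hC, ?_⟩
  intro B M l hl Y hY D A N m J y hD hm hy hJ hA hAN α β Kb hKb0 hKb
  obtain ⟨G, hGc, hGi, hGn, hG⟩ := hs y hy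
  obtain ⟨F, hFc, hFi, hFn, hF⟩ := hl.sep
  have hly : 0 ≤ Real.log y := Real.log_natCast_nonneg y
  have hbl : ∀ j ∈ range J, ∑ p ∈ PC D, ‖KKcm l Y N m p.2‖ * (∫ η, ‖G η‖ *
      (‖PP (dy j α) m (2 ^ (j + 1)) η p.2‖ * ‖PP β m (y / 2 ^ j) η p.2‖)) ≤
      Kb * M * (C * (1 + Real.log y)) := by
    intro j hj
    refine (int2' (PC D) (fun p => ‖KKcm l Y N m p.2‖) (fun p => ∫ η, ‖G η‖ *
      (‖PP (dy j α) m (2 ^ (j + 1)) η p.2‖ * ‖PP β m (y / 2 ^ j) η p.2‖))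
      (fun p ξ => ‖PP (fun _ => 1) m A ξ p.2‖)
      (fun p η => ‖PP (dy j α) m (2 ^ (j + 1)) η p.2‖ *
        ‖PP β m (y / 2 ^ j) η p.2‖) (fun ξ => ‖F ξ‖) (fun η => ‖G η‖)
      hFi.norm (fun _ => norm_nonneg _) hGi.norm (fun _ => norm_nonneg _)
      (fun p _ => (PP_cont _ _ _ _).norm) (fun _ _ _ => norm_nonneg _)
      (fun p _ => PP_bdd _ _ _ _) (fun p _ => (PP_cont _ _ _ _).norm.mul (PP_cont _ _ _ _).norm)
      (fun _ _ _ => by positivity) (fun p _ => ?_) (fun p hp => ?_) (fun p _ => ?_)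
      (fun p _ => le_rfl) Kb (hKb j hj)).trans ?_
    · obtain ⟨C1, h1⟩ := PP_bdd (dy j α) m (2 ^ (j + 1)) p.2
      obtain ⟨C2, h2⟩ := PP_bdd β m (y / 2 ^ j) p.2
      exact ⟨C1 * C2, fun ξ => mul_le_mul (h1 ξ) (h2 ξ) (norm_nonneg _)
        ((norm_nonneg _).trans (h1 ξ))⟩
    · obtain ⟨hq1, hq2, _⟩ := mem_PC hp
      refine KKcm_sep hFi hF hl Y hY N m p.1 A (by omega) hm ?_ hAN p.2
      refine lt_of_le_of_lt ?_ hA
      have : (p.1 : ℝ) ≤ 2 * D := by exact_mod_cast hq2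
      have hm' : (0 : ℝ) < m := by exact_mod_cast hm
      gcongr
    · exact integral_nonneg fun η => by positivity
    · have hF0 : 0 ≤ ∫ ξ, ‖F ξ‖ := integral_nonneg fun _ => norm_nonneg _
      have hG0 : 0 ≤ ∫ ξ, ‖G ξ‖ := integral_nonneg fun _ => norm_nonneg _
      have hM : 0 ≤ M := hF0.trans hFn
      gcongr
  calc ∑ p ∈ PC D, Real.sqrt p.1 * (‖KKcm l Y N m p.2‖ * ‖TTs y m α β p.2‖)
      ≤ ∑ p ∈ PC D, Real.sqrt (2 * D) * (‖KKcm l Y N m p.2‖ * ∑ j ∈ range J, ∫ η, ‖G η‖ *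
      (‖PP (dy j α) m (2 ^ (j + 1)) η p.2‖ * ‖PP β m (y / 2 ^ j) η p.2‖)) := by
        apply sum_le_sum
        intro p hp
        obtain ⟨hq1, hq2, _⟩ := mem_PC hp
        have h1 : Real.sqrt p.1 ≤ Real.sqrt (2 * D) := by
          apply Real.sqrt_le_sqrt
          exact_mod_cast hq2
        have h2 := TTs_bound hGi y m J hJ hG α β p.2
        gcongr
    _ = Real.sqrt (2 * D) * ∑ j ∈ range J, ∑ p ∈ PC D, ‖KKcm l Y N m p.2‖ * (∫ η, ‖G η‖ *
      (‖PP (dy j α) m (2 ^ (j + 1)) η p.2‖ * ‖PP β m (y / 2 ^ j) η p.2‖)) := by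
        rw [← mul_sum]
        congr 1
        rw [sum_comm]
        apply sum_congr rfl
        intro p _
        rw [mul_sum]
    _ ≤ Real.sqrt (2 * D) * ∑ j ∈ range J, (Kb * M * (C * (1 + Real.log y))) := by
        apply mul_le_mul_of_nonneg_left (sum_le_sum hbl) (Real.sqrt_nonneg _)
    _ = _ := by rw [sum_const, card_range, nsmul_eq_mul]

end TTsL

/-- bilinear forms with sharp cut-off -/
theorem TTs_sum : ∃ C : ℝ, 0 < C ∧ ∀ (B M : ℝ) (l : ℝ → ℂ), CTest B M l → ∀ Y : ℝ, 0 < Y →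
    ∀ D A N m J y : ℕ, 1 ≤ D → 1 ≤ m → 1 ≤ y → y < 2 ^ J →
    Real.exp B * (2 * D * m) * Y < A + 1 → A ≤ N → ∀ (α β : ℕ → ℂ) (Kb : ℝ), 0 ≤ Kb →
    (∀ j ∈ range J, ∀ ξ η : ℝ, ∑ p ∈ PC D, ‖PP (fun _ => 1) m A ξ p.2‖ *
      (‖PP (dy j α) m (2 ^ (j + 1)) η p.2‖ * ‖PP β m (y / 2 ^ j) η p.2‖) ≤ Kb) →
    ∑ p ∈ PC D, Real.sqrt p.1 * (‖KKcm l Y N m p.2‖ * ‖TTs y m α β p.2‖) ≤
      Real.sqrt (2 * D) * (J * (Kb * M * (C * (1 + Real.log y)))) :=
  TTsL.TTs_sum_of sep_sharp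

end H336V
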